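import Pool.Agent.RootConj.KM2

set_option autoImplicit false

/-!
# Kac-Moody algebras: real and imaginary roots
-/

namespace Pool.Agent.RootConj

universe u v

/-- Symmetrizable generalized Cartan matrices. -/
structure SymGCM {ι : Type} (A : ι → ι → ℤ) (d : ι → ℕ) : Prop where
  diag : ∀ i, A i i = 2
  off : ∀ i j, i ≠ j → A i j ≤ 0
  zero : ∀ i j, A i j = 0 → A j i = 0
  pos : ∀ i, 0 < d i
  sym : ∀ i j, (d i : ℤ) * A i j = d j * A j i

theorem symGCM_cartan {ι : Type} [DecidableEq ι] {B : ι → ι → ℤ} {d : ι → ℕ} (hB : SkewSym B d) :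
    SymGCM (cartan B) d where
  diag := by intro i; simp [cartan]
  off := by
    intro i j h
    simp [cartan, h]
  zero := by
    intro i j hij
    by_cases h : i = j
    · subst h; exact hij
    have h' : j ≠ i := fun e => h e.symm
    have h1 : B i j = 0 := by simpa [cartan, h] using hij
    have h2 := hB.skew i j
    rw [h1, mul_zero] at h2
    have h3 : (d j : ℤ) ≠ 0 := by
      have := hB.pos j; positivity
    have h4 : B j i = 0 := by
      have h5 : (d j : ℤ) * B j i = 0 := by linarith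
      exact (mul_eq_zero.mp h5).resolve_left h3
    simp [cartan, h', h4]
  pos := hB.pos
  sym := by
    intro i j
    by_cases h : i = j
    · subst h; rfl
    have h' : j ≠ i := fun e => h e.symm
    have h1 := congrArg abs (hB.skew i j)
    rw [abs_neg, abs_mul, abs_mul, Nat.abs_cast, Nat.abs_cast] at h1
    simp only [cartan, h, h', if_false]
    linarith

namespace KacMoody

variable {K : Type u} [Field K] {ι : Type} [Fintype ι] [DecidableEq ι] {A : ι → ι → ℤ}
  {𝔤 : Type v} [LieRing 𝔤] [LieAlgebra K 𝔤] (M : KacMoody K A 𝔤)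

/-- The root space is nonzero. -/
def NZ (c : ι → ℤ) : Prop := ∃ x ∈ M.wt c, x ≠ 0

theorem swap_NZ (c : ι → ℤ) : M.swap.NZ c ↔ M.NZ (-c) := by
  unfold NZ; rw [swap_wt]

theorem pow_f_mem (i : ι) (n : ℕ) {c : ι → ℤ} {x : 𝔤} (hx : x ∈ M.wt c) :
    ((LieModule.toEnd K 𝔤 𝔤 (M.f i)) ^ n) x ∈ M.wt (c - n • Pi.single i 1) := by
  induction n with
  | zero => simpa using hx
  | succ n ih =>
    rw [pow_succ', Module.End.mul_apply, LieModule.toEnd_apply_apply]
    have h1 := M.lie_mem_wt (M.f_mem_wt i) ih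
    have h2 : (-Pi.single i 1 + (c - n • Pi.single i 1) : ι → ℤ) =
        c - (n + 1) • Pi.single i 1 := by
      rw [add_smul, one_smul]; abel
    rwa [h2] at h1

theorem pow_e_mem (i : ι) (n : ℕ) {c : ι → ℤ} {x : 𝔤} (hx : x ∈ M.wt c) :
    ((LieModule.toEnd K 𝔤 𝔤 (M.e i)) ^ n) x ∈ M.wt (c + n • Pi.single i 1) := by
  have h := M.swap.pow_f_mem i n (c := -c) (x := x) (by rw [swap_wt, neg_neg]; exact hx)
  rw [swap_wt] at h
  have h2 : -(-c - n • Pi.single i 1 : ι → ℤ) = c + n • Pi.single i 1 := by abel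
  rwa [h2] at h

theorem string_down [CharZero K] {d : ι → ℕ} (hA : SymGCM A d) {c : ι → ℤ} (hc : M.NZ c) (i : ι)
    (s : ℕ) (hs : (s : ℤ) ≤ ∑ j, A i j * c j) : M.NZ (c - s • Pi.single i 1) := by
  classical
  obtain ⟨v, hv, hv0⟩ := hc
  set m : ℤ := ∑ j, A i j * c j with hm
  have hne : ∃ n : ℕ, ((LieModule.toEnd K 𝔤 𝔤 (M.e i)) ^ n) v = 0 :=
    M.swap.nilp_f hA.diag hA.off hA.zero i v
  obtain ⟨k, hk1, hk2⟩ : ∃ k : ℕ, ((LieModule.toEnd K 𝔤 𝔤 (M.e i)) ^ k) v ≠ 0 ∧
      ((LieModule.toEnd K 𝔤 𝔤 (M.e i)) ^ (k + 1)) v = 0 := by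
    have h0 : Nat.find hne ≠ 0 := by
      intro h
      have := Nat.find_spec hne
      rw [h] at this
      exact hv0 (by simpa using this)
    obtain ⟨k, hk⟩ := Nat.exists_eq_succ_of_ne_zero h0
    refine ⟨k, Nat.find_min hne (by omega), ?_⟩
    have := Nat.find_spec hne
    rwa [hk] at this
  set u := ((LieModule.toEnd K 𝔤 𝔤 (M.e i)) ^ k) v with hu
  have hun := M.pow_e_mem i k hv
  rw [← hu] at hun
  have hprim : (M.sl2 hA.diag i).HasPrimitiveVectorWith u ((m + 2 * k : ℤ) : K) := by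
    refine ⟨hk1, ?_, ?_⟩
    · rw [hun (M.coroot i), PreKacMoody.wtf_coroot]
      congr 2
      have h1 : ∑ j, A i j * (c + k • Pi.single i 1 : ι → ℤ) j = m + 2 * k := by
        simp only [Pi.add_apply, mul_add, Finset.sum_add_distrib, Pi.smul_apply, hm]
        congr 1
        rw [Finset.sum_eq_single i]
        · rw [hA.diag]; simp
        · intro j _ hj; simp [hj]
        · intro h; exact absurd (Finset.mem_univ i) h
      exact h1
    · rw [pow_succ', Module.End.mul_apply, LieModule.toEnd_apply_apply] at hk2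
      exact hk2
  have hnf := M.nilp_f hA.diag hA.off hA.zero i u
  obtain ⟨N, hN1, hN2⟩ : ∃ N : ℕ, ((LieModule.toEnd K 𝔤 𝔤 (M.f i)) ^ N) u ≠ 0 ∧
      ((LieModule.toEnd K 𝔤 𝔤 (M.f i)) ^ (N + 1)) u = 0 := by
    have h0 : Nat.find hnf ≠ 0 := by
      intro h
      have := Nat.find_spec hnf
      rw [h] at this
      exact hk1 (by simpa using this)
    obtain ⟨k, hk⟩ := Nat.exists_eq_succ_of_ne_zero h0
    refine ⟨k, Nat.find_min hnf (by omega), ?_⟩
    have := Nat.find_spec hnf
    rwa [hk] at this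
  have hμN : ((m + 2 * k : ℤ) : K) = N := by
    have h1 := hprim.lie_e_pow_succ_toEnd_f N
    rw [hN2, lie_zero, eq_comm, smul_eq_zero_iff_left hN1, mul_eq_zero, sub_eq_zero] at h1
    exact h1.resolve_left (Nat.cast_add_one_ne_zero N)
  have hμN' : m + 2 * k = N := by exact_mod_cast hμN
  refine ⟨((LieModule.toEnd K 𝔤 𝔤 (M.f i)) ^ (k + s)) u, ?_, ?_⟩
  · have h1 := M.pow_f_mem i (k + s) hun
    have h2 : (c + k • Pi.single i 1 - (k + s) • Pi.single i 1 : ι → ℤ) =
        c - s • Pi.single i 1 := by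
      rw [add_smul]; abel
    rwa [h2] at h1
  · exact hprim.pow_toEnd_f_ne_zero_of_eq_nat hμN (by omega)

theorem string_up [CharZero K] {d : ι → ℕ} (hA : SymGCM A d) {c : ι → ℤ} (hc : M.NZ c) (i : ι)
    (s : ℕ) (hs : (s : ℤ) ≤ -∑ j, A i j * c j) : M.NZ (c + s • Pi.single i 1) := by
  have h := M.swap.string_down hA (c := -c) (by rw [swap_NZ, neg_neg]; exact hc) i s (by
    have : ∑ j, A i j * (-c) j = -∑ j, A i j * c j := by
      rw [← Finset.sum_neg_distrib]
      exact Finset.sum_congr rfl fun j _ => by simp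
    rwa [this])
  rw [swap_NZ] at h
  have h2 : -(-c - s • Pi.single i 1 : ι → ℤ) = c + s • Pi.single i 1 := by abel
  rwa [h2] at h

theorem srefl_eq (A : ι → ι → ℤ) (k : ι) (c : ι → ℤ) :
    srefl A k c = c - (∑ j, A k j * c j) • Pi.single k 1 := by
  funext i
  by_cases h : i = k
  · subst h; simp [srefl]
  · simp [srefl, h]

theorem refl_NZ [CharZero K] {d : ι → ℕ} (hA : SymGCM A d) {c : ι → ℤ} (hc : M.NZ c) (k : ι) :
    M.NZ (srefl A k c) := by
  rw [srefl_eq]
  rcases le_total 0 (∑ j, A k j * c j) with h | h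
  · have h1 := M.string_down hA hc k (∑ j, A k j * c j).toNat (by rw [Int.toNat_of_nonneg h])
    rw [← natCast_zsmul, Int.toNat_of_nonneg h] at h1
    exact h1
  · have h' : 0 ≤ -∑ j, A k j * c j := by linarith
    have h1 := M.string_up hA hc k (-∑ j, A k j * c j).toNat (by rw [Int.toNat_of_nonneg h'])
    rw [← natCast_zsmul, Int.toNat_of_nonneg h', neg_smul, ← sub_eq_add_neg] at h1
    exact h1

theorem srefl_ne {d : ι → ℕ} (hA : SymGCM A d) {c : ι → ℤ} (hc : c ≠ 0) (k : ι) :
    srefl A k c ≠ 0 := by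
  intro h
  apply hc
  have h1 : ∀ i, i ≠ k → c i = 0 := by
    intro i hi
    have := congrFun h i
    simpa [srefl, hi] using this
  have h2 : ∑ j, A k j * c j = 2 * c k := by
    rw [Finset.sum_eq_single k]
    · rw [hA.diag]
    · intro j _ hj; rw [h1 j hj, mul_zero]
    · intro h; exact absurd (Finset.mem_univ k) h
  funext i
  by_cases hi : i = k
  · subst hi
    have := congrFun h i
    simp only [srefl, Function.update_self, h2, Pi.zero_apply] at this
    simp only [Pi.zero_apply]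
    linarith
  · exact h1 i hi

/-- The fundamental region consists of roots. -/
theorem fund_NZ [CharZero K] {d : ι → ℕ} (hA : SymGCM A d) {α : ι → ℤ} (hα : Fund A α) :
    M.NZ α := by
  classical
  obtain ⟨hα0, hαn, hαA, hconn⟩ := hα
  -- an element of maximal height
  let Ω : Finset (ι → ℤ) := (Finset.Icc 0 α).filter fun γ => γ ≠ 0 ∧ M.NZ γ
  have hΩ : Ω.Nonempty := by
    obtain ⟨i, hi⟩ := Function.ne_iff.mp hα0
    have hi' : 0 < α i := lt_of_le_of_ne (hαn i) fun h => hi h.symm
    refine ⟨Pi.single i 1, ?_⟩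
    simp only [Ω, Finset.mem_filter, Finset.mem_Icc]
    refine ⟨⟨PreKacMoody.single_nonneg i, ?_⟩, ?_, ⟨M.e i, M.e_mem_wt i, M.e_ne i⟩⟩
    · intro j
      by_cases hj : j = i
      · subst hj; simp; omega
      · simp [hj, hαn j]
    · intro h
      have := congrFun h i
      simp at this
  obtain ⟨β, hβΩ, hβmax⟩ := Finset.exists_max_image Ω (fun γ => ∑ i, γ i) hΩ
  simp only [Ω, Finset.mem_filter, Finset.mem_Icc] at hβΩ
  obtain ⟨⟨hβn0, hβα0⟩, hβ0, hβNZ⟩ := hβΩ
  have hβn : ∀ i, 0 ≤ β i := fun i => hβn0 i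
  have hβα : ∀ i, β i ≤ α i := fun i => hβα0 i
  have hmax : ∀ i, β i < α i → ¬ M.NZ (β + Pi.single i 1) := by
    intro i hi hNZ
    have h1 : β + Pi.single i 1 ∈ Ω := by
      simp only [Ω, Finset.mem_filter, Finset.mem_Icc]
      refine ⟨⟨add_nonneg hβn0 (PreKacMoody.single_nonneg i), ?_⟩, ?_, hNZ⟩
      · intro j
        by_cases hj : j = i
        · subst hj; simp; omega
        · simp [hj]; exact hβα j
      · intro h
        have h2 := congrFun h i
        have h3 := hβn i
        simp only [Pi.add_apply, Pi.single_eq_same, Pi.zero_apply] at h2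
        omega
    have h2 := hβmax _ h1
    simp only [Pi.add_apply, Finset.sum_add_distrib, Finset.sum_pi_single',
      Finset.mem_univ, if_true] at h2
    omega
  have hup : ∀ i, β i < α i → 0 ≤ ∑ t, A i t * β t := by
    intro i hi
    by_contra hcon
    push Not at hcon
    apply hmax i hi
    have := M.string_up hA hβNZ i 1 (by push_cast; omega)
    rwa [one_smul] at this
  -- full support
  have hsupp : ∀ i, α i ≠ 0 → β i ≠ 0 := by
    by_contra hcon
    push Not at hcon
    obtain ⟨i0, hi0, hi0'⟩ := hcon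
    obtain ⟨j0, hj0⟩ := Function.ne_iff.mp hβ0
    have hj0 : β j0 ≠ 0 := hj0
    have hαj0 : α j0 ≠ 0 := by
      have h1 := hβn j0
      have h2 := hβα j0
      omega
    obtain ⟨i, hi, j, hj, hαi, hαj, hAij⟩ := hconn {i | β i ≠ 0} ⟨j0, hj0, hαj0⟩
      ⟨i0, fun h => h hi0', hi0⟩
    have hβi : β i ≠ 0 := hi
    have hβj : β j = 0 := by
      by_contra h; exact hj h
    have hij : j ≠ i := by
      rintro rfl; exact hβi hβj
    have hAji : A j i < 0 := by
      refine lt_of_le_of_ne (hA.off j i hij) fun h => hAij (hA.zero j i h)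
    have hlt : β j < α j := by
      have := hαn j
      omega
    have h1 := hup j hlt
    have h2 : ∑ t, A j t * β t < 0 := by
      apply Finset.sum_neg' (s := Finset.univ)
      · intro t _
        by_cases ht : t = j
        · subst ht; rw [hβj, mul_zero]
        · exact mul_nonpos_of_nonpos_of_nonneg (hA.off j t fun e => ht e.symm) (hβn t)
      · refine ⟨i, Finset.mem_univ i, ?_⟩
        have : 0 < β i := lt_of_le_of_ne (hβn i) fun h => hβi h.symm
        exact mul_neg_of_neg_of_pos hAji this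
    linarith
  by_cases hαβ : β = α
  · rw [← hαβ]; exact hβNZ
  exfalso
  -- the linear algebra step
  let Ms : Finset ι := Finset.univ.filter fun i => β i < α i
  have hMs : ∀ i, i ∈ Ms ↔ β i < α i := fun i => by simp [Ms]
  let β' : ι → ℤ := fun i => if i ∈ Ms then β i else 0
  have hAβ' : ∀ i, ∑ t, A i t * β t = ∑ t, A i t * β' t + ∑ t, (if t ∈ Ms then 0 else A i t * β t) := by
    intro i
    rw [← Finset.sum_add_distrib]
    refine Finset.sum_congr rfl fun t _ => ?_
    by_cases ht : t ∈ Ms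
    · simp [β', ht]
    · simp [β', ht]
  have hrest : ∀ i ∈ Ms, ∀ t, (if t ∈ Ms then 0 else A i t * β t) ≤ 0 := by
    intro i hi t
    by_cases ht : t ∈ Ms
    · simp [ht]
    · rw [if_neg ht]
      have hit : i ≠ t := by rintro rfl; exact ht hi
      exact mul_nonpos_of_nonpos_of_nonneg (hA.off i t hit) (hβn t)
  have hpos' : ∀ i ∈ Ms, 0 ≤ ∑ t, A i t * β' t := by
    intro i hi
    have h1 := hup i ((hMs i).mp hi)
    rw [hAβ'] at h1
    have h2 := Finset.sum_nonpos fun t (_ : t ∈ Finset.univ) => hrest i hi t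
    linarith
  have hγsum : ∀ j ∈ Ms, ∑ i, A j i * (α i - β i) ≤ 0 := by
    intro j hj
    have h1 : ∑ i, A j i * (α i - β i) = ∑ i, A j i * α i - ∑ i, A j i * β i := by
      rw [← Finset.sum_sub_distrib]
      exact Finset.sum_congr rfl fun i _ => by ring
    rw [h1]
    have h2 := hαA j
    have h3 := hup j ((hMs j).mp hj)
    linarith
  have hsym : ∑ i, (d i : ℤ) * (α i - β i) * (∑ t, A i t * β' t) =
      ∑ j, (d j : ℤ) * β' j * ∑ i, A j i * (α i - β i) := by
    simp only [Finset.mul_sum]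
    rw [Finset.sum_comm]
    refine Finset.sum_congr rfl fun j _ => Finset.sum_congr rfl fun i _ => ?_
    have := hA.sym i j
    calc (d i : ℤ) * (α i - β i) * (A i j * β' j) = ((d i : ℤ) * A i j) * ((α i - β i) * β' j) := by
          ring
      _ = (d j * A j i) * ((α i - β i) * β' j) := by rw [this]
      _ = _ := by ring
  have hγn : ∀ i, 0 ≤ α i - β i := fun i => sub_nonneg.mpr (hβα i)
  have hterm : ∀ i, 0 ≤ (d i : ℤ) * (α i - β i) * (∑ t, A i t * β' t) := by
    intro i
    by_cases hi : i ∈ Ms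
    · exact mul_nonneg (mul_nonneg (by positivity) (hγn i)) (hpos' i hi)
    · have h1 : α i - β i = 0 := by
        have h2 := hβα i
        have h3 : ¬ β i < α i := fun h => hi ((hMs i).mpr h)
        omega
      rw [h1]; simp
  have hle : ∑ i, (d i : ℤ) * (α i - β i) * (∑ t, A i t * β' t) ≤ 0 := by
    rw [hsym]
    refine Finset.sum_nonpos fun j _ => ?_
    by_cases hj : j ∈ Ms
    · refine mul_nonpos_of_nonneg_of_nonpos ?_ (hγsum j hj)
      have : 0 ≤ β' j := by simp only [β', hj, if_true]; exact hβn j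
      positivity
    · simp [β', hj]
  have hzero : ∀ i, (d i : ℤ) * (α i - β i) * (∑ t, A i t * β' t) = 0 := by
    have h1 : ∑ i, (d i : ℤ) * (α i - β i) * (∑ t, A i t * β' t) = 0 :=
      le_antisymm hle (Finset.sum_nonneg fun i _ => hterm i)
    intro i
    exact (Finset.sum_eq_zero_iff_of_nonneg fun i _ => hterm i).mp h1 i (Finset.mem_univ i)
  have hAβ'0 : ∀ i ∈ Ms, ∑ t, A i t * β' t = 0 := by
    intro i hi
    rcases mul_eq_zero.mp (hzero i) with h | h
    · exfalso
      rcases mul_eq_zero.mp h with h2 | h2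
      · have := hA.pos i
        have h3 : d i = 0 := by exact_mod_cast h2
        omega
      · have := (hMs i).mp hi
        omega
    · exact h
  have hAβ0 : ∀ i ∈ Ms, ∑ t, A i t * β t = 0 ∧ ∀ t, t ∉ Ms → A i t * β t = 0 := by
    intro i hi
    have h1 := hup i ((hMs i).mp hi)
    rw [hAβ', hAβ'0 i hi, zero_add] at h1
    have h2 := Finset.sum_nonpos fun t (_ : t ∈ Finset.univ) => hrest i hi t
    have h3 : ∑ t, (if t ∈ Ms then 0 else A i t * β t) = 0 := le_antisymm h2 h1
    refine ⟨by rw [hAβ', hAβ'0 i hi, h3, zero_add], ?_⟩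
    intro t ht
    have h4 : ∀ t ∈ Finset.univ, 0 ≤ -(if t ∈ Ms then 0 else A i t * β t) :=
      fun t _ => neg_nonneg.mpr (hrest i hi t)
    have h5 : ∑ t, -(if t ∈ Ms then 0 else A i t * β t) = 0 := by
      rw [Finset.sum_neg_distrib, h3, neg_zero]
    have h6 := (Finset.sum_eq_zero_iff_of_nonneg h4).mp h5 t (Finset.mem_univ t)
    rw [if_neg ht] at h6
    exact neg_eq_zero.mp h6
  have hMne : ∃ i, i ∈ Ms := by
    by_contra hcon
    push Not at hcon
    apply hαβ
    funext i
    have h1 := hβα i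
    have h2 : ¬ β i < α i := fun h => hcon i ((hMs i).mpr h)
    omega
  have hall : ∀ t, α t ≠ 0 → t ∈ Ms := by
    by_contra hcon
    push Not at hcon
    obtain ⟨t0, ht0, ht0'⟩ := hcon
    obtain ⟨i0, hi0⟩ := hMne
    have hαi0 : α i0 ≠ 0 := by
      have h1 := (hMs i0).mp hi0
      have h2 := hβn i0
      omega
    obtain ⟨i, hi, j, hj, hαi, hαj, hAij⟩ := hconn {i | i ∈ Ms} ⟨i0, hi0, hαi0⟩
      ⟨t0, ht0', ht0⟩
    rcases mul_eq_zero.mp ((hAβ0 i hi).2 j hj) with h | h
    · exact hAij h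
    · exact hsupp j hαj h
  -- the element commutes with all the `f_i`
  obtain ⟨v, hv, hv0⟩ := hβNZ
  apply hv0
  refine M.eq_zero_of_lie_f hβn0 hβ0 hv fun i => ?_
  by_contra hne
  have hw : ⁅M.f i, v⁆ ∈ M.wt (-Pi.single i 1 + β) := M.lie_mem_wt (M.f_mem_wt i) hv
  by_cases hαi : α i = 0
  · have hβi : β i = 0 := by
      have h1 := hβn i
      have h2 := hβα i
      omega
    rcases M.nonneg_or_nonpos hw hne with h | h
    · have := h i
      simp [hβi] at this
    · obtain ⟨j0, hj0⟩ := Function.ne_iff.mp hβ0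
      have hj0 : β j0 ≠ 0 := hj0
      have hj0i : j0 ≠ i := by rintro rfl; exact hj0 hβi
      have h1 := h j0
      have h2 := hβn j0
      simp only [Pi.add_apply, Pi.neg_apply, Pi.single_eq_of_ne hj0i, neg_zero, zero_add,
        Pi.zero_apply] at h1
      omega
  · have hi : i ∈ Ms := hall i hαi
    apply hmax i ((hMs i).mp hi)
    have h1 : ∑ j, A i j * (-Pi.single i 1 + β : ι → ℤ) j = -2 := by
      have h2 : ∑ j, A i j * (-Pi.single i 1 + β : ι → ℤ) j =
          -(∑ j, A i j * (Pi.single i 1 : ι → ℤ) j) + ∑ j, A i j * β j := by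
        rw [← Finset.sum_neg_distrib, ← Finset.sum_add_distrib]
        refine Finset.sum_congr rfl fun j _ => ?_
        simp only [Pi.add_apply, Pi.neg_apply]
        ring
      rw [h2, (hAβ0 i hi).1, add_zero, Finset.sum_eq_single i]
      · rw [hA.diag]; simp
      · intro j _ hj; simp [hj]
      · intro h; exact absurd (Finset.mem_univ i) h
    have h3 := M.string_up hA (c := -Pi.single i 1 + β) ⟨_, hw, hne⟩ i 2 (by rw [h1]; norm_num)
    have h4 : (-Pi.single i 1 + β + 2 • Pi.single i 1 : ι → ℤ) = β + Pi.single i 1 := by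
      rw [two_smul]; abel
    rwa [h4] at h3

theorem worbit_NZ [CharZero K] {d : ι → ℕ} (hA : SymGCM A d) {β α : ι → ℤ} (hβ : M.NZ β)
    (hβ0 : β ≠ 0) (h : WOrbit A β α) : M.NZ α ∧ α ≠ 0 := by
  induction h with
  | base => exact ⟨hβ, hβ0⟩
  | step k α _ ih => exact ⟨M.refl_NZ hA ih.1 k, srefl_ne hA ih.2 k⟩

/-- Kac, Theorem 5.4: the real and imaginary roots described combinatorially are roots. -/
theorem isRoot_of_isRoot [CharZero K] {d : ι → ℕ} (hA : SymGCM A d) {α : ι → ℤ}
    (h : Pool.Agent.RootConj.IsRoot A α) : M.IsRoot α := by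
  rw [PreKacMoody.isRoot_iff]
  rcases h with ⟨i, h⟩ | ⟨β, hβ, h⟩
  · have h1 := M.worbit_NZ hA ⟨M.e i, M.e_mem_wt i, M.e_ne i⟩ (by
      intro h
      have := congrFun h i
      simp at this) h
    exact ⟨h1.2, h1.1⟩
  · rcases h with h | h
    · have h1 := M.worbit_NZ hA (M.fund_NZ hA hβ) hβ.1 h
      exact ⟨h1.2, h1.1⟩
    · have h1 := M.swap.worbit_NZ hA (M.swap.fund_NZ hA hβ) hβ.1 h
      rw [swap_NZ, neg_neg] at h1
      exact ⟨by simpa using h1.2, h1.1⟩

end KacMoody

end Pool.Agent.RootConj
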