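import Pool.Agent.RootConj.KM2

set_option autoImplicit false

/-!
# Kac-Moody algebras exist
-/

namespace Pool.Agent.RootConj

universe u v w

/-- Data for a presentation-like construction of `PreKacMoody`. -/
noncomputable def mkPre {K : Type u} [Field K] {ι : Type} [DecidableEq ι] {A : ι → ι → ℤ}
    {𝔤 : Type v} [LieRing 𝔤] [LieAlgebra K 𝔤] {H0 : Type w} [AddCommGroup H0] [Module K H0]
    (hh : H0 →ₗ[K] 𝔤) (hinj : Function.Injective hh) (hab : ∀ h h', ⁅hh h, hh h'⁆ = 0)
    (cr : ι → H0) (hcr : LinearIndependent K cr) (rt : ι → Module.Dual K H0)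
    (hrt : LinearIndependent K rt) (hpair : ∀ i j, rt j (cr i) = (A i j : K)) (E F : ι → 𝔤)
    (hEF : ∀ i j, ⁅E i, F j⁆ = if i = j then hh (cr i) else 0)
    (hE : ∀ h i, ⁅hh h, E i⁆ = rt i h • E i) (hF : ∀ h i, ⁅hh h, F i⁆ = -(rt i h • F i))
    (hgen : LieSubalgebra.lieSpan K 𝔤 (Set.range hh ∪ Set.range E ∪ Set.range F) = ⊤) :
    PreKacMoody K A 𝔤 where
  H := LinearMap.range hh
  lie_H_H := by
    rintro ⟨_, h, rfl⟩ ⟨_, h', rfl⟩
    exact hab h h'
  coroot := fun i => LinearEquiv.ofInjective hh hinj (cr i)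
  coroot_indep := hcr.map' (LinearEquiv.ofInjective hh hinj).toLinearMap
    (LinearEquiv.ker _)
  root := fun i => (rt i).comp (LinearEquiv.ofInjective hh hinj).symm.toLinearMap
  root_indep := by
    have h1 : Function.Injective
        (LinearMap.lcomp K K (LinearEquiv.ofInjective hh hinj).symm.toLinearMap) := by
      intro a b hab
      apply LinearMap.ext
      intro x
      have := LinearMap.congr_fun hab (LinearEquiv.ofInjective hh hinj x)
      simpa using this
    exact hrt.map' (LinearMap.lcomp K K (LinearEquiv.ofInjective hh hinj).symm.toLinearMap)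
      (LinearMap.ker_eq_bot.mpr h1)
  root_coroot := by
    intro i j
    simp [hpair]
  e := E
  f := F
  lie_e_f := by
    intro i j
    rw [hEF]
    rfl
  lie_H_e := by
    rintro ⟨_, h, rfl⟩ i
    have h1 : (LinearEquiv.ofInjective hh hinj).symm ⟨hh h, ⟨h, rfl⟩⟩ = h := by
      rw [LinearEquiv.symm_apply_eq]; rfl
    rw [LinearMap.comp_apply, LinearEquiv.coe_coe, h1]
    exact hE h i
  lie_H_f := by
    rintro ⟨_, h, rfl⟩ i
    have h1 : (LinearEquiv.ofInjective hh hinj).symm ⟨hh h, ⟨h, rfl⟩⟩ = h := by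
      rw [LinearEquiv.symm_apply_eq]; rfl
    rw [LinearMap.comp_apply, LinearEquiv.coe_coe, h1]
    exact hF h i
  generates := by
    rw [← hgen]
    rfl

namespace PreKacMoody

variable {K : Type u} [Field K] [CharZero K] {ι : Type} [Fintype ι] [DecidableEq ι]
  {A : ι → ι → ℤ} {𝔤 : Type v} [LieRing 𝔤] [LieAlgebra K 𝔤] (M : PreKacMoody K A 𝔤)

/-- The sum of the nonzero weight spaces. -/
def off : Submodule K 𝔤 := ⨆ c : {c : ι → ℤ // c ≠ 0}, M.wt c

omit [CharZero K] in
theorem le_off {c : ι → ℤ} (hc : c ≠ 0) : M.wt c ≤ M.off :=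
  le_iSup (fun c : {c : ι → ℤ // c ≠ 0} => M.wt c) ⟨c, hc⟩

theorem off_H {x : 𝔤} (hx : x ∈ M.off) (hH : x ∈ M.H) : x = 0 := by
  refine M.eq_zero_of_mem_iSup (fun c => c ≠ 0) 0 (fun h => h rfl) (M.H_mem_wt hH) ?_
  unfold off at hx
  rw [iSup_subtype] at hx
  exact hx

omit [CharZero K] in
theorem exists_H_off (x : 𝔤) : ∃ h ∈ M.H, x - h ∈ M.off := by
  have h1 := M.triangular x
  obtain ⟨a, ha, b, hb, hab⟩ := Submodule.mem_sup.mp h1
  obtain ⟨a1, ha1, a2, ha2, haa⟩ := Submodule.mem_sup.mp ha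
  refine ⟨a2, ha2, ?_⟩
  have h2 : x - a2 = a1 + b := by rw [← hab, ← haa]; abel
  rw [h2]
  refine add_mem ?_ ?_
  · have h3 := M.swap.npos_le ha1
    refine (iSup₂_le fun c hc => ?_ : (⨆ c : ι → ℤ, ⨆ _ : 0 ≤ c ∧ c ≠ 0, M.swap.wt c) ≤ M.off) h3
    rw [swap_wt]
    exact M.le_off (neg_ne_zero.mpr hc.2)
  · have h3 := M.npos_le hb
    exact (iSup₂_le fun c hc => M.le_off hc.2 :
      (⨆ c : ι → ℤ, ⨆ _ : 0 ≤ c ∧ c ≠ 0, M.wt c) ≤ M.off) h3

/-- Ideals are graded: the weight zero component stays in the ideal. -/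
theorem graded (I : LieIdeal K 𝔤) (F : Finset {c : ι → ℤ // c ≠ 0}) :
    ∀ x ∈ I, ∀ h ∈ M.H, x - h ∈ (⨆ c ∈ F, M.wt c.1) → h ∈ I := by
  classical
  induction F using Finset.induction_on with
  | empty =>
    intro x hx h hh hxh
    simp only [Finset.notMem_empty, iSup_false, iSup_bot, Submodule.mem_bot] at hxh
    rw [← sub_eq_zero.mp hxh]; exact hx
  | insert c F' _ ih =>
    intro x hx h hh hxh
    rw [Finset.iSup_insert] at hxh
    obtain ⟨y, hy, y', hy', hyy⟩ := Submodule.mem_sup.mp hxh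
    -- an element of `H` on which `c` does not vanish
    obtain ⟨t, ht⟩ : ∃ t : M.H, M.wtf c.1 t ≠ 0 := by
      by_contra hcon
      push Not at hcon
      apply c.2
      apply M.wtf_injective
      rw [wtf_zero]
      exact LinearMap.ext hcon
    have hmap : ∀ z ∈ (⨆ c ∈ F', M.wt c.1), ⁅(t : 𝔤), z⁆ ∈ (⨆ c ∈ F', M.wt c.1) := by
      have h1 : (⨆ c ∈ F', M.wt c.1) ≤
          (⨆ c ∈ F', M.wt c.1).comap (LieModule.toEnd K 𝔤 𝔤 (t : 𝔤)) := by
        refine iSup₂_le fun c' hc' z hz => ?_
        rw [Submodule.mem_comap, LieModule.toEnd_apply_apply, hz t]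
        exact Submodule.smul_mem _ _
          ((le_iSup₂ (f := fun (c : {c : ι → ℤ // c ≠ 0}) (_ : c ∈ F') => M.wt c.1) c' hc') hz)
      exact fun z hz => h1 hz
    have h1 : ⁅(t : 𝔤), x⁆ - M.wtf c.1 t • x ∈ I :=
      sub_mem (I.lie_mem hx) (I.smul_mem _ hx)
    have h2 : ⁅(t : 𝔤), x⁆ - M.wtf c.1 t • x - (-(M.wtf c.1 t • h)) =
        ⁅(t : 𝔤), y'⁆ - M.wtf c.1 t • y' := by
      have e1 : x = h + (y + y') := by rw [hyy]; abel
      have e2 : ⁅(t : 𝔤), h⁆ = 0 := M.lie_H_H t ⟨h, hh⟩
      rw [e1, lie_add, lie_add, e2, hy t, smul_add, smul_add]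
      abel
    have h3 := ih _ h1 (-(M.wtf c.1 t • h)) (neg_mem (M.H.smul_mem _ hh)) (by
      rw [h2]
      exact sub_mem (hmap _ hy') (Submodule.smul_mem _ _ hy'))
    have h4 : M.wtf c.1 t • h ∈ I := by
      have := neg_mem h3
      rwa [neg_neg] at this
    have h5 := I.smul_mem (M.wtf c.1 t)⁻¹ h4
    rwa [smul_smul, inv_mul_cancel₀ ht, one_smul] at h5

theorem graded' (I : LieIdeal K 𝔤) {x h : 𝔤} (hx : x ∈ I) (hh : h ∈ M.H) (h1 : x - h ∈ M.off) :
    h ∈ I := by
  unfold off at h1
  rw [Submodule.mem_iSup_iff_exists_finset] at h1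
  obtain ⟨F, hF⟩ := h1
  exact M.graded I F x hx h hh hF

/-- The largest ideal meeting `H` trivially. -/
def tau : LieIdeal K 𝔤 := sSup {I | ∀ x ∈ I, x ∈ M.H → x = 0}

theorem tau_le : LieSubmodule.toSubmodule M.tau ≤ M.off := by
  unfold tau
  rw [LieSubmodule.sSup_toSubmodule]
  refine sSup_le ?_
  rintro _ ⟨I, hI, rfl⟩ x hx
  obtain ⟨h, hh, hxh⟩ := M.exists_H_off x
  have h1 := M.graded' I hx hh hxh
  have h2 := hI h h1 hh
  rwa [h2, sub_zero] at hxh

theorem tau_H {x : 𝔤} (hx : x ∈ M.tau) (hH : x ∈ M.H) : x = 0 := M.off_H (M.tau_le hx) hH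

/-- The quotient map. -/
def qm : 𝔤 →ₗ[K] 𝔤 ⧸ M.tau := (LieSubmodule.Quotient.mk' M.tau : 𝔤 →ₗ⁅K,𝔤⁆ 𝔤 ⧸ M.tau)

omit [CharZero K] [Fintype ι] in
theorem qm_lie (x y : 𝔤) : M.qm ⁅x, y⁆ = ⁅M.qm x, M.qm y⁆ :=
  LieSubmodule.Quotient.mk_bracket M.tau x y

omit [CharZero K] [Fintype ι] in
theorem qm_surj (x : 𝔤 ⧸ M.tau) : ∃ y, M.qm y = x :=
  LieSubmodule.Quotient.surjective_mk' M.tau x

omit [CharZero K] [Fintype ι] in
theorem qm_eq_zero (x : 𝔤) : M.qm x = 0 ↔ x ∈ M.tau := LieSubmodule.Quotient.mk_eq_zero M.tau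

theorem qm_inj : Function.Injective (M.qm.comp M.H.subtype) := by
  rw [← LinearMap.ker_eq_bot, LinearMap.ker_eq_bot']
  intro h hh
  exact Subtype.ext (M.tau_H ((M.qm_eq_zero _).mp hh) h.2)

omit [CharZero K] [Fintype ι] in
theorem qm_gen : LieSubalgebra.lieSpan K (𝔤 ⧸ M.tau)
    (Set.range (M.qm.comp M.H.subtype) ∪ Set.range (fun i => M.qm (M.e i)) ∪
      Set.range (fun i => M.qm (M.f i))) = ⊤ := by
  rw [eq_top_iff]
  intro x _
  obtain ⟨y, rfl⟩ := M.qm_surj x
  set T := LieSubalgebra.lieSpan K (𝔤 ⧸ M.tau)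
    (Set.range (M.qm.comp M.H.subtype) ∪ Set.range (fun i => M.qm (M.e i)) ∪
      Set.range (fun i => M.qm (M.f i))) with hT
  let L : LieSubalgebra K 𝔤 :=
    { carrier := {z | M.qm z ∈ T}
      add_mem' := by
        intro a b ha hb
        show M.qm (a + b) ∈ T
        rw [map_add]; exact add_mem ha hb
      zero_mem' := by
        show M.qm 0 ∈ T
        rw [map_zero]; exact zero_mem _
      smul_mem' := by
        intro r a ha
        show M.qm (r • a) ∈ T
        rw [map_smul]; exact T.smul_mem _ ha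
      lie_mem' := by
        intro a b ha hb
        show M.qm ⁅a, b⁆ ∈ T
        rw [qm_lie]; exact T.lie_mem ha hb }
  have hL : LieSubalgebra.lieSpan K 𝔤 ((M.H : Set 𝔤) ∪ Set.range M.e ∪ Set.range M.f) ≤ L := by
    rw [LieSubalgebra.lieSpan_le]
    rintro x ((hx | ⟨i, rfl⟩) | ⟨i, rfl⟩)
    · exact LieSubalgebra.subset_lieSpan (Or.inl (Or.inl ⟨⟨x, hx⟩, rfl⟩))
    · exact LieSubalgebra.subset_lieSpan (Or.inl (Or.inr ⟨i, rfl⟩))
    · exact LieSubalgebra.subset_lieSpan (Or.inr ⟨i, rfl⟩)
  rw [M.generates] at hL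
  exact hL (LieSubalgebra.mem_top y)

/-- The Kac-Moody algebra obtained as a quotient. -/
noncomputable def quot : KacMoody K A (𝔤 ⧸ M.tau) where
  toPreKacMoody := mkPre (A := A) (H0 := M.H) (M.qm.comp M.H.subtype) M.qm_inj
    (by
      intro h h'
      show ⁅M.qm h, M.qm h'⁆ = 0
      rw [← qm_lie, M.lie_H_H, map_zero])
    M.coroot M.coroot_indep M.root M.root_indep M.root_coroot
    (fun i => M.qm (M.e i)) (fun i => M.qm (M.f i))
    (by
      intro i j
      rw [← qm_lie, M.lie_e_f]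
      by_cases h : i = j
      · rw [if_pos h, if_pos h]; rfl
      · rw [if_neg h, if_neg h, map_zero])
    (by
      intro h i
      show ⁅M.qm h, M.qm (M.e i)⁆ = _
      rw [← qm_lie, M.lie_H_e, map_smul])
    (by
      intro h i
      show ⁅M.qm h, M.qm (M.f i)⁆ = _
      rw [← qm_lie, M.lie_H_f, map_neg, map_smul])
    M.qm_gen
  no_ideal := by
    intro I hI
    rw [LieSubmodule.eq_bot_iff]
    intro x hx
    obtain ⟨y, rfl⟩ := M.qm_surj x
    rw [qm_eq_zero]
    let J : LieIdeal K 𝔤 :=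
      { carrier := {z | M.qm z ∈ I}
        add_mem' := by
          intro a b ha hb
          show M.qm (a + b) ∈ I
          rw [map_add]; exact add_mem ha hb
        zero_mem' := by
          show M.qm 0 ∈ I
          rw [map_zero]; exact zero_mem _
        smul_mem' := by
          intro r a ha
          show M.qm (r • a) ∈ I
          rw [map_smul]; exact I.smul_mem _ ha
        lie_mem := by
          intro a b hb
          show M.qm ⁅a, b⁆ ∈ I
          rw [qm_lie]; exact I.lie_mem hb }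
    have hJ : J ≤ M.tau := by
      apply le_sSup
      intro z hz hzH
      have h1 : M.qm z = 0 := hI _ hz ⟨⟨z, hzH⟩, rfl⟩
      exact M.tau_H ((M.qm_eq_zero z).mp h1) hzH
    exact hJ hx

end PreKacMoody

/-! ## The construction -/

namespace KMC

variable (K : Type u) [Field K] {ι : Type} [Fintype ι] [DecidableEq ι] (A : ι → ι → ℤ)

attribute [local instance 100] LieRing.ofAssociativeRing

/-- The Cartan space. -/
abbrev H0 (K : Type u) (ι : Type) : Type u := (ι → K) × (ι → K)

/-- The coroots. -/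
def cr (i : ι) : H0 K ι := (Pi.single i 1, 0)

/-- The roots. -/
def rt (j : ι) : Module.Dual K (H0 K ι) where
  toFun h := (∑ i, (A i j : K) * h.1 i) + h.2 j
  map_add' a b := by
    simp only [Prod.fst_add, Prod.snd_add, Pi.add_apply, mul_add, Finset.sum_add_distrib]
    ring
  map_smul' r a := by
    simp only [Prod.smul_fst, Prod.smul_snd, Pi.smul_apply, smul_eq_mul, RingHom.id_apply,
      mul_add, Finset.mul_sum]
    congr 1
    exact Finset.sum_congr rfl fun i _ => by ring

theorem rt_cr (i j : ι) : rt K A j (cr K i) = (A i j : K) := by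
  simp [rt, cr, Pi.single_apply]

theorem cr_indep : LinearIndependent K (cr K : ι → H0 K ι) := by
  rw [Fintype.linearIndependent_iff]
  intro g hg i
  have h1 := congrArg (fun h : H0 K ι => h.1 i) hg
  simpa [cr, Prod.fst_sum, Finset.sum_apply, Pi.single_apply] using h1

theorem rt_indep : LinearIndependent K (rt K A) := by
  rw [Fintype.linearIndependent_iff]
  intro g hg i
  have h1 := LinearMap.congr_fun hg ((0, Pi.single i 1) : H0 K ι)
  simpa [rt, LinearMap.sum_apply, Pi.single_apply] using h1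

/-- The representation space: words, for all highest weights at once. -/
abbrev W (K : Type u) [Field K] (ι : Type) : Type u := (Module.Dual K (H0 K ι) × List ι) →₀ K

/-- The weight of a word. -/
def wd (l : Module.Dual K (H0 K ι)) : List ι → Module.Dual K (H0 K ι)
  | [] => l
  | j :: w => wd l w - rt K A j

/-- The basis vector of a word. -/
noncomputable def bv (l : Module.Dual K (H0 K ι)) (w : List ι) : W K ι := Finsupp.single (l, w) 1

/-- The operator of `f_i`. -/
noncomputable def fW (i : ι) : Module.End K (W K ι) :=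
  Finsupp.linearCombination K fun p : Module.Dual K (H0 K ι) × List ι => bv K p.1 (i :: p.2)

/-- The operator of `h`. -/
noncomputable def hW : H0 K ι →ₗ[K] Module.End K (W K ι) where
  toFun h := Finsupp.linearCombination K fun p : Module.Dual K (H0 K ι) × List ι =>
    (wd K A p.1 p.2 h) • bv K p.1 p.2
  map_add' a b := by
    apply Finsupp.lhom_ext
    intro p c
    simp [Finsupp.linearCombination_single, add_smul]
  map_smul' r a := by
    apply Finsupp.lhom_ext
    intro p c
    simp only [Finsupp.linearCombination_single, map_smul, RingHom.id_apply, LinearMap.smul_apply,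
      smul_eq_mul, smul_smul]
    congr 1
    ring

/-- The image of a basis vector under `e_i`. -/
noncomputable def eb (i : ι) (l : Module.Dual K (H0 K ι)) : List ι → W K ι
  | [] => 0
  | j :: w => fW K j (eb i l w) + if i = j then (wd K A l w (cr K i)) • bv K l w else 0

/-- The operator of `e_i`. -/
noncomputable def eW (i : ι) : Module.End K (W K ι) :=
  Finsupp.linearCombination K fun p : Module.Dual K (H0 K ι) × List ι => eb K A i p.1 p.2

theorem fW_bv (i : ι) (l : Module.Dual K (H0 K ι)) (w : List ι) :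
    fW K i (bv K l w) = bv K l (i :: w) := by
  simp [fW, bv, Finsupp.linearCombination_single]

theorem hW_bv (h : H0 K ι) (l : Module.Dual K (H0 K ι)) (w : List ι) :
    hW K A h (bv K l w) = wd K A l w h • bv K l w := by
  show Finsupp.linearCombination K _ _ = _
  simp [bv, Finsupp.linearCombination_single]

theorem eW_bv (i : ι) (l : Module.Dual K (H0 K ι)) (w : List ι) :
    eW K A i (bv K l w) = eb K A i l w := by
  simp [eW, bv, Finsupp.linearCombination_single]

theorem ext_bv {f g : Module.End K (W K ι)} (h : ∀ l w, f (bv K l w) = g (bv K l w)) : f = g := by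
  apply Finsupp.lhom_ext
  rintro ⟨l, w⟩ c
  have h1 : (Finsupp.single (l, w) c : W K ι) = c • bv K l w := by
    simp [bv]
  rw [h1, map_smul, map_smul, h]

theorem lie_h_h (h h' : H0 K ι) : hW K A h * hW K A h' - hW K A h' * hW K A h = 0 := by
  apply ext_bv
  intro l w
  simp only [LinearMap.sub_apply, Module.End.mul_apply, hW_bv, map_smul, LinearMap.zero_apply]
  rw [smul_comm, sub_self]

theorem lie_h_f (h : H0 K ι) (i : ι) :
    hW K A h * fW K i - fW K i * hW K A h = -(rt K A i h • fW K i) := by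
  apply ext_bv
  intro l w
  simp only [LinearMap.sub_apply, Module.End.mul_apply, hW_bv, fW_bv, map_smul,
    LinearMap.neg_apply, LinearMap.smul_apply]
  rw [← sub_smul, ← neg_smul]
  congr 1
  simp [wd]

theorem hW_fW (h : H0 K ι) (i : ι) (x : W K ι) :
    hW K A h (fW K i x) = fW K i (hW K A h x) - rt K A i h • fW K i x := by
  have h1 := LinearMap.congr_fun (lie_h_f K A h i) x
  simp only [LinearMap.sub_apply, Module.End.mul_apply, LinearMap.neg_apply,
    LinearMap.smul_apply] at h1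
  rw [sub_eq_iff_eq_add] at h1
  rw [h1]; abel

theorem hW_eb (h : H0 K ι) (i : ι) (l : Module.Dual K (H0 K ι)) (w : List ι) :
    hW K A h (eb K A i l w) = (wd K A l w h + rt K A i h) • eb K A i l w := by
  induction w with
  | nil => simp [eb]
  | cons j w ih =>
    simp only [eb, map_add, hW_fW, ih, map_smul, smul_add]
    congr 1
    · rw [← sub_smul]
      congr 1
      simp only [wd, LinearMap.sub_apply]
      ring
    · by_cases hij : i = j
      · subst hij
        simp only [if_true, map_smul, hW_bv, wd, LinearMap.sub_apply]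
        rw [smul_comm]
        congr 1
        ring
      · simp [hij]

theorem lie_h_e (h : H0 K ι) (i : ι) :
    hW K A h * eW K A i - eW K A i * hW K A h = rt K A i h • eW K A i := by
  apply ext_bv
  intro l w
  simp only [LinearMap.sub_apply, Module.End.mul_apply, hW_bv, eW_bv, map_smul,
    LinearMap.smul_apply, hW_eb]
  rw [← sub_smul]
  congr 1
  ring

theorem lie_e_f (i j : ι) :
    eW K A i * fW K j - fW K j * eW K A i = if i = j then hW K A (cr K i) else 0 := by
  apply ext_bv
  intro l w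
  simp only [LinearMap.sub_apply, Module.End.mul_apply, fW_bv, eW_bv, eb]
  by_cases hij : i = j
  · simp [hij, hW_bv]
  · simp [hij]

theorem hW_inj : Function.Injective (hW K A : H0 K ι →ₗ[K] Module.End K (W K ι)) := by
  rw [injective_iff_map_eq_zero]
  intro h hh
  rw [← Module.forall_dual_apply_eq_zero_iff K]
  intro l
  have h1 := LinearMap.congr_fun hh (bv K l [])
  rw [hW_bv] at h1
  have h2 := congrArg (fun v : W K ι => v (l, [])) h1
  simpa [bv, wd] using h2

/-- The generators. -/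
def gens : Set (Module.End K (W K ι)) :=
  Set.range (hW K A) ∪ Set.range (eW K A) ∪ Set.range (fW K)

/-- The Lie algebra generated. -/
noncomputable def big : LieSubalgebra K (Module.End K (W K ι)) :=
  LieSubalgebra.lieSpan K (Module.End K (W K ι)) (gens K A)

theorem hW_mem (h : H0 K ι) : hW K A h ∈ big K A :=
  LieSubalgebra.subset_lieSpan (Or.inl (Or.inl ⟨h, rfl⟩))

theorem eW_mem (i : ι) : eW K A i ∈ big K A :=
  LieSubalgebra.subset_lieSpan (Or.inl (Or.inr ⟨i, rfl⟩))

theorem fW_mem (i : ι) : fW K i ∈ big K A :=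
  LieSubalgebra.subset_lieSpan (Or.inr ⟨i, rfl⟩)

/-- The Cartan subspace. -/
noncomputable def hb : H0 K ι →ₗ[K] big K A :=
  (hW K A).codRestrict (big K A).toSubmodule (hW_mem K A)

theorem big_gen : LieSubalgebra.lieSpan K (big K A)
    (Set.range (hb K A) ∪ Set.range (fun i => (⟨eW K A i, eW_mem K A i⟩ : big K A)) ∪
      Set.range (fun i => (⟨fW K i, fW_mem K A i⟩ : big K A))) = ⊤ := by
  rw [eq_top_iff]
  have h1 := LieSubalgebra.lieSpan_lieSpan_coe_preimage (R := K) (s := gens K A)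
  intro x _
  have hx : x ∈ (⊤ : LieSubalgebra K (big K A)) := LieSubalgebra.mem_top x
  have h2 : (⊤ : LieSubalgebra K (big K A)) ≤ _ := (ge_of_eq h1)
  refine LieSubalgebra.lieSpan_mono ?_ (h2 hx)
  rintro ⟨y, hy⟩ ((⟨h, h3⟩ | ⟨i, h3⟩) | ⟨i, h3⟩)
  · exact Or.inl (Or.inl ⟨h, Subtype.ext h3⟩)
  · exact Or.inl (Or.inr ⟨i, Subtype.ext h3⟩)
  · exact Or.inr ⟨i, Subtype.ext h3⟩

/-- The Lie algebra with Chevalley generators. -/
noncomputable def pre : PreKacMoody K A (big K A) :=
  mkPre (hb K A)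
    (by
      intro a b hab
      exact hW_inj K A (congrArg Subtype.val hab))
    (fun h h' => Subtype.ext (lie_h_h K A h h'))
    (cr K) (cr_indep K) (rt K A) (rt_indep K A) (rt_cr K A)
    (fun i => ⟨eW K A i, eW_mem K A i⟩) (fun i => ⟨fW K i, fW_mem K A i⟩)
    (by
      intro i j
      apply Subtype.ext
      have h1 := lie_e_f K A i j
      by_cases h : i = j
      · rw [if_pos h] at h1 ⊢
        exact h1
      · rw [if_neg h] at h1 ⊢
        exact h1)
    (fun h i => Subtype.ext (lie_h_e K A h i))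
    (fun h i => Subtype.ext (lie_h_f K A h i))
    (big_gen K A)

end KMC

/-- Kac-Moody algebras exist, for every integer matrix and every field of characteristic zero. -/
theorem exists_kacMoody (K : Type u) [Field K] [CharZero K] {ι : Type} [Fintype ι] [DecidableEq ι]
    (A : ι → ι → ℤ) :
    ∃ (𝔤 : Type u) (_ : LieRing 𝔤) (_ : LieAlgebra K 𝔤), Nonempty (KacMoody K A 𝔤) :=
  ⟨_, _, _, ⟨(KMC.pre K A).quot⟩⟩

end Pool.Agent.RootConj
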