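import Pool.Agent.RootConj.Defs

set_option autoImplicit false

/-!
# Integral symmetrizers from real ones
-/

namespace Pool.Agent.RootConj

variable {ι : Type} [Fintype ι]

/-- A rational functional on the reals which is positive on finitely many positive reals. -/
theorem exists_functional_pos (D : ι → ℝ) (hD : ∀ i, 0 < D i) :
    ∃ φ : ι → ℚ, (∀ i, 0 < φ i) ∧
      ∀ i j (a b : ℤ), D i * a = D j * b → φ i * a = φ j * b := by
  classical
  let V : Submodule ℚ ℝ := Submodule.span ℚ (Set.range D)
  haveI : FiniteDimensional ℚ V := FiniteDimensional.span_of_finite ℚ (Set.finite_range D)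
  let b := Module.finBasis ℚ V
  let v : ι → V := fun i => ⟨D i, Submodule.subset_span ⟨i, rfl⟩⟩
  let r := Module.finrank ℚ V
  let F : (Fin r → ℝ) → (ι → ℝ) := fun t i => ∑ k, (b.repr (v i) k : ℝ) * t k
  have hFc : ∀ i, Continuous fun t => F t i := by
    intro i
    exact continuous_finset_sum _ fun k _ => continuous_const.mul (continuous_apply k)
  let U : Set (Fin r → ℝ) := {t | ∀ i, 0 < F t i}
  have hU : IsOpen U := by
    have : U = ⋂ i, {t | 0 < F t i} := by ext t; simp [U]
    rw [this]
    exact isOpen_iInter_of_finite fun i => isOpen_lt continuous_const (hFc i)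
  have hne : U.Nonempty := by
    refine ⟨fun k => ((b k : V) : ℝ), fun i => ?_⟩
    have h1 : F (fun k => ((b k : V) : ℝ)) i = D i := by
      have h2 := congrArg (fun w : V => (w : ℝ)) (b.sum_repr (v i))
      simp only [Submodule.coe_sum, Submodule.coe_smul] at h2
      show ∑ k, (b.repr (v i) k : ℝ) * ((b k : V) : ℝ) = D i
      rw [show D i = ((v i : V) : ℝ) from rfl, ← h2]
      refine Finset.sum_congr rfl fun k _ => ?_
      rw [Rat.smul_def]
    rw [h1]; exact hD i
  have hdense : DenseRange (Pi.map fun _ : Fin r => ((↑) : ℚ → ℝ)) :=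
    DenseRange.piMap fun _ => Rat.denseRange_cast
  obtain ⟨t, ht⟩ := hdense.exists_mem_open hU hne
  let ψ : V →ₗ[ℚ] ℚ := b.constr ℚ t
  have hψ : ∀ w : V, ψ w = ∑ k, b.repr w k * t k := by
    intro w
    simp [ψ, Module.Basis.constr_apply_fintype]
  refine ⟨fun i => ψ (v i), ?_, ?_⟩
  · intro i
    have h1 := ht i
    simp only [F, Pi.map_apply] at h1
    have h2 : ((ψ (v i) : ℚ) : ℝ) = ∑ k, (b.repr (v i) k : ℝ) * (t k : ℝ) := by
      rw [hψ]; push_cast; rfl
    rw [← h2] at h1
    exact_mod_cast h1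
  · intro i j a c h
    have h1 : (a : ℚ) • v i = (c : ℚ) • v j := by
      apply Subtype.ext
      show (a : ℚ) • D i = (c : ℚ) • D j
      rw [Rat.smul_def, Rat.smul_def]
      push_cast
      linarith
    have h2 := congrArg ψ h1
    rw [map_smul, map_smul, smul_eq_mul, smul_eq_mul] at h2
    show ψ (v i) * a = ψ (v j) * c
    linarith

theorem exists_symmetrizer [DecidableEq ι] (B : ι → ι → ℤ) (D : ι → ℝ) (hD : ∀ i, 0 < D i)
    (hs : ∀ i j, D i * B i j = -(D j * B j i)) : ∃ d : ι → ℕ, SkewSym B d := by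
  obtain ⟨φ, hφ, hφs⟩ := exists_functional_pos D hD
  have hs' : ∀ i j, φ i * B i j = -(φ j * B j i) := by
    intro i j
    have := hφs i j (B i j) (-B j i) (by
      rw [hs]; push_cast; ring)
    rw [this]; push_cast; ring
  let N : ι → ℕ := fun i => (φ i).num.toNat * ∏ j ∈ Finset.univ.erase i, (φ j).den
  have hN : ∀ i, (N i : ℚ) = φ i * ∏ j, ((φ j).den : ℚ) := by
    intro i
    have h1 : ((φ i).num.toNat : ℚ) = φ i * (φ i).den := by
      have h2 : (((φ i).num.toNat : ℤ) : ℚ) = ((φ i).num : ℚ) := by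
        rw [Int.toNat_of_nonneg (Rat.num_nonneg.mpr (hφ i).le)]
      have h3 : ((φ i).num : ℚ) = φ i * (φ i).den := by
        exact (Rat.mul_den_eq_num (φ i)).symm
      rw [← h3, ← h2]; norm_cast
    simp only [N]
    push_cast
    rw [h1, ← Finset.mul_prod_erase Finset.univ (fun j => ((φ j).den : ℚ)) (Finset.mem_univ i)]
    ring
  refine ⟨N, ?_, ?_⟩
  · intro i
    have h1 : (0 : ℚ) < N i := by
      rw [hN]
      apply mul_pos (hφ i)
      exact Finset.prod_pos fun j _ => by exact_mod_cast (φ j).den_pos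
    exact_mod_cast h1
  · intro i j
    have h1 : (N i : ℚ) * B i j = -((N j : ℚ) * B j i) := by
      rw [hN, hN]
      have := hs' i j
      linear_combination (∏ j, ((φ j).den : ℚ)) * this
    exact_mod_cast h1

end Pool.Agent.RootConj
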