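import Pool.Agent.RootConj.Fact

set_option autoImplicit false

/-!
# Factorisation and products
-/

namespace Pool.Agent.RootConj

variable {ι : Type} [Fintype ι] [DecidableEq ι] {W : ι → ι → ℤ}
variable {Λ : Type} [AddCommGroup Λ] [LinearOrder Λ] [IsOrderedAddMonoid Λ]

theorem IsPos.mul' {x : (ι → ℤ) →+ Λ} {f g : T W} (hf : IsPos x f) (hg : IsPos x g) :
    IsPos x (f * g) := by
  refine ⟨by rw [T.mul_apply_zero, hf.1, hg.1]; norm_num, ?_⟩
  intro n hn h
  obtain ⟨a, b, hab, ha, hb⟩ := T.exists_of_mul_ne_zero h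
  rw [← hab, toZ_add, map_add]
  by_cases ha0 : a = 0
  · by_cases hb0 : b = 0
    · exfalso; apply hn; rw [← hab, ha0, hb0, add_zero]
    · rw [ha0, toZ_zero, map_zero, zero_add]; exact hg.2 b hb0 hb
  · by_cases hb0 : b = 0
    · rw [hb0, toZ_zero, map_zero, add_zero]; exact hf.2 a ha0 ha
    · exact add_pos (hf.2 a ha0 ha) (hg.2 b hb0 hb)

theorem IsZer.mul' {x : (ι → ℤ) →+ Λ} {f g : T W} (hf : IsZer x f) (hg : IsZer x g) :
    IsZer x (f * g) := by
  refine ⟨by rw [T.mul_apply_zero, hf.1, hg.1]; norm_num, ?_⟩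
  intro n h
  obtain ⟨a, b, hab, ha, hb⟩ := T.exists_of_mul_ne_zero h
  rw [← hab, toZ_add, map_add, hf.2 a ha, hg.2 b hb, add_zero]

theorem IsNeg.mul' {x : (ι → ℤ) →+ Λ} {f g : T W} (hf : IsNeg x f) (hg : IsNeg x g) :
    IsNeg x (f * g) := by
  refine ⟨by rw [T.mul_apply_zero, hf.1, hg.1]; norm_num, ?_⟩
  intro n hn h
  obtain ⟨a, b, hab, ha, hb⟩ := T.exists_of_mul_ne_zero h
  rw [← hab, toZ_add, map_add]
  by_cases ha0 : a = 0
  · by_cases hb0 : b = 0
    · exfalso; apply hn; rw [← hab, ha0, hb0, add_zero]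
    · rw [ha0, toZ_zero, map_zero, zero_add]; exact hg.2 b hb0 hb
  · by_cases hb0 : b = 0
    · rw [hb0, toZ_zero, map_zero, add_zero]; exact hf.2 a ha0 ha
    · exact add_neg (hf.2 a ha0 ha) (hg.2 b hb0 hb)

namespace FactMulAux

theorem exists_right_inv (f : T W) (hf : f 0 = 1) : ∃ g : T W, f * g = 1 ∧ g 0 = 1 := by
  obtain ⟨F, hF⟩ := exists_rec (ι := ι) (β := ℚ) (fun n G =>
    if n = 0 then 1 else -(f n + T.cross (W := W) f G n)) (by
    intro n G G' h
    have : T.cross (W := W) f G n = T.cross (W := W) f G' n :=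
      T.cross_congr (fun _ _ _ => rfl) (fun m hm _ => h m hm)
    simp only [this])
  have hF0 : F 0 = 1 := by rw [hF]; simp
  refine ⟨F, ?_, hF0⟩
  ext n
  by_cases hn : n = 0
  · subst hn
    rw [T.mul_apply_zero, hf]
    show 1 * F 0 = _
    rw [hF0]; simp [T.one_apply]
  · rw [T.mul_apply_ne_zero _ _ hn, hf]
    show 1 * F n + f n * F 0 + _ = _
    rw [hF0, hF n, T.one_apply]
    simp only [hn, if_false]
    ring

end FactMulAux

/-- Series with constant term `1` are invertible. -/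
theorem exists_inv (f : T W) (hf : f 0 = 1) : ∃ g : T W, f * g = 1 ∧ g * f = 1 ∧ g 0 = 1 := by
  obtain ⟨g, h1, hg⟩ := FactMulAux.exists_right_inv f hf
  obtain ⟨h, h2, _⟩ := FactMulAux.exists_right_inv g hg
  have : f = h := by
    calc f = f * (g * h) := by rw [h2, mul_one]
      _ = f * g * h := by rw [mul_assoc]
      _ = h := by rw [h1, one_mul]
  exact ⟨g, h1, by rw [this]; exact h2, hg⟩

/-- Products are local. -/
theorem mul_congr_on {f f' g g' : T W} (N : ι → ℕ) (hf : ∀ n ≤ N, f n = f' n)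
    (hg : ∀ n ≤ N, g n = g' n) : ∀ n ≤ N, (f * g) n = (f' * g') n := by
  intro n hn
  rw [T.mul_apply, T.mul_apply]
  refine Finset.sum_congr rfl fun a ha => ?_
  rw [Finset.mem_Iic] at ha
  rw [hf a (ha.trans hn), hg (n - a) (tsub_le_self.trans hn)]

/-- Inverses are local. -/
theorem inv_congr_on {f f' g g' : T W} (h : f * g = 1) (h' : f' * g' = 1) (hf : f 0 = 1)
    (hf' : f' 0 = 1) (N : ι → ℕ) (hN : ∀ n ≤ N, f n = f' n) : ∀ n ≤ N, g n = g' n := by
  have hg0 : g 0 = 1 := by
    have := congrArg (fun u : T W => u 0) h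
    simp only [T.mul_apply_zero, hf, T.one_apply, if_true, one_mul] at this
    exact this
  have hg0' : g' 0 = 1 := by
    have := congrArg (fun u : T W => u 0) h'
    simp only [T.mul_apply_zero, hf', T.one_apply, if_true, one_mul] at this
    exact this
  intro n
  induction n using WellFoundedLT.induction with
  | _ n ih =>
    intro hn
    by_cases h0 : n = 0
    · subst h0; rw [hg0, hg0']
    have e1 := congrArg (fun u : T W => u n) h
    have e2 := congrArg (fun u : T W => u n) h'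
    simp only [T.mul_apply_ne_zero _ _ h0, T.one_apply, h0, if_false, hf, hf', hg0, hg0',
      one_mul, mul_one] at e1 e2
    have hc : T.cross f g n = T.cross f' g' n := by
      apply T.cross_congr
      · intro m hm _; exact hN m (hm.le.trans hn)
      · intro m hm _; exact ih m hm (hm.le.trans hn)
    have := hN n hn
    linarith

theorem zp_pos_mul (x : (ι → ℤ) →+ Λ) {p f : T W} (hp : IsPos x p) (hf : f 0 = 1) :
    zp x (p * f) = zp x f := by
  obtain ⟨p', m', h⟩ := exists_isFact_zp x f hf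
  refine zp_eq x (p := p * p') (m := m') ⟨hp.mul' h.pos, h.zer, h.neg, ?_⟩
  conv_lhs => rw [h.eq]
  simp only [mul_assoc]

theorem zp_mul_neg (x : (ι → ℤ) →+ Λ) {m f : T W} (hm : IsNeg x m) (hf : f 0 = 1) :
    zp x (f * m) = zp x f := by
  obtain ⟨p', m', h⟩ := exists_isFact_zp x f hf
  refine zp_eq x (p := p') (m := m' * m) ⟨h.pos, h.zer, h.neg.mul' hm, ?_⟩
  conv_lhs => rw [h.eq]
  simp only [mul_assoc]

/-- The inverse of a zero series is a zero series. -/
theorem IsZer.inv' {x : (ι → ℤ) →+ Λ} {z g : T W} (hz : IsZer x z) (h : z * g = 1)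
    (hg0 : g 0 = 1) : IsZer x g := by
  refine ⟨hg0, ?_⟩
  intro n
  induction n using WellFoundedLT.induction with
  | _ n ih =>
    intro hn
    by_cases h0 : n = 0
    · subst h0; rw [toZ_zero, map_zero]
    by_contra hx
    apply hn
    have e1 := congrArg (fun u : T W => u n) h
    simp only [T.mul_apply_ne_zero _ _ h0, T.one_apply, h0, if_false, hz.1, hg0, one_mul,
      mul_one] at e1
    have hzn : z n = 0 := by
      by_contra hc; exact hx (hz.2 n hc)
    have hc : T.cross z g n = 0 := by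
      apply T.cross_eq_zero
      intro a b hab ha hb
      by_contra hcon
      push Not at hcon
      have hbl : b < n := by
        rw [← hab]
        exact lt_add_of_pos_left b (pos_of_ne_zero ha)
      apply hx
      rw [← hab, toZ_add, map_add, hz.2 a hcon.1, ih b hbl hcon.2, add_zero]
    rw [hzn, hc] at e1
    linarith

namespace FactMulAux

theorem isPos_conj {x : (ι → ℤ) →+ Λ} {z g p : T W} (hz : IsZer x z) (hg : IsZer x g)
    (h : z * g = 1) (hp : IsPos x p) : IsPos x (z * p * g) := by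
  have e : z * p * g = 1 + z * (p - 1) * g := by
    rw [mul_sub, sub_mul, mul_one, h]; abel
  rw [e]
  constructor
  · rw [T.add_apply, T.mul_apply_zero, T.mul_apply_zero, T.sub_apply, hp.1]
    simp [T.one_apply]
  · intro n hn hne
    rw [T.add_apply, T.one_apply, if_neg hn, zero_add] at hne
    obtain ⟨u, c, huc, hu, hc⟩ := T.exists_of_mul_ne_zero hne
    obtain ⟨a, b, hab, ha, hb⟩ := T.exists_of_mul_ne_zero hu
    have hb0 : b ≠ 0 := by
      rintro rfl
      apply hb
      rw [T.sub_apply, hp.1]; simp [T.one_apply]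
    have hpb : p b ≠ 0 := by
      intro h0
      apply hb
      rw [T.sub_apply, h0, T.one_apply, if_neg hb0]; ring
    rw [← huc, ← hab, toZ_add, toZ_add, map_add, map_add, hz.2 a ha, hg.2 c hc, zero_add, add_zero]
    exact hp.2 b hb0 hpb

theorem isNeg_conj {x : (ι → ℤ) →+ Λ} {z g p : T W} (hz : IsZer x z) (hg : IsZer x g)
    (h : g * z = 1) (hp : IsNeg x p) : IsNeg x (g * p * z) := by
  have e : g * p * z = 1 + g * (p - 1) * z := by
    rw [mul_sub, sub_mul, mul_one, h]; abel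
  rw [e]
  constructor
  · rw [T.add_apply, T.mul_apply_zero, T.mul_apply_zero, T.sub_apply, hp.1]
    simp [T.one_apply]
  · intro n hn hne
    rw [T.add_apply, T.one_apply, if_neg hn, zero_add] at hne
    obtain ⟨u, c, huc, hu, hc⟩ := T.exists_of_mul_ne_zero hne
    obtain ⟨a, b, hab, ha, hb⟩ := T.exists_of_mul_ne_zero hu
    have hb0 : b ≠ 0 := by
      rintro rfl
      apply hb
      rw [T.sub_apply, hp.1]; simp [T.one_apply]
    have hpb : p b ≠ 0 := by
      intro h0
      apply hb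
      rw [T.sub_apply, h0, T.one_apply, if_neg hb0]; ring
    rw [← huc, ← hab, toZ_add, toZ_add, map_add, map_add, hg.2 a ha, hz.2 c hc, zero_add, add_zero]
    exact hp.2 b hb0 hpb

end FactMulAux

theorem zp_zer_mul (x : (ι → ℤ) →+ Λ) {z f : T W} (hz : IsZer x z) (hf : f 0 = 1) :
    zp x (z * f) = z * zp x f := by
  obtain ⟨g, h1, h2, hg0⟩ := exists_inv z hz.1
  have hg := hz.inv' h1 hg0
  obtain ⟨p, m, h⟩ := exists_isFact_zp x f hf
  refine zp_eq x (p := z * p * g) (m := m)
    ⟨FactMulAux.isPos_conj hz hg h1 h.pos, hz.mul' h.zer, h.neg, ?_⟩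
  conv_lhs => rw [h.eq]
  calc z * (p * zp x f * m) = z * p * (1 * zp x f) * m := by rw [one_mul]; simp only [mul_assoc]
    _ = z * p * (g * z * zp x f) * m := by rw [h2]
    _ = z * p * g * (z * zp x f) * m := by simp only [mul_assoc]

theorem zp_mul_zer (x : (ι → ℤ) →+ Λ) {z f : T W} (hz : IsZer x z) (hf : f 0 = 1) :
    zp x (f * z) = zp x f * z := by
  obtain ⟨g, h1, h2, hg0⟩ := exists_inv z hz.1
  have hg := hz.inv' h1 hg0
  obtain ⟨p, m, h⟩ := exists_isFact_zp x f hf
  refine zp_eq x (p := p) (m := g * m * z)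
    ⟨h.pos, h.zer.mul' hz, FactMulAux.isNeg_conj hz hg h2 h.neg, ?_⟩
  conv_lhs => rw [h.eq]
  calc p * zp x f * m * z = p * (zp x f * 1) * (m * z) := by rw [mul_one]; simp only [mul_assoc]
    _ = p * (zp x f * (z * g)) * (m * z) := by rw [h1]
    _ = p * (zp x f * z) * (g * m * z) := by simp only [mul_assoc]

theorem zp_lex {Λ' : Type} [AddCommGroup Λ'] [LinearOrder Λ'] [IsOrderedAddMonoid Λ']
    (x : (ι → ℤ) →+ Λ) (z : (ι → ℤ) →+ Λ') (f : T W) (hf : f 0 = 1) :
    zp (lexHom x z) f = zp z (zp x f) := by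
  obtain ⟨p, m, h⟩ := exists_isFact_zp x f hf
  let M : AddSubmonoid (ι → ℕ) :=
    { carrier := {n | x (toZ n) = 0}
      zero_mem' := by show x (toZ 0) = 0; rw [toZ_zero, map_zero]
      add_mem' := by
        intro a b ha hb
        show x (toZ (a + b)) = 0
        have ha' : x (toZ a) = 0 := ha
        have hb' : x (toZ b) = 0 := hb
        rw [toZ_add, map_add, ha', hb', add_zero] }
  obtain ⟨p', z', m', h', hp', hz', hm'⟩ :=
    exists_fact_supp z (zp x f) h.zer.1 M (fun n hn => h.zer.2 n hn)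
  rw [zp_eq z h']
  have hpos1 : IsPos (lexHom x z) p := by
    refine ⟨h.pos.1, fun n hn hne => ?_⟩
    show (toLex (0, 0) : Λ ×ₗ Λ') < toLex (x (toZ n), z (toZ n))
    rw [Prod.Lex.toLex_lt_toLex]
    exact Or.inl (h.pos.2 n hn hne)
  have hpos2 : IsPos (lexHom x z) p' := by
    refine ⟨h'.pos.1, fun n hn hne => ?_⟩
    show (toLex (0, 0) : Λ ×ₗ Λ') < toLex (x (toZ n), z (toZ n))
    rw [Prod.Lex.toLex_lt_toLex]
    have h1 : x (toZ n) = 0 := hp' n hne
    exact Or.inr ⟨h1.symm, h'.pos.2 n hn hne⟩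
  have hneg1 : IsNeg (lexHom x z) m := by
    refine ⟨h.neg.1, fun n hn hne => ?_⟩
    show (toLex (x (toZ n), z (toZ n)) : Λ ×ₗ Λ') < toLex (0, 0)
    rw [Prod.Lex.toLex_lt_toLex]
    exact Or.inl (h.neg.2 n hn hne)
  have hneg2 : IsNeg (lexHom x z) m' := by
    refine ⟨h'.neg.1, fun n hn hne => ?_⟩
    show (toLex (x (toZ n), z (toZ n)) : Λ ×ₗ Λ') < toLex (0, 0)
    rw [Prod.Lex.toLex_lt_toLex]
    have h1 : x (toZ n) = 0 := hm' n hne
    exact Or.inr ⟨h1, h'.neg.2 n hn hne⟩
  have hzer : IsZer (lexHom x z) z' := by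
    refine ⟨h'.zer.1, fun n hne => ?_⟩
    show (toLex (x (toZ n), z (toZ n)) : Λ ×ₗ Λ') = toLex (0, 0)
    have h1 : x (toZ n) = 0 := hz' n hne
    rw [h1, h'.zer.2 n hne]
  refine zp_eq (lexHom x z) (p := p * p') (m := m' * m)
    ⟨hpos1.mul' hpos2, hzer, hneg2.mul' hneg1, ?_⟩
  conv_lhs => rw [h.eq, h'.eq]
  simp only [mul_assoc]

end Pool.Agent.RootConj
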