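import Pool.Agent.RootConj.Ring

set_option autoImplicit false

/-!
# Recursion on `ι → ℕ`
-/

namespace Pool.Agent.RootConj

variable {ι : Type} [Fintype ι] [DecidableEq ι]

omit [DecidableEq ι] in
/-- General recursion: `Φ n F` may only depend on the values of `F` below `n`. -/
theorem exists_rec {β : Type} [Nonempty β] (Φ : (ι → ℕ) → ((ι → ℕ) → β) → β)
    (hΦ : ∀ n F F', (∀ m, m < n → F m = F' m) → Φ n F = Φ n F') :
    ∃ F : (ι → ℕ) → β, ∀ n, F n = Φ n F := by
  classical
  have wf : WellFounded ((· < ·) : (ι → ℕ) → (ι → ℕ) → Prop) := wellFounded_lt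
  let b : β := Classical.choice inferInstance
  let F : (ι → ℕ) → β := wf.fix fun n rec => Φ n fun m => if h : m < n then rec m h else b
  refine ⟨F, fun n => ?_⟩
  have h1 : F n = Φ n fun m => if _h : m < n then F m else b := wf.fix_eq _ n
  rw [h1]
  apply hΦ
  intro m hm
  simp [hm]

namespace T

variable {W : ι → ι → ℤ}

/-- The terms of a product with both indices nonzero. -/
noncomputable def cross (f g : T W) (n : ι → ℕ) : ℚ :=
  ∑ a ∈ ((Finset.Iic n).erase 0).erase n,
    (2 : ℚ) ^ (om W (toZ a) (toZ (n - a))) * (f a * g (n - a))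

theorem mul_apply_ne_zero (f g : T W) {n : ι → ℕ} (hn : n ≠ 0) :
    (f * g) n = f 0 * g n + f n * g 0 + cross f g n := by
  rw [T.mul_apply, cross]
  have h0 : (0 : ι → ℕ) ∈ Finset.Iic n := by simp
  have hn' : n ∈ (Finset.Iic n).erase 0 := by simp [hn]
  rw [← Finset.add_sum_erase _ _ h0, ← Finset.add_sum_erase _ _ hn']
  simp [toZ_zero, om_zero_left, om_zero_right]
  ring

theorem cross_congr {f f' g g' : T W} {n : ι → ℕ}
    (hf : ∀ m, m < n → m ≠ 0 → f m = f' m) (hg : ∀ m, m < n → m ≠ 0 → g m = g' m) :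
    cross f g n = cross f' g' n := by
  unfold cross
  refine Finset.sum_congr rfl fun a ha => ?_
  simp only [Finset.mem_erase, Finset.mem_Iic] at ha
  obtain ⟨h1, h2, h3⟩ := ha
  have ha : a < n := lt_of_le_of_ne h3 h1
  have hb : n - a < n := by
    refine lt_of_le_of_ne tsub_le_self fun h => h2 ?_
    have : n - a + a = n := tsub_add_cancel_of_le h3
    rw [h] at this
    simpa using this
  have hb0 : n - a ≠ 0 := by
    intro h
    exact h1 (le_antisymm h3 (tsub_eq_zero_iff_le.mp h))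
  rw [hf a ha h2, hg (n - a) hb hb0]

/-- If the cross terms are all zero. -/
theorem cross_eq_zero {f g : T W} {n : ι → ℕ}
    (h : ∀ a b, a + b = n → a ≠ 0 → b ≠ 0 → f a = 0 ∨ g b = 0) : cross f g n = 0 := by
  unfold cross
  refine Finset.sum_eq_zero fun a ha => ?_
  simp only [Finset.mem_erase, Finset.mem_Iic] at ha
  obtain ⟨h1, h2, h3⟩ := ha
  have hb0 : n - a ≠ 0 := by
    intro h
    exact h1 (le_antisymm h3 (tsub_eq_zero_iff_le.mp h))
  rcases h a (n - a) (add_tsub_cancel_of_le h3) h2 hb0 with h | h <;> simp [h]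

/-- Support of a product. -/
theorem exists_of_mul_ne_zero {f g : T W} {n : ι → ℕ} (h : (f * g) n ≠ 0) :
    ∃ a b, a + b = n ∧ f a ≠ 0 ∧ g b ≠ 0 := by
  rw [T.mul_apply] at h
  obtain ⟨a, ha, h'⟩ := Finset.exists_ne_zero_of_sum_ne_zero h
  refine ⟨a, n - a, add_tsub_cancel_of_le (Finset.mem_Iic.mp ha), ?_, ?_⟩
  · intro h0; simp [h0] at h'
  · intro h0; simp [h0] at h'

end T

end Pool.Agent.RootConj
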