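import Pool.Agent.RootConj.Defs2
import Pool.Agent.RootConj.Rec

set_option autoImplicit false

/-!
# Factorisation with respect to a functional
-/

namespace Pool.Agent.RootConj

variable {ι : Type} [Fintype ι] [DecidableEq ι] {W : ι → ι → ℤ}

namespace FactAux

/-- Splitting along an arbitrary predicate. -/
theorem exists_split (P : (ι → ℕ) → Prop) (f : T W) (hf : f 0 = 1) :
    ∃ p r : T W, p 0 = 1 ∧ r 0 = 1 ∧ f = p * r ∧ (∀ n, n ≠ 0 → P n → r n = 0) ∧
      (∀ n, n ≠ 0 → ¬ P n → p n = 0) := by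
  classical
  obtain ⟨F, hF⟩ := exists_rec (ι := ι) (β := ℚ × ℚ) (fun n G =>
    if n = 0 then (1, 1) else
      if P n then (f n - T.cross (W := W) (fun m => (G m).1) (fun m => (G m).2) n, 0)
      else (0, f n - T.cross (W := W) (fun m => (G m).1) (fun m => (G m).2) n)) (by
    intro n G G' h
    have : T.cross (W := W) (fun m => (G m).1) (fun m => (G m).2) n =
        T.cross (W := W) (fun m => (G' m).1) (fun m => (G' m).2) n := by
      apply T.cross_congr
      · intro m hm _; show (G m).1 = (G' m).1; rw [h m hm]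
      · intro m hm _; show (G m).2 = (G' m).2; rw [h m hm]
    simp only [this])
  have hF0 : F 0 = (1, 1) := by rw [hF]; simp
  refine ⟨fun m => (F m).1, fun m => (F m).2, ?_, ?_, ?_, ?_, ?_⟩
  · show (F 0).1 = 1; rw [hF0]
  · show (F 0).2 = 1; rw [hF0]
  · ext n
    by_cases hn : n = 0
    · subst hn
      rw [T.mul_apply_zero, hf]
      show 1 = (F 0).1 * (F 0).2
      rw [hF0]; norm_num
    · rw [T.mul_apply_ne_zero _ _ hn]
      show f n = (F 0).1 * (F n).2 + (F n).1 * (F 0).2 + _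
      rw [hF0, hF n]
      by_cases hP : P n
      · simp only [hn, hP, if_true, if_false]; ring
      · simp only [hn, hP, if_false]; ring
  · intro n hn hP
    show (F n).2 = 0
    rw [hF n]; simp [hn, hP]
  · intro n hn hP
    show (F n).1 = 0
    rw [hF n]; simp [hn, hP]

/-- Uniqueness of the splitting, locally. -/
theorem split_unique_on (P : (ι → ℕ) → Prop) {f f' p r p' r' : T W} (N : ι → ℕ)
    (hf : ∀ n ≤ N, f n = f' n) (e : f = p * r) (e' : f' = p' * r')
    (hp0 : p 0 = 1) (hr0 : r 0 = 1) (hp0' : p' 0 = 1) (hr0' : r' 0 = 1)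
    (hr : ∀ n, n ≠ 0 → P n → r n = 0) (hp : ∀ n, n ≠ 0 → ¬ P n → p n = 0)
    (hr' : ∀ n, n ≠ 0 → P n → r' n = 0) (hp' : ∀ n, n ≠ 0 → ¬ P n → p' n = 0) :
    ∀ n ≤ N, p n = p' n ∧ r n = r' n := by
  intro n
  induction n using WellFoundedLT.induction with
  | _ n ih =>
    intro hn
    by_cases h0 : n = 0
    · subst h0; rw [hp0, hp0', hr0, hr0']; exact ⟨rfl, rfl⟩
    have hc : T.cross p r n = T.cross p' r' n := by
      apply T.cross_congr
      · intro m hm _; exact (ih m hm (hm.le.trans hn)).1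
      · intro m hm _; exact (ih m hm (hm.le.trans hn)).2
    have h1 := hf n hn
    rw [e, e', T.mul_apply_ne_zero _ _ h0, T.mul_apply_ne_zero _ _ h0, hc, hp0, hr0, hp0', hr0']
      at h1
    by_cases hP : P n
    · rw [hr n h0 hP, hr' n h0 hP] at h1 ⊢
      exact ⟨by linarith, rfl⟩
    · rw [hp n h0 hP, hp' n h0 hP] at h1 ⊢
      exact ⟨rfl, by linarith⟩

/-- Splittings respect submonoids. -/
theorem split_supp (P : (ι → ℕ) → Prop) {f p r : T W} (e : f = p * r)
    (hp0 : p 0 = 1) (hr0 : r 0 = 1)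
    (hr : ∀ n, n ≠ 0 → P n → r n = 0) (hp : ∀ n, n ≠ 0 → ¬ P n → p n = 0)
    (M : AddSubmonoid (ι → ℕ)) (hM : ∀ n, f n ≠ 0 → n ∈ M) :
    ∀ n, (p n ≠ 0 → n ∈ M) ∧ (r n ≠ 0 → n ∈ M) := by
  intro n
  induction n using WellFoundedLT.induction with
  | _ n ih =>
    by_cases h0 : n = 0
    · subst h0; exact ⟨fun _ => M.zero_mem, fun _ => M.zero_mem⟩
    by_cases hn : n ∈ M
    · exact ⟨fun _ => hn, fun _ => hn⟩
    have hf : f n = 0 := by
      by_contra h; exact hn (hM n h)
    have hc : T.cross p r n = 0 := by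
      apply T.cross_eq_zero
      intro a b hab ha hb
      by_contra hcon
      push Not at hcon
      apply hn
      rw [← hab]
      have hal : a < n := by
        rw [← hab]
        exact lt_add_of_pos_right a (pos_of_ne_zero hb)
      have hbl : b < n := by
        rw [← hab]
        exact lt_add_of_pos_left b (pos_of_ne_zero ha)
      exact M.add_mem ((ih a hal).1 hcon.1) ((ih b hbl).2 hcon.2)
    rw [e, T.mul_apply_ne_zero _ _ h0, hc, hp0, hr0] at hf
    by_cases hP : P n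
    · have := hr n h0 hP
      constructor
      · intro h; exfalso; apply h; rw [this] at hf; linarith
      · intro h; exact absurd this h
    · have := hp n h0 hP
      constructor
      · intro h; exact absurd this h
      · intro h; exfalso; apply h; rw [this] at hf; linarith

end FactAux

open FactAux

variable {Λ : Type} [AddCommGroup Λ] [LinearOrder Λ] [IsOrderedAddMonoid Λ]

namespace FactAux

/-- The intermediate factor `z * m`. -/
theorem zm_support (x : (ι → ℤ) →+ Λ) {z m : T W} (hz : IsZer x z) (hm : IsNeg x m) :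
    (z * m) 0 = 1 ∧ ∀ n, n ≠ 0 → 0 < x (toZ n) → (z * m) n = 0 := by
  refine ⟨by rw [T.mul_apply_zero, hz.1, hm.1]; norm_num, ?_⟩
  intro n hn hx
  by_contra h
  obtain ⟨a, b, hab, ha, hb⟩ := T.exists_of_mul_ne_zero h
  have h1 := hz.2 a ha
  have h2 : x (toZ b) ≤ 0 := by
    by_cases hb0 : b = 0
    · subst hb0; rw [toZ_zero, map_zero]
    · exact (hm.2 b hb0 hb).le
  rw [← hab, toZ_add, map_add, h1, zero_add] at hx
  exact absurd hx (not_lt.mpr h2)

end FactAux

theorem exists_fact_supp (x : (ι → ℤ) →+ Λ) (f : T W) (hf : f 0 = 1) (M : AddSubmonoid (ι → ℕ))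
    (hM : ∀ n, f n ≠ 0 → n ∈ M) :
    ∃ p z m, IsFact x f p z m ∧ (∀ n, p n ≠ 0 → n ∈ M) ∧ (∀ n, z n ≠ 0 → n ∈ M) ∧
      (∀ n, m n ≠ 0 → n ∈ M) := by
  obtain ⟨p, r, hp0, hr0, e, hr, hp⟩ := exists_split (fun n => 0 < x (toZ n)) f hf
  obtain ⟨z, m, hz0, hm0, e', hm, hz⟩ := exists_split (fun n => x (toZ n) = 0) r hr0
  have hs := split_supp _ e hp0 hr0 hr hp M hM
  have hs' := split_supp _ e' hz0 hm0 hm hz M (fun n h => (hs n).2 h)
  have hneg : ∀ n, n ≠ 0 → m n ≠ 0 → x (toZ n) < 0 := by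
    intro n
    induction n using WellFoundedLT.induction with
    | _ n ih =>
      intro h0 hmn
      by_contra hx
      have hx0 : x (toZ n) ≠ 0 := fun h => hmn (hm n h0 h)
      have hxp : 0 < x (toZ n) := lt_of_le_of_ne (not_lt.mp hx) (Ne.symm hx0)
      have h1 := hr n h0 hxp
      rw [e', T.mul_apply_ne_zero _ _ h0, hz0, hm0, hz n h0 hx0] at h1
      have hc : T.cross z m n = 0 := by
        apply T.cross_eq_zero
        intro a b hab ha hb
        by_contra hcon
        push Not at hcon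
        have hxa : x (toZ a) = 0 := by
          by_contra h; exact hcon.1 (hz a ha h)
        have hbl : b < n := by
          rw [← hab]
          exact lt_add_of_pos_left b (pos_of_ne_zero ha)
        have hxb := ih b hbl hb hcon.2
        rw [← hab, toZ_add, map_add, hxa, zero_add] at hxp
        exact lt_asymm hxp hxb
      rw [hc] at h1
      apply hmn
      linarith
  refine ⟨p, z, m, ⟨⟨hp0, ?_⟩, ⟨hz0, ?_⟩, ⟨hm0, hneg⟩, ?_⟩, fun n => (hs n).1, fun n => (hs' n).1,
    fun n => (hs' n).2⟩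
  · intro n hn h
    by_contra hx
    exact h (hp n hn hx)
  · intro n h
    by_cases hn : n = 0
    · subst hn; rw [toZ_zero, map_zero]
    · by_contra hx
      exact h (hz n hn hx)
  · rw [e, e', mul_assoc]

theorem exists_fact (x : (ι → ℤ) →+ Λ) (f : T W) (hf : f 0 = 1) :
    ∃ p z m, IsFact x f p z m := by
  obtain ⟨p, z, m, h, _⟩ := exists_fact_supp x f hf ⊤ (fun _ _ => trivial)
  exact ⟨p, z, m, h⟩

theorem fact_unique_on (x : (ι → ℤ) →+ Λ) {f f' p z m p' z' m' : T W}
    (h : IsFact x f p z m) (h' : IsFact x f' p' z' m') (N : ι → ℕ)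
    (hN : ∀ n ≤ N, f n = f' n) : ∀ n ≤ N, p n = p' n ∧ z n = z' n ∧ m n = m' n := by
  have hz := zm_support x h.zer h.neg
  have hz' := zm_support x h'.zer h'.neg
  have h1 := split_unique_on (fun n => 0 < x (toZ n)) N hN (p := p) (r := z * m) (p' := p')
    (r' := z' * m') (by rw [h.eq, mul_assoc]) (by rw [h'.eq, mul_assoc]) h.pos.1 hz.1 h'.pos.1
    hz'.1 hz.2 (fun n hn hx => by_contra fun hc => hx (h.pos.2 n hn hc)) hz'.2
    (fun n hn hx => by_contra fun hc => hx (h'.pos.2 n hn hc))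
  have h2 := split_unique_on (fun n => x (toZ n) = 0) N (fun n hn => (h1 n hn).2) (p := z)
    (r := m) (p' := z') (r' := m') rfl rfl h.zer.1 h.neg.1 h'.zer.1 h'.neg.1
    (fun n hn hx => by_contra fun hc => absurd (h.neg.2 n hn hc) (by rw [hx]; exact lt_irrefl _))
    (fun n _ hx => by_contra fun hc => hx (h.zer.2 n hc))
    (fun n hn hx => by_contra fun hc => absurd (h'.neg.2 n hn hc) (by rw [hx]; exact lt_irrefl _))
    (fun n _ hx => by_contra fun hc => hx (h'.zer.2 n hc))
  exact fun n hn => ⟨(h1 n hn).1, (h2 n hn).1, (h2 n hn).2⟩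

theorem zp_eq (x : (ι → ℤ) →+ Λ) {f p z m : T W} (h : IsFact x f p z m) : zp x f = z := by
  have h1 : ∃ p m, IsFact x f p (zp x f) m :=
    Classical.epsilon_spec (p := fun z => ∃ p m, IsFact x f p z m) ⟨z, p, m, h⟩
  obtain ⟨p', m', h'⟩ := h1
  ext n
  exact (fact_unique_on x h' h n (fun _ _ => rfl) n le_rfl).2.1

theorem exists_isFact_zp (x : (ι → ℤ) →+ Λ) (f : T W) (hf : f 0 = 1) :
    ∃ p m, IsFact x f p (zp x f) m := by
  obtain ⟨p, z, m, h⟩ := exists_fact x f hf
  exact Classical.epsilon_spec (p := fun z => ∃ p m, IsFact x f p z m) ⟨z, p, m, h⟩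

theorem isZer_zp (x : (ι → ℤ) →+ Λ) (f : T W) (hf : f 0 = 1) : IsZer x (zp x f) := by
  obtain ⟨p, m, h⟩ := exists_isFact_zp x f hf
  exact h.zer

theorem zp_congr_on (x : (ι → ℤ) →+ Λ) {f f' : T W} (hf : f 0 = 1) (hf' : f' 0 = 1)
    (N : ι → ℕ) (h : ∀ n ≤ N, f n = f' n) : ∀ n ≤ N, zp x f n = zp x f' n := by
  obtain ⟨p, m, h1⟩ := exists_isFact_zp x f hf
  obtain ⟨p', m', h2⟩ := exists_isFact_zp x f' hf'
  exact fun n hn => (fact_unique_on x h1 h2 N h n hn).2.1

/-- The zero part at `n` is `f n` plus a function of the lower coefficients. -/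
theorem zp_affine (x : (ι → ℤ) →+ Λ) {f f' : T W} (hf : f 0 = 1) (hf' : f' 0 = 1)
    (n : ι → ℕ) (hx : x (toZ n) = 0) (hn : n ≠ 0)
    (h : ∀ m ≤ n, m ≠ n → f m = f' m) : zp x f n - f n = zp x f' n - f' n := by
  obtain ⟨p, m, h1⟩ := exists_isFact_zp x f hf
  obtain ⟨p', m', h2⟩ := exists_isFact_zp x f' hf'
  have key : ∀ a, a < n → p a = p' a ∧ zp x f a = zp x f' a ∧ m a = m' a := by
    intro a ha
    refine fact_unique_on x h1 h2 a ?_ a le_rfl
    intro b hb
    exact h b (hb.trans ha.le) (fun hbn => ha.not_ge (by rw [← hbn]; exact hb))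
  have keyr : ∀ a, a < n → a ≠ 0 → (zp x f * m) a = (zp x f' * m') a := by
    intro a ha ha0
    rw [T.mul_apply_ne_zero _ _ ha0, T.mul_apply_ne_zero _ _ ha0, h1.zer.1, h2.zer.1, h1.neg.1,
      h2.neg.1, (key a ha).2.1, (key a ha).2.2]
    congr 1
    apply T.cross_congr
    · intro b hb _; exact (key b (hb.trans ha)).2.1
    · intro b hb _; exact (key b (hb.trans ha)).2.2
  have expand : ∀ {f p m : T W}, IsFact x f p (zp x f) m →
      f n = T.cross p (zp x f * m) n + (zp x f n + T.cross (zp x f) m n) := by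
    intro f p m hh
    have hpn : p n = 0 := by
      by_contra hc
      have := hh.pos.2 n hn hc
      rw [hx] at this; exact lt_irrefl _ this
    have hmn : m n = 0 := by
      by_contra hc
      have := hh.neg.2 n hn hc
      rw [hx] at this; exact lt_irrefl _ this
    have e1 : f n = (p * (zp x f * m)) n := by rw [← mul_assoc, ← hh.eq]
    rw [e1, T.mul_apply_ne_zero _ _ hn, hpn, hh.pos.1, T.mul_apply_ne_zero (zp x f) m hn, hmn,
      hh.zer.1, hh.neg.1]
    ring
  have e1 := expand h1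
  have e2 := expand h2
  have c1 : T.cross p (zp x f * m) n = T.cross p' (zp x f' * m') n := by
    apply T.cross_congr
    · intro a ha _; exact (key a ha).1
    · exact keyr
  have c2 : T.cross (zp x f) m n = T.cross (zp x f') m' n := by
    apply T.cross_congr
    · intro a ha _; exact (key a ha).2.1
    · intro a ha _; exact (key a ha).2.2
  rw [e1, e2, c1, c2]
  ring

theorem zp_of_isZer (x : (ι → ℤ) →+ Λ) {f : T W} (h : IsZer x f) : zp x f = f := by
  refine zp_eq x (p := 1) (m := 1) ⟨⟨?_, ?_⟩, h, ⟨?_, ?_⟩, by simp⟩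
  · simp [T.one_apply]
  · intro n hn h1; simp [T.one_apply, hn] at h1
  · simp [T.one_apply]
  · intro n hn h1; simp [T.one_apply, hn] at h1

theorem isZer_one (x : (ι → ℤ) →+ Λ) : IsZer x (1 : T W) := by
  refine ⟨by simp [T.one_apply], ?_⟩
  intro n h
  by_cases hn : n = 0
  · subst hn; rw [toZ_zero, map_zero]
  · simp [T.one_apply, hn] at h

theorem isPos_one (x : (ι → ℤ) →+ Λ) : IsPos x (1 : T W) :=
  ⟨by simp [T.one_apply], fun n hn h => by simp [T.one_apply, hn] at h⟩

theorem isNeg_one (x : (ι → ℤ) →+ Λ) : IsNeg x (1 : T W) :=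
  ⟨by simp [T.one_apply], fun n hn h => by simp [T.one_apply, hn] at h⟩

theorem zp_of_isPos (x : (ι → ℤ) →+ Λ) {f : T W} (h : IsPos x f) : zp x f = 1 :=
  zp_eq x (p := f) (m := 1) ⟨h, isZer_one x, isNeg_one x, by simp⟩

theorem zp_of_isNeg (x : (ι → ℤ) →+ Λ) {f : T W} (h : IsNeg x f) : zp x f = 1 :=
  zp_eq x (p := 1) (m := f) ⟨isPos_one x, isZer_one x, h, by simp⟩

theorem zp_supp (x : (ι → ℤ) →+ Λ) (f : T W) (hf : f 0 = 1) (M : AddSubmonoid (ι → ℕ))
    (hM : ∀ n, f n ≠ 0 → n ∈ M) : ∀ n, zp x f n ≠ 0 → n ∈ M := by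
  obtain ⟨p, z, m, h, _, h2, _⟩ := exists_fact_supp x f hf M hM
  rw [zp_eq x h]
  exact h2

end Pool.Agent.RootConj
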