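import Pool.Agent.RootConj.TrLog1
import Pool.Agent.RootConj.Fact

set_option autoImplicit false
set_option linter.unusedSectionVars false
set_option linter.unusedVariables false

/-!
# The trace of the logarithm
-/

namespace Pool.Agent.RootConj

section TrLog

variable {ι : Type} [Fintype ι] [DecidableEq ι] {W : ι → ι → ℤ}

namespace TrLogAux

theorem om_zero_l (n : ι → ℤ) : om W 0 n = 0 := by simp [om]

theorem om_add_l (a b n : ι → ℤ) : om W (a + b) n = om W a n + om W b n := by
  simp only [om, Pi.add_apply, add_mul, Finset.sum_add_distrib]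

theorem om_add_r (a b n : ι → ℤ) : om W n (a + b) = om W n a + om W n b := by
  simp only [om, Pi.add_apply, mul_add, Finset.sum_add_distrib]

theorem om_self (hW : ∀ i j, W i j = -W j i) (a : ι → ℤ) : om W a a = 0 := by
  have h : om W a a = -om W a a := by
    conv_lhs => rw [om, Finset.sum_comm]
    unfold om
    rw [← Finset.sum_neg_distrib]
    refine Finset.sum_congr rfl fun i _ => ?_
    rw [← Finset.sum_neg_distrib]
    refine Finset.sum_congr rfl fun j _ => ?_
    rw [hW j i]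
    ring
  omega

theorem toZ_add' (a b : ι → ℕ) : toZ (a + b) = toZ a + toZ b := by
  funext i; simp [toZ]

theorem toZ_zero' : toZ (0 : ι → ℕ) = 0 := by funext i; simp [toZ]

theorem mul_apply_ne {f g : T W} {n : ι → ℕ} (h : (f * g) n ≠ 0) :
    ∃ a b, a + b = n ∧ f a ≠ 0 ∧ g b ≠ 0 := by
  rw [T.mul_apply] at h
  obtain ⟨a, ha, h'⟩ := Finset.exists_ne_zero_of_sum_ne_zero h
  refine ⟨a, n - a, add_tsub_cancel_of_le (Finset.mem_Iic.1 ha), ?_, ?_⟩
  · rintro e; simp [e] at h'
  · rintro e; simp [e] at h'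

/-- The subring of series supported where `om(., n) = 0`. -/
def cen (W : ι → ι → ℤ) (n : ι → ℕ) : Subring (T W) where
  carrier := {f | ∀ m, f m ≠ 0 → om W (toZ m) (toZ n) = 0}
  mul_mem' := by
    intro f g hf hg m hm
    obtain ⟨a, b, rfl, ha, hb⟩ := mul_apply_ne hm
    rw [toZ_add', om_add_l, hf a ha, hg b hb, add_zero]
  one_mem' := by
    intro m hm
    rw [T.one_apply] at hm
    split_ifs at hm with h
    · rw [h, toZ_zero', om_zero_l]
    · exact absurd rfl hm
  add_mem' := by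
    intro f g hf hg m hm
    rw [T.add_apply] at hm
    by_cases h : f m = 0
    · rw [h, zero_add] at hm; exact hg m hm
    · exact hf m h
  zero_mem' := by
    intro m hm
    exact absurd rfl hm
  neg_mem' := by
    intro f hf m hm
    rw [T.neg_apply] at hm
    exact hf m (by simpa using hm)

theorem mem_cen {n : ι → ℕ} {f : T W} :
    f ∈ cen W n ↔ ∀ m, f m ≠ 0 → om W (toZ m) (toZ n) = 0 := Iff.rfl

/-- The coefficient at `n`. -/
def tau (W : ι → ι → ℤ) (n : ι → ℕ) : cen W n →+ ℚ where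
  toFun f := f.1 n
  map_zero' := rfl
  map_add' _ _ := rfl

theorem tau_comm (hW : ∀ i j, W i j = -W j i) (n : ι → ℕ) (u v : cen W n) :
    tau W n (u * v) = tau W n (v * u) := by
  have key : ∀ u v : cen W n, tau W n (u * v) = ∑ a ∈ Finset.Iic n, u.1 a * v.1 (n - a) := by
    intro u v
    show (u.1 * v.1) n = _
    rw [T.mul_apply]
    refine Finset.sum_congr rfl fun a ha => ?_
    by_cases h : u.1 a = 0
    · simp [h]
    · have h1 := u.2 a h
      have h2 : om W (toZ a) (toZ (n - a)) = 0 := by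
        have e : toZ n = toZ a + toZ (n - a) := by
          rw [← toZ_add', add_tsub_cancel_of_le (Finset.mem_Iic.1 ha)]
        rw [e, om_add_r, om_self hW, zero_add] at h1
        exact h1
      rw [h2]; simp
  rw [key, key]
  refine Finset.sum_bij' (fun a _ => n - a) (fun a _ => n - a) ?_ ?_ ?_ ?_ ?_
  · intro a _; simp
  · intro a _; simp
  · intro a ha; exact tsub_tsub_cancel_of_le (Finset.mem_Iic.1 ha)
  · intro a ha; exact tsub_tsub_cancel_of_le (Finset.mem_Iic.1 ha)
  · intro a ha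
    rw [tsub_tsub_cancel_of_le (Finset.mem_Iic.1 ha), mul_comm]

/-- Series of order at least `s`. -/
def ordS (W : ι → ι → ℤ) (n : ι → ℕ) (s : ℕ) : AddSubgroup (cen W n) where
  carrier := {f | ∀ m, ∑ i, m i < s → f.1 m = 0}
  add_mem' := by
    intro f g hf hg m hm
    show (f.1 + g.1) m = 0
    rw [T.add_apply, hf m hm, hg m hm, add_zero]
  zero_mem' := by
    intro m _; rfl
  neg_mem' := by
    intro f hf m hm
    show (-f.1) m = 0
    rw [T.neg_apply, hf m hm, neg_zero]

theorem ordS_mul (n : ι → ℕ) (s s' : ℕ) (u v : cen W n) (hu : u ∈ ordS W n s)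
    (hv : v ∈ ordS W n s') : u * v ∈ ordS W n (s + s') := by
  intro m hm
  by_contra h
  obtain ⟨a, b, rfl, ha, hb⟩ := mul_apply_ne h
  have h1 : s ≤ ∑ i, a i := by
    by_contra h1; exact ha (hu a (by omega))
  have h2 : s' ≤ ∑ i, b i := by
    by_contra h2; exact hb (hv b (by omega))
  simp only [Pi.add_apply, Finset.sum_add_distrib] at hm
  omega

theorem L_eq_tau (n : ι → ℕ) (u : cen W n) (a : T W) (h : a - 1 = u.1) :
    L n a = ∑ r ∈ Finset.Icc 1 (∑ i, n i), ((-1 : ℚ) ^ (r - 1) / r) * tau W n (u ^ r) := by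
  unfold L
  refine Finset.sum_congr rfl fun r _ => ?_
  rw [h]
  rfl

theorem sub_one_mem {n : ι → ℕ} {a : T W} (hs : ∀ m, a m ≠ 0 → om W (toZ m) (toZ n) = 0) :
    a - 1 ∈ cen W n := sub_mem (mem_cen.2 hs) (one_mem _)

theorem sub_one_ord {n : ι → ℕ} {a : T W} (ha : a 0 = 1) (h : a - 1 ∈ cen W n) :
    (⟨a - 1, h⟩ : cen W n) ∈ ordS W n 1 := by
  intro m hm
  have : m = 0 := by
    have h0 : ∑ i, m i = 0 := by omega
    rw [Finset.sum_eq_zero_iff] at h0
    funext i; exact h0 i (Finset.mem_univ _)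
  subst this
  show (a - 1) 0 = 0
  rw [T.sub_apply, ha, T.one_apply, if_pos rfl, sub_self]

end TrLogAux

open TrLogAux

theorem L_one (n : ι → ℕ) : L n (1 : T W) = 0 := by
  unfold L
  refine Finset.sum_eq_zero fun r hr => ?_
  have : r ≠ 0 := by
    have := (Finset.mem_Icc.1 hr).1
    omega
  rw [sub_self, zero_pow this, T.zero_apply, mul_zero]

namespace TrLogAux

/-- local dependence of powers -/
theorem pow_congr (n : ι → ℕ) {a b : T W} (h : ∀ m ≤ n, a m = b m) (r : ℕ) :
    ∀ m ≤ n, (a ^ r) m = (b ^ r) m := by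
  induction r with
  | zero => intro m _; rfl
  | succ r ih =>
    intro m hm
    rw [pow_succ, pow_succ, T.mul_apply, T.mul_apply]
    refine Finset.sum_congr rfl fun c hc => ?_
    rw [ih c ((Finset.mem_Iic.1 hc).trans hm), h (m - c) (tsub_le_self.trans hm)]

theorem pow_congr' (n : ι → ℕ) {a b : T W} (ha : a 0 = 0) (hb : b 0 = 0)
    (h : ∀ m ≤ n, m ≠ n → a m = b m) (r : ℕ) : (a ^ (r + 2)) n = (b ^ (r + 2)) n := by
  have h0 : ∀ (c : T W), c 0 = 0 → (c ^ (r + 1)) 0 = 0 := by
    intro c hc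
    rw [pow_succ, T.mul_apply_zero, hc, mul_zero]
  rw [pow_succ, pow_succ b, T.mul_apply, T.mul_apply]
  refine Finset.sum_congr rfl fun c hc => ?_
  have hc' := Finset.mem_Iic.1 hc
  by_cases h1 : c = n
  · subst h1
    rw [tsub_self, ha, hb]; simp only [mul_zero]
  · by_cases h2 : c = 0
    · subst h2
      rw [h0 a ha, h0 b hb, zero_mul, zero_mul]
    · have h3 : (a ^ (r + 1)) c = (b ^ (r + 1)) c := by
        refine pow_congr c (fun m hm => h m (hm.trans hc') ?_) (r + 1) c le_rfl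
        rintro rfl
        exact h1 (le_antisymm hc' hm)
      have h4 : a (n - c) = b (n - c) := by
        refine h _ tsub_le_self ?_
        intro e
        apply h2
        have := add_tsub_cancel_of_le hc'
        rw [e] at this
        exact add_eq_right.1 this
      rw [h3, h4]

end TrLogAux

theorem L_congr (n : ι → ℕ) {a b : T W} (h : ∀ m ≤ n, a m = b m) : L n a = L n b := by
  unfold L
  refine Finset.sum_congr rfl fun r _ => ?_
  rw [pow_congr n (a := a - 1) (b := b - 1) (fun m hm => by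
    rw [T.sub_apply, T.sub_apply, h m hm]) r n le_rfl]

theorem L_affine (n : ι → ℕ) (hn : n ≠ 0) {a b : T W} (ha : a 0 = 1) (hb : b 0 = 1)
    (h : ∀ m ≤ n, m ≠ n → a m = b m) : L n a - a n = L n b - b n := by
  have hN : 1 ≤ ∑ i, n i := by
    by_contra h0
    apply hn
    have h0 : ∑ i, n i = 0 := by omega
    rw [Finset.sum_eq_zero_iff] at h0
    funext i; exact h0 i (Finset.mem_univ _)
  have key : ∀ c : T W, L n c - c n = -(1 : T W) n + ∑ r ∈ Finset.Icc 2 (∑ i, n i),
      ((-1 : ℚ) ^ (r - 1) / r) * ((c - 1) ^ r : T W) n := by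
    intro c
    unfold L
    rw [← Finset.add_sum_Ioc_eq_sum_Icc hN]
    have e : Finset.Ioc 1 (∑ i, n i) = Finset.Icc 2 (∑ i, n i) := by
      ext r; simp only [Finset.mem_Ioc, Finset.mem_Icc]; omega
    rw [e, pow_one, T.sub_apply]
    simp only [tsub_self, pow_zero, Nat.cast_one, div_one, one_mul]
    ring
  rw [key, key]
  congr 1
  refine Finset.sum_congr rfl fun r hr => ?_
  obtain ⟨r, rfl⟩ : ∃ r', r = r' + 2 := ⟨r - 2, by have := (Finset.mem_Icc.1 hr).1; omega⟩
  rw [pow_congr' n (a := a - 1) (b := b - 1)]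
  · rw [T.sub_apply, ha, T.one_apply, if_pos rfl, sub_self]
  · rw [T.sub_apply, hb, T.one_apply, if_pos rfl, sub_self]
  · intro m hm hm'
    rw [T.sub_apply, T.sub_apply, h m hm hm']

/-- Additivity of the trace of the logarithm. -/
theorem L_mul (hW : ∀ i j, W i j = -W j i) (n : ι → ℕ) (a b : T W) (ha : a 0 = 1) (hb : b 0 = 1)
    (hsa : ∀ m, a m ≠ 0 → om W (toZ m) (toZ n) = 0)
    (hsb : ∀ m, b m ≠ 0 → om W (toZ m) (toZ n) = 0) : L n (a * b) = L n a + L n b := by
  let x : cen W n := ⟨a - 1, sub_one_mem hsa⟩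
  let y : cen W n := ⟨b - 1, sub_one_mem hsb⟩
  have h1 : L n (a * b) = ∑ r ∈ Finset.Icc 1 (∑ i, n i),
      ((-1 : ℚ) ^ (r - 1) / r) * tau W n ((x + y + x * y) ^ r) := by
    apply L_eq_tau
    show a * b - 1 = (a - 1) + (b - 1) + (a - 1) * (b - 1)
    noncomm_ring
  rw [h1, L_eq_tau n x a rfl, L_eq_tau n y b rfl]
  refine abs_log (tau W n) (ordS W n) (tau_comm hW n) ?_ (ordS_mul n) _ ?_ x y
    (sub_one_ord ha _) (sub_one_ord hb _)
  · intro u m hm; omega
  · intro u hu
    exact hu n (Nat.lt_succ_self _)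

/-- If `a` is supported in a submonoid not containing `n`, then `L n a = 0`. -/
theorem L_eq_zero_of_supp (n : ι → ℕ) (a : T W) (ha : a 0 = 1) (M : Set (ι → ℕ))
    (hM : ∀ u ∈ M, ∀ v ∈ M, u + v ∈ M) (hs : ∀ m, m ≠ 0 → a m ≠ 0 → m ∈ M) (hn : n ∉ M) :
    L n a = 0 := by
  have h1 : ∀ m, (a - 1) m ≠ 0 → m ∈ M := by
    intro m hm
    rw [T.sub_apply, T.one_apply] at hm
    by_cases h : m = 0
    · subst h; rw [ha, if_pos rfl] at hm; exact absurd (sub_self _) hm
    · rw [if_neg h, sub_zero] at hm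
      exact hs m h hm
  have h2 : ∀ (r : ℕ) (m : ι → ℕ), ((a - 1) ^ (r + 1) : T W) m ≠ 0 → m ∈ M := by
    intro r
    induction r with
    | zero => simpa using h1
    | succ r ih =>
      intro m hm
      rw [pow_succ] at hm
      obtain ⟨c, d, rfl, hc, hd⟩ := mul_apply_ne hm
      exact hM c (ih c hc) d (h1 d hd)
  unfold L
  refine Finset.sum_eq_zero fun r hr => ?_
  obtain ⟨r, rfl⟩ : ∃ r', r = r' + 1 := ⟨r - 1, by have := (Finset.mem_Icc.1 hr).1; omega⟩
  by_contra h
  exact hn (h2 r n (right_ne_zero_of_mul h))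

/-- Independence of the perturbation. -/
theorem L_zp {Λ : Type} [AddCommGroup Λ] [LinearOrder Λ] [IsOrderedAddMonoid Λ]
    (hW : ∀ i j, W i j = -W j i) (n : ι → ℕ) (hn : n ≠ 0) (x : (ι → ℤ) →+ Λ)
    (hx : x (toZ n) = 0) (h : T W) (h0 : h 0 = 1)
    (hs : ∀ m, h m ≠ 0 → om W (toZ m) (toZ n) = 0) : L n (zp x h) = L n h := by
  let M : AddSubmonoid (ι → ℕ) :=
    { carrier := {m | om W (toZ m) (toZ n) = 0}
      add_mem' := by
        intro a b ha hb
        show om W (toZ (a + b)) (toZ n) = 0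
        rw [toZ_add', om_add_l, ha, hb, add_zero]
      zero_mem' := by
        show om W (toZ 0) (toZ n) = 0
        rw [toZ_zero', om_zero_l] }
  obtain ⟨p, z, m, hf, hp, hz, hm⟩ := exists_fact_supp x h h0 M hs
  rw [zp_eq x hf]
  have e1 : L n p = 0 := by
    refine L_eq_zero_of_supp n p hf.pos.1 {m | 0 < x (toZ m)} ?_ hf.pos.2 ?_
    · intro u hu v hv
      show 0 < x (toZ (u + v))
      rw [toZ_add', map_add]
      exact add_pos hu hv
    · intro hc
      have : 0 < x (toZ n) := hc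
      rw [hx] at this
      exact lt_irrefl _ this
  have e2 : L n m = 0 := by
    refine L_eq_zero_of_supp n m hf.neg.1 {m | x (toZ m) < 0} ?_ hf.neg.2 ?_
    · intro u hu v hv
      show x (toZ (u + v)) < 0
      rw [toZ_add', map_add]
      exact add_neg hu hv
    · intro hc
      have : x (toZ n) < 0 := hc
      rw [hx] at this
      exact lt_irrefl _ this
  have hpz : p * z ∈ cen W n := mul_mem (mem_cen.2 hp) (mem_cen.2 hz)
  rw [hf.eq, L_mul hW n (p * z) m _ hf.neg.1 hpz hm, L_mul hW n p z hf.pos.1 hf.zer.1 hp hz, e1, e2]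
  · ring
  · rw [T.mul_apply_zero, hf.pos.1, hf.zer.1, one_mul]

end TrLog

end Pool.Agent.RootConj
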