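import Pool.Agent.RootConj.MutProd
import Pool.Agent.RootConj.FactMul
import Pool.Agent.RootConj.TrLog

set_option autoImplicit false

/-!
# Root conjecture for c-vectors: mutation of scattering elements
-/

namespace Pool.Agent.RootConj

section MutMain

variable {ι : Type} [Fintype ι] [DecidableEq ι]

/-! ### Logarithms and transport -/

private theorem mul_supp {W : ι → ι → ℤ} (M : AddSubmonoid (ι → ℕ)) (f g : T W)
    (hf : ∀ n, f n ≠ 0 → n ∈ M) (hg : ∀ n, g n ≠ 0 → n ∈ M) : ∀ n, (f * g) n ≠ 0 → n ∈ M := by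
  intro n hn
  rw [T.mul_apply'] at hn
  obtain ⟨q, hq, hq2⟩ := Finset.exists_ne_zero_of_sum_ne_zero hn
  simp only [Finset.mem_filter, Finset.mem_product, Finset.mem_Iic] at hq
  have h1 : f q.1 ≠ 0 := fun h0 => hq2 (by rw [h0]; ring)
  have h2 : g q.2 ≠ 0 := fun h0 => hq2 (by rw [h0]; ring)
  rw [← hq.2]
  exact M.add_mem (hf _ h1) (hg _ h2)

private theorem pow_apply_zero {W : ι → ι → ℤ} (u : T W) (hu : u 0 = 0) (r : ℕ) :
    ∀ n : ι → ℕ, ∑ i, n i < r → (u ^ r : T W) n = 0 := by
  induction r with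
  | zero => intro n hn; omega
  | succ r ih =>
    intro n hn
    rw [pow_succ, T.mul_apply']
    refine Finset.sum_eq_zero fun p hp => ?_
    simp only [Finset.mem_filter, Finset.mem_product, Finset.mem_Iic] at hp
    by_cases h0 : p.2 = 0
    · rw [h0, hu]; ring
    · have h1 : ∑ i, p.1 i < r := by
        have e : ∑ i, p.1 i + ∑ i, p.2 i = ∑ i, n i := by
          rw [← Finset.sum_add_distrib, ← hp.2]; rfl
        have e2 : 0 < ∑ i, p.2 i := by
          rw [Nat.pos_iff_ne_zero]
          intro h2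
          apply h0
          rw [Finset.sum_eq_zero_iff] at h2
          funext i
          exact h2 i (Finset.mem_univ i)
        omega
      rw [ih _ h1]; ring

private theorem L_eq_big {W : ι → ι → ℤ} (n : ι → ℕ) (z : T W) (hz : z 0 = 1) (N : ℕ)
    (hN : ∑ i, n i ≤ N) :
    L n z = ∑ r ∈ Finset.Icc 1 N, ((-1 : ℚ) ^ (r - 1) / r) * ((z - 1) ^ r : T W) n := by
  unfold L
  refine Finset.sum_subset (Finset.Icc_subset_Icc_right hN) fun r hr hr2 => ?_
  have h1 : ∑ i, n i < r := by
    simp only [Finset.mem_Icc, not_and, not_le] at hr hr2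
    exact hr2 hr.1
  rw [pow_apply_zero (z - 1) _ r n h1, mul_zero]
  rw [T.sub_apply, hz, T.one_apply, if_pos rfl, sub_self]

private theorem L_tr {W W' : ι → ι → ℤ} (M : AddSubmonoid (ι → ℕ)) (φ : (ι → ℕ) → (ι → ℕ))
    (tr : T W → T W') (h1 : ∀ f n, n ∈ M → tr f n = f (φ n)) (h0 : ∀ f n, n ∉ M → tr f n = 0)
    (hmul : ∀ f h : T W, (∀ n, f n ≠ 0 → n ∈ M) → (∀ n, h n ≠ 0 → n ∈ M) →
      tr (f * h) = tr f * tr h)
    (hφ0 : φ 0 = 0) (hφ : ∀ n ∈ M, n ≠ 0 → φ n ≠ 0) (f : T W) (hf0 : f 0 = 1)
    (hf : ∀ n, f n ≠ 0 → n ∈ M) (n : ι → ℕ) :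
    (n ∈ M → L n (tr f) = L (φ n) f) ∧ (n ∉ M → L n (tr f) = 0) := by
  have tr1 : tr 1 = 1 := by
    ext m
    by_cases hm : m ∈ M
    · rw [h1 _ _ hm, T.one_apply, T.one_apply]
      by_cases hm0 : m = 0
      · rw [hm0, hφ0]
      · rw [if_neg (hφ m hm hm0), if_neg hm0]
    · rw [h0 _ _ hm, T.one_apply, if_neg]
      intro h; exact hm (h ▸ M.zero_mem)
  have trs : tr f - 1 = tr (f - 1) := by
    rw [← tr1]
    ext m
    by_cases hm : m ∈ M
    · rw [T.sub_apply, h1 _ _ hm, h1 _ _ hm, h1 _ _ hm, T.sub_apply]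
    · rw [T.sub_apply, h0 _ _ hm, h0 _ _ hm, h0 _ _ hm, sub_zero]
  have hu : ∀ m, (f - 1) m ≠ 0 → m ∈ M := by
    intro m hm
    rw [T.sub_apply, T.one_apply] at hm
    by_cases hm0 : m = 0
    · rw [hm0]; exact M.zero_mem
    · rw [if_neg hm0, sub_zero] at hm
      exact hf _ hm
  have hpow : ∀ r : ℕ, (∀ m, ((f - 1) ^ r : T W) m ≠ 0 → m ∈ M) ∧
      tr ((f - 1) ^ r) = (tr (f - 1)) ^ r := by
    intro r
    induction r with
    | zero =>
      refine ⟨?_, by rw [pow_zero, pow_zero, tr1]⟩
      intro m hm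
      rw [pow_zero, T.one_apply] at hm
      by_cases hm0 : m = 0
      · rw [hm0]; exact M.zero_mem
      · rw [if_neg hm0] at hm; exact absurd rfl hm
    | succ r ih =>
      refine ⟨?_, ?_⟩
      · rw [pow_succ]
        exact mul_supp M _ _ ih.1 hu
      · rw [pow_succ, pow_succ, hmul _ _ ih.1 hu, ih.2]
  have hf1 : tr f 0 = 1 := by rw [h1 _ _ M.zero_mem, hφ0, hf0]
  constructor
  · intro hn
    rw [L_eq_big n (tr f) hf1 (max (∑ i, n i) (∑ i, φ n i)) (le_max_left _ _),
      L_eq_big (φ n) f hf0 (max (∑ i, n i) (∑ i, φ n i)) (le_max_right _ _)]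
    refine Finset.sum_congr rfl fun r _ => ?_
    rw [trs, ← (hpow r).2, h1 _ _ hn]
  · intro hn
    unfold L
    refine Finset.sum_eq_zero fun r _ => ?_
    rw [trs, ← (hpow r).2, h0 _ _ hn, mul_zero]

/-! ### The submonoids -/

omit [DecidableEq ι] in
private theorem bL_add (B : ι → ι → ℤ) (k : ι) (a b : ι → ℕ) :
    bL B k (a + b) = bL B k a + bL B k b := by
  simp only [bL, Pi.add_apply, mul_add, Finset.sum_add_distrib]

omit [DecidableEq ι] in
private theorem bR_add (B : ι → ι → ℤ) (k : ι) (a b : ι → ℕ) :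
    bR B k (a + b) = bR B k a + bR B k b := by
  simp only [bR, Pi.add_apply, mul_add, Finset.sum_add_distrib]

private def ML (B : ι → ι → ℤ) (k : ι) : AddSubmonoid (ι → ℕ) where
  carrier := {n | n k ≤ bL B k n}
  zero_mem' := by simp
  add_mem' := by
    intro a b ha hb
    change a k ≤ bL B k a at ha
    change b k ≤ bL B k b at hb
    change (a + b) k ≤ bL B k (a + b)
    rw [bL_add, Pi.add_apply]; omega

private def MR (B : ι → ι → ℤ) (k : ι) : AddSubmonoid (ι → ℕ) where
  carrier := {n | n k ≤ bR B k n}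
  zero_mem' := by simp
  add_mem' := by
    intro a b ha hb
    change a k ≤ bR B k a at ha
    change b k ≤ bR B k b at hb
    change (a + b) k ≤ bR B k (a + b)
    rw [bR_add, Pi.add_apply]; omega

private theorem flipL_zero (B : ι → ι → ℤ) (k : ι) : flipL B k 0 = 0 := by
  unfold flipL
  simp [bL]

private theorem flipR_zero (B : ι → ι → ℤ) (k : ι) : flipR B k 0 = 0 := by
  unfold flipR
  simp [bR]

private theorem flipL_flipL {B : ι → ι → ℤ} {d : ι → ℕ} (hB : SkewSym B d) (k : ι) (n : ι → ℕ)
    (hn : n k ≤ bL B k n) : flipL B k (flipL B k n) = n := by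
  unfold flipL
  rw [bL_update hB, Function.update_self, Function.update_idem]
  have : bL B k n - (bL B k n - n k) = n k := by omega
  rw [this, Function.update_eq_self]

private theorem flipR_flipR {B : ι → ι → ℤ} {d : ι → ℕ} (hB : SkewSym B d) (k : ι) (n : ι → ℕ)
    (hn : n k ≤ bR B k n) : flipR B k (flipR B k n) = n := by
  unfold flipR
  rw [bR_update hB, Function.update_self, Function.update_idem]
  have : bR B k n - (bR B k n - n k) = n k := by omega
  rw [this, Function.update_eq_self]

/-- Logarithms of transported series (left). -/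
theorem L_trL {B : ι → ι → ℤ} {d : ι → ℕ} (hB : SkewSym B d) (k : ι) (f : T (WB B d))
    (hf0 : f 0 = 1) (hf : ∀ n, f n ≠ 0 → n k ≤ bL B k n) (n : ι → ℕ) :
    (n k ≤ bL B k n → L n (trL B d k f) = L (flipL B k n) f) ∧
      (¬ n k ≤ bL B k n → L n (trL B d k f) = 0) := by
  refine L_tr (ML B k) (flipL B k) (trL B d k) (fun f n hn => if_pos hn)
    (fun f n hn => if_neg hn) (fun f h hf hh => trL_mul hB k f h hf hh) (flipL_zero B k) ?_ f hf0 hf n
  intro m hm hm0 h
  apply hm0
  rw [← flipL_flipL hB k m hm, h, flipL_zero]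

/-- Logarithms of transported series (right). -/
theorem L_trR {B : ι → ι → ℤ} {d : ι → ℕ} (hB : SkewSym B d) (k : ι) (f : T (WB B d))
    (hf0 : f 0 = 1) (hf : ∀ n, f n ≠ 0 → n k ≤ bR B k n) (n : ι → ℕ) :
    (n k ≤ bR B k n → L n (trR B d k f) = L (flipR B k n) f) ∧
      (¬ n k ≤ bR B k n → L n (trR B d k f) = 0) := by
  refine L_tr (MR B k) (flipR B k) (trR B d k) (fun f n hn => if_pos hn)
    (fun f n hn => if_neg hn) (fun f h hf hh => trR_mul hB k f h hf hh) (flipR_zero B k) ?_ f hf0 hf n
  intro m hm hm0 h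
  apply hm0
  rw [← flipR_flipR hB k m hm, h, flipR_zero]

/-! ### Rays -/

section rays

variable {Λ : Type} [AddCommGroup Λ] [LinearOrder Λ] [IsOrderedAddMonoid Λ]

omit [LinearOrder Λ] [IsOrderedAddMonoid Λ] in
private theorem map_toZ_single (x : (ι → ℤ) →+ Λ) (k : ι) (s : ℕ) :
    x (toZ (Pi.single k s : ι → ℕ)) = s • x (Pi.single k 1) := by
  rw [toZ_single, map_zsmul, natCast_zsmul]

theorem coef_zero' (d : ℕ) : coef d 0 = 1 := by simp [coef]

theorem ray_zero (W : ι → ι → ℤ) (k : ι) (a : ℕ → ℚ) :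
    ray W (Pi.single k 1) a 0 = a 0 := by
  have := ray_single W k a 0
  rwa [Pi.single_zero] at this

theorem ray_isPos (W : ι → ι → ℤ) (x : (ι → ℤ) →+ Λ) (k : ι) (e : ℕ)
    (hx : 0 < x (Pi.single k 1)) : IsPos x (ray W (Pi.single k 1) (coef e)) := by
  refine ⟨by rw [ray_zero, coef_zero'], fun n hn h => ?_⟩
  obtain ⟨s, rfl⟩ := ray_ne_zero W k _ n h
  rw [map_toZ_single]
  apply nsmul_pos hx
  rintro rfl
  exact hn (by simp)

theorem ray_isNeg (W : ι → ι → ℤ) (x : (ι → ℤ) →+ Λ) (k : ι) (e : ℕ)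
    (hx : x (Pi.single k 1) < 0) : IsNeg x (ray W (Pi.single k 1) (coef e)) := by
  refine ⟨by rw [ray_zero, coef_zero'], fun n hn h => ?_⟩
  obtain ⟨s, rfl⟩ := ray_ne_zero W k _ n h
  rw [map_toZ_single]
  have hs : s ≠ 0 := by
    rintro rfl
    exact hn (by simp)
  have h2 : 0 < s • (-x (Pi.single k 1)) := nsmul_pos (by simpa using hx) hs
  rw [smul_neg] at h2
  simpa using h2

omit [IsOrderedAddMonoid Λ] in
theorem ray_isZer (W : ι → ι → ℤ) (x : (ι → ℤ) →+ Λ) (k : ι) (e : ℕ)
    (hx : x (Pi.single k 1) = 0) : IsZer x (ray W (Pi.single k 1) (coef e)) := by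
  refine ⟨by rw [ray_zero, coef_zero'], fun n h => ?_⟩
  obtain ⟨s, rfl⟩ := ray_ne_zero W k _ n h
  rw [map_toZ_single, hx, smul_zero]

end rays

/-- The logarithm of a ray is supported on the ray. -/
theorem L_ray_eq_zero (W : ι → ι → ℤ) (k : ι) (e : ℕ) (n : ι → ℕ)
    (hn : ∀ r, n ≠ Pi.single k r) : L n (ray W (Pi.single k 1) (coef e)) = 0 := by
  refine L_eq_zero_of_supp n _ (by rw [ray_zero, coef_zero'])
    {m | ∃ s, m = Pi.single k s} ?_ ?_ ?_
  · rintro u ⟨s, rfl⟩ v ⟨t, rfl⟩
    exact ⟨s + t, by rw [Pi.single_add]⟩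
  · intro m _ hm
    exact ray_ne_zero W k _ m hm
  · rintro ⟨s, hs⟩
    exact hn s hs

/-! ### Exceptional vectors -/

private theorem b_single (B : ι → ι → ℤ) (k j : ι) (r : ℕ) :
    bL B k (Pi.single j r) = (B k j).toNat * r ∧ bR B k (Pi.single j r) = (-B k j).toNat * r := by
  constructor
  · unfold bL
    rw [Finset.sum_eq_single j]
    · simp
    · intro i _ hi; simp [hi]
    · simp
  · unfold bR
    rw [Finset.sum_eq_single j]
    · simp
    · intro i _ hi; simp [hi]
    · simp

private theorem sideL {B : ι → ι → ℤ} {d : ι → ℕ} (hB : SkewSym B d) (k : ι) (n : ι → ℕ)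
    (hn : ∀ j r, n ≠ Pi.single j r) (hM : n k ≤ bL B k n) (hle : bL B k n ≤ bR B k n) :
    ∀ j r, flipL B k n ≠ Pi.single j r := by
  intro j r h
  have e1 : bL B k n = bL B k (flipL B k n) := (bL_update hB k n _).symm
  have e2 : bR B k n = bR B k (flipL B k n) := (bR_update hB k n _).symm
  rw [h, (b_single B k j r).1] at e1
  rw [h, (b_single B k j r).2] at e2
  have h0 : bL B k n = 0 := by
    rcases le_total (B k j) 0 with hb | hb
    · rw [e1, Int.toNat_of_nonpos hb, zero_mul]
    · rw [Int.toNat_of_nonpos (by omega : -B k j ≤ 0), zero_mul] at e2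
      omega
  apply hn j r
  rw [← h]
  unfold flipL
  rw [h0]
  have : n k = 0 := by omega
  rw [Nat.zero_sub]
  conv_lhs => rw [← Function.update_eq_self k n, this]

private theorem sideR {B : ι → ι → ℤ} {d : ι → ℕ} (hB : SkewSym B d) (k : ι) (n : ι → ℕ)
    (hn : ∀ j r, n ≠ Pi.single j r) (hM : n k ≤ bR B k n) (hle : bR B k n ≤ bL B k n) :
    ∀ j r, flipR B k n ≠ Pi.single j r := by
  intro j r h
  have e1 : bR B k n = bR B k (flipR B k n) := (bR_update hB k n _).symm
  have e2 : bL B k n = bL B k (flipR B k n) := (bL_update hB k n _).symm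
  rw [h, (b_single B k j r).2] at e1
  rw [h, (b_single B k j r).1] at e2
  have h0 : bR B k n = 0 := by
    rcases le_total (B k j) 0 with hb | hb
    · rw [Int.toNat_of_nonpos hb, zero_mul] at e2
      omega
    · rw [e1, Int.toNat_of_nonpos (by omega : -B k j ≤ 0), zero_mul]
  apply hn j r
  rw [← h]
  unfold flipR
  rw [h0]
  have : n k = 0 := by omega
  rw [Nat.zero_sub]
  conv_lhs => rw [← Function.update_eq_self k n, this]

private theorem toZ_flipL (B : ι → ι → ℤ) (k : ι) (n : ι → ℕ) (hn : n k ≤ bL B k n) :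
    toZ (flipL B k n) = zL B k (toZ n) := by
  funext i
  show ((flipL B k n) i : ℤ) =
    Function.update (toZ n) k ((∑ j, max (B k j) 0 * toZ n j) - toZ n k) i
  unfold flipL
  by_cases h : i = k
  · subst h
    rw [Function.update_self, Function.update_self, Nat.cast_sub hn]
    simp [bL, toZ]
  · simp [h, toZ]

private theorem toZ_flipR (B : ι → ι → ℤ) (k : ι) (n : ι → ℕ) (hn : n k ≤ bR B k n) :
    toZ (flipR B k n) = zR B k (toZ n) := by
  funext i
  show ((flipR B k n) i : ℤ) =
    Function.update (toZ n) k ((∑ j, max (-B k j) 0 * toZ n j) - toZ n k) i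
  unfold flipR
  by_cases h : i = k
  · subst h
    rw [Function.update_self, Function.update_self, Nat.cast_sub hn]
    simp [bR, toZ]
  · simp [h, toZ]

private theorem omHom_L {B : ι → ι → ℤ} {d : ι → ℕ} (hB : SkewSym B d) (k : ι) (n : ι → ℕ) :
    omHom (WB (mutB B k) d) (toZ n) = (omHom (WB B d) (zL B k (toZ n))).comp (zL B k) := by
  ext m
  all_goals simp only [omHom, AddMonoidHom.coe_mk, ZeroHom.coe_mk, AddMonoidHom.comp_apply]
  all_goals exact om_zL hB k _ _

private theorem omHom_R {B : ι → ι → ℤ} {d : ι → ℕ} (hB : SkewSym B d) (k : ι) (n : ι → ℕ) :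
    omHom (WB (mutB B k) d) (toZ n) = (omHom (WB B d) (zR B k (toZ n))).comp (zR B k) := by
  ext m
  all_goals simp only [omHom, AddMonoidHom.coe_mk, ZeroHom.coe_mk, AddMonoidHom.comp_apply]
  all_goals exact om_zR hB k _ _

private theorem zL_single {B : ι → ι → ℤ} {d : ι → ℕ} (hB : SkewSym B d) (k : ι) :
    zL B k (Pi.single k 1) = -Pi.single k 1 := by
  funext i
  show Function.update (Pi.single k (1 : ℤ) : ι → ℤ) k
    ((∑ j, max (B k j) 0 * (Pi.single k (1 : ℤ) : ι → ℤ) j) - (Pi.single k (1 : ℤ) : ι → ℤ) k) i = _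
  have h0 : ∑ j, max (B k j) 0 * (Pi.single k (1 : ℤ) : ι → ℤ) j = 0 := by
    rw [Finset.sum_eq_single k]
    · simp [B_diag hB]
    · intro j _ hj; simp [hj]
    · simp
  rw [h0]
  by_cases h : i = k
  · subst h; simp
  · simp [h]

private theorem zR_single {B : ι → ι → ℤ} {d : ι → ℕ} (hB : SkewSym B d) (k : ι) :
    zR B k (Pi.single k 1) = -Pi.single k 1 := by
  funext i
  show Function.update (Pi.single k (1 : ℤ) : ι → ℤ) k
    ((∑ j, max (-B k j) 0 * (Pi.single k (1 : ℤ) : ι → ℤ) j) - (Pi.single k (1 : ℤ) : ι → ℤ) k) i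
      = _
  have h0 : ∑ j, max (-B k j) 0 * (Pi.single k (1 : ℤ) : ι → ℤ) j = 0 := by
    rw [Finset.sum_eq_single k]
    · simp [B_diag hB]
    · intro j _ hj; simp [hj]
    · simp
  rw [h0]
  by_cases h : i = k
  · subst h; simp
  · simp [h]

private theorem WB_skew' {B : ι → ι → ℤ} {d : ι → ℕ} (hB : SkewSym B d) (i j : ι) :
    WB B d i j = -WB B d j i := hB.skew i j

theorem isG_mut {B : ι → ι → ℤ} {d : ι → ℕ} (hB : SkewSym B d) (k : ι) (g gl gr : T (WB B d))
    (hg : IsG B d g) (hgl : g = gl * EE B d k) (hgr : g = EE B d k * gr)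
    (hl : ∀ n, gl n ≠ 0 → n k ≤ bL B k n) (hr : ∀ n, gr n ≠ 0 → n k ≤ bR B k n) :
    IsG (mutB B k) d (EE (mutB B k) d k * trL B d k gl) := by
  have hB' := skewSym_mutB hB k
  have hprod := mut_prod hB k gl gr (hgl.symm.trans hgr) hl hr
  have hE0 : ∀ C : ι → ι → ℤ, EE C d k 0 = 1 := fun C => by
    unfold EE; rw [ray_zero, coef_zero']
  have hgl0 : gl 0 = 1 := by
    have := hg.one
    rw [hgl, T.mul_apply_zero, hE0, mul_one] at this
    exact this
  have hgr0 : gr 0 = 1 := by
    have := hg.one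
    rw [hgr, T.mul_apply_zero, hE0, one_mul] at this
    exact this
  have htl0 : trL B d k gl 0 = 1 := by
    show (if _ then _ else _) = (1 : ℚ)
    rw [if_pos (by simp), flipL_zero, hgl0]
  have htr0 : trR B d k gr 0 = 1 := by
    show (if _ then _ else _) = (1 : ℚ)
    rw [if_pos (by simp), flipR_zero, hgr0]
  refine ⟨?_, ?_, ?_⟩
  · rw [T.mul_apply_zero, hE0, htl0, one_mul]
  · intro j r
    by_cases hj : j = k
    · subst hj
      unfold EE
      rw [ray_mul_apply _ j (WB_diag hB' j), Finset.sum_eq_single r]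
      · rw [Pi.single_eq_same, Nat.sub_self]
        have e1 : Function.update (Pi.single j r : ι → ℕ) j 0 = 0 := by
          funext i
          by_cases h : i = j
          · subst h; simp
          · simp [h]
        rw [e1, htl0, mul_one]
        have e2 : om (WB (mutB B j) d) (Pi.single j 1) (toZ (Pi.single j r)) = 0 := by
          rw [om_WB_single_left, (b_single _ j j r).1, (b_single _ j j r).2, B_diag hB']
          simp
        rw [e2, mul_zero, zpow_zero, one_mul]
      · intro s hs hsr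
        rw [Pi.single_eq_same] at hs ⊢
        have hs' : s ≤ r := by
          have := Finset.mem_range.mp hs
          omega
        have e3 : trL B d j gl (Function.update (Pi.single j r : ι → ℕ) j (r - s)) = 0 := by
          show (if _ then _ else _) = (0 : ℚ)
          rw [if_neg]
          rw [bL_update hB, Function.update_self, (b_single _ j j r).1, B_diag hB]
          simp
          omega
        rw [e3, mul_zero]
      · intro h
        exfalso
        apply h
        rw [Pi.single_eq_same]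
        exact Finset.mem_range.mpr (Nat.lt_succ_self r)
    · have hk0 : (Pi.single j r : ι → ℕ) k = 0 := by simp [Ne.symm hj]
      have hu : Function.update (Pi.single j r : ι → ℕ) k 0 = Pi.single j r := by
        conv_rhs => rw [← Function.update_eq_self k (Pi.single j r : ι → ℕ), hk0]
      rcases le_total (B k j) 0 with hb | hb
      · unfold EE
        rw [ray_mul_apply _ k (WB_diag hB' k), hk0, Finset.sum_range_one]
        have e1 := hg.simple j r
        rw [hgl] at e1
        unfold EE at e1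
        rw [mul_ray_apply _ k (WB_diag hB k), hk0, Finset.sum_range_one] at e1
        rw [← e1]
        have e2 : trL B d k gl (Function.update (Pi.single j r : ι → ℕ) k (0 - 0)) =
            gl (Function.update (Pi.single j r : ι → ℕ) k (0 - 0)) := by
          show (if _ then _ else _) = _
          rw [Nat.sub_zero, hu, hk0, if_pos (Nat.zero_le _)]
          congr 1
          unfold flipL
          rw [(b_single _ k j r).1, Int.toNat_of_nonpos hb, zero_mul, Nat.zero_sub, hu]
        rw [e2]
        simp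
      · rw [hprod]
        unfold EE
        rw [mul_ray_apply _ k (WB_diag hB' k), hk0, Finset.sum_range_one]
        have e1 := hg.simple j r
        rw [hgr] at e1
        unfold EE at e1
        rw [ray_mul_apply _ k (WB_diag hB k), hk0, Finset.sum_range_one] at e1
        rw [← e1]
        have e2 : trR B d k gr (Function.update (Pi.single j r : ι → ℕ) k (0 - 0)) =
            gr (Function.update (Pi.single j r : ι → ℕ) k (0 - 0)) := by
          show (if _ then _ else _) = _
          rw [Nat.sub_zero, hu, hk0, if_pos (Nat.zero_le _)]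
          congr 1
          unfold flipR
          rw [(b_single _ k j r).2, Int.toNat_of_nonpos (by omega : -B k j ≤ 0), zero_mul,
            Nat.zero_sub, hu]
        rw [e2]
        simp
  · intro n hn
    have hdk : (0 : ℤ) < d k := by exact_mod_cast hB.pos k
    have hxk : omHom (WB (mutB B k) d) (toZ n) (Pi.single k 1) =
        d k * ((bR B k n : ℤ) - bL B k n) := by
      show om _ _ _ = _
      rw [om_WB_single_left, bL_mut, bR_mut]
    have hXL : omHom (WB B d) (zL B k (toZ n)) (Pi.single k 1) =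
        -(d k * ((bR B k n : ℤ) - bL B k n)) := by
      rw [← hxk, omHom_L hB, AddMonoidHom.comp_apply, zL_single hB, map_neg, neg_neg]
    have hXR : omHom (WB B d) (zR B k (toZ n)) (Pi.single k 1) =
        -(d k * ((bR B k n : ℤ) - bL B k n)) := by
      rw [← hxk, omHom_R hB, AddMonoidHom.comp_apply, zR_single hB, map_neg, neg_neg]
    unfold data
    rcases lt_trichotomy (bL B k n) (bR B k n) with hlt | heq | hgt
    · -- case A
      have hx : 0 < omHom (WB (mutB B k) d) (toZ n) (Pi.single k 1) := by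
        rw [hxk]
        apply mul_pos hdk
        have : (bL B k n : ℤ) < bR B k n := by exact_mod_cast hlt
        linarith
      have hX : omHom (WB B d) (zL B k (toZ n)) (Pi.single k 1) < 0 := by
        rw [hXL, ← hxk]; linarith
      have hp : IsPos (omHom (WB (mutB B k) d) (toZ n)) (EE (mutB B k) d k) :=
        ray_isPos _ _ k (d k) hx
      rw [zp_pos_mul _ hp htl0, omHom_L hB, zp_trL hB k _ gl hgl0 hl]
      have hsupp := zp_supp (omHom (WB B d) (zL B k (toZ n))) gl hgl0 (ML B k) hl
      have h0 := (isZer_zp (omHom (WB B d) (zL B k (toZ n))) gl hgl0).1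
      obtain ⟨h1, h2⟩ := L_trL hB k (zp (omHom (WB B d) (zL B k (toZ n))) gl) h0 hsupp n
      by_cases hM : n k ≤ bL B k n
      · rw [h1 hM]
        have hdat := hg.data (flipL B k n) (sideL hB k n hn hM hlt.le)
        unfold data at hdat
        rw [toZ_flipL B k n hM, hgl] at hdat
        have e := zp_mul_neg (omHom (WB B d) (zL B k (toZ n)))
          (ray_isNeg (WB B d) _ k (d k) hX) hgl0
        unfold EE at hdat
        rw [e] at hdat
        exact hdat
      · exact h2 hM
    · -- case C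
      have hx : omHom (WB (mutB B k) d) (toZ n) (Pi.single k 1) = 0 := by
        rw [hxk, heq]; ring
      have hX : omHom (WB B d) (zL B k (toZ n)) (Pi.single k 1) = 0 := by
        rw [hXL, heq]; ring
      have hz : IsZer (omHom (WB (mutB B k) d) (toZ n)) (EE (mutB B k) d k) :=
        ray_isZer _ _ k (d k) hx
      have hz2 : IsZer (omHom (WB B d) (zL B k (toZ n))) (EE B d k) :=
        ray_isZer _ _ k (d k) hX
      rw [zp_zer_mul _ hz htl0]
      have hzz := isZer_zp (omHom (WB (mutB B k) d) (toZ n)) (trL B d k gl) htl0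
      rw [L_mul (WB_skew' hB') n _ _ (hE0 _) hzz.1 hz.2 hzz.2]
      have e1 : L n (EE (mutB B k) d k) = 0 := L_ray_eq_zero _ k (d k) n (fun r => hn k r)
      rw [e1, zero_add, omHom_L hB, zp_trL hB k _ gl hgl0 hl]
      have hsupp := zp_supp (omHom (WB B d) (zL B k (toZ n))) gl hgl0 (ML B k) hl
      have hzg := isZer_zp (omHom (WB B d) (zL B k (toZ n))) gl hgl0
      obtain ⟨h1, h2⟩ := L_trL hB k (zp (omHom (WB B d) (zL B k (toZ n))) gl) hzg.1 hsupp n
      by_cases hM : n k ≤ bL B k n
      · rw [h1 hM]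
        have hns := sideL hB k n hn hM heq.le
        have hdat := hg.data (flipL B k n) hns
        unfold data at hdat
        rw [hgl, ← toZ_flipL B k n hM] at *
        rw [zp_mul_zer _ hz2 hgl0, L_mul (WB_skew' hB) _ _ _ hzg.1 (hE0 _) hzg.2 hz2.2] at hdat
        have e2 : L (flipL B k n) (EE B d k) = 0 :=
          L_ray_eq_zero _ k (d k) _ (fun r => hns k r)
        rw [e2, add_zero] at hdat
        exact hdat
      · exact h2 hM
    · -- case B
      have hx : omHom (WB (mutB B k) d) (toZ n) (Pi.single k 1) < 0 := by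
        rw [hxk]
        apply mul_neg_of_pos_of_neg hdk
        have : (bR B k n : ℤ) < bL B k n := by exact_mod_cast hgt
        linarith
      have hX : 0 < omHom (WB B d) (zR B k (toZ n)) (Pi.single k 1) := by
        rw [hXR, ← hxk]; linarith
      have hp : IsNeg (omHom (WB (mutB B k) d) (toZ n)) (EE (mutB B k) d k) :=
        ray_isNeg _ _ k (d k) hx
      rw [hprod, zp_mul_neg _ hp htr0, omHom_R hB, zp_trR hB k _ gr hgr0 hr]
      have hsupp := zp_supp (omHom (WB B d) (zR B k (toZ n))) gr hgr0 (MR B k) hr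
      have h0 := (isZer_zp (omHom (WB B d) (zR B k (toZ n))) gr hgr0).1
      obtain ⟨h1, h2⟩ := L_trR hB k (zp (omHom (WB B d) (zR B k (toZ n))) gr) h0 hsupp n
      by_cases hM : n k ≤ bR B k n
      · rw [h1 hM]
        have hdat := hg.data (flipR B k n) (sideR hB k n hn hM hgt.le)
        unfold data at hdat
        rw [toZ_flipR B k n hM, hgr] at hdat
        have e := zp_pos_mul (omHom (WB B d) (zR B k (toZ n)))
          (ray_isPos (WB B d) _ k (d k) hX) hgr0
        unfold EE at hdat
        rw [e] at hdat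
        exact hdat
      · exact h2 hM

end MutMain

end Pool.Agent.RootConj
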