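import Pool.Agent.RootConj.Data
import Pool.Agent.RootConj.MutMain

set_option autoImplicit false
set_option linter.unusedSectionVars false

/-!
# c-vectors are the normals of chambers of the scattering element
-/

namespace Pool.Agent.RootConj

section CVec

variable {ι : Type} [Fintype ι] [DecidableEq ι]

/-- The statement proved by induction on mutation sequences. -/
structure Good (B : ι → ι → ℤ) (d : ι → ℕ) (l : List ι) : Prop where
  form : ∀ i j, om (WB B d) (cv B l i) (cv B l j) = WB (run B l).1 d i j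
  basis : ∃ R : ι → ((ι → ℤ) →+ ℤ), (∀ i j, R i (cv B l j) = if i = j then 1 else 0) ∧
    ∀ m, m = ∑ i, R i m • cv B l i
  sign : ∀ j, (∀ i, 0 ≤ cv B l j i) ∨ (∀ i, cv B l j i ≤ 0)
  chamber : ∀ g, IsG B d g → ∀ x : (ι → ℤ) →+ ℤ, (∀ j, 0 < x (cv B l j)) → zp x g = 1
  facet : ∀ g, IsG B d g → ∀ j, ∀ x : (ι → ℤ) →+ ℤ, x (cv B l j) = 0 →
    (∀ i, i ≠ j → 0 < x (cv B l i)) →
      zp x g = ray (WB B d) (fun i => (cv B l j i).natAbs) (coef (d j))

/-- The support property of scattering elements (proved in module Pk). -/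
def PkProp (ι : Type) [Fintype ι] [DecidableEq ι] : Prop :=
  ∀ (B : ι → ι → ℤ) (d : ι → ℕ), SkewSym B d → ∀ g, IsG B d g → ∀ (k : ι) (gl gr : T (WB B d)),
    g = gl * EE B d k → g = EE B d k * gr →
      (∀ n, gl n ≠ 0 → n k ≤ bL B k n) ∧ (∀ n, gr n ≠ 0 → n k ≤ bR B k n)

namespace CVecAux

/-! ### The run -/

theorem run_concat (B : ι → ι → ℤ) (l : List ι) (k : ι) :
    run B (l ++ [k]) = step (run B l) k := by
  simp [run, List.foldl_append]

theorem foldl_fst (l : List ι) (P Q : (ι → ι → ℤ) × (ι → ι → ℤ)) (h : P.1 = Q.1) :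
    (l.foldl step P).1 = (l.foldl step Q).1 := by
  induction l generalizing P Q with
  | nil => exact h
  | cons a l ih =>
    simp only [List.foldl_cons]
    apply ih
    simp [step, h]

theorem run_cons_fst (B : ι → ι → ℤ) (k : ι) (l : List ι) :
    (run B (k :: l)).1 = (run (mutB B k) l).1 := by
  unfold run
  simp only [List.foldl_cons]
  exact foldl_fst l _ _ rfl

theorem sign_mul_max (a b ε : ℤ) (hε : ε = 1 ∨ ε = -1) (h : 0 ≤ ε * a) :
    a.sign * max (a * b) 0 = max (ε * b) 0 * a := by
  rcases lt_trichotomy a 0 with ha | ha | ha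
  · have h1 : ε = -1 := by
      rcases hε with h1 | h1
      · subst h1; omega
      · exact h1
    subst h1
    rw [Int.sign_eq_neg_one_of_neg ha]
    rcases le_total b 0 with hb | hb
    · rw [max_eq_left (mul_nonneg_of_nonpos_of_nonpos ha.le hb), max_eq_left (by linarith)]; ring
    · rw [max_eq_right (mul_nonpos_of_nonpos_of_nonneg ha.le hb), max_eq_right (by linarith)]; ring
  · subst ha; simp
  · have h1 : ε = 1 := by
      rcases hε with h1 | h1
      · exact h1
      · subst h1; omega
    subst h1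
    rw [Int.sign_eq_one_of_pos ha]
    rcases le_total b 0 with hb | hb
    · rw [max_eq_right (mul_nonpos_of_nonneg_of_nonpos ha.le hb), max_eq_right (by linarith)]; ring
    · rw [max_eq_left (mul_nonneg ha.le hb), max_eq_left (by linarith)]; ring

theorem cv_concat_ne (B : ι → ι → ℤ) (l : List ι) (a j : ι) (hj : j ≠ a) (ε : ℤ)
    (hε : ε = 1 ∨ ε = -1) (h : ∀ i, 0 ≤ ε * cv B l a i) :
    cv B (l ++ [a]) j = cv B l j + max (ε * (run B l).1 a j) 0 • cv B l a := by
  funext i
  have h2 := h i
  simp only [cv] at h2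
  simp only [cv, run_concat, step, mutC, if_neg hj, Pi.add_apply, Pi.smul_apply, smul_eq_mul]
  rw [sign_mul_max _ _ ε hε h2]

theorem cv_concat_self (B : ι → ι → ℤ) (l : List ι) (a : ι) :
    cv B (l ++ [a]) a = -cv B l a := by
  funext i
  simp [cv, run_concat, step, mutC]

theorem cv_nil (B : ι → ι → ℤ) (j : ι) : cv B [] j = Pi.single j 1 := by
  funext i
  simp [cv, run, idM, Pi.single_apply]

/-! ### The change of coordinates -/

/-- The sign of a side. -/
def sg (s : Bool) : ℤ := if s then 1 else -1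

theorem sg_cases (s : Bool) : sg s = 1 ∨ sg s = -1 := by cases s <;> simp [sg]

/-- The coefficients of the change of coordinates. -/
def be (B : ι → ι → ℤ) (k : ι) (s : Bool) : ι → ℕ :=
  fun j => if s then (B k j).toNat else (-B k j).toNat

/-- The change of coordinates. -/
def zz (B : ι → ι → ℤ) (k : ι) (s : Bool) : (ι → ℤ) →+ (ι → ℤ) := if s then zL B k else zR B k

theorem zz_ne (B : ι → ι → ℤ) (k : ι) (s : Bool) (v : ι → ℤ) (i : ι) (h : i ≠ k) :
    zz B k s v i = v i := by
  cases s
  · simp [zz, zR, h]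
  · simp [zz, zL, h]

theorem zz_self (B : ι → ι → ℤ) (k : ι) (s : Bool) (v : ι → ℤ) :
    zz B k s v k = (∑ j, max (sg s * B k j) 0 * v j) - v k := by
  cases s
  · simp [zz, zR, sg]
  · simp [zz, zL, sg]

theorem be_cast (B : ι → ι → ℤ) (k : ι) (s : Bool) (j : ι) :
    ((be B k s j : ℕ) : ℤ) = max (sg s * B k j) 0 := by
  cases s
  · simp [be, sg]
  · simp [be, sg]

theorem diag_zero {B : ι → ι → ℤ} {d : ι → ℕ} (hB : SkewSym B d) (k : ι) : B k k = 0 := by
  have h := hB.skew k k
  have h2 := hB.pos k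
  have h3 : (0 : ℤ) < d k := by exact_mod_cast h2
  have h4 : (d k : ℤ) * B k k = 0 := by linarith
  rcases mul_eq_zero.mp h4 with h5 | h5
  · omega
  · exact h5

theorem zz_zz {B : ι → ι → ℤ} {d : ι → ℕ} (hB : SkewSym B d) (k : ι) (s : Bool) (v : ι → ℤ) :
    zz B k s (zz B k s v) = v := by
  funext i
  by_cases h : i = k
  · subst h
    rw [zz_self, zz_self]
    have : ∑ j, max (sg s * B i j) 0 * zz B i s v j = ∑ j, max (sg s * B i j) 0 * v j := by
      refine Finset.sum_congr rfl fun j _ => ?_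
      by_cases hj : j = i
      · subst hj; simp [diag_zero hB]
      · rw [zz_ne _ _ _ _ _ hj]
    rw [this]; ring
  · rw [zz_ne _ _ _ _ _ h, zz_ne _ _ _ _ _ h]

theorem zz_single_self {B : ι → ι → ℤ} {d : ι → ℕ} (hB : SkewSym B d) (k : ι) (s : Bool) :
    zz B k s (Pi.single k 1) = -Pi.single k 1 := by
  funext i
  by_cases h : i = k
  · subst h
    rw [zz_self]
    have : ∑ j, max (sg s * B i j) 0 * (Pi.single i (1 : ℤ) : ι → ℤ) j = 0 := by
      refine Finset.sum_eq_zero fun j _ => ?_
      by_cases hj : j = i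
      · subst hj; simp [diag_zero hB]
      · simp [hj]
    rw [this]; simp
  · rw [zz_ne _ _ _ _ _ h]; simp [h]

theorem zz_sub {B : ι → ι → ℤ} (k : ι) (s : Bool) (v : ι → ℤ) :
    zz B k s v = zz B k (!s) v + (sg s * ∑ j, B k j * v j) • (Pi.single k 1 : ι → ℤ) := by
  funext i
  by_cases h : i = k
  · subst h
    simp only [Pi.add_apply, Pi.smul_apply, Pi.single_eq_same, smul_eq_mul, mul_one]
    rw [zz_self, zz_self, Finset.mul_sum]
    have : ∑ j, max (sg s * B i j) 0 * v j =
        ∑ j, max (sg (!s) * B i j) 0 * v j + ∑ j, sg s * (B i j * v j) := by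
      rw [← Finset.sum_add_distrib]
      refine Finset.sum_congr rfl fun j _ => ?_
      have : max (sg s * B i j) 0 = max (sg (!s) * B i j) 0 + sg s * B i j := by
        cases s
        · simp only [sg]; norm_num
          rcases le_total (B i j) 0 with hb | hb
          · rw [max_eq_left (by linarith), max_eq_right hb]; ring
          · rw [max_eq_right (by linarith), max_eq_left hb]; ring
        · simp only [sg]; norm_num
          rcases le_total (B i j) 0 with hb | hb
          · rw [max_eq_right hb, max_eq_left (by linarith)]; ring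
          · rw [max_eq_left hb, max_eq_right (by linarith)]; ring
      rw [this]; ring
    rw [this]; ring
  · simp [zz_ne _ _ _ _ _ h, h]

theorem om_zz {B : ι → ι → ℤ} {d : ι → ℕ} (hB : SkewSym B d) (k : ι) (s : Bool) (a b : ι → ℤ) :
    om (WB (mutB B k) d) a b = om (WB B d) (zz B k s a) (zz B k s b) := by
  cases s
  · exact om_zR hB k a b
  · exact om_zL hB k a b

theorem cv_one (B : ι → ι → ℤ) {d : ι → ℕ} (hB : SkewSym B d) (k j : ι) :
    cv B [k] j = zz B k true (Pi.single j 1) := by
  by_cases hj : j = k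
  · subst hj
    rw [zz_single_self hB]
    have := cv_concat_self B [] j
    rw [List.nil_append] at this
    rw [this, cv_nil]
  · have := cv_concat_ne B [] k j hj 1 (Or.inl rfl) (by
      intro i; rw [cv_nil]; by_cases h : i = k
      · subst h; simp
      · simp [h])
    rw [List.nil_append] at this
    rw [this, cv_nil, cv_nil]
    funext i
    by_cases h : i = k
    · subst h
      rw [zz_self]
      have h2 : ∑ m, max (sg true * B i m) 0 * (Pi.single j (1 : ℤ) : ι → ℤ) m =
          max (B i j) 0 := by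
        rw [Finset.sum_eq_single j]
        · simp [sg]
        · intro m _ hm; simp [hm]
        · intro hm; exact absurd (Finset.mem_univ _) hm
      rw [h2]
      simp [run, Ne.symm hj]
    · rw [zz_ne _ _ _ _ _ h]; simp [h]

/-! ### Natural version -/

/-- `∑ β_j n_j`. -/
def bb (β : ι → ℕ) (n : ι → ℕ) : ℕ := ∑ j, β j * n j

/-- The flip. -/
def ff (β : ι → ℕ) (k : ι) (n : ι → ℕ) : ι → ℕ := Function.update n k (bb β n - n k)

theorem bb_ff (β : ι → ℕ) (k : ι) (hβ : β k = 0) (n : ι → ℕ) : bb β (ff β k n) = bb β n := by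
  unfold bb
  refine Finset.sum_congr rfl fun j _ => ?_
  by_cases h : j = k
  · subst h; simp [hβ]
  · simp [ff, h]

theorem ff_self (β : ι → ℕ) (k : ι) (n : ι → ℕ) : ff β k n k = bb β n - n k := by
  simp [ff]

theorem ff_ne (β : ι → ℕ) (k : ι) (n : ι → ℕ) (i : ι) (h : i ≠ k) : ff β k n i = n i := by
  simp [ff, h]

theorem ff_le (β : ι → ℕ) (k : ι) (hβ : β k = 0) (n : ι → ℕ) :
    ff β k n k ≤ bb β (ff β k n) := by
  rw [bb_ff β k hβ, ff_self]; omega

theorem ff_ff (β : ι → ℕ) (k : ι) (hβ : β k = 0) (n : ι → ℕ) (hn : n k ≤ bb β n) :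
    ff β k (ff β k n) = n := by
  funext i
  by_cases h : i = k
  · subst h
    rw [ff_self, bb_ff β i hβ, ff_self]; omega
  · rw [ff_ne _ _ _ _ h, ff_ne _ _ _ _ h]

theorem ff_zero (β : ι → ℕ) (k : ι) : ff β k 0 = 0 := by
  funext i
  by_cases h : i = k
  · subst h; rw [ff_self]; simp [bb]
  · rw [ff_ne _ _ _ _ h]

theorem bb_smul (β : ι → ℕ) (r : ℕ) (n : ι → ℕ) : bb β (r • n) = r * bb β n := by
  unfold bb
  rw [Finset.mul_sum]
  refine Finset.sum_congr rfl fun j _ => ?_
  simp only [Pi.smul_apply, smul_eq_mul]; ring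

theorem ff_smul (β : ι → ℕ) (k : ι) (r : ℕ) (n : ι → ℕ) : ff β k (r • n) = r • ff β k n := by
  funext i
  by_cases h : i = k
  · subst h
    simp only [ff_self, bb_smul, Pi.smul_apply, smul_eq_mul, Nat.mul_sub]
  · simp [ff_ne _ _ _ _ h]

theorem toZ_ff (B : ι → ι → ℤ) (k : ι) (s : Bool) (n : ι → ℕ)
    (hn : n k ≤ bb (be B k s) n) : toZ (ff (be B k s) k n) = zz B k s (toZ n) := by
  funext i
  by_cases h : i = k
  · subst h
    rw [zz_self]
    unfold toZ
    rw [ff_self, Nat.cast_sub hn, bb, Nat.cast_sum]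
    congr 1
    refine Finset.sum_congr rfl fun j _ => ?_
    rw [Nat.cast_mul, be_cast]
  · rw [zz_ne _ _ _ _ _ h]
    simp [toZ, ff_ne _ _ _ _ h]

/-! ### Rays -/

theorem ray_smul {W : ι → ι → ℤ} (c : ι → ℕ) (hc : c ≠ 0) (a : ℕ → ℚ) (r : ℕ) :
    ray W c a (r • c) = a r := by
  obtain ⟨i, hi⟩ : ∃ i, c i ≠ 0 := by
    by_contra h
    push Not at h
    exact hc (funext h)
  unfold ray
  rw [Finset.sum_eq_single r]
  · simp
  · intro b _ hb
    rw [if_neg]
    intro h
    have := congrFun h i
    simp only [Pi.smul_apply, smul_eq_mul] at this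
    exact hb (Nat.eq_of_mul_eq_mul_right (Nat.pos_of_ne_zero hi) this).symm
  · intro h
    exfalso
    apply h
    rw [Finset.mem_range]
    have h1 : (r • c) i ≤ ∑ j, (r • c) j := Finset.single_le_sum (fun j _ => Nat.zero_le _)
      (Finset.mem_univ i)
    simp only [Pi.smul_apply, smul_eq_mul] at h1 ⊢
    have h2 : r ≤ r * c i := Nat.le_mul_of_pos_right r (Nat.pos_of_ne_zero hi)
    omega

theorem ray_of_not {W : ι → ι → ℤ} (c : ι → ℕ) (a : ℕ → ℚ) (n : ι → ℕ)
    (h : ∀ r : ℕ, n ≠ r • c) : ray W c a n = 0 := by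
  unfold ray
  exact Finset.sum_eq_zero fun r _ => if_neg (h r)

theorem coef_one_ne (d : ℕ) (hd : 0 < d) : coef d 1 ≠ 0 := by
  unfold coef
  have h4 : (1 : ℚ) < 4 ^ d := one_lt_pow₀ (by norm_num) hd.ne'
  simp only [mul_one, Finset.Icc_self, Finset.prod_singleton]
  have : (4 : ℚ) ^ d - 1 ≠ 0 := by linarith
  positivity

theorem coef_zero (d : ℕ) : coef d 0 = 1 := by simp [coef]

theorem coef_one_inj (d e : ℕ) (hd : 0 < d) (he : 0 < e) (h : coef d 1 = coef e 1) : d = e := by
  unfold coef at h
  simp only [mul_one, Finset.Icc_self, Finset.prod_singleton] at h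
  have h4 : (4 : ℚ) ^ d = (2 ^ d) ^ 2 := by rw [← pow_mul, mul_comm, pow_mul]; norm_num
  have h4' : (4 : ℚ) ^ e = (2 ^ e) ^ 2 := by rw [← pow_mul, mul_comm, pow_mul]; norm_num
  have ha : (1 : ℚ) < 2 ^ d := one_lt_pow₀ (by norm_num) hd.ne'
  have hb : (1 : ℚ) < 2 ^ e := one_lt_pow₀ (by norm_num) he.ne'
  rw [h4, h4'] at h
  generalize hA : (2 : ℚ) ^ d = a at *
  generalize hB' : (2 : ℚ) ^ e = b at *
  have h1 : a ^ 2 - 1 ≠ 0 := by nlinarith
  have h2 : b ^ 2 - 1 ≠ 0 := by nlinarith
  rw [div_eq_div_iff h1 h2] at h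
  have h3 : (b - a) * (a * b + 1) = 0 := by linarith [h, mul_comm a b]
  have h5 : a = b := by
    rcases mul_eq_zero.mp h3 with h6 | h6
    · linarith
    · nlinarith
  rw [← h5] at hB'
  rw [← hA] at hB'
  have : (2 : ℚ) ^ e = 2 ^ d := hB'
  exact (pow_right_injective₀ (by norm_num : (0 : ℚ) < 2) (by norm_num) this).symm

/-! ### Transport -/

theorem transport_one {W W' : ι → ι → ℤ} (k : ι) (β : ι → ℕ) (hβ : β k = 0) (F : T W) (t : T W')
    (hF : ∀ n, F n ≠ 0 → n k ≤ bb β n)
    (ht : ∀ n, t n = if n k ≤ bb β n then F (ff β k n) else 0) (h1 : t = 1) : F = 1 := by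
  ext n
  by_cases hn : n k ≤ bb β n
  · have h2 := ht (ff β k n)
    rw [if_pos (ff_le β k hβ n), ff_ff β k hβ n hn, h1, T.one_apply] at h2
    rw [← h2, T.one_apply]
    by_cases h0 : n = 0
    · subst h0; rw [ff_zero]
    · rw [if_neg h0, if_neg]
      intro h3
      apply h0
      rw [← ff_ff β k hβ n hn, h3, ff_zero]
  · have h2 : F n = 0 := by
      by_contra h3; exact hn (hF n h3)
    rw [h2, T.one_apply, if_neg]
    intro h3; subst h3; exact hn (by simp)

theorem transport_ray {W W' : ι → ι → ℤ} (k : ι) (β : ι → ℕ) (hβ : β k = 0) (F : T W) (t : T W')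
    (hF : ∀ n, F n ≠ 0 → n k ≤ bb β n)
    (ht : ∀ n, t n = if n k ≤ bb β n then F (ff β k n) else 0) (v : ι → ℕ) (hv : v ≠ 0)
    (a : ℕ → ℚ) (ha : a 1 ≠ 0) (h : t = ray W' v a) :
    v k ≤ bb β v ∧ F = ray W (ff β k v) a := by
  have hvk : v k ≤ bb β v := by
    by_contra h2
    have h3 := ht v
    rw [if_neg h2, h] at h3
    have h4 := ray_smul (W := W') v hv a 1
    rw [one_smul] at h4
    exact ha (h4.symm.trans h3)
  have hfv : ff β k v ≠ 0 := by
    intro h2; apply hv; rw [← ff_ff β k hβ v hvk, h2, ff_zero]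
  refine ⟨hvk, ?_⟩
  ext n
  by_cases hn : n k ≤ bb β n
  · have h2 := ht (ff β k n)
    rw [if_pos (ff_le β k hβ n), ff_ff β k hβ n hn, h] at h2
    rw [← h2]
    by_cases hr : ∃ r : ℕ, n = r • ff β k v
    · obtain ⟨r, rfl⟩ := hr
      rw [ray_smul _ hfv, ff_smul, ff_ff β k hβ v hvk, ray_smul _ hv]
    · push Not at hr
      rw [ray_of_not _ _ _ hr, ray_of_not]
      intro r h3
      apply hr r
      rw [← ff_smul, ← h3, ff_ff β k hβ n hn]
  · have h2 : F n = 0 := by
      by_contra h3; exact hn (hF n h3)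
    rw [h2, ray_of_not]
    intro r h3
    apply hn
    rw [h3, ← ff_smul]
    exact ff_le β k hβ _

theorem ff_coords (B : ι → ι → ℤ) (k : ι) {d : ι → ℕ} (hB : SkewSym B d) (s : Bool) :
    be B k s k = 0 := by
  cases s <;> simp [be, diag_zero hB]

/-- Multiplication by a unit on the left. -/
theorem eq_one_of_mul_left {W : ι → ι → ℤ} (E t : T W) (hE : E 0 = 1) (h : E * t = E) : t = 1 := by
  obtain ⟨g, _, h2, _⟩ := exists_inv E hE
  calc t = (g * E) * t := by rw [h2, one_mul]
    _ = g * (E * t) := mul_assoc _ _ _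
    _ = 1 := by rw [h, h2]

theorem eq_one_of_mul_right {W : ι → ι → ℤ} (E t : T W) (hE : E 0 = 1) (h : t * E = E) :
    t = 1 := by
  obtain ⟨g, h2, _, _⟩ := exists_inv E hE
  calc t = t * (E * g) := by rw [h2, mul_one]
    _ = (t * E) * g := (mul_assoc _ _ _).symm
    _ = 1 := by rw [h, h2]

theorem single_ne {k : ι} : (Pi.single k 1 : ι → ℕ) ≠ 0 := by
  intro h
  have := congrFun h k
  simp at this

theorem toZ_single (k : ι) : toZ (Pi.single k 1 : ι → ℕ) = Pi.single k 1 := by
  funext i
  by_cases h : i = k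
  · subst h; simp [toZ]
  · simp [toZ, h]

theorem toZ_smul (r : ℕ) (n : ι → ℕ) : toZ (r • n) = r • toZ n := by
  funext i
  simp [toZ]

theorem EE_zero (B : ι → ι → ℤ) (d : ι → ℕ) (k : ι) : EE B d k 0 = 1 := by
  have := ray_smul (W := WB B d) (Pi.single k 1) single_ne (coef (d k)) 0
  rw [zero_smul, coef_zero] at this
  exact this

theorem EE_supp (B : ι → ι → ℤ) (d : ι → ℕ) (k : ι) (n : ι → ℕ) (h : EE B d k n ≠ 0) :
    ∃ r : ℕ, n = r • Pi.single k 1 := by
  by_contra h2
  push Not at h2
  exact h (ray_of_not _ _ _ h2)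

theorem EE_isPos (B : ι → ι → ℤ) (d : ι → ℕ) (k : ι) (x : (ι → ℤ) →+ ℤ)
    (hx : 0 < x (Pi.single k 1)) : IsPos x (EE B d k) := by
  refine ⟨EE_zero B d k, fun n hn h => ?_⟩
  obtain ⟨r, rfl⟩ := EE_supp B d k n h
  have hr : r ≠ 0 := by rintro rfl; exact hn (by simp)
  rw [toZ_smul, toZ_single, map_nsmul, nsmul_eq_mul]
  have : (0 : ℤ) < r := by exact_mod_cast Nat.pos_of_ne_zero hr
  positivity

theorem EE_isNeg (B : ι → ι → ℤ) (d : ι → ℕ) (k : ι) (x : (ι → ℤ) →+ ℤ)
    (hx : x (Pi.single k 1) < 0) : IsNeg x (EE B d k) := by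
  refine ⟨EE_zero B d k, fun n hn h => ?_⟩
  obtain ⟨r, rfl⟩ := EE_supp B d k n h
  have hr : r ≠ 0 := by rintro rfl; exact hn (by simp)
  rw [toZ_smul, toZ_single, map_nsmul, nsmul_eq_mul]
  have : (0 : ℤ) < r := by exact_mod_cast Nat.pos_of_ne_zero hr
  exact mul_neg_of_pos_of_neg this hx

theorem EE_isZer (B : ι → ι → ℤ) (d : ι → ℕ) (k : ι) (x : (ι → ℤ) →+ ℤ)
    (hx : x (Pi.single k 1) = 0) : IsZer x (EE B d k) := by
  refine ⟨EE_zero B d k, fun n h => ?_⟩
  obtain ⟨r, rfl⟩ := EE_supp B d k n h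
  rw [toZ_smul, toZ_single, map_nsmul, hx, smul_zero]

theorem bb_be_true (B : ι → ι → ℤ) (k : ι) (n : ι → ℕ) : bb (be B k true) n = bL B k n := by
  simp [bb, be, bL]

theorem bb_be_false (B : ι → ι → ℤ) (k : ι) (n : ι → ℕ) : bb (be B k false) n = bR B k n := by
  simp [bb, be, bR]

theorem ff_be_true (B : ι → ι → ℤ) (k : ι) (n : ι → ℕ) :
    ff (be B k true) k n = flipL B k n := by
  simp [ff, bb_be_true, flipL]

theorem ff_be_false (B : ι → ι → ℤ) (k : ι) (n : ι → ℕ) :
    ff (be B k false) k n = flipR B k n := by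
  simp [ff, bb_be_false, flipR]

/-- The submonoid `n_k ≤ bb β n`. -/
def cone (β : ι → ℕ) (k : ι) : AddSubmonoid (ι → ℕ) where
  carrier := {n | n k ≤ bb β n}
  zero_mem' := by simp
  add_mem' := by
    intro a b ha hb
    simp only [Set.mem_setOf_eq] at ha hb ⊢
    have : bb β (a + b) = bb β a + bb β b := by
      simp [bb, mul_add, Finset.sum_add_distrib]
    rw [this]
    exact add_le_add ha hb

/-- Zero parts in the two coordinate systems. -/
theorem transfer (hP : PkProp ι) {B : ι → ι → ℤ} {d : ι → ℕ} (hB : SkewSym B d) (k : ι)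
    (g : T (WB B d)) (hg : IsG B d g) (s : Bool) :
    ∃ g1 : T (WB (mutB B k) d), IsG (mutB B k) d g1 ∧ ∀ x : (ι → ℤ) →+ ℤ,
      ∃ (F : T (WB B d)) (t : T (WB (mutB B k) d)),
        (∀ n, F n ≠ 0 → n k ≤ bb (be B k s) n) ∧
        (∀ n, t n = if n k ≤ bb (be B k s) n then F (ff (be B k s) k n) else 0) ∧
        (0 < sg s * (x.comp (zz B k s)) (Pi.single k 1) →
          zp x g = F ∧ zp (x.comp (zz B k s)) g1 = t) ∧
        ((x.comp (zz B k s)) (Pi.single k 1) = 0 →
          (zp (x.comp (zz B k s)) g1 = EE (mutB B k) d k → t = 1) ∧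
          (F = 1 → zp x g = EE B d k)) := by
  obtain ⟨e, he1, he2, he0⟩ := exists_inv (EE B d k) (EE_zero B d k)
  set gl := g * e with hgl
  set gr := e * g with hgr
  have hl : g = gl * EE B d k := by rw [hgl, mul_assoc, he2, mul_one]
  have hr : g = EE B d k * gr := by rw [hgr, ← mul_assoc, he1, one_mul]
  obtain ⟨hsl, hsr⟩ := hP B d hB g hg k gl gr hl hr
  have hprod := mut_prod hB k gl gr (by rw [← hl, ← hr]) hsl hsr
  have hG := isG_mut hB k g gl gr hg hl hr hsl hsr
  have hgl0 : gl 0 = 1 := by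
    rw [hgl, T.mul_apply_zero, hg.one, he0, mul_one]
  have hgr0 : gr 0 = 1 := by
    rw [hgr, T.mul_apply_zero, hg.one, he0, mul_one]
  refine ⟨_, hG, fun x => ?_⟩
  have hxk : (x.comp (zz B k s)) (Pi.single k 1) = -x (Pi.single k 1) := by
    rw [AddMonoidHom.comp_apply, zz_single_self hB, map_neg]
  cases s
  · -- the right side
    have hzz : zz B k false = zR B k := rfl
    have htr0 : trR B d k gr 0 = 1 := by
      unfold trR
      rw [if_pos (by simp)]
      have : flipR B k 0 = 0 := by rw [← ff_be_false, ff_zero]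
      rw [this]; exact hgr0
    refine ⟨zp x gr, trR B d k (zp x gr), ?_, ?_, ?_, ?_⟩
    · intro n hn
      have := zp_supp x gr hgr0 (cone (be B k false) k) (fun m hm => by
        show m k ≤ bb (be B k false) m
        rw [bb_be_false]; exact hsr m hm) n hn
      exact this
    · intro n
      rw [bb_be_false, ff_be_false]; rfl
    · intro hpos
      rw [hxk] at hpos
      have hx : 0 < x (Pi.single k 1) := by
        have : sg false = -1 := rfl
        rw [this] at hpos; linarith
      refine ⟨?_, ?_⟩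
      · conv_lhs => rw [hr]
        exact zp_pos_mul x (EE_isPos B d k x hx) hgr0
      · rw [hprod, zp_mul_neg _ (EE_isNeg _ _ _ _ (by rw [hxk]; linarith)) htr0, hzz]
        exact zp_trR hB k x gr hgr0 hsr
    · intro hz
      have hx : x (Pi.single k 1) = 0 := by rw [hxk] at hz; linarith
      refine ⟨?_, ?_⟩
      · intro h
        rw [hprod, zp_mul_zer _ (EE_isZer _ _ _ _ hz) htr0] at h
        have h2 := eq_one_of_mul_right _ _ (EE_zero _ _ _) h
        rw [hzz, zp_trR hB k x gr hgr0 hsr] at h2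
        exact h2
      · intro h
        conv_lhs => rw [hr]
        rw [zp_zer_mul x (EE_isZer B d k x hx) hgr0, h, mul_one]
  · -- the left side
    have hzz : zz B k true = zL B k := rfl
    have htr0 : trL B d k gl 0 = 1 := by
      unfold trL
      rw [if_pos (by simp)]
      have : flipL B k 0 = 0 := by rw [← ff_be_true, ff_zero]
      rw [this]; exact hgl0
    refine ⟨zp x gl, trL B d k (zp x gl), ?_, ?_, ?_, ?_⟩
    · intro n hn
      have := zp_supp x gl hgl0 (cone (be B k true) k) (fun m hm => by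
        show m k ≤ bb (be B k true) m
        rw [bb_be_true]; exact hsl m hm) n hn
      exact this
    · intro n
      rw [bb_be_true, ff_be_true]; rfl
    · intro hpos
      rw [hxk] at hpos
      have hx : x (Pi.single k 1) < 0 := by
        have : sg true = 1 := rfl
        rw [this] at hpos; linarith
      refine ⟨?_, ?_⟩
      · conv_lhs => rw [hl]
        exact zp_mul_neg x (EE_isNeg B d k x hx) hgl0
      · rw [zp_pos_mul _ (EE_isPos _ _ _ _ (by rw [hxk]; linarith)) htr0, hzz]
        exact zp_trL hB k x gl hgl0 hsl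
    · intro hz
      have hx : x (Pi.single k 1) = 0 := by rw [hxk] at hz; linarith
      refine ⟨?_, ?_⟩
      · intro h
        rw [zp_zer_mul _ (EE_isZer _ _ _ _ hz) htr0] at h
        have h2 := eq_one_of_mul_left _ _ (EE_zero _ _ _) h
        rw [hzz, zp_trL hB k x gl hgl0 hsl] at h2
        exact h2
      · intro h
        conv_lhs => rw [hl]
        rw [zp_mul_zer x (EE_isZer B d k x hx) hgl0, h, one_mul]

/-! ### Zero parts at simple vectors, the base case -/

theorem zp_single {W : ι → ι → ℤ} (x : (ι → ℤ) →+ ℤ) (f : T W) (hf : f 0 = 1) (k : ι)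
    (hx : x (Pi.single k 1) = 0) : zp x f (Pi.single k 1) = f (Pi.single k 1) := by
  have h1 : (1 : T W) 0 = 1 := by simp [T.one_apply]
  have h := zp_affine x hf h1 (Pi.single k 1) (by rw [toZ_single]; exact hx) single_ne (by
    intro m hm hne
    have hm0 : m = 0 := by
      funext i
      by_cases h : i = k
      · subst h
        by_contra h2
        apply hne
        funext j
        by_cases hj : j = i
        · subst hj
          have := hm j
          simp at this ⊢
          simp at h2
          omega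
        · have := hm j
          simp [hj] at this ⊢
          exact this
      · have := hm i
        simp [h] at this ⊢
        exact this
    rw [hm0, hf, T.one_apply, if_pos rfl])
  have h2 : zp x (1 : T W) = 1 := by
    apply zp_of_isPos
    refine ⟨h1, fun n hn h => ?_⟩
    rw [T.one_apply, if_neg hn] at h
    exact absurd rfl h
  rw [h2] at h
  linarith

theorem x_toZ (x : (ι → ℤ) →+ ℤ) (n : ι → ℕ) :
    x (toZ n) = ∑ i, (n i : ℤ) * x (Pi.single i 1) := by
  have : toZ n = ∑ i, n i • (Pi.single i 1 : ι → ℤ) := by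
    funext j
    simp only [Finset.sum_apply, Pi.smul_apply]
    rw [Finset.sum_eq_single j]
    · simp [toZ]
    · intro i _ hi; simp [Ne.symm hi]
    · intro h; exact absurd (Finset.mem_univ _) h
  rw [this, map_sum]
  refine Finset.sum_congr rfl fun i _ => ?_
  rw [map_nsmul, nsmul_eq_mul]

theorem base_chamber {W : ι → ι → ℤ} (g : T W) (h0 : g 0 = 1) (x : (ι → ℤ) →+ ℤ)
    (hx : ∀ j, 0 < x (Pi.single j 1)) : zp x g = 1 := by
  apply zp_of_isPos
  refine ⟨h0, fun n hn _ => ?_⟩
  rw [x_toZ]
  obtain ⟨i, hi⟩ : ∃ i, n i ≠ 0 := by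
    by_contra h
    push Not at h
    exact hn (funext h)
  apply Finset.sum_pos'
  · intro j _
    exact mul_nonneg (Int.natCast_nonneg _) (hx j).le
  · exact ⟨i, Finset.mem_univ _, mul_pos (by exact_mod_cast Nat.pos_of_ne_zero hi) (hx i)⟩

theorem base_facet {W : ι → ι → ℤ} (g : T W) (h0 : g 0 = 1) (j : ι) (a : ℕ → ℚ)
    (hg : ∀ r, g (Pi.single j r) = a r) (x : (ι → ℤ) →+ ℤ)
    (hxj : x (Pi.single j 1) = 0) (hx : ∀ i, i ≠ j → 0 < x (Pi.single i 1)) :
    zp x g = ray W (Pi.single j 1) a := by
  obtain ⟨p, m, hF⟩ := exists_isFact_zp x g h0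
  have hnn : ∀ n : ι → ℕ, 0 ≤ x (toZ n) := by
    intro n
    rw [x_toZ]
    refine Finset.sum_nonneg fun i _ => mul_nonneg (Int.natCast_nonneg _) ?_
    by_cases h : i = j
    · subst h; rw [hxj]
    · exact (hx i h).le
  have hzero : ∀ n : ι → ℕ, x (toZ n) = 0 → n = n j • Pi.single j 1 := by
    intro n hn
    rw [x_toZ, Finset.sum_eq_zero_iff_of_nonneg] at hn
    · funext i
      by_cases h : i = j
      · subst h; simp
      · have := hn i (Finset.mem_univ _)
        rcases mul_eq_zero.mp this with h1 | h1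
        · have h2 : n i = 0 := by exact_mod_cast h1
          simp [h2, h]
        · exact absurd h1 (hx i h).ne'
    · intro i _
      refine mul_nonneg (Int.natCast_nonneg _) ?_
      by_cases h : i = j
      · subst h; rw [hxj]
      · exact (hx i h).le
  have hm : m = 1 := by
    ext n
    rw [T.one_apply]
    by_cases hn : n = 0
    · rw [if_pos hn, hn, hF.neg.1]
    · rw [if_neg hn]
      by_contra h
      exact absurd (hF.neg.2 n hn h) (not_lt.mpr (hnn n))
  have hgz := hF.eq
  rw [hm, mul_one] at hgz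
  ext n
  by_cases hr : ∃ r : ℕ, n = r • Pi.single j 1
  · obtain ⟨r, rfl⟩ := hr
    rw [ray_smul _ single_ne]
    have h1 : (r • Pi.single j 1 : ι → ℕ) = Pi.single j r := by
      funext i
      by_cases h : i = j
      · subst h; simp
      · simp [h]
    have h2 : g (r • Pi.single j 1) = a r := by rw [h1, hg]
    have h3 : g (r • Pi.single j 1) = (p * zp x g) (r • Pi.single j 1) := by rw [← hgz]
    rw [← h2, h3, T.mul_apply, Finset.sum_eq_single 0]
    · rw [hF.pos.1]
      simp [toZ_zero, om_zero_left]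
    · intro b hb hb0
      have hb' := Finset.mem_Iic.mp hb
      have hpb : p b = 0 := by
        by_contra h3
        have h4 := hF.pos.2 b hb0 h3
        rw [x_toZ] at h4
        have : ∑ i, (b i : ℤ) * x (Pi.single i 1) = 0 := by
          refine Finset.sum_eq_zero fun i _ => ?_
          by_cases h : i = j
          · subst h; rw [hxj, mul_zero]
          · have h5 := hb' i
            simp [h] at h5
            simp [h5]
        linarith
      rw [hpb]; simp
    · intro h; exact absurd (Finset.mem_Iic.mpr (by simp)) h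
  · push Not at hr
    rw [ray_of_not _ _ _ hr]
    by_contra h
    exact hr _ (hzero n (hF.zer.2 n h))

theorem good_nil {B : ι → ι → ℤ} {d : ι → ℕ} : Good B d [] where
  form := by
    intro i j
    rw [cv_nil, cv_nil]
    unfold om
    rw [Finset.sum_eq_single i, Finset.sum_eq_single j]
    · simp [run]
    · intro b _ hb; simp [hb]
    · intro h; exact absurd (Finset.mem_univ _) h
    · intro b _ hb
      refine Finset.sum_eq_zero fun c _ => ?_
      simp [hb]
    · intro h; exact absurd (Finset.mem_univ _) h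
  basis := by
    refine ⟨fun i => Pi.evalAddMonoidHom _ i, ?_, ?_⟩
    · intro i j
      rw [cv_nil]
      simp [Pi.single_apply]
    · intro m
      funext j
      simp only [Finset.sum_apply, Pi.smul_apply, cv_nil, Pi.evalAddMonoidHom_apply]
      rw [Finset.sum_eq_single j]
      · simp
      · intro b _ hb; simp [Ne.symm hb]
      · intro h; exact absurd (Finset.mem_univ _) h
  sign := by
    intro j
    left
    intro i
    rw [cv_nil]
    by_cases h : i = j
    · subst h; simp
    · simp [h]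
  chamber := by
    intro g hg x hx
    apply base_chamber g hg.one x
    intro j
    have := hx j
    rwa [cv_nil] at this
  facet := by
    intro g hg j x hxj hx
    have h1 : (fun i => (cv B [] j i).natAbs) = (Pi.single j 1 : ι → ℕ) := by
      funext i
      rw [cv_nil]
      by_cases h : i = j
      · subst h; simp
      · simp [h]
    rw [h1]
    apply base_facet g hg.one j _ (hg.simple j) x
    · rwa [cv_nil] at hxj
    · intro i hi
      have := hx i hi
      rwa [cv_nil] at this

/-! ### Chambers and sides -/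

/-- A functional positive on all vectors of a basis. -/
theorem exists_rho {c : ι → (ι → ℤ)} {R : ι → ((ι → ℤ) →+ ℤ)}
    (hR : ∀ i j, R i (c j) = if i = j then 1 else 0) :
    ∃ ρ : (ι → ℤ) →+ ℤ, ∀ j, ρ (c j) = 1 := by
  refine ⟨∑ i, R i, fun j => ?_⟩
  rw [AddMonoidHom.finset_sum_apply]
  simp [hR]

theorem exists_rho_facet {c : ι → (ι → ℤ)} {R : ι → ((ι → ℤ) →+ ℤ)}
    (hR : ∀ i j, R i (c j) = if i = j then 1 else 0) (l : ι) :
    ∃ ρ : (ι → ℤ) →+ ℤ, ρ (c l) = 0 ∧ ∀ j, j ≠ l → ρ (c j) = 1 := by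
  obtain ⟨ρ, hρ⟩ := exists_rho hR
  refine ⟨ρ - R l, ?_, fun j hj => ?_⟩
  · simp [hρ, hR]
  · simp [hρ, hR, Ne.symm hj]

/-- Limits of chamber points. -/
theorem limit_nonneg {c : ι → (ι → ℤ)} {R : ι → ((ι → ℤ) →+ ℤ)}
    (hR : ∀ i j, R i (c j) = if i = j then 1 else 0) (σ : ℤ) (v : ι → ℤ)
    (h : ∀ x : (ι → ℤ) →+ ℤ, (∀ j, 0 < x (c j)) → 0 < σ * x v) (y : (ι → ℤ) →+ ℤ)
    (hy : ∀ j, 0 ≤ y (c j)) : 0 ≤ σ * y v := by
  obtain ⟨ρ, hρ⟩ := exists_rho hR
  by_contra hneg
  push Not at hneg
  have h1 := h ((σ * ρ v).toNat • y + ρ) (by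
    intro j
    simp only [AddMonoidHom.add_apply, AddMonoidHom.nsmul_apply, hρ, nsmul_eq_mul]
    have := mul_nonneg (Int.natCast_nonneg (σ * ρ v).toNat) (hy j)
    linarith)
  simp only [AddMonoidHom.add_apply, AddMonoidHom.nsmul_apply, nsmul_eq_mul] at h1
  have h2 : (σ * ρ v) ≤ ((σ * ρ v).toNat : ℤ) := Int.self_le_toNat _
  have h3 : (0 : ℤ) ≤ ((σ * ρ v).toNat : ℤ) := Int.natCast_nonneg _
  have h4 : σ * (((σ * ρ v).toNat : ℤ) * y v + ρ v) =
      ((σ * ρ v).toNat : ℤ) * (σ * y v) + σ * ρ v := by ring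
  rw [h4] at h1
  nlinarith

theorem side_exists {B : ι → ι → ℤ} {d : ι → ℕ} (hB : SkewSym B d) {l : List ι}
    (hG : Good B d l) (k : ι) : ∃ s : Bool, ∀ x : (ι → ℤ) →+ ℤ, (∀ j, 0 < x (cv B l j)) →
      0 < sg s * x (Pi.single k 1) := by
  obtain ⟨g, hg⟩ := exists_isG B d hB
  have hne : ∀ x : (ι → ℤ) →+ ℤ, (∀ j, 0 < x (cv B l j)) → x (Pi.single k 1) ≠ 0 := by
    intro x hx h0
    have h1 := hG.chamber g hg x hx
    have h2 := zp_single x g hg.one k h0
    rw [h1, T.one_apply, if_neg single_ne, hg.simple] at h2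
    exact coef_one_ne (d k) (hB.pos k) h2.symm
  obtain ⟨R, hR, _⟩ := hG.basis
  obtain ⟨ρ, hρ⟩ := exists_rho hR
  have hρ1 : ∀ j, 0 < ρ (cv B l j) := fun j => by rw [hρ]; norm_num
  rcases lt_or_gt_of_ne (hne ρ hρ1) with h | h
  · refine ⟨false, fun x hx => ?_⟩
    have hs : sg false = -1 := rfl
    rw [hs]
    rcases lt_or_gt_of_ne (hne x hx) with h2 | h2
    · linarith
    · exfalso
      apply hne ((-ρ (Pi.single k 1)).toNat • x + (x (Pi.single k 1)).toNat • ρ)
      · intro j
        simp only [AddMonoidHom.add_apply, AddMonoidHom.nsmul_apply, nsmul_eq_mul]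
        have h3 : (0 : ℤ) < ((-ρ (Pi.single k 1)).toNat : ℤ) := by omega
        have h4 : (0 : ℤ) ≤ ((x (Pi.single k 1)).toNat : ℤ) := by omega
        have := mul_pos h3 (hx j)
        have := mul_nonneg h4 (hρ1 j).le
        linarith
      · simp only [AddMonoidHom.add_apply, AddMonoidHom.nsmul_apply, nsmul_eq_mul]
        rw [Int.toNat_of_nonneg (by linarith), Int.toNat_of_nonneg (by linarith)]
        ring
  · refine ⟨true, fun x hx => ?_⟩
    have hs : sg true = 1 := rfl
    rw [hs]
    rcases lt_or_gt_of_ne (hne x hx) with h2 | h2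
    · exfalso
      apply hne ((ρ (Pi.single k 1)).toNat • x + (-x (Pi.single k 1)).toNat • ρ)
      · intro j
        simp only [AddMonoidHom.add_apply, AddMonoidHom.nsmul_apply, nsmul_eq_mul]
        have h3 : (0 : ℤ) < ((ρ (Pi.single k 1)).toNat : ℤ) := by omega
        have h4 : (0 : ℤ) ≤ ((-x (Pi.single k 1)).toNat : ℤ) := by omega
        have := mul_pos h3 (hx j)
        have := mul_nonneg h4 (hρ1 j).le
        linarith
      · simp only [AddMonoidHom.add_apply, AddMonoidHom.nsmul_apply, nsmul_eq_mul]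
        rw [Int.toNat_of_nonneg (by linarith), Int.toNat_of_nonneg (by linarith)]
        ring
    · linarith

/-- The relation between the c-vectors of `B` and of `mutB B k`. -/
def Side (B : ι → ι → ℤ) (k : ι) (l : List ι) (s : Bool) : Prop :=
  (∀ x : (ι → ℤ) →+ ℤ, (∀ j, 0 < x (cv (mutB B k) l j)) → 0 < sg s * x (Pi.single k 1)) ∧
    ∀ j, cv B (k :: l) j = zz B k s (cv (mutB B k) l j)

theorem side_nil {B : ι → ι → ℤ} {d : ι → ℕ} (hB : SkewSym B d) (k : ι) :
    Side B k [] true := by
  refine ⟨fun x hx => ?_, fun j => ?_⟩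
  · have := hx k
    rw [cv_nil] at this
    have hs : sg true = 1 := rfl
    rw [hs]; linarith
  · rw [cv_nil]; exact cv_one B hB k j

theorem sign_eps {v : ι → ℤ} (h : (∀ i, 0 ≤ v i) ∨ (∀ i, v i ≤ 0)) :
    ∃ ε : ℤ, (ε = 1 ∨ ε = -1) ∧ ∀ i, 0 ≤ ε * v i := by
  rcases h with h | h
  · exact ⟨1, Or.inl rfl, fun i => by rw [one_mul]; exact h i⟩
  · exact ⟨-1, Or.inr rfl, fun i => by have := h i; linarith⟩

theorem om_single_left (W : ι → ι → ℤ) (k : ι) (v : ι → ℤ) :
    om W (Pi.single k 1) v = ∑ j, W k j * v j := by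
  unfold om
  rw [Finset.sum_eq_single k]
  · simp
  · intro b _ hb
    refine Finset.sum_eq_zero fun c _ => ?_
    simp [hb]
  · intro h; exact absurd (Finset.mem_univ _) h

theorem om_neg_left (W : ι → ι → ℤ) (a b : ι → ℤ) : om W (-a) b = -om W a b := by
  simp [om]

theorem bool_eq_of_sg {s s' : Bool} (h : sg s = sg s') : s = s' := by
  cases s <;> cases s' <;> simp [sg] at h ⊢

theorem sg_not (s : Bool) : sg (!s) = -sg s := by cases s <;> simp [sg]

/-- Extension of a sequence by one mutation. -/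
theorem side_concat {B : ι → ι → ℤ} {d : ι → ℕ} (hB : SkewSym B d) (k : ι) (l : List ι) (a : ι)
    (s' : Bool) (hs' : Side B k l s') (hG1 : Good (mutB B k) d l)
    (hG2 : Good (mutB B k) d (l ++ [a])) (hG3 : Good B d (k :: l)) :
    ∃ s, Side B k (l ++ [a]) s := by
  have hB1 := skewSym_mutB hB k
  obtain ⟨s, hs⟩ := side_exists hB1 hG2 k
  refine ⟨s, hs, ?_⟩
  obtain ⟨ε, hε, hεc⟩ := sign_eps (hG1.sign a)
  obtain ⟨E, hE, hEC⟩ := sign_eps (hG3.sign a)
  have hrun : (run B (k :: l)).1 = (run (mutB B k) l).1 := run_cons_fst B k l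
  obtain ⟨R, hR, hRb⟩ := hG1.basis
  obtain ⟨R2, hR2, hRb2⟩ := hG2.basis
  have hself1 : cv (mutB B k) (l ++ [a]) a = -cv (mutB B k) l a := cv_concat_self _ _ _
  have hself2 : cv B (k :: (l ++ [a])) a = -cv B (k :: l) a := cv_concat_self B (k :: l) a
  have hne1 : ∀ j, j ≠ a → cv (mutB B k) (l ++ [a]) j =
      cv (mutB B k) l j + max (ε * (run (mutB B k) l).1 a j) 0 • cv (mutB B k) l a :=
    fun j hj => cv_concat_ne _ _ _ _ hj ε hε hεc
  have hne2 : ∀ j, j ≠ a → cv B (k :: (l ++ [a])) j =
      cv B (k :: l) j + max (E * (run (mutB B k) l).1 a j) 0 • cv B (k :: l) a := by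
    intro j hj
    rw [← hrun]
    exact cv_concat_ne B (k :: l) a j hj E hE hEC
  by_cases hc : ∀ i, i ≠ k → cv (mutB B k) l a i = 0
  · -- the vector is plus or minus a simple vector
    set σ := cv (mutB B k) l a k with hσ
    have hca : cv (mutB B k) l a = σ • (Pi.single k 1 : ι → ℤ) := by
      funext i
      by_cases h : i = k
      · subst h; simp [hσ]
      · rw [hc i h]; simp [h]
    have hσ1 : σ = 1 ∨ σ = -1 := by
      have h1 := hR a a
      rw [if_pos rfl, hca, map_zsmul, smul_eq_mul] at h1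
      exact Int.isUnit_iff.mp (IsUnit.of_mul_eq_one _ h1)
    have hσ2 : σ * σ = 1 := by rcases hσ1 with h | h <;> rw [h] <;> norm_num
    have hsg2 : ∀ s : Bool, sg s * sg s = 1 := by
      intro s; rcases sg_cases s with h | h <;> rw [h] <;> norm_num
    -- the two sides
    have h1 : sg s' = σ := by
      obtain ⟨ρ, hρ⟩ := exists_rho hR
      have h2 := hs'.1 ρ (fun j => by rw [hρ]; norm_num)
      have h3 := hρ a
      rw [hca, map_zsmul, smul_eq_mul] at h3
      rcases sg_cases s' with h4 | h4 <;> rcases hσ1 with h5 | h5 <;> rw [h4] at h2 ⊢ <;>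
        rw [h5] at h3 ⊢ <;> first | rfl | (exfalso; linarith)
    have h2 : sg s = -σ := by
      obtain ⟨ρ, hρ⟩ := exists_rho hR2
      have h2 := hs ρ (fun j => by rw [hρ]; norm_num)
      have h3 := hρ a
      rw [hself1, map_neg, hca, map_zsmul, smul_eq_mul] at h3
      rcases sg_cases s with h4 | h4 <;> rcases hσ1 with h5 | h5 <;> rw [h4] at h2 ⊢ <;>
        rw [h5] at h3 ⊢ <;> first | (exfalso; linarith) | norm_num
    have hss : s = !s' := bool_eq_of_sg (by rw [h2, sg_not, h1])
    -- d a = d k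
    have hda : d a = d k := by
      obtain ⟨g1, hg1⟩ := exists_isG _ _ hB1
      obtain ⟨ρ, hρ0, hρ⟩ := exists_rho_facet hR a
      have h3 := hG1.facet g1 hg1 a ρ hρ0 (fun i hi => by rw [hρ i hi]; norm_num)
      have h4 : ρ (Pi.single k 1) = 0 := by
        rw [hca, map_zsmul, smul_eq_mul] at hρ0
        rcases mul_eq_zero.mp hρ0 with h5 | h5
        · rcases hσ1 with h6 | h6 <;> rw [h6] at h5 <;> norm_num at h5
        · exact h5
      have h5 := zp_single ρ g1 hg1.one k h4
      rw [h3, hg1.simple] at h5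
      have h6 : (fun i => (cv (mutB B k) l a i).natAbs) = (Pi.single k 1 : ι → ℕ) := by
        funext i
        rw [hca]
        by_cases h : i = k
        · subst h
          rcases hσ1 with h6 | h6 <;> rw [h6] <;> simp
        · simp [h]
      rw [h6] at h5
      have h7 := ray_smul (W := WB (mutB B k) d) (Pi.single k 1) single_ne (coef (d a)) 1
      rw [one_smul] at h7
      exact coef_one_inj _ _ (hB.pos a) (hB.pos k) (h7.symm.trans h5)
    have hzk : ∀ t : Bool, zz B k t (cv (mutB B k) l a) = -σ • (Pi.single k 1 : ι → ℤ) := by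
      intro t
      rw [hca, map_zsmul, zz_single_self hB, smul_neg, neg_smul]
    have hCa : cv B (k :: l) a = -σ • (Pi.single k 1 : ι → ℤ) := by rw [hs'.2 a, hzk]
    have hEσ : E = -σ := by
      have h3 := hEC k
      rw [hCa] at h3
      simp only [Pi.smul_apply, Pi.single_eq_same, smul_eq_mul, mul_one] at h3
      rcases hE with h4 | h4 <;> rcases hσ1 with h5 | h5 <;> rw [h4, h5] at h3 <;>
        rw [h4, h5] <;> first | (exfalso; linarith) | norm_num
    have hεσ : ε = σ := by
      have h3 := hεc k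
      rw [← hσ] at h3
      rcases hε with h4 | h4 <;> rcases hσ1 with h5 | h5 <;> rw [h4, h5] at h3 <;>
        rw [h4, h5] <;> first | (exfalso; linarith) | norm_num
    intro j
    by_cases hj : j = a
    · subst hj
      rw [hself2, hself1, map_neg, hCa, hzk]
    · rw [hne2 j hj, hne1 j hj, map_add, map_zsmul, hzk, hCa, hs'.2 j, zz_sub k s', ← hss]
      -- the form
      have h3 := hG1.form a j
      have h4 : om (WB (mutB B k) d) (cv (mutB B k) l a) (cv (mutB B k) l j) =
          -(σ * (d k * ∑ m, B k m * cv (mutB B k) l j m)) := by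
        have h5 : om (WB (mutB B k) d) (Pi.single k 1) (cv (mutB B k) l j) =
            -(d k * ∑ m, B k m * cv (mutB B k) l j m) := by
          rw [om_single_left, Finset.mul_sum, ← Finset.sum_neg_distrib]
          refine Finset.sum_congr rfl fun m _ => ?_
          simp only [WB, mutB, true_or, if_true]
          ring
        rw [hca]
        rcases hσ1 with h6 | h6
        · rw [h6, one_smul, h5, one_mul]
        · rw [h6, neg_one_smul, om_neg_left, h5]; ring
      rw [h4] at h3
      have h5 : (d k : ℤ) * (σ * ∑ m, B k m * cv (mutB B k) l j m +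
          (run (mutB B k) l).1 a j) = 0 := by
        simp only [WB] at h3
        rw [hda] at h3
        linear_combination -h3
      have h6 : σ * ∑ m, B k m * cv (mutB B k) l j m = -(run (mutB B k) l).1 a j := by
        have : (d k : ℤ) ≠ 0 := by
          have := hB.pos k
          exact_mod_cast this.ne'
        rcases mul_eq_zero.mp h5 with h7 | h7
        · exact absurd h7 this
        · linarith
      rw [h1, h6, hEσ, hεσ]
      generalize (run (mutB B k) l).1 a j = b
      have h7 : -b + max (-σ * b) 0 * (-σ) = max (σ * b) 0 * (-σ) := by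
        rcases hσ1 with h8 | h8 <;> rw [h8]
        · rcases le_total b 0 with hb | hb
          · rw [max_eq_left (by linarith), max_eq_right (by linarith)]; ring
          · rw [max_eq_right (by linarith), max_eq_left (by linarith)]; ring
        · rcases le_total b 0 with hb | hb
          · rw [max_eq_right (by linarith), max_eq_left (by linarith)]; ring
          · rw [max_eq_left (by linarith), max_eq_right (by linarith)]; ring
      rw [smul_smul, smul_smul, add_assoc, ← add_smul, h7]
  · -- the general case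
    push Not at hc
    obtain ⟨i0, hi0, hci0⟩ := hc
    have hss : s = s' := by
      by_contra hne
      have hsg : sg s = -sg s' := by
        cases s <;> cases s' <;> simp [sg] at hne ⊢
      have hy : ∀ y : (ι → ℤ) →+ ℤ, y (cv (mutB B k) l a) = 0 →
          (∀ j, j ≠ a → 0 ≤ y (cv (mutB B k) l j)) → y (Pi.single k 1) = 0 := by
        intro y hya hyj
        have h1 := limit_nonneg hR (sg s') (Pi.single k 1) hs'.1 y (by
          intro j
          by_cases h : j = a
          · subst h; rw [hya]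
          · exact hyj j h)
        have h2 := limit_nonneg hR2 (sg s) (Pi.single k 1) hs y (by
          intro j
          by_cases h : j = a
          · subst h; rw [hself1, map_neg, hya, neg_zero]
          · rw [hne1 j h, map_add, map_zsmul, hya, smul_zero, add_zero]
            exact hyj j h)
        rw [hsg] at h2
        rcases sg_cases s' with h3 | h3 <;> rw [h3] at h1 h2 <;> linarith
      have hRk : ∀ i, i ≠ a → R i (Pi.single k 1) = 0 := by
        intro i hi
        apply hy (R i)
        · rw [hR, if_neg hi]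
        · intro j _
          rw [hR]; split_ifs <;> norm_num
      have h3 := hRb (Pi.single k 1)
      rw [Finset.sum_eq_single a (fun b _ hb => by rw [hRk b hb, zero_smul])
        (fun h => absurd (Finset.mem_univ _) h)] at h3
      have h4 := congrFun h3 i0
      have h5 := congrFun h3 k
      simp only [Pi.smul_apply, smul_eq_mul, Pi.single_apply, hi0, if_false] at h4
      rcases mul_eq_zero.mp h4.symm with h6 | h6
      · rw [h6] at h5
        simp at h5
      · exact hci0 h6
    subst hss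
    have hCa : cv B (k :: l) a = zz B k s (cv (mutB B k) l a) := hs'.2 a
    have hEε : E = ε := by
      have h1 := hεc i0
      have h2 := hEC i0
      rw [hCa, zz_ne _ _ _ _ _ hi0] at h2
      rcases hE with h4 | h4 <;> rcases hε with h5 | h5 <;> rw [h4] at h2 <;> rw [h5] at h1 <;>
        rw [h4, h5] <;> (exfalso; apply hci0; linarith)
    intro j
    by_cases hj : j = a
    · subst hj
      rw [hself2, hself1, map_neg, hCa]
    · rw [hne2 j hj, hne1 j hj, map_add, map_zsmul, hCa, hs'.2 j, hEε]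

theorem natAbs_of_sign {v : ι → ℤ} (h : (∀ i, 0 ≤ v i) ∨ (∀ i, v i ≤ 0)) :
    v = toZ (fun i => (v i).natAbs) ∨ v = -toZ (fun i => (v i).natAbs) := by
  rcases h with h | h
  · left
    funext i
    have := h i
    simp only [toZ]
    omega
  · right
    funext i
    have := h i
    simp only [toZ, Pi.neg_apply]
    omega

theorem natAbs_toZ (n : ι → ℕ) : (fun i => (toZ n i).natAbs) = n := by
  funext i
  simp [toZ]

theorem natAbs_neg_toZ (n : ι → ℕ) : (fun i => ((-toZ n) i).natAbs) = n := by
  funext i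
  simp [toZ]

/-- Facets in the old coordinates. -/
theorem facet_step (hP : PkProp ι) {B : ι → ι → ℤ} {d : ι → ℕ} (hB : SkewSym B d) (k : ι)
    (l : List ι) (s : Bool) (hs : Side B k l s) (hG : Good (mutB B k) d l) (g : T (WB B d))
    (hg : IsG B d g) (j : ι) (x : (ι → ℤ) →+ ℤ) (hxj : x (cv B (k :: l) j) = 0)
    (hx : ∀ i, i ≠ j → 0 < x (cv B (k :: l) i)) :
    ((∀ i, 0 ≤ cv B (k :: l) j i) ∨ (∀ i, cv B (k :: l) j i ≤ 0)) ∧
      zp x g = ray (WB B d) (fun i => (cv B (k :: l) j i).natAbs) (coef (d j)) := by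
  obtain ⟨g1, hg1, htr⟩ := transfer hP hB k g hg s
  obtain ⟨F, t, hF, ht, hpos, hzer⟩ := htr x
  obtain ⟨R, hR, hRb⟩ := hG.basis
  have hβ := ff_coords B k hB s
  have hy : ∀ v, (x.comp (zz B k s)) v = x (zz B k s v) := fun v => rfl
  have hyj : (x.comp (zz B k s)) (cv (mutB B k) l j) = 0 := by
    rw [hy, ← hs.2 j, hxj]
  have hyi : ∀ i, i ≠ j → 0 < (x.comp (zz B k s)) (cv (mutB B k) l i) := by
    intro i hi
    rw [hy, ← hs.2 i]
    exact hx i hi
  have hfac := hG.facet g1 hg1 j _ hyj hyi
  have hlim := limit_nonneg hR (sg s) (Pi.single k 1) hs.1 (x.comp (zz B k s)) (by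
    intro i
    by_cases h : i = j
    · subst h; rw [hyj]
    · exact (hyi i h).le)
  have hv : (fun i => (cv (mutB B k) l j i).natAbs) ≠ 0 := by
    intro h
    have h1 := hR j j
    have h2 : cv (mutB B k) l j = 0 := by
      funext i
      have := congrFun h i
      simpa using this
    rw [h2, map_zero, if_pos rfl] at h1
    exact absurd h1 (by norm_num)
  have hd := hB.pos j
  rcases eq_or_lt_of_le hlim with h0 | h0
  · -- the facet lies in the wall of `e_k`
    have hyk : (x.comp (zz B k s)) (Pi.single k 1) = 0 := by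
      rcases sg_cases s with h | h <;> rw [h] at h0 <;> linarith
    have h1 := zp_single _ g1 hg1.one k hyk
    rw [hfac, hg1.simple] at h1
    have h2 : ∃ r : ℕ, (Pi.single k 1 : ι → ℕ) = r • fun i => (cv (mutB B k) l j i).natAbs := by
      by_contra h
      push Not at h
      rw [ray_of_not _ _ _ h] at h1
      exact coef_one_ne (d k) (hB.pos k) h1.symm
    obtain ⟨r, hr⟩ := h2
    have hr1 : r = 1 := by
      have := congrFun hr k
      simp only [Pi.single_eq_same, Pi.smul_apply, smul_eq_mul] at this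
      exact Nat.eq_one_of_mul_eq_one_right this.symm
    rw [hr1, one_smul] at hr
    rw [← hr] at hfac h1
    have h3 : d j = d k := by
      have h4 := ray_smul (W := WB (mutB B k) d) (Pi.single k 1) single_ne (coef (d j)) 1
      rw [one_smul] at h4
      exact coef_one_inj _ _ (hB.pos j) (hB.pos k) (h4.symm.trans h1)
    have h4 := (hzer hyk)
    have h5 : F = 1 := by
      apply transport_one k _ hβ F t hF ht
      apply h4.1
      rw [hfac, h3]
      rfl
    have h6 := h4.2 h5
    have h7 : cv (mutB B k) l j = Pi.single k 1 ∨ cv (mutB B k) l j = -Pi.single k 1 := by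
      rcases natAbs_of_sign (hG.sign j) with h | h
      · left; rw [h, ← hr, toZ_single]
      · right; rw [h, ← hr, toZ_single]
    have h8 : cv B (k :: l) j = -toZ (Pi.single k 1) ∨ cv B (k :: l) j = toZ (Pi.single k 1) := by
      rw [hs.2 j, toZ_single]
      rcases h7 with h | h
      · left; rw [h, zz_single_self hB]
      · right; rw [h, map_neg, zz_single_self hB, neg_neg]
    rcases h8 with h | h
    · rw [h]
      refine ⟨Or.inr fun i => ?_, ?_⟩
      · simp only [Pi.neg_apply, toZ]; omega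
      · rw [natAbs_neg_toZ, h6, h3]; rfl
    · rw [h]
      refine ⟨Or.inl fun i => ?_, ?_⟩
      · simp only [toZ]; omega
      · rw [natAbs_toZ, h6, h3]; rfl
  · -- the general case
    obtain ⟨h1, h2⟩ := hpos h0
    rw [hfac] at h2
    obtain ⟨h3, h4⟩ := transport_ray k _ hβ F t hF ht _ hv _ (coef_one_ne (d j) hd) h2.symm
    have h5 := toZ_ff B k s (fun i => (cv (mutB B k) l j i).natAbs) h3
    have h8 : cv B (k :: l) j =
        toZ (ff (be B k s) k fun i => (cv (mutB B k) l j i).natAbs) ∨
        cv B (k :: l) j = -toZ (ff (be B k s) k fun i => (cv (mutB B k) l j i).natAbs) := by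
      rw [hs.2 j, h5]
      rcases natAbs_of_sign (hG.sign j) with h | h
      · left; conv_lhs => rw [h]
      · right; conv_lhs => rw [h]
        rw [map_neg]
    rcases h8 with h | h
    · rw [h]
      refine ⟨Or.inl fun i => ?_, ?_⟩
      · simp only [toZ]; omega
      · rw [natAbs_toZ, h1, h4]
    · rw [h]
      refine ⟨Or.inr fun i => ?_, ?_⟩
      · simp only [Pi.neg_apply, toZ]; omega
      · rw [natAbs_neg_toZ, h1, h4]

/-- The induction step of `good_all`. -/
theorem good_cons (hP : PkProp ι) {B : ι → ι → ℤ} {d : ι → ℕ} (hB : SkewSym B d) (k : ι)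
    (l : List ι) (s : Bool) (hs : Side B k l s) (hG : Good (mutB B k) d l) :
    Good B d (k :: l) := by
  have hbasis : ∃ R : ι → ((ι → ℤ) →+ ℤ),
      (∀ i j, R i (cv B (k :: l) j) = if i = j then 1 else 0) ∧
        ∀ m, m = ∑ i, R i m • cv B (k :: l) i := by
    obtain ⟨R, hR, hRb⟩ := hG.basis
    refine ⟨fun i => (R i).comp (zz B k s), fun i j => ?_, fun m => ?_⟩
    · rw [AddMonoidHom.comp_apply, hs.2 j, zz_zz hB, hR]
    · have h1 := hRb (zz B k s m)
      have h2 := congrArg (zz B k s) h1
      rw [zz_zz hB, map_sum] at h2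
      rw [h2]
      refine Finset.sum_congr rfl fun i _ => ?_
      rw [map_zsmul, ← hs.2 i, AddMonoidHom.comp_apply, ← h2]
  refine ⟨?_, hbasis, ?_, ?_, ?_⟩
  · intro i j
    rw [hs.2 i, hs.2 j, ← om_zz hB, hG.form, run_cons_fst]
  · intro j
    obtain ⟨g, hg⟩ := exists_isG B d hB
    obtain ⟨R, hR, _⟩ := hbasis
    obtain ⟨ρ, hρ0, hρ⟩ := exists_rho_facet hR j
    exact (facet_step hP hB k l s hs hG g hg j ρ hρ0 (fun i hi => by rw [hρ i hi]; norm_num)).1
  · intro g hg x hx
    obtain ⟨g1, hg1, htr⟩ := transfer hP hB k g hg s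
    obtain ⟨F, t, hF, ht, hpos, _⟩ := htr x
    have hy : ∀ j, 0 < (x.comp (zz B k s)) (cv (mutB B k) l j) := by
      intro j
      have : (x.comp (zz B k s)) (cv (mutB B k) l j) = x (cv B (k :: l) j) := by
        rw [AddMonoidHom.comp_apply, ← hs.2 j]
      rw [this]; exact hx j
    obtain ⟨h1, h2⟩ := hpos (hs.1 _ hy)
    rw [hG.chamber g1 hg1 _ hy] at h2
    rw [h1]
    exact transport_one k _ (ff_coords B k hB s) F t hF ht h2.symm
  · intro g hg j x hxj hx
    exact (facet_step hP hB k l s hs hG g hg j x hxj hx).2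

theorem side_all {d : ι → ℕ} (N : ℕ)
    (hG : ∀ l : List ι, l.length ≤ N → ∀ B : ι → ι → ℤ, SkewSym B d → Good B d l)
    {B : ι → ι → ℤ} (hB : SkewSym B d) (k : ι) :
    ∀ l : List ι, l.length ≤ N → ∃ s, Side B k l s := by
  intro l
  induction l using List.reverseRecOn with
  | nil => intro _; exact ⟨true, side_nil hB k⟩
  | append_singleton l a ih =>
    intro hl
    simp only [List.length_append, List.length_singleton] at hl
    obtain ⟨s', hs'⟩ := ih (by omega)
    have hB1 := skewSym_mutB hB k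
    exact side_concat hB k l a s' hs' (hG l (by omega) _ hB1)
      (hG (l ++ [a]) (by simp; omega) _ hB1) (hG (k :: l) (by simp; omega) _ hB)

end CVecAux

open CVecAux in
theorem good_all (hP : PkProp ι) (B : ι → ι → ℤ) (d : ι → ℕ) (hB : SkewSym B d) (l : List ι) :
    Good B d l := by
  have key : ∀ N : ℕ, ∀ l : List ι, l.length ≤ N → ∀ B : ι → ι → ℤ, SkewSym B d →
      Good B d l := by
    intro N
    induction N with
    | zero =>
      intro l hl B _
      have : l = [] := List.length_eq_zero_iff.mp (by omega)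
      subst this
      exact good_nil
    | succ N ih =>
      intro l hl B hB
      cases l with
      | nil => exact good_nil
      | cons k l =>
        simp only [List.length_cons] at hl
        obtain ⟨s, hs⟩ := side_all N ih hB k l (by omega)
        exact good_cons hP hB k l s hs (ih l (by omega) _ (skewSym_mutB hB k))
  exact key l.length l le_rfl B hB

end CVec

end Pool.Agent.RootConj
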