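import Pool.Agent.RootConj.Defs2

set_option autoImplicit false
set_option linter.unusedSectionVars false

/-!
# Integer identities for the Euler form (module EulerS of `MP_d86e12_al`)
-/

namespace Pool.Agent.RootConj

section EulerS

variable {ι : Type} [Fintype ι] [DecidableEq ι]

omit [Fintype ι] [DecidableEq ι] in
private theorem diag_zero {B : ι → ι → ℤ} {d : ι → ℕ} (hB : SkewSym B d) (k : ι) :
    B k k = 0 := by
  have h := hB.skew k k
  have hd : (0 : ℤ) < d k := by exact_mod_cast hB.pos k
  have : (d k : ℤ) * B k k = 0 := by linarith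
  rcases mul_eq_zero.mp this with h | h
  · omega
  · exact h

omit [Fintype ι] [DecidableEq ι] in
private theorem d_max {B : ι → ι → ℤ} {d : ι → ℕ} (hB : SkewSym B d) (i j : ι) :
    (d i : ℤ) * max (-B i j) 0 = (d j : ℤ) * max (B j i) 0 := by
  rw [mul_max_of_nonneg _ _ (by positivity), mul_max_of_nonneg _ _ (by positivity), mul_neg,
    hB.skew i j, neg_neg, mul_zero, mul_zero]

theorem chi_sub_chi (B : ι → ι → ℤ) (d : ι → ℕ) (hB : SkewSym B d) (a b : ι → ℤ) :
    chi B d a b - chi B d b a = om (WB B d) a b := by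
  unfold chi om WB
  have h1 : ∑ i, (d i : ℤ) * (b i * a i) = ∑ i, (d i : ℤ) * (a i * b i) :=
    Finset.sum_congr rfl fun i _ => by ring
  have h2 : ∑ i, ∑ j, b i * ((d i : ℤ) * max (-B i j) 0) * a j =
      ∑ i, ∑ j, a i * ((d i : ℤ) * max (B i j) 0) * b j := by
    rw [Finset.sum_comm]
    refine Finset.sum_congr rfl fun i _ => Finset.sum_congr rfl fun j _ => ?_
    rw [d_max hB j i]
    ring
  rw [h1, h2]
  have h3 : ∑ i, ∑ j, a i * ((d i : ℤ) * B i j) * b j =
      ∑ i, ∑ j, a i * ((d i : ℤ) * max (B i j) 0) * b j -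
      ∑ i, ∑ j, a i * ((d i : ℤ) * max (-B i j) 0) * b j := by
    rw [← Finset.sum_sub_distrib]
    refine Finset.sum_congr rfl fun i _ => ?_
    rw [← Finset.sum_sub_distrib]
    refine Finset.sum_congr rfl fun j _ => ?_
    have : B i j = max (B i j) 0 - max (-B i j) 0 := by
      rcases le_total 0 (B i j) with h | h
      · rw [max_eq_left h, max_eq_right (by linarith)]; ring
      · rw [max_eq_right h, max_eq_left (by linarith)]; ring
    nth_rewrite 1 [this]
    ring
  rw [h3]
  ring

private theorem chi_single_right (B : ι → ι → ℤ) (d : ι → ℕ) (k : ι) (a : ι → ℤ) :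
    chi B d a (Pi.single k 1) = d k * a k - ∑ i, a i * ((d i : ℤ) * max (-B i k) 0) := by
  unfold chi
  congr 1
  · rw [Finset.sum_eq_single k]
    · simp
    · intro b _ hb; simp [hb]
    · intro h; exact absurd (Finset.mem_univ _) h
  · refine Finset.sum_congr rfl fun i _ => ?_
    rw [Finset.sum_eq_single k]
    · simp
    · intro b _ hb; simp [hb]
    · intro h; exact absurd (Finset.mem_univ _) h

private theorem chi_single_left (B : ι → ι → ℤ) (d : ι → ℕ) (k : ι) (a : ι → ℤ) :
    chi B d (Pi.single k 1) a = d k * a k - ∑ j, ((d k : ℤ) * max (-B k j) 0) * a j := by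
  unfold chi
  congr 1
  · rw [Finset.sum_eq_single k]
    · simp
    · intro b _ hb; simp [hb]
    · intro h; exact absurd (Finset.mem_univ _) h
  · rw [Finset.sum_eq_single k]
    · simp
    · intro b _ hb; simp [hb]
    · intro h; exact absurd (Finset.mem_univ _) h

theorem chi_left (B : ι → ι → ℤ) (d : ι → ℕ) (hB : SkewSym B d) (k : ι) (n : ι → ℕ) :
    chi B d (toZ n) (Pi.single k 1) = d k * ((n k : ℤ) - bL B k n) := by
  rw [chi_single_right, mul_sub]
  congr 1
  unfold bL
  rw [Nat.cast_sum, Finset.mul_sum]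
  refine Finset.sum_congr rfl fun i _ => ?_
  rw [d_max hB i k]
  simp only [toZ, Nat.cast_mul, Int.ofNat_toNat]
  ring

theorem chi_right (B : ι → ι → ℤ) (d : ι → ℕ) (_hB : SkewSym B d) (k : ι) (n : ι → ℕ) :
    chi B d (Pi.single k 1) (toZ n) = d k * ((n k : ℤ) - bR B k n) := by
  rw [chi_single_left, mul_sub]
  congr 1
  unfold bR
  rw [Nat.cast_sum, Finset.mul_sum]
  refine Finset.sum_congr rfl fun i _ => ?_
  simp only [toZ, Nat.cast_mul, Int.ofNat_toNat]
  ring

theorem chi_sym (B : ι → ι → ℤ) (d : ι → ℕ) (hB : SkewSym B d) (k : ι) (a : ι → ℤ) :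
    chi B d a (Pi.single k 1) + chi B d (Pi.single k 1) a = d k * ∑ j, cartan B k j * a j := by
  rw [chi_single_left, chi_single_right]
  have h1 : ∑ j, cartan B k j * a j = 2 * a k - ∑ j, |B k j| * a j := by
    have : ∀ j, cartan B k j * a j = (if j = k then 2 * a k else 0) - |B k j| * a j := by
      intro j
      unfold cartan
      by_cases h : k = j
      · subst h
        simp [diag_zero hB]
      · rw [if_neg h, if_neg (Ne.symm h)]
        ring
    rw [Finset.sum_congr rfl fun j _ => this j, Finset.sum_sub_distrib]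
    simp
  have h2 : ∀ j, |B k j| = max (B k j) 0 + max (-B k j) 0 := by
    intro j
    rcases le_total 0 (B k j) with h | h
    · rw [abs_of_nonneg h, max_eq_left h, max_eq_right (by linarith)]; ring
    · rw [abs_of_nonpos h, max_eq_right h, max_eq_left (by linarith)]; ring
  rw [h1, mul_sub, Finset.mul_sum]
  have h3 : ∑ i, (d k : ℤ) * (|B k i| * a i) =
      ∑ i, a i * ((d i : ℤ) * max (-B i k) 0) + ∑ j, ((d k : ℤ) * max (-B k j) 0) * a j := by
    rw [← Finset.sum_add_distrib]
    refine Finset.sum_congr rfl fun i _ => ?_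
    rw [d_max hB i k, h2]
    ring
  rw [h3]
  ring

private theorem chi_add_left (B : ι → ι → ℤ) (d : ι → ℕ) (a a' b : ι → ℤ) :
    chi B d (a + a') b = chi B d a b + chi B d a' b := by
  unfold chi
  simp only [Pi.add_apply, add_mul, mul_add, Finset.sum_add_distrib]
  ring

private theorem chi_sum_left (B : ι → ι → ℤ) (d : ι → ℕ) (a b : ι → ℤ) :
    chi B d a b = ∑ i, a i * chi B d (Pi.single i 1) b := by
  simp_rw [chi_single_left]
  unfold chi
  rw [← Finset.sum_sub_distrib]
  refine Finset.sum_congr rfl fun i _ => ?_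
  rw [mul_sub, Finset.mul_sum]
  congr 1
  · ring
  · refine Finset.sum_congr rfl fun j _ => ?_
    ring

private theorem toZ_single (k : ι) : toZ (Pi.single k 1 : ι → ℕ) = Pi.single k 1 := by
  funext i
  by_cases h : i = k
  · subst h; simp [toZ]
  · simp [toZ, h]

/-- The numbers of arrows of `mkS` are exact quotients. -/
private theorem exact_quot {X : ℤ} {l : ℕ} (h0 : 0 ≤ X) (hd : (l : ℤ) ∣ X) :
    ((l * (X / (l : ℤ)).toNat : ℕ) : ℤ) = X := by
  have h1 : 0 ≤ X / (l : ℤ) := Int.ediv_nonneg h0 (by positivity)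
  push_cast
  rw [Int.toNat_of_nonneg h1]
  exact Int.mul_ediv_cancel' hd

private theorem lcm_dvd_int {a b : ℕ} {X : ℤ} (ha : (a : ℤ) ∣ X) (hb : (b : ℤ) ∣ X) :
    ((Nat.lcm a b : ℕ) : ℤ) ∣ X := by
  rw [Int.natCast_dvd] at *
  exact Nat.lcm_dvd ha hb

private theorem solve_aux (c X : ℤ) (l : ℕ) (h0 : 0 ≤ c - X) (hd : (l : ℤ) ∣ c - X) :
    c - ((l * ((c - X) / (l : ℤ)).toNat : ℕ) : ℤ) = X := by
  rw [exact_quot h0 hd]
  ring

private theorem chi_single_single (B : ι → ι → ℤ) (d : ι → ℕ) (i j : ι) :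
    (if i = j then (d i : ℤ) else 0) - chi B d (Pi.single i 1) (Pi.single j 1) =
      (d i : ℤ) * max (-B i j) 0 := by
  rw [chi_single_left]
  rw [Finset.sum_eq_single j]
  · by_cases h : i = j
    · subst h; simp
    · simp [h]
  · intro b _ hb; simp [hb]
  · intro h; exact absurd (Finset.mem_univ _) h

theorem euler_mkS (B : ι → ι → ℤ) (d : ι → ℕ) (hB : SkewSym B d) (N : ι → ℕ) :
    (mkS B d hB.pos N).Euler B d := by
  classical
  have hKS : ∀ m : {m : ι → ℕ // m ∈ (@Finset.filter (ι → ℕ) (KS B d)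
      (Classical.decPred _) (Finset.Iic N))}, KS B d m.1 := by
    intro m
    have := m.2
    rw [Finset.mem_filter] at this
    exact this.2
  rintro (i | m) (j | m')
  · have h := solve_aux (if i = j then (d i : ℤ) else 0)
      (chi B d (toZ (Pi.single i 1)) (toZ (Pi.single j 1))) (Nat.lcm (d i) (d j))
      (by rw [toZ_single, toZ_single, chi_single_single]; positivity)
      (by
        rw [toZ_single, toZ_single, chi_single_single]
        refine lcm_dvd_int ⟨_, rfl⟩ ?_
        rw [d_max hB i j]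
        exact ⟨_, rfl⟩)
    by_cases hij : i = j
    · subst hij
      simp only [if_true] at h
      simpa [mkS] using h
    · simp only [hij, if_false] at h
      simpa [mkS, hij] using h
  · have hm' := (hKS m').2.1 i
    have h := solve_aux 0
      (chi B d (toZ (Pi.single i 1)) (toZ m'.1)) (Nat.lcm (d i) 1)
      (by rw [toZ_single]; linarith [hm'.1])
      (by
        rw [toZ_single, Nat.lcm_one_right, chi_right B d hB]
        exact ⟨-((m'.1 i : ℤ) - bR B i m'.1), by ring⟩)
    simpa [mkS] using h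
  · have hm' := (hKS m).2.1 j
    have h := solve_aux 0
      (chi B d (toZ m.1) (toZ (Pi.single j 1))) (Nat.lcm 1 (d j))
      (by rw [toZ_single]; linarith [hm'.2])
      (by
        rw [toZ_single, Nat.lcm_one_left, chi_left B d hB]
        exact ⟨-((m.1 j : ℤ) - bL B j m.1), by ring⟩)
    simpa [mkS] using h
  · have hle : chi B d (toZ m.1) (toZ m'.1) ≤ 0 := by
      rw [chi_sum_left]
      refine Finset.sum_nonpos fun i _ => ?_
      refine mul_nonpos_of_nonneg_of_nonpos ?_ ((hKS m').2.1 i).1
      simp [toZ]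
    have h := solve_aux (if m = m' then (1 : ℤ) else 0)
      (chi B d (toZ m.1) (toZ m'.1)) (Nat.lcm 1 1)
      (by split_ifs <;> linarith)
      (by simp)
    by_cases hij : m = m'
    · subst hij
      simp only [if_true] at h
      simpa [mkS] using h
    · simp only [hij, if_false] at h
      simpa [mkS, hij] using h

theorem mult_loop (B : ι → ι → ℤ) (d : ι → ℕ) (hB : SkewSym B d) (N : ι → ℕ) (k : ι) :
    (mkS B d hB.pos N).mult (Sum.inl k) (Sum.inl k) = 0 := by
  classical
  have h1 := chi_single_single B d k k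
  rw [if_pos rfl, diag_zero hB] at h1
  simp only [neg_zero, max_self, mul_zero] at h1
  have h2 : (d k : ℤ) - chi B d (toZ (Pi.single k 1)) (toZ (Pi.single k 1)) = 0 := by
    rw [toZ_single]; exact h1
  simp [mkS, h2]

end EulerS

end Pool.Agent.RootConj
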