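import Pool.Agent.RootConj.Defs2

set_option autoImplicit false
set_option linter.unusedSectionVars false
set_option linter.unusedFintypeInType false
set_option linter.unusedDecidableInType false

/-!
# Root conjecture for c-vectors: sub and quotient representations (module Restr)
-/

namespace Pool.Agent.RootConj

namespace Species

variable {ι : Type} [Fintype ι] [DecidableEq ι]

/-- Coordinates on a family of subspaces. -/
private noncomputable def restrE {S : Species ι} {m : S.J → ℕ} (U : S.Sub m) (j : S.J) :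
    (U j) ≃ₗ[KK (S.κ j)] Vec (S.κ j) (dimU U j) :=
  (Module.finBasis (KK (S.κ j)) (U j)).equivFun

private noncomputable def restrI {S : Species ι} {m : S.J → ℕ} (U : S.Sub m) (j : S.J) :
    Vec (S.κ j) (dimU U j) →ₗ[KK (S.κ j)] Vec (S.κ j) (m j) :=
  (U j).subtype ∘ₗ (restrE U j).symm.toLinearMap

private theorem restrI_inj {S : Species ι} {m : S.J → ℕ} (U : S.Sub m) (j : S.J) :
    Function.Injective (restrI U j) := by
  intro a b h
  have h1 : (restrE U j).symm a = (restrE U j).symm b := Subtype.ext h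
  exact (restrE U j).symm.injective h1

private theorem restrI_mem {S : Species ι} {m : S.J → ℕ} (U : S.Sub m) (j : S.J)
    (v : Vec (S.κ j) (dimU U j)) : restrI U j v ∈ U j := ((restrE U j).symm v).2

private theorem restrI_surj {S : Species ι} {m : S.J → ℕ} (U : S.Sub m) (j : S.J)
    (v : Vec (S.κ j) (m j)) (hv : v ∈ U j) : ∃ w, restrI U j w = v :=
  ⟨restrE U j ⟨v, hv⟩, by simp [restrI]⟩

/-- The restricted map. -/
private noncomputable def restrMap {S : Species ι} {m : S.J → ℕ} (φ : S.Rep m) (U : S.Sub m)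
    (hU : IsSub φ U) (i j : S.J) (r : Fin (S.mult i j)) :
    SL (S.κ i) (S.κ j) (Vec (S.κ i) (dimU U i)) (Vec (S.κ j) (dimU U j)) :=
  ⟨{ toFun := fun v => restrE U j ⟨(φ i j r).1 (restrI U i v), hU i j r _ (restrI_mem U i v)⟩
     map_zero' := by
       have h : (⟨(φ i j r).1 (restrI U i 0), hU i j r _ (restrI_mem U i 0)⟩ : U j) = 0 := by
         apply Subtype.ext
         change (φ i j r).1 (restrI U i 0) = 0
         rw [map_zero, map_zero]
       rw [h, map_zero]
     map_add' := by
       intro v w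
       rw [← map_add]
       congr 1
       apply Subtype.ext
       change (φ i j r).1 (restrI U i (v + w)) = (φ i j r).1 (restrI U i v) +
         (φ i j r).1 (restrI U i w)
       rw [map_add, map_add] }, by
    intro c c' h v
    change restrE U j ⟨(φ i j r).1 (restrI U i (c • v)), _⟩ =
      c' • restrE U j ⟨(φ i j r).1 (restrI U i v), _⟩
    rw [← map_smul]
    congr 1
    apply Subtype.ext
    change (φ i j r).1 (restrI U i (c • v)) = c' • (φ i j r).1 (restrI U i v)
    rw [map_smul]
    exact (φ i j r).2 c c' h _⟩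

private theorem restrMap_spec {S : Species ι} {m : S.J → ℕ} (φ : S.Rep m) (U : S.Sub m)
    (hU : IsSub φ U) (i j : S.J) (r : Fin (S.mult i j)) (v : Vec (S.κ i) (dimU U i)) :
    restrI U j ((restrMap φ U hU i j r).1 v) = (φ i j r).1 (restrI U i v) := by
  change (((restrE U j).symm (restrE U j ⟨(φ i j r).1 (restrI U i v), _⟩) : U j) :
    Vec (S.κ j) (m j)) = _
  rw [LinearEquiv.symm_apply_apply]

/-- A subrepresentation as a representation. -/
theorem exists_restrict {S : Species ι} {m : S.J → ℕ} (φ : S.Rep m) (U : S.Sub m)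
    (hU : IsSub φ U) : ∃ φ' : S.Rep (dimU U), dims φ' = dimsBelow φ U := by
  refine ⟨fun i j r => restrMap φ U hU i j r, ?_⟩
  ext u
  constructor
  · rintro ⟨X, hX, rfl⟩
    refine ⟨fun j => (X j).map (restrI U j), ?_, ?_, ?_⟩
    · intro i j r v hv
      obtain ⟨w, hw, rfl⟩ := Submodule.mem_map.mp hv
      refine Submodule.mem_map.mpr ⟨_, hX i j r w hw, ?_⟩
      exact restrMap_spec φ U hU i j r w
    · intro j v hv
      obtain ⟨w, _, rfl⟩ := Submodule.mem_map.mp hv
      exact restrI_mem U j w
    · funext j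
      change Module.finrank (KK (S.κ j)) ((X j).map (restrI U j)) =
        Module.finrank (KK (S.κ j)) (X j)
      exact (LinearEquiv.finrank_eq (Submodule.equivMapOfInjective _ (restrI_inj U j) (X j))).symm
  · rintro ⟨Y, hY, hYU, rfl⟩
    refine ⟨fun j => (Y j).comap (restrI U j), ?_, ?_⟩
    · intro i j r v hv
      rw [Submodule.mem_comap] at hv ⊢
      have := hY i j r _ hv
      rw [← restrMap_spec φ U hU i j r v] at this
      exact this
    · funext j
      have hmap : ((Y j).comap (restrI U j)).map (restrI U j) = Y j := by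
        apply le_antisymm (Submodule.map_comap_le _ _)
        intro v hv
        obtain ⟨w, rfl⟩ := restrI_surj U j v (hYU j hv)
        exact Submodule.mem_map.mpr ⟨w, hv, rfl⟩
      change Module.finrank (KK (S.κ j)) ((Y j).comap (restrI U j)) =
        Module.finrank (KK (S.κ j)) (Y j)
      conv_rhs => rw [← hmap]
      exact LinearEquiv.finrank_eq (Submodule.equivMapOfInjective _ (restrI_inj U j) _)

/-- Subrepresentations form a lattice and dimension vectors are modular. -/
theorem isSub_inf {S : Species ι} {m : S.J → ℕ} {φ : S.Rep m} {U V : S.Sub m} (hU : IsSub φ U)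
    (hV : IsSub φ V) : IsSub φ (U ⊓ V) := by
  intro i j r v hv
  exact ⟨hU i j r v hv.1, hV i j r v hv.2⟩

theorem isSub_sup {S : Species ι} {m : S.J → ℕ} {φ : S.Rep m} {U V : S.Sub m} (hU : IsSub φ U)
    (hV : IsSub φ V) : IsSub φ (U ⊔ V) := by
  intro i j r v hv
  change v ∈ U i ⊔ V i at hv
  obtain ⟨a, ha, b, hb, rfl⟩ := Submodule.mem_sup.mp hv
  rw [map_add]
  exact Submodule.add_mem_sup (hU i j r a ha) (hV i j r b hb)

theorem dimU_modular {S : Species ι} {m : S.J → ℕ} (U V : S.Sub m) :
    dimU (U ⊓ V) + dimU (U ⊔ V) = dimU U + dimU V := by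
  funext j
  change Module.finrank (KK (S.κ j)) ↥(U j ⊓ V j) + Module.finrank (KK (S.κ j)) ↥(U j ⊔ V j) =
    Module.finrank (KK (S.κ j)) (U j) + Module.finrank (KK (S.κ j)) (V j)
  rw [add_comm]
  exact Submodule.finrank_sup_add_finrank_inf_eq (U j) (V j)

theorem dimU_mono {S : Species ι} {m : S.J → ℕ} {U V : S.Sub m} (h : U ≤ V) :
    dimU U ≤ dimU V := fun j => Submodule.finrank_mono (h j)

theorem eq_of_dimU_eq {S : Species ι} {m : S.J → ℕ} {U V : S.Sub m} (h : U ≤ V)
    (h' : dimU U = dimU V) : U = V := by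
  funext j
  exact Submodule.eq_of_le_of_finrank_eq (h j) (congrFun h' j)

theorem dimU_top {S : Species ι} {m : S.J → ℕ} : dimU (⊤ : S.Sub m) = m := by
  funext j
  change Module.finrank (KK (S.κ j)) (⊤ : Submodule (KK (S.κ j)) (Vec (S.κ j) (m j))) = m j
  rw [finrank_top, Module.finrank_fin_fun]

theorem dimU_bot {S : Species ι} {m : S.J → ℕ} : dimU (⊥ : S.Sub m) = 0 := by
  funext j
  change Module.finrank (KK (S.κ j)) (⊥ : Submodule (KK (S.κ j)) (Vec (S.κ j) (m j))) = 0
  exact finrank_bot _ _

theorem charge_add (S : Species ι) (m m' : S.J → ℕ) :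
    S.charge (m + m') = S.charge m + S.charge m' := by
  simp only [charge, Pi.add_apply, add_smul, Finset.sum_add_distrib]

theorem charge_eq_zero (S : Species ι) (m : S.J → ℕ) : S.charge m = 0 ↔ m = 0 := by
  constructor
  · intro h
    funext j
    by_contra hj
    obtain ⟨i, hi⟩ := Function.ne_iff.mp (S.ch_ne j)
    have h1 : S.charge m i = 0 := by rw [h]; rfl
    rw [charge, Finset.sum_apply] at h1
    have h2 := (Finset.sum_eq_zero_iff.mp h1) j (Finset.mem_univ j)
    rw [Pi.smul_apply, smul_eq_mul, mul_eq_zero] at h2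
    rcases h2 with h2 | h2
    · exact hj h2
    · exact hi h2
  · rintro rfl
    simp [charge]

theorem mem_fib (S : Species ι) (m : S.J → ℕ) (n : ι → ℕ) : m ∈ S.fib n ↔ S.charge m = n := by
  rw [fib, Finset.mem_filter, Finset.mem_Iic]
  refine ⟨fun h => h.2, fun h => ⟨?_, h⟩⟩
  subst h
  intro j
  obtain ⟨i, hi⟩ := Function.ne_iff.mp (S.ch_ne j)
  have hi' : 1 ≤ S.ch j i := Nat.one_le_iff_ne_zero.mpr hi
  calc m j ≤ m j * S.ch j i := Nat.le_mul_of_pos_right _ hi'
    _ ≤ ∑ j', m j' * S.ch j' i :=
        Finset.single_le_sum (f := fun j' => m j' * S.ch j' i) (fun _ _ => Nat.zero_le _)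
          (Finset.mem_univ j)
    _ = S.charge m i := by
        rw [charge, Finset.sum_apply]
        rfl
    _ ≤ ∑ i', S.charge m i' :=
        Finset.single_le_sum (f := fun i' => S.charge m i') (fun _ _ => Nat.zero_le _)
          (Finset.mem_univ i)

end Species

end Pool.Agent.RootConj
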