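import Pool.Agent.RootConj.Fields
import Pool.Agent.RootConj.EulerS
import Pool.Agent.RootConj.Restr

set_option autoImplicit false

/-!
# The product formula for generating series of representations of species
-/

namespace Pool.Agent.RootConj

namespace Species

namespace CountAux

noncomputable section

/-! ## Counting subspaces -/

theorem finite_Vec (d m : ℕ) (hd : 0 < d) : Finite (Vec d m) := by
  have := finite_KK d hd
  infer_instance

/-- The number of linearly independent families. -/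
theorem card_li {K V : Type} [DivisionRing K] [AddCommGroup V] [Module K V] [Finite K] [Finite V]
    {k : ℕ} (hk : k ≤ Module.finrank K V) :
    Nat.card { s : Fin k → V // LinearIndependent K s } =
      ∏ i : Fin k, (Nat.card K ^ Module.finrank K V - Nat.card K ^ i.val) := by
  have := Fintype.ofFinite K
  rw [card_linearIndependent hk, Nat.card_eq_fintype_card]

/-- Linearly independent families and the spaces they span. -/
def liMap (K V : Type) [DivisionRing K] [AddCommGroup V] [Module K V] (k : ℕ) :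
    (Σ U : { U : Submodule K V // Module.finrank K U = k },
        { s : Fin k → U.1 // LinearIndependent K s }) →
      { s : Fin k → V // LinearIndependent K s } := fun p =>
  ⟨fun i => (p.2.1 i : V), by
    have := p.2.2.map' (p.1.1.subtype) (Submodule.ker_subtype _)
    exact this⟩

theorem liMap_span (K V : Type) [DivisionRing K] [AddCommGroup V] [Module K V]
    [Module.Finite K V] (k : ℕ) (p : Σ U : { U : Submodule K V // Module.finrank K U = k },
        { s : Fin k → U.1 // LinearIndependent K s }) :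
    Submodule.span K (Set.range (liMap K V k p).1) = p.1.1 := by
  have h1 : Submodule.span K (Set.range (liMap K V k p).1) ≤ p.1.1 := by
    rw [Submodule.span_le]
    rintro _ ⟨i, rfl⟩
    exact (p.2.1 i).2
  apply Submodule.eq_of_le_of_finrank_eq h1
  rw [finrank_span_eq_card (liMap K V k p).2, p.1.2]
  simp

theorem liMap_bijective (K V : Type) [DivisionRing K] [AddCommGroup V] [Module K V]
    [Module.Finite K V] (k : ℕ) : Function.Bijective (liMap K V k) := by
  constructor
  · rintro p p' h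
    have h1 : p.1.1 = p'.1.1 := by
      rw [← liMap_span K V k p, ← liMap_span K V k p', h]
    obtain ⟨⟨U, hU⟩, ⟨s, hs⟩⟩ := p
    obtain ⟨⟨U', hU'⟩, ⟨s', hs'⟩⟩ := p'
    simp only at h1
    subst h1
    congr 1
    ext i
    exact congrFun (congrArg Subtype.val h) i
  · intro s
    refine ⟨⟨⟨Submodule.span K (Set.range s.1), by
      rw [finrank_span_eq_card s.2]; simp⟩,
      ⟨fun i => ⟨s.1 i, Submodule.subset_span ⟨i, rfl⟩⟩, ?_⟩⟩, ?_⟩
    · apply LinearIndependent.of_comp (Submodule.span K (Set.range s.1)).subtype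
      exact s.2
    · rfl

theorem card_subspaces_aux (K V : Type) [DivisionRing K] [AddCommGroup V] [Module K V] [Finite K]
    [Finite V] (k : ℕ) (hk : k ≤ Module.finrank K V) :
    Nat.card { U : Submodule K V // Module.finrank K U = k } *
      ∏ i : Fin k, (Nat.card K ^ k - Nat.card K ^ i.val) =
      ∏ i : Fin k, (Nat.card K ^ Module.finrank K V - Nat.card K ^ i.val) := by
  have : Finite { U : Submodule K V // Module.finrank K U = k } := inferInstance
  have := Fintype.ofFinite { U : Submodule K V // Module.finrank K U = k }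
  have h1 := Nat.card_congr (Equiv.ofBijective _ (liMap_bijective K V k))
  rw [card_li hk, Nat.card_sigma] at h1
  rw [← h1]
  have h2 : ∀ U : { U : Submodule K V // Module.finrank K U = k },
      Nat.card { s : Fin k → U.1 // LinearIndependent K s } =
        ∏ i : Fin k, (Nat.card K ^ k - Nat.card K ^ i.val) := by
    intro U
    rw [card_li (le_of_eq U.2.symm), U.2]
  simp only [h2]
  rw [Finset.sum_const, Finset.card_univ, Nat.card_eq_fintype_card, smul_eq_mul]

theorem glc_ne_zero (d m : ℕ) (hd : 0 < d) : glc d m ≠ 0 := by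
  rw [glc, Finset.prod_ne_zero_iff]
  intro i hi
  rw [Finset.mem_range] at hi
  have : (4 : ℚ) ^ (d * i) < 4 ^ (d * m) :=
    pow_lt_pow_right₀ (by norm_num) (Nat.mul_lt_mul_of_pos_left hi hd)
  exact (sub_pos.mpr this).ne'

/-- The number of subspaces of dimension `a` of a space of dimension `a + b`. -/
theorem card_subspaces (d a b : ℕ) (hd : 0 < d) :
    (Nat.card { U : Submodule (KK d) (Vec d (a + b)) // Module.finrank (KK d) U = a } : ℚ) *
      (glc d a * glc d b * 4 ^ (d * b * a)) = glc d (a + b) := by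
  have := finite_KK d hd
  have h := card_subspaces_aux (KK d) (Vec d (a + b)) a (by simp)
  rw [card_KK d hd, Module.finrank_fin_fun] at h
  have hcast : ∀ n : ℕ, a ≤ n → ((∏ i : Fin a, ((4 ^ d) ^ n - (4 ^ d) ^ i.val) : ℕ) : ℚ) =
      ∏ i ∈ Finset.range a, ((4 : ℚ) ^ (d * n) - 4 ^ (d * i)) := by
    intro n hn
    rw [Nat.cast_prod, ← Finset.prod_range (fun i => (((4 ^ d) ^ n - (4 ^ d) ^ i : ℕ) : ℚ))]
    apply Finset.prod_congr rfl
    intro i hi
    rw [Finset.mem_range] at hi
    rw [Nat.cast_sub (Nat.pow_le_pow_right (by positivity) (by omega))]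
    push_cast
    rw [← pow_mul, ← pow_mul]
  have h' := congrArg (Nat.cast : ℕ → ℚ) h
  rw [Nat.cast_mul, hcast a le_rfl, hcast (a + b) (by omega)] at h'
  have e1 : glc d a = ∏ i ∈ Finset.range a, ((4 : ℚ) ^ (d * a) - 4 ^ (d * i)) := rfl
  have e2 : glc d (a + b) = (∏ i ∈ Finset.range a, ((4 : ℚ) ^ (d * (a + b)) - 4 ^ (d * i))) *
      (glc d b * 4 ^ (d * b * a)) := by
    rw [glc, Finset.prod_range_add]
    congr 1
    rw [glc]
    have : (4 : ℚ) ^ (d * b * a) = ∏ _i ∈ Finset.range b, (4 : ℚ) ^ (d * a) := by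
      rw [Finset.prod_const, Finset.card_range, ← pow_mul]
      congr 1; ring
    rw [this, ← Finset.prod_mul_distrib]
    apply Finset.prod_congr rfl
    intro i _
    rw [sub_mul, ← pow_add, ← pow_add]
    congr 2 <;> ring
  rw [e2, ← h', e1]
  ring

/-! ## Block decomposition -/

section Comp

variable {d e : ℕ} {V V' W W' : Type} [AddCommGroup V] [Module (KK d) V] [AddCommGroup V']
  [Module (KK d) V'] [AddCommGroup W] [Module (KK e) W] [AddCommGroup W'] [Module (KK e) W']

/-- Composition with linear maps on both sides. -/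
def slComp (P : W →ₗ[KK e] W') (f : SL d e V W) (Q : V' →ₗ[KK d] V) : SL d e V' W' :=
  ⟨P.toAddMonoidHom.comp (f.1.comp Q.toAddMonoidHom), by
    intro c c' h v
    have hf := f.2 c c' h (Q v)
    simp only [AddMonoidHom.coe_comp, LinearMap.toAddMonoidHom_coe, Function.comp_apply,
      map_smul]
    rw [hf, map_smul]⟩

theorem slComp_apply (P : W →ₗ[KK e] W') (f : SL d e V W) (Q : V' →ₗ[KK d] V) (v : V') :
    (slComp P f Q).1 v = P (f.1 (Q v)) := rfl

theorem sl_ext {f g : SL d e V W} (h : ∀ v, f.1 v = g.1 v) : f = g :=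
  Subtype.ext (AddMonoidHom.ext h)

theorem sl_add_apply (f g : SL d e V W) (v : V) : (f + g).1 v = f.1 v + g.1 v := rfl

end Comp

section Block

variable {ι : Type} {S : Species ι} {m a b : S.J → ℕ}

/-- A decomposition of all the spaces. -/
abbrev Dec (S : Species ι) (m a b : S.J → ℕ) : Type :=
  ∀ j : S.J, Vec (S.κ j) (m j) ≃ₗ[KK (S.κ j)] Vec (S.κ j) (a j) × Vec (S.κ j) (b j)

/-- Inclusion of the first part. -/
def incA (e : Dec S m a b) (j : S.J) : Vec (S.κ j) (a j) →ₗ[KK (S.κ j)] Vec (S.κ j) (m j) :=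
  (e j).symm.toLinearMap ∘ₗ LinearMap.inl _ _ _

/-- Inclusion of the second part. -/
def incB (e : Dec S m a b) (j : S.J) : Vec (S.κ j) (b j) →ₗ[KK (S.κ j)] Vec (S.κ j) (m j) :=
  (e j).symm.toLinearMap ∘ₗ LinearMap.inr _ _ _

/-- Projection to the first part. -/
def prA (e : Dec S m a b) (j : S.J) : Vec (S.κ j) (m j) →ₗ[KK (S.κ j)] Vec (S.κ j) (a j) :=
  LinearMap.fst _ _ _ ∘ₗ (e j).toLinearMap

/-- Projection to the second part. -/
def prB (e : Dec S m a b) (j : S.J) : Vec (S.κ j) (m j) →ₗ[KK (S.κ j)] Vec (S.κ j) (b j) :=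
  LinearMap.snd _ _ _ ∘ₗ (e j).toLinearMap

theorem prA_incA (e : Dec S m a b) (j : S.J) (u) : prA e j (incA e j u) = u := by
  simp [prA, incA]

theorem prB_incA (e : Dec S m a b) (j : S.J) (u) : prB e j (incA e j u) = 0 := by
  simp [prB, incA]

theorem prA_incB (e : Dec S m a b) (j : S.J) (u) : prA e j (incB e j u) = 0 := by
  simp [prA, incB]

theorem prB_incB (e : Dec S m a b) (j : S.J) (u) : prB e j (incB e j u) = u := by
  simp [prB, incB]

theorem inc_add (e : Dec S m a b) (j : S.J) (v) : incA e j (prA e j v) + incB e j (prB e j v) = v := by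
  apply (e j).injective
  simp [prA, prB, incA, incB]

theorem incA_of_prB (e : Dec S m a b) (j : S.J) (v) (h : prB e j v = 0) :
    incA e j (prA e j v) = v := by
  have := inc_add e j v
  rw [h, map_zero, add_zero] at this
  exact this

/-- The subspaces given by the first part. -/
def U0 (e : Dec S m a b) : S.Sub m := fun j => LinearMap.ker (prB e j)

theorem mem_U0 (e : Dec S m a b) (j : S.J) (v) : v ∈ U0 e j ↔ prB e j v = 0 := Iff.rfl

theorem incA_mem_U0 (e : Dec S m a b) (j : S.J) (u) : incA e j u ∈ U0 e j := prB_incA e j u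

/-- The restriction to the first part. -/
def restrA (e : Dec S m a b) (φ : S.Rep m) : S.Rep a := fun i j r =>
  slComp (prA e j) (φ i j r) (incA e i)

/-- The quotient. -/
def quotB (e : Dec S m a b) (φ : S.Rep m) : S.Rep b := fun i j r =>
  slComp (prB e j) (φ i j r) (incB e i)

/-- The off-diagonal parts. -/
abbrev Mid (S : Species ι) (a b : S.J → ℕ) : Type :=
  ∀ i j : S.J, Fin (S.mult i j) → SL (S.κ i) (S.κ j) (Vec (S.κ i) (b i)) (Vec (S.κ j) (a j))

/-- The off-diagonal part. -/
def midR (e : Dec S m a b) (φ : S.Rep m) : Mid S a b := fun i j r =>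
  slComp (prA e j) (φ i j r) (incB e i)

/-- Gluing. -/
def glue (e : Dec S m a b) (α : S.Rep a) (μ : Mid S a b) (β : S.Rep b) : S.Rep m := fun i j r =>
  slComp (incA e j) (α i j r) (prA e i) + slComp (incA e j) (μ i j r) (prB e i) +
    slComp (incB e j) (β i j r) (prB e i)

theorem glue_apply (e : Dec S m a b) (α : S.Rep a) (μ : Mid S a b) (β : S.Rep b) (i j r v) :
    (glue e α μ β i j r).1 v = incA e j ((α i j r).1 (prA e i v)) +
      incA e j ((μ i j r).1 (prB e i v)) + incB e j ((β i j r).1 (prB e i v)) := rfl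

theorem prB_of_isSub {e : Dec S m a b} {φ : S.Rep m} (h : IsSub φ (U0 e)) (i j r) (u) :
    prB e j ((φ i j r).1 (incA e i u)) = 0 :=
  h i j r _ (incA_mem_U0 e i u)

theorem isSub_glue (e : Dec S m a b) (α : S.Rep a) (μ : Mid S a b) (β : S.Rep b) :
    IsSub (glue e α μ β) (U0 e) := by
  intro i j r v hv
  rw [mem_U0] at hv ⊢
  rw [glue_apply, hv, map_zero, map_zero, map_zero, map_zero, add_zero, add_zero, prB_incA]

theorem glue_blocks {e : Dec S m a b} {φ : S.Rep m} (h : IsSub φ (U0 e)) :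
    glue e (restrA e φ) (midR e φ) (quotB e φ) = φ := by
  funext i j r
  apply sl_ext
  intro v
  rw [glue_apply]
  simp only [restrA, midR, quotB, slComp_apply]
  have h1 := prB_of_isSub h i j r (prA e i v)
  have h2 := incA_of_prB e j _ h1
  rw [h2, add_assoc, inc_add, ← map_add, inc_add]

/-- The block decomposition. -/
def blockEquiv (e : Dec S m a b) :
    { φ : S.Rep m // IsSub φ (U0 e) } ≃ S.Rep a × Mid S a b × S.Rep b where
  toFun φ := (restrA e φ.1, midR e φ.1, quotB e φ.1)
  invFun p := ⟨glue e p.1 p.2.1 p.2.2, isSub_glue e _ _ _⟩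
  left_inv φ := Subtype.ext (glue_blocks φ.2)
  right_inv p := by
    obtain ⟨α, μ, β⟩ := p
    have h1 : restrA e (glue e α μ β) = α := by
      funext i j r
      apply sl_ext
      intro v
      simp only [restrA, slComp_apply, glue_apply, prA_incA, prB_incA, map_zero, add_zero]
    have h2 : midR e (glue e α μ β) = μ := by
      funext i j r
      apply sl_ext
      intro v
      simp only [midR, slComp_apply, glue_apply, prA_incB, prB_incB, map_zero, zero_add, map_add,
        prA_incA, add_zero]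
    have h3 : quotB e (glue e α μ β) = β := by
      funext i j r
      apply sl_ext
      intro v
      simp only [quotB, slComp_apply, glue_apply, prA_incB, prB_incB, map_zero, zero_add, map_add,
        prB_incA]
    simp only [h1, h2, h3]

theorem incA_injective (e : Dec S m a b) (j : S.J) : Function.Injective (incA e j) := by
  intro u u' h
  rw [← prA_incA e j u, h, prA_incA]

theorem prB_surjective (e : Dec S m a b) (j : S.J) : Function.Surjective (prB e j) :=
  fun u => ⟨incB e j u, prB_incB e j u⟩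

theorem dimU_U0 (e : Dec S m a b) : dimU (U0 e) = a := by
  funext j
  have h : U0 e j = LinearMap.range (incA e j) := by
    apply le_antisymm
    · intro v hv
      exact ⟨prA e j v, incA_of_prB e j v hv⟩
    · rintro _ ⟨u, rfl⟩
      exact incA_mem_U0 e j u
  rw [dimU, h, LinearMap.finrank_range_of_inj (incA_injective e j)]
  simp

theorem dimsBelow_eq {e : Dec S m a b} {φ : S.Rep m} (h : IsSub φ (U0 e)) :
    dimsBelow φ (U0 e) = dims (restrA e φ) := by
  ext u
  constructor
  · rintro ⟨U', h1, h2, rfl⟩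
    refine ⟨fun j => (U' j).comap (incA e j), ?_, ?_⟩
    · intro i j r v hv
      simp only [Submodule.mem_comap] at hv ⊢
      rw [restrA, slComp_apply, incA_of_prB e j _ (prB_of_isSub h i j r v)]
      exact h1 i j r _ hv
    · funext j
      have h3 : U' j = ((U' j).comap (incA e j)).map (incA e j) := by
        apply le_antisymm
        · intro v hv
          exact ⟨prA e j v, by
            rw [SetLike.mem_coe, Submodule.mem_comap, incA_of_prB e j v (h2 j hv)]; exact hv,
            incA_of_prB e j v (h2 j hv)⟩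
        · exact Submodule.map_comap_le _ _
      have h4 := (Submodule.equivMapOfInjective (incA e j) (incA_injective e j)
        ((U' j).comap (incA e j))).finrank_eq
      rw [dimU, dimU, h4, ← h3]
  · rintro ⟨A, h1, rfl⟩
    refine ⟨fun j => (A j).map (incA e j), ?_, ?_, ?_⟩
    · rintro i j r _ ⟨v, hv, rfl⟩
      refine ⟨(restrA e φ i j r).1 v, h1 i j r v hv, ?_⟩
      rw [restrA, slComp_apply, incA_of_prB e j _ (prB_of_isSub h i j r v)]
    · rintro j _ ⟨v, -, rfl⟩
      exact incA_mem_U0 e j v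
    · funext j
      exact (Submodule.equivMapOfInjective (incA e j) (incA_injective e j) (A j)).finrank_eq.symm

theorem finrank_of_le {K V W : Type} [DivisionRing K] [AddCommGroup V] [Module K V]
    [AddCommGroup W] [Module K W] [Module.Finite K V] (f : V →ₗ[K] W) (U : Submodule K V)
    (h : LinearMap.ker f ≤ U) :
    Module.finrank K U = Module.finrank K (LinearMap.ker f) + Module.finrank K (U.map f) := by
  have h1 := LinearMap.finrank_range_add_finrank_ker (f.domRestrict U)
  have h2 : LinearMap.range (f.domRestrict U) = U.map f := by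
    rw [LinearMap.range_domRestrict]
  have h3 : LinearMap.ker (f.domRestrict U) = (LinearMap.ker f).comap U.subtype := rfl
  rw [h2, h3, (Submodule.comapSubtypeEquivOfLe h).finrank_eq] at h1
  omega

theorem dimsAbove_eq {e : Dec S m a b} {φ : S.Rep m} (h : IsSub φ (U0 e)) :
    dimsAbove φ (U0 e) = dims (quotB e φ) := by
  ext u
  constructor
  · rintro ⟨U', h1, h2, h3⟩
    refine ⟨fun j => (U' j).map (prB e j), ?_, ?_⟩
    · rintro i j r _ ⟨v, hv, rfl⟩
      refine ⟨(φ i j r).1 (incB e i (prB e i v)), h1 i j r _ ?_, rfl⟩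
      have h4 : incB e i (prB e i v) = v - incA e i (prA e i v) := by
        rw [eq_sub_iff_add_eq, add_comm, inc_add]
      rw [h4]
      exact (U' i).sub_mem hv (h2 i (incA_mem_U0 e i _))
    · funext j
      have h5 := finrank_of_le (prB e j) (U' j) (h2 j)
      have h6 := congrFun h3 j
      simp only [Pi.add_apply, dimU, U0] at h6
      rw [h5] at h6
      exact Nat.add_left_cancel h6
  · rintro ⟨A, h1, rfl⟩
    have hle : ∀ j, LinearMap.ker (prB e j) ≤ (A j).comap (prB e j) := by
      intro j v hv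
      rw [Submodule.mem_comap, LinearMap.mem_ker.mp hv]
      exact (A j).zero_mem
    refine ⟨fun j => (A j).comap (prB e j), ?_, hle, ?_⟩
    · intro i j r v hv
      simp only [Submodule.mem_comap] at hv ⊢
      have h2 : prB e j ((φ i j r).1 v) = (quotB e φ i j r).1 (prB e i v) := by
        conv_lhs => rw [← inc_add e i v]
        rw [map_add, map_add, prB_of_isSub h i j r, zero_add]
        rfl
      rw [h2]
      exact h1 i j r _ hv
    · funext j
      have h5 := finrank_of_le (prB e j) ((A j).comap (prB e j)) (hle j)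
      rw [Submodule.map_comap_eq_of_surjective (prB_surjective e j)] at h5
      exact h5

theorem exists_dec (U : S.Sub m) (hU : dimU U = a) (hm : m = a + b) :
    ∃ e : Dec S m a b, U = U0 e := by
  have key : ∀ j, ∃ e : Vec (S.κ j) (m j) ≃ₗ[KK (S.κ j)] Vec (S.κ j) (a j) × Vec (S.κ j) (b j),
      U j = LinearMap.ker (LinearMap.snd _ _ _ ∘ₗ e.toLinearMap) := by
    intro j
    obtain ⟨W, hW⟩ := Submodule.exists_isCompl (U j)
    have h1 : Module.finrank (KK (S.κ j)) (U j) = a j := congrFun hU j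
    have h2 := Submodule.finrank_add_eq_of_isCompl hW
    rw [Module.finrank_fin_fun, h1] at h2
    have hm' : m j = a j + b j := congrFun hm j
    have h3 : Module.finrank (KK (S.κ j)) W = b j := by omega
    have e1 : U j ≃ₗ[KK (S.κ j)] Vec (S.κ j) (a j) :=
      LinearEquiv.ofFinrankEq _ _ (by rw [h1, Module.finrank_fin_fun])
    have e2 : W ≃ₗ[KK (S.κ j)] Vec (S.κ j) (b j) :=
      LinearEquiv.ofFinrankEq _ _ (by rw [h3, Module.finrank_fin_fun])
    refine ⟨((U j).prodEquivOfIsCompl W hW).symm.trans (e1.prodCongr e2), ?_⟩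
    ext v
    simp only [LinearMap.mem_ker, LinearMap.coe_comp, Function.comp_apply, LinearMap.snd_apply,
      LinearEquiv.coe_coe, LinearEquiv.trans_apply, LinearEquiv.prodCongr_apply,
      LinearEquiv.map_eq_zero_iff, Submodule.prodEquivOfIsCompl_symm_apply_snd_eq_zero]
  choose e he using key
  exact ⟨e, funext he⟩

/-- The counting lemma for a fixed family of subspaces. -/
def fixedEquiv (e : Dec S m a b) (PX PY : Set (S.J → ℕ) → Prop) :
    { φ : S.Rep m // IsSub φ (U0 e) ∧ PX (dimsBelow φ (U0 e)) ∧ PY (dimsAbove φ (U0 e)) } ≃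
      { α : S.Rep a // PX (dims α) } × Mid S a b × { β : S.Rep b // PY (dims β) } where
  toFun φ := (⟨restrA e φ.1, by
      have h := φ.2.2.1
      rwa [dimsBelow_eq φ.2.1] at h⟩, midR e φ.1, ⟨quotB e φ.1, by
      have h := φ.2.2.2
      rwa [dimsAbove_eq φ.2.1] at h⟩)
  invFun p := ⟨glue e p.1.1 p.2.1 p.2.2.1, by
    have h0 := isSub_glue e p.1.1 p.2.1 p.2.2.1
    have h1 := (blockEquiv e).right_inv (p.1.1, p.2.1, p.2.2.1)
    have h2 : restrA e (glue e p.1.1 p.2.1 p.2.2.1) = p.1.1 := congrArg (fun q => q.1) h1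
    have h3 : quotB e (glue e p.1.1 p.2.1 p.2.2.1) = p.2.2.1 := congrArg (fun q => q.2.2) h1
    refine ⟨h0, ?_, ?_⟩
    · rw [dimsBelow_eq h0, h2]; exact p.1.2
    · rw [dimsAbove_eq h0, h3]; exact p.2.2.2⟩
  left_inv φ := Subtype.ext (glue_blocks φ.2.1)
  right_inv p := by
    have h1 := (blockEquiv e).right_inv (p.1.1, p.2.1, p.2.2.1)
    have h2 : restrA e (glue e p.1.1 p.2.1 p.2.2.1) = p.1.1 := congrArg (fun q => q.1) h1
    have h3 : quotB e (glue e p.1.1 p.2.1 p.2.2.1) = p.2.2.1 := congrArg (fun q => q.2.2) h1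
    have h4 : midR e (glue e p.1.1 p.2.1 p.2.2.1) = p.2.1 := congrArg (fun q => q.2.1) h1
    refine Prod.ext (Subtype.ext h2) (Prod.ext h4 (Subtype.ext h3))

theorem card_Mid (S : Species ι) (a b : S.J → ℕ) :
    Nat.card (Mid S a b) =
      4 ^ (∑ i, ∑ j, Nat.lcm (S.κ i) (S.κ j) * S.mult i j * (b i * a j)) := by
  rw [Nat.card_pi, ← Finset.prod_pow_eq_pow_sum]
  apply Finset.prod_congr rfl
  intro i _
  rw [Nat.card_pi, ← Finset.prod_pow_eq_pow_sum]
  apply Finset.prod_congr rfl
  intro j _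
  rw [Nat.card_pi]
  simp only [card_SL (S.κ i) (S.κ j) (b i) (a j) (S.κ_pos i) (S.κ_pos j)]
  rw [Finset.prod_const, Finset.card_univ, Fintype.card_fin, ← pow_mul]
  congr 1
  ring

theorem card_fixed (U : S.Sub m) (hU : dimU U = a) (hm : m = a + b)
    (PX PY : Set (S.J → ℕ) → Prop) :
    Nat.card { φ : S.Rep m // IsSub φ U ∧ PX (dimsBelow φ U) ∧ PY (dimsAbove φ U) } =
      Nat.card { α : S.Rep a // PX (dims α) } * (Nat.card (Mid S a b) *
        Nat.card { β : S.Rep b // PY (dims β) }) := by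
  obtain ⟨e, rfl⟩ := exists_dec U hU hm
  rw [Nat.card_congr (fixedEquiv e PX PY), Nat.card_prod, Nat.card_prod]

theorem finite_Rep (S : Species ι) (m : S.J → ℕ) : Finite (S.Rep m) := by
  have h1 : ∀ j, Finite (Vec (S.κ j) (m j)) := fun j => finite_Vec _ _ (S.κ_pos j)
  have h2 : ∀ i j, Finite (SL (S.κ i) (S.κ j) (Vec (S.κ i) (m i)) (Vec (S.κ j) (m j))) := by
    intro i j
    have : Finite (Vec (S.κ i) (m i) →+ Vec (S.κ j) (m j)) := DFunLike.finite _
    infer_instance
  unfold Rep
  infer_instance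

theorem finite_Sub (S : Species ι) (m : S.J → ℕ) : Finite (S.Sub m) := by
  have h1 : ∀ j, Finite (Vec (S.κ j) (m j)) := fun j => finite_Vec _ _ (S.κ_pos j)
  infer_instance

/-- The number of families of subspaces. -/
theorem card_Sub (S : Species ι) (m a b : S.J → ℕ) (hm : m = a + b) :
    (Nat.card { U : S.Sub m // dimU U = a } : ℚ) *
      ((∏ j, glc (S.κ j) (a j)) * (∏ j, glc (S.κ j) (b j)) *
        4 ^ (∑ j, S.κ j * b j * a j)) = ∏ j, glc (S.κ j) (m j) := by
  subst hm
  have e1 : { U : S.Sub (a + b) // dimU U = a } ≃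
      ∀ j, { U : Submodule (KK (S.κ j)) (Vec (S.κ j) (a j + b j)) //
        Module.finrank (KK (S.κ j)) U = a j } :=
    (Equiv.subtypeEquivRight fun U => by
      constructor
      · intro h j; exact congrFun h j
      · intro h; exact funext h).trans
      (Equiv.subtypePiEquivPi (p := fun {j} (U : Submodule (KK (S.κ j))
        (Vec (S.κ j) (a j + b j))) => Module.finrank (KK (S.κ j)) U = a j))
  rw [Nat.card_congr e1, Nat.card_pi, Nat.cast_prod, ← Finset.prod_pow_eq_pow_sum,
    ← Finset.prod_mul_distrib, ← Finset.prod_mul_distrib, ← Finset.prod_mul_distrib]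
  apply Finset.prod_congr rfl
  intro j _
  exact card_subspaces (S.κ j) (a j) (b j) (S.κ_pos j)

/-- The total count. -/
theorem card_total (S : Species ι) (ΦX ΦY ΦZ : (S.J → ℕ) → Set (S.J → ℕ) → Prop)
    (m : S.J → ℕ)
    (h1 : ∀ (φ : S.Rep m), ΦZ m (dims φ) →
      ∃! U : S.Sub m, IsSub φ U ∧ ΦX (dimU U) (dimsBelow φ U) ∧
        ΦY (m - dimU U) (dimsAbove φ U))
    (h2 : ∀ (φ : S.Rep m) (U : S.Sub m), IsSub φ U →
      ΦX (dimU U) (dimsBelow φ U) → ΦY (m - dimU U) (dimsAbove φ U) → ΦZ m (dims φ)) :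
    Nat.card { φ : S.Rep m // ΦZ m (dims φ) } =
      ∑ a ∈ Finset.Iic m, Nat.card { U : S.Sub m // dimU U = a } *
        (Nat.card { α : S.Rep a // ΦX a (dims α) } * (Nat.card (Mid S a (m - a)) *
          Nat.card { β : S.Rep (m - a) // ΦY (m - a) (dims β) })) := by
  have := finite_Rep S m
  have := finite_Sub S m
  have := Fintype.ofFinite (S.Sub m)
  classical
  have hle : ∀ U : S.Sub m, dimU U ≤ m := by
    intro U j
    have := Submodule.finrank_le (U j)
    rw [Module.finrank_fin_fun] at this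
    exact this
  have e : { φ : S.Rep m // ΦZ m (dims φ) } ≃ Σ U : S.Sub m,
      { φ : S.Rep m // IsSub φ U ∧ ΦX (dimU U) (dimsBelow φ U) ∧
        ΦY (m - dimU U) (dimsAbove φ U) } :=
    { toFun := fun φ => ⟨(h1 φ.1 φ.2).choose, ⟨φ.1, (h1 φ.1 φ.2).choose_spec.1⟩⟩
      invFun := fun p => ⟨p.2.1, h2 p.2.1 p.1 p.2.2.1 p.2.2.2.1 p.2.2.2.2⟩
      left_inv := fun φ => rfl
      right_inv := by
        rintro ⟨U, φ, hφ⟩
        have hZ := h2 φ U hφ.1 hφ.2.1 hφ.2.2
        have hU : U = (h1 φ hZ).choose := (h1 φ hZ).choose_spec.2 U hφ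
        subst hU
        rfl }
  rw [Nat.card_congr e, Nat.card_sigma]
  rw [← Finset.sum_fiberwise_of_maps_to (s := Finset.univ) (t := Finset.Iic m)
    (g := fun U : S.Sub m => dimU U) (fun U _ => Finset.mem_Iic.mpr (hle U))]
  apply Finset.sum_congr rfl
  intro a ha
  rw [Finset.mem_Iic] at ha
  have hm : m = a + (m - a) := (add_tsub_cancel_of_le ha).symm
  rw [Finset.sum_congr rfl (g := fun _ => (Nat.card { α : S.Rep a // ΦX a (dims α) } *
    (Nat.card (Mid S a (m - a)) *
          Nat.card { β : S.Rep (m - a) // ΦY (m - a) (dims β) })))]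
  · have hc : Nat.card { U : S.Sub m // dimU U = a } =
        (Finset.univ.filter fun U : S.Sub m => dimU U = a).card := by
      rw [Nat.card_eq_fintype_card, Fintype.card_subtype]
    rw [Finset.sum_const, smul_eq_mul, hc]
  · intro U hU
    have hU' : dimU U = a := (Finset.mem_filter.mp hU).2
    rw [← card_fixed U hU' hm (ΦX a) (ΦY (m - a)), hU']

end Block

end

/-! ## The Euler form -/

section Chi

variable {ι : Type} [Fintype ι] [DecidableEq ι]

/-- `chi` is additive in the first variable. -/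
def chiL (B : ι → ι → ℤ) (d : ι → ℕ) (b : ι → ℤ) : (ι → ℤ) →+ ℤ where
  toFun a := chi B d a b
  map_zero' := by simp [chi]
  map_add' a a' := by
    simp only [chi, Pi.add_apply, add_mul, mul_add, Finset.sum_add_distrib]
    ring

/-- `chi` is additive in the second variable. -/
def chiR (B : ι → ι → ℤ) (d : ι → ℕ) (a : ι → ℤ) : (ι → ℤ) →+ ℤ where
  toFun b := chi B d a b
  map_zero' := by simp [chi]
  map_add' b b' := by
    simp only [chi, Pi.add_apply, mul_add, Finset.sum_add_distrib]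
    ring

omit [Fintype ι] [DecidableEq ι] in
theorem toZ_charge (S : Species ι) (m : S.J → ℕ) :
    toZ (S.charge m) = ∑ j, m j • toZ (S.ch j) := by
  funext i
  simp [toZ, charge, Finset.sum_apply]

omit [DecidableEq ι] in
theorem chi_charge {S : Species ι} {B : ι → ι → ℤ} {d : ι → ℕ} (hS : S.Euler B d)
    (b a : S.J → ℕ) :
    chi B d (toZ (S.charge b)) (toZ (S.charge a)) =
      ((∑ j, S.κ j * b j * a j : ℕ) : ℤ) -
        ((∑ i, ∑ j, Nat.lcm (S.κ i) (S.κ j) * S.mult i j * (b i * a j) : ℕ) : ℤ) := by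
  have h1 : chi B d (toZ (S.charge b)) (toZ (S.charge a)) =
      ∑ i, ∑ j, (b i : ℤ) * ((a j : ℤ) * chi B d (toZ (S.ch i)) (toZ (S.ch j))) := by
    have h2 : chi B d (toZ (S.charge b)) (toZ (S.charge a)) =
        chiL B d (toZ (S.charge a)) (toZ (S.charge b)) := rfl
    rw [h2, toZ_charge S b, map_sum]
    apply Finset.sum_congr rfl
    intro i _
    rw [map_nsmul]
    have h3 : chiL B d (toZ (S.charge a)) (toZ (S.ch i)) =
        chiR B d (toZ (S.ch i)) (toZ (S.charge a)) := rfl
    rw [h3, toZ_charge S a, map_sum, nsmul_eq_mul, Finset.mul_sum]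
    apply Finset.sum_congr rfl
    intro j _
    rw [map_nsmul, nsmul_eq_mul]
    rfl
  rw [h1]
  push_cast
  rw [← Finset.sum_sub_distrib]
  apply Finset.sum_congr rfl
  intro i _
  have h4 : ∀ j, (b i : ℤ) * ((a j : ℤ) * chi B d (toZ (S.ch i)) (toZ (S.ch j))) =
      (if i = j then (S.κ i : ℤ) * b i * a j else 0) -
        ((Nat.lcm (S.κ i) (S.κ j) : ℕ) : ℤ) * (S.mult i j : ℤ) * ((b i : ℤ) * (a j : ℤ)) := by
    intro j
    rw [← hS i j]
    push_cast
    split_ifs <;> ring
  simp only [h4]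
  rw [Finset.sum_sub_distrib, Finset.sum_ite_eq]
  simp

end Chi

section Main

variable {ι : Type} [Fintype ι] [DecidableEq ι]

omit [Fintype ι] [DecidableEq ι] in
theorem prod_glc_ne_zero (S : Species ι) (m : S.J → ℕ) : (∏ j, glc (S.κ j) (m j)) ≠ 0 := by
  rw [Finset.prod_ne_zero_iff]
  intro j _
  exact glc_ne_zero _ _ (S.κ_pos j)

/-- One term of the product formula. -/
theorem term_eq {S : Species ι} {B : ι → ι → ℤ} {d : ι → ℕ} (hB : SkewSym B d)
    (hS : S.Euler B d) (y : S.J → ℚ) (a b : S.J → ℕ) (cX cY : ℚ) :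
    (∏ j, y j ^ (a + b) j) *
        (2 : ℚ) ^ (chi B d (toZ (S.charge (a + b))) (toZ (S.charge (a + b)))) *
        ((Nat.card { U : S.Sub (a + b) // dimU U = a } : ℚ) *
          (cX * ((Nat.card (Mid S a b) : ℚ) * cY))) / ∏ j, glc (S.κ j) ((a + b) j) =
      (2 : ℚ) ^ (om (WB B d) (toZ (S.charge a)) (toZ (S.charge b))) *
        (((∏ j, y j ^ a j) * (2 : ℚ) ^ (chi B d (toZ (S.charge a)) (toZ (S.charge a))) * cX /
            ∏ j, glc (S.κ j) (a j)) *
          ((∏ j, y j ^ b j) * (2 : ℚ) ^ (chi B d (toZ (S.charge b)) (toZ (S.charge b))) * cY /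
            ∏ j, glc (S.κ j) (b j))) := by
  have h2 : (2 : ℚ) ≠ 0 := by norm_num
  have hga := prod_glc_ne_zero S a
  have hgb := prod_glc_ne_zero S b
  have hgm := prod_glc_ne_zero S (a + b)
  have hcard := card_Sub S (a + b) a b rfl
  have hpos : (0 : ℚ) < 4 ^ (∑ j, S.κ j * b j * a j) := by positivity
  have hN : (Nat.card { U : S.Sub (a + b) // dimU U = a } : ℚ) / ∏ j, glc (S.κ j) ((a + b) j) =
      1 / ((∏ j, glc (S.κ j) (a j)) * (∏ j, glc (S.κ j) (b j)) *
        4 ^ (∑ j, S.κ j * b j * a j)) := by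
    rw [div_eq_div_iff hgm (mul_ne_zero (mul_ne_zero hga hgb) hpos.ne'), hcard, one_mul]
  have hy : (∏ j, y j ^ (a + b) j) = (∏ j, y j ^ a j) * ∏ j, y j ^ b j := by
    rw [← Finset.prod_mul_distrib]
    apply Finset.prod_congr rfl
    intro j _
    rw [Pi.add_apply, pow_add]
  have hchi : chi B d (toZ (S.charge (a + b))) (toZ (S.charge (a + b))) =
      chi B d (toZ (S.charge a)) (toZ (S.charge a)) +
        chi B d (toZ (S.charge b)) (toZ (S.charge b)) +
        om (WB B d) (toZ (S.charge a)) (toZ (S.charge b)) +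
        2 * chi B d (toZ (S.charge b)) (toZ (S.charge a)) := by
    rw [charge_add, toZ_add, ← chi_sub_chi B d hB]
    have e1 : ∀ u v w, chi B d (u + v) w = chi B d u w + chi B d v w := fun u v w =>
      (chiL B d w).map_add u v
    have e2 : ∀ u v w, chi B d u (v + w) = chi B d u v + chi B d u w := fun u v w =>
      (chiR B d u).map_add v w
    rw [e1, e2, e2]
    ring
  have hM : (Nat.card (Mid S a b) : ℚ) / 4 ^ (∑ j, S.κ j * b j * a j) =
      (2 : ℚ) ^ (-(2 * chi B d (toZ (S.charge b)) (toZ (S.charge a)))) := by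
    rw [card_Mid, chi_charge hS]
    push_cast
    have h4 : (4 : ℚ) = 2 ^ (2 : ℤ) := by norm_num
    rw [← zpow_natCast, ← zpow_natCast, ← zpow_sub₀ (by norm_num), h4, ← zpow_mul]
    congr 1
    push_cast
    ring
  rw [hy, hchi, zpow_add₀ h2, zpow_add₀ h2, zpow_add₀ h2]
  have hfin : ∀ A B' C D E F G H N M P Q R : ℚ, P ≠ 0 → Q ≠ 0 → R ≠ 0 → H ≠ 0 →
      N / G = 1 / (P * Q * R) → M / R = F⁻¹ → F ≠ 0 → G ≠ 0 →
      (A * B') * (C * D * E * F) * (N * (cX * (M * cY))) / G =
        E * ((A * C * cX / P) * (B' * D * cY / Q)) := by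
    intro A B' C D E F G H N M P Q R hP hQ hR _ hN hM hF hG
    have e1 : N = G / (P * Q * R) := by
      rw [div_eq_iff hG] at hN
      rw [hN]; ring
    have e2 : M = R * F⁻¹ := by
      rw [div_eq_iff hR] at hM
      rw [hM]; ring
    rw [e1, e2]
    field_simp
  refine hfin _ _ _ _ _ _ _ 1 _ _ _ _ _ hga hgb hpos.ne' one_ne_zero hN ?_
    (zpow_ne_zero _ h2) hgm
  rw [hM, zpow_neg]

end Main

end CountAux

open CountAux

variable {ι : Type} [Fintype ι] [DecidableEq ι]

theorem gen_mul {S : Species ι} {B : ι → ι → ℤ} {d : ι → ℕ} (hB : SkewSym B d)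
    (hS : S.Euler B d) (y : S.J → ℚ) (ΦX ΦY ΦZ : (S.J → ℕ) → Set (S.J → ℕ) → Prop)
    (h1 : ∀ (m : S.J → ℕ) (φ : S.Rep m), ΦZ m (dims φ) →
      ∃! U : S.Sub m, IsSub φ U ∧ ΦX (dimU U) (dimsBelow φ U) ∧
        ΦY (m - dimU U) (dimsAbove φ U))
    (h2 : ∀ (m : S.J → ℕ) (φ : S.Rep m) (U : S.Sub m), IsSub φ U →
      ΦX (dimU U) (dimsBelow φ U) → ΦY (m - dimU U) (dimsAbove φ U) → ΦZ m (dims φ)) :
    gen S B d y ΦZ = gen S B d y ΦX * gen S B d y ΦY := by
  ext n
  rw [T.mul_apply]
  have hL : gen S B d y ΦZ n = ∑ m ∈ S.fib n, ∑ a ∈ Finset.Iic m,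
      (∏ j, y j ^ m j) * (2 : ℚ) ^ (chi B d (toZ n) (toZ n)) *
        ((Nat.card { U : S.Sub m // dimU U = a } : ℚ) *
          ((Nat.card { α : S.Rep a // ΦX a (dims α) } : ℚ) * ((Nat.card (Mid S a (m - a)) : ℚ) *
            (Nat.card { β : S.Rep (m - a) // ΦY (m - a) (dims β) } : ℚ)))) /
          ∏ j, glc (S.κ j) (m j) := by
    show (∑ m ∈ S.fib n, _) = _
    apply Finset.sum_congr rfl
    intro m _
    rw [card_total S ΦX ΦY ΦZ m (h1 m) (h2 m), Nat.cast_sum, Finset.mul_sum, Finset.sum_div]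
    apply Finset.sum_congr rfl
    intro a _
    push_cast
    rfl
  have hR : ∀ c ∈ Finset.Iic n, (2 : ℚ) ^ (om (WB B d) (toZ c) (toZ (n - c))) *
      (gen S B d y ΦX c * gen S B d y ΦY (n - c)) =
      ∑ q ∈ S.fib c ×ˢ S.fib (n - c), (2 : ℚ) ^ (om (WB B d) (toZ c) (toZ (n - c))) *
        (((∏ j, y j ^ q.1 j) * (2 : ℚ) ^ (chi B d (toZ c) (toZ c)) *
            (Nat.card { α : S.Rep q.1 // ΦX q.1 (dims α) } : ℚ) / ∏ j, glc (S.κ j) (q.1 j)) *
          ((∏ j, y j ^ q.2 j) * (2 : ℚ) ^ (chi B d (toZ (n - c)) (toZ (n - c))) *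
            (Nat.card { β : S.Rep q.2 // ΦY q.2 (dims β) } : ℚ) /
              ∏ j, glc (S.κ j) (q.2 j))) := by
    intro c _
    rw [← Finset.mul_sum, Finset.sum_product]
    congr 1
    have hg : ∀ (Φ : (S.J → ℕ) → Set (S.J → ℕ) → Prop) (c : ι → ℕ), gen S B d y Φ c =
        ∑ m ∈ S.fib c, (∏ j, y j ^ m j) * (2 : ℚ) ^ (chi B d (toZ c) (toZ c)) *
          (Nat.card {φ : S.Rep m // Φ m (dims φ)} : ℚ) / ∏ j, glc (S.κ j) (m j) :=
      fun _ _ => rfl
    rw [hg ΦX c, hg ΦY (n - c), Finset.sum_mul_sum]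
  rw [hL, Finset.sum_congr rfl hR, Finset.sum_sigma', Finset.sum_sigma']
  refine Finset.sum_bij' (fun x _ => ⟨S.charge x.2, (x.2, x.1 - x.2)⟩)
    (fun x _ => ⟨x.2.1 + x.2.2, x.2.1⟩) ?_ ?_ ?_ ?_ ?_
  · rintro ⟨m, a⟩ hx
    simp only [Finset.mem_sigma, Finset.mem_Iic, Finset.mem_product, mem_fib] at hx ⊢
    obtain ⟨hm, ha⟩ := hx
    obtain ⟨b, rfl⟩ := le_iff_exists_add.mp ha
    rw [charge_add] at hm
    rw [add_tsub_cancel_left]
    refine ⟨?_, trivial, ?_⟩
    · rw [← hm]; exact le_self_add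
    · rw [← hm, add_tsub_cancel_left]
  · rintro ⟨c, ⟨a, b⟩⟩ hx
    simp only [Finset.mem_sigma, Finset.mem_Iic, Finset.mem_product, mem_fib] at hx ⊢
    obtain ⟨hc, ha, hb⟩ := hx
    refine ⟨?_, le_self_add⟩
    rw [charge_add, ha, hb, add_tsub_cancel_of_le hc]
  · rintro ⟨m, a⟩ hx
    simp only [Finset.mem_sigma, Finset.mem_Iic] at hx
    simp only [Sigma.mk.injEq, heq_eq_eq, and_true]
    exact add_tsub_cancel_of_le hx.2
  · rintro ⟨c, ⟨a, b⟩⟩ hx
    simp only [Finset.mem_sigma, Finset.mem_Iic, Finset.mem_product, mem_fib] at hx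
    obtain ⟨hc, ha, hb⟩ := hx
    simp only [Sigma.mk.injEq, heq_eq_eq, Prod.mk.injEq, true_and]
    exact ⟨ha, add_tsub_cancel_left a b⟩
  · rintro ⟨m, a⟩ hx
    simp only [Finset.mem_sigma, Finset.mem_Iic, mem_fib] at hx
    obtain ⟨hm, ha⟩ := hx
    obtain ⟨b, rfl⟩ := le_iff_exists_add.mp ha
    subst hm
    simp only [add_tsub_cancel_left]
    have hb : S.charge (a + b) - S.charge a = S.charge b := by
      rw [charge_add, add_tsub_cancel_left]
    rw [hb]
    exact term_eq hB hS y a b _ _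

theorem gen_zero {S : Species ι} {B : ι → ι → ℤ} {d : ι → ℕ} (y : S.J → ℚ)
    (Φ : (S.J → ℕ) → Set (S.J → ℕ) → Prop) (h : Φ 0 {0}) : gen S B d y Φ 0 = 1 := by
  have hfib : S.fib (0 : ι → ℕ) = {0} := by
    ext m
    rw [mem_fib, Finset.mem_singleton, charge_eq_zero]
  have hd : ∀ φ : S.Rep (0 : S.J → ℕ), dims φ = {0} := by
    intro φ
    ext u
    constructor
    · rintro ⟨U, _, rfl⟩
      rw [Set.mem_singleton_iff]
      funext j
      have := Submodule.finrank_le (U j)
      rw [Module.finrank_fin_fun] at this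
      exact Nat.le_zero.mp this
    · rintro rfl
      refine ⟨fun _ => ⊥, ?_, ?_⟩
      · intro i j r v hv
        rw [Submodule.mem_bot] at hv ⊢
        rw [hv, map_zero]
      · funext j
        exact finrank_bot _ _
  have hsub : Subsingleton (S.Rep (0 : S.J → ℕ)) := by
    constructor
    intro φ ψ
    funext i j r
    apply sl_ext
    intro v
    have : IsEmpty (Fin ((0 : S.J → ℕ) j)) := inferInstanceAs (IsEmpty (Fin 0))
    funext k
    exact this.elim k
  have hc : Nat.card { φ : S.Rep (0 : S.J → ℕ) // Φ 0 (dims φ) } = 1 := by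
    rw [Nat.card_eq_one_iff_unique]
    let z : S.Rep (0 : S.J → ℕ) := fun i j r => 0
    have hz : Φ 0 (dims z) := by rw [hd z]; exact h
    exact ⟨⟨fun p q => Subtype.ext (Subsingleton.elim _ _)⟩, ⟨⟨z, hz⟩⟩⟩
  show (∑ m ∈ S.fib 0, _) = _
  rw [hfib, Finset.sum_singleton, hc]
  simp [chi, toZ_zero, glc]

theorem exists_of_gen_ne_zero {S : Species ι} {B : ι → ι → ℤ} {d : ι → ℕ} (y : S.J → ℚ)
    (Φ : (S.J → ℕ) → Set (S.J → ℕ) → Prop) (n : ι → ℕ) (h : gen S B d y Φ n ≠ 0) :
    ∃ (m : S.J → ℕ) (φ : S.Rep m), S.charge m = n ∧ Φ m (dims φ) := by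
  by_contra hcon
  push Not at hcon
  apply h
  show (∑ m ∈ S.fib n, _) = _
  apply Finset.sum_eq_zero
  intro m hm
  rw [mem_fib] at hm
  have hc : Nat.card { φ : S.Rep m // Φ m (dims φ) } = 0 := by
    have : IsEmpty { φ : S.Rep m // Φ m (dims φ) } := ⟨fun φ => hcon m φ.1 hm φ.2⟩
    exact Nat.card_of_isEmpty
  rw [hc]
  simp

end Species

end Pool.Agent.RootConj
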