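import Pool.Agent.RootConj.TrLog
import Pool.Agent.RootConj.Rec

set_option autoImplicit false
set_option linter.unusedSectionVars false
set_option linter.unusedVariables false

/-!
# Attractor data determine the series
-/

namespace Pool.Agent.RootConj

section Data

variable {ι : Type} [Fintype ι] [DecidableEq ι]

theorem data_congr {W : ι → ι → ℤ} {g g' : T W} (hg : g 0 = 1) (hg' : g' 0 = 1) (n : ι → ℕ)
    (h : ∀ m ≤ n, g m = g' m) : data g n = data g' n :=
  L_congr n (zp_congr_on _ hg hg' n h)

theorem data_affine {W : ι → ι → ℤ} (hW : ∀ i j, W i j = -W j i) {g g' : T W} (hg : g 0 = 1)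
    (hg' : g' 0 = 1) (n : ι → ℕ) (hn : n ≠ 0) (h : ∀ m ≤ n, m ≠ n → g m = g' m) :
    data g n - g n = data g' n - g' n := by
  have hx : omHom W (toZ n) (toZ n) = 0 := TrLogAux.om_self hW _
  have h1 := zp_affine (omHom W (toZ n)) hg hg' n hx hn h
  have h2 : L n (zp (omHom W (toZ n)) g) - zp (omHom W (toZ n)) g n =
      L n (zp (omHom W (toZ n)) g') - zp (omHom W (toZ n)) g' n := by
    refine L_affine n hn (isZer_zp _ g hg).1 (isZer_zp _ g' hg').1 ?_
    intro m hm hm'
    refine zp_congr_on _ hg hg' m (fun a ha => h a (ha.trans hm) ?_) m le_rfl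
    rintro rfl
    exact hm' (le_antisymm hm ha)
  unfold data
  linarith

theorem WB_skew {B : ι → ι → ℤ} {d : ι → ℕ} (hB : SkewSym B d) (i j : ι) :
    WB B d i j = -WB B d j i := hB.skew i j

theorem data_zero {W : ι → ι → ℤ} (g : T W) : data g 0 = 0 := by
  unfold data L
  simp

theorem exists_isG (B : ι → ι → ℤ) (d : ι → ℕ) (hB : SkewSym B d) : ∃ g, IsG B d g := by
  classical
  -- simple values
  have hsv : ∀ (k k' : ι) (r r' : ℕ), (Pi.single k r : ι → ℕ) = Pi.single k' r' →
      coef (d k) r = coef (d k') r' := by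
    intro k k' r r' h
    by_cases hr : r = 0
    · subst hr
      have hr' : r' = 0 := by
        have := congrFun h k'
        simpa using this.symm
      subst hr'
      simp [coef]
    · by_cases hk : k = k'
      · subst hk
        have := congrFun h k
        simp at this
        rw [this]
      · have := congrFun h k
        simp [hk] at this
        exact absurd this hr
  let low : (ι → ℕ) → ((ι → ℕ) → ℚ) → T (WB B d) := fun n F => fun m =>
    if m = 0 then 1 else if m < n then F m else 0
  let Φ : (ι → ℕ) → ((ι → ℕ) → ℚ) → ℚ := fun n F =>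
    if n = 0 then 1 else if h : ∃ p : ι × ℕ, n = Pi.single p.1 p.2 then
      coef (d h.choose.1) h.choose.2 else -(data (low n F) n)
  obtain ⟨g, hg⟩ := exists_rec Φ (by
    intro n F F' h
    have : low n F = low n F' := by
      funext m
      simp only [low]
      split_ifs with h1 h2
      · rfl
      · exact h m h2
      · rfl
    simp only [Φ, this])
  have g0 : g 0 = 1 := by rw [hg]; simp [Φ]
  refine ⟨g, g0, ?_, ?_⟩
  · intro k r
    show g (Pi.single k r) = _
    rw [hg]
    simp only [Φ]
    split_ifs with h1 h2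
    · have hr : r = 0 := by
        have := congrFun h1 k
        simpa using this
      subst hr
      simp [coef]
    · exact (hsv _ _ _ _ h2.choose_spec).symm
    · exact absurd ⟨(k, r), rfl⟩ h2
  · intro n hn
    by_cases h0 : n = 0
    · subst h0; exact data_zero _
    have hgn : g n = -(data (low n g) n) := by
      rw [hg]
      simp only [Φ]
      rw [if_neg h0, dif_neg]
      rintro ⟨p, hp⟩
      exact hn p.1 p.2 hp
    have hl0 : (low n g) 0 = 1 := by
      show (if (0 : ι → ℕ) = 0 then (1 : ℚ) else _) = 1
      rw [if_pos rfl]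
    have hln : (low n g) n = 0 := by
      show (if n = 0 then (1 : ℚ) else if n < n then g n else 0) = 0
      rw [if_neg h0, if_neg (lt_irrefl _)]
    have := data_affine (WB_skew hB) (g := (g : T (WB B d))) (g' := low n g) g0 hl0 n h0 (by
      intro m hm hm'
      show g m = (if m = 0 then (1 : ℚ) else if m < n then g m else 0)
      by_cases hm0 : m = 0
      · rw [if_pos hm0, hm0]; exact g0
      · rw [if_neg hm0, if_pos (lt_of_le_of_ne hm hm')])
    rw [hln] at this
    have e : data (W := WB B d) g n - g n = data (low n g) n - 0 := this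
    show data (W := WB B d) g n = 0
    linarith

theorem eq_on_of_data (B : ι → ι → ℤ) (d : ι → ℕ) (hB : SkewSym B d) (g g' : T (WB B d))
    (hg : IsG B d g) (hg' : g' 0 = 1) (N : ι → ℕ)
    (h1 : ∀ k r, g' (Pi.single k r) = coef (d k) r)
    (h2 : ∀ n ≤ N, (∀ k r, n ≠ Pi.single k r) → data g' n = 0) :
    ∀ n ≤ N, g' n = g n := by
  have wf : WellFounded ((· < ·) : (ι → ℕ) → (ι → ℕ) → Prop) := wellFounded_lt
  intro n
  induction n using wf.induction with
  | _ n ih =>
    intro hn
    by_cases h0 : n = 0
    · subst h0; rw [hg', hg.one]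
    by_cases hs : ∃ k r, n = Pi.single k r
    · obtain ⟨k, r, rfl⟩ := hs
      rw [h1, hg.simple]
    · push Not at hs
      have e1 := h2 n hn hs
      have e2 := hg.data n hs
      have := data_affine (WB_skew hB) hg' hg.one n h0 (fun m hm hm' =>
        ih m (lt_of_le_of_ne hm hm') (hm.trans hn))
      linarith

theorem isG_unique (B : ι → ι → ℤ) (d : ι → ℕ) (hB : SkewSym B d) (g g' : T (WB B d))
    (hg : IsG B d g) (hg' : IsG B d g') : g = g' := by
  ext n
  exact (eq_on_of_data B d hB g g' hg hg'.one n hg'.simple (fun m _ hm => hg'.data m hm) n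
    le_rfl).symm

end Data

end Pool.Agent.RootConj
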