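import Mathlib

set_option autoImplicit false

/-!
# Root conjecture for c-vectors: basic definitions

Project `MP_d86e12_al` (owner helper76).  See team-store `MP_d86e12_al_blueprint.md`.
-/

namespace Pool.Agent.RootConj

/-! ## Mutations, c-vectors, roots -/

section Statement

variable {ι : Type} [Fintype ι] [DecidableEq ι]

/-- `d` is a symmetrizer of `B`: positive, and `d_i b_ij = - d_j b_ji`. -/
structure SkewSym (B : ι → ι → ℤ) (d : ι → ℕ) : Prop where
  pos : ∀ i, 0 < d i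
  skew : ∀ i j, (d i : ℤ) * B i j = -((d j : ℤ) * B j i)

/-- Mutation of the square matrix `B` at `k`. -/
def mutB (B : ι → ι → ℤ) (k : ι) : ι → ι → ℤ := fun i j =>
  if i = k ∨ j = k then -B i j else B i j + (B i k).sign * max (B i k * B k j) 0

/-- Mutation of the lower part `C` at `k` (the square part is `B`). -/
def mutC (B C : ι → ι → ℤ) (k : ι) : ι → ι → ℤ := fun i j =>
  if j = k then -C i j else C i j + (C i k).sign * max (C i k * B k j) 0

/-- One mutation of the pair (square part, lower part). -/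
def step (P : (ι → ι → ℤ) × (ι → ι → ℤ)) (k : ι) : (ι → ι → ℤ) × (ι → ι → ℤ) :=
  (mutB P.1 k, mutC P.1 P.2 k)

/-- The identity matrix. -/
def idM : ι → ι → ℤ := fun i j => if i = j then 1 else 0

/-- The result of the mutation sequence `l` (first mutation first), principal coefficients. -/
def run (B : ι → ι → ℤ) (l : List ι) : (ι → ι → ℤ) × (ι → ι → ℤ) :=
  l.foldl step (B, idM)

/-- The `j`-th c-vector after the mutation sequence `l`. -/
def cv (B : ι → ι → ℤ) (l : List ι) (j : ι) : ι → ℤ := fun i => (run B l).2 i j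

/-- The Cartan counterpart of `B`. -/
def cartan (B : ι → ι → ℤ) : ι → ι → ℤ := fun i j => if i = j then 2 else -|B i j|

/-- The simple reflection `s_k α = α - ⟨α, α_k^∨⟩ α_k` with `⟨α, α_k^∨⟩ = ∑ j, a_kj α_j`. -/
def srefl (A : ι → ι → ℤ) (k : ι) (α : ι → ℤ) : ι → ℤ :=
  Function.update α k (α k - ∑ j, A k j * α j)

/-- The orbit of `β` under the Weyl group. -/
inductive WOrbit (A : ι → ι → ℤ) (β : ι → ℤ) : (ι → ℤ) → Prop
  | base : WOrbit A β β
  | step (k : ι) (α : ι → ℤ) : WOrbit A β α → WOrbit A β (srefl A k α)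

/-- The support of `β` is connected in the Dynkin diagram of `A`. -/
def ConnSupp (A : ι → ι → ℤ) (β : ι → ℤ) : Prop :=
  ∀ S : Set ι, (∃ i ∈ S, β i ≠ 0) → (∃ i, i ∉ S ∧ β i ≠ 0) →
    ∃ i ∈ S, ∃ j, j ∉ S ∧ β i ≠ 0 ∧ β j ≠ 0 ∧ A i j ≠ 0

/-- Real roots: the Weyl group orbits of the simple roots. -/
def IsRealRoot (A : ι → ι → ℤ) (α : ι → ℤ) : Prop :=
  ∃ i : ι, WOrbit A (Pi.single i 1) α

/-- The fundamental region `K` of imaginary roots. -/
def Fund (A : ι → ι → ℤ) (β : ι → ℤ) : Prop :=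
  β ≠ 0 ∧ (∀ i, 0 ≤ β i) ∧ (∀ k, ∑ j, A k j * β j ≤ 0) ∧ ConnSupp A β

/-- Imaginary roots (Kac, Theorem 5.4): `± W K`. -/
def IsImagRoot (A : ι → ι → ℤ) (α : ι → ℤ) : Prop :=
  ∃ β : ι → ℤ, Fund A β ∧ (WOrbit A β α ∨ WOrbit A β (-α))

/-- `α` is a root of the Kac-Moody root system of `A`. -/
def IsRoot (A : ι → ι → ℤ) (α : ι → ℤ) : Prop := IsRealRoot A α ∨ IsImagRoot A α

end Statement

/-! ## The twisted power series algebra -/

section Algebra

variable {ι : Type} [Fintype ι] [DecidableEq ι]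

/-- A natural vector as an integral vector. -/
def toZ (n : ι → ℕ) : ι → ℤ := fun i => (n i : ℤ)

/-- The bilinear form with matrix `W`. -/
def om (W : ι → ι → ℤ) (a b : ι → ℤ) : ℤ := ∑ i, ∑ j, a i * W i j * b j

/-- `om` as an additive map in the first variable. -/
def omHom (W : ι → ι → ℤ) (b : ι → ℤ) : (ι → ℤ) →+ ℤ where
  toFun a := om W a b
  map_zero' := by simp [om]
  map_add' a a' := by
    simp only [om, Pi.add_apply, add_mul, Finset.sum_add_distrib]

/-- Power series in variables `x^n`, `n : ι → ℕ`, with the twisted product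
`x^a x^b = 2^(om W a b) x^(a+b)`. -/
def T (_W : ι → ι → ℤ) : Type := (ι → ℕ) → ℚ

instance (W : ι → ι → ℤ) : AddCommGroup (T W) := inferInstanceAs (AddCommGroup ((ι → ℕ) → ℚ))

instance (W : ι → ι → ℤ) : FunLike (T W) (ι → ℕ) ℚ where
  coe f := f
  coe_injective _ _ h := h

@[ext] theorem T.ext {W : ι → ι → ℤ} {f g : T W} (h : ∀ n, f n = g n) : f = g := funext h

noncomputable instance (W : ι → ι → ℤ) : Mul (T W) where
  mul f g := fun n => ∑ a ∈ Finset.Iic n, (2 : ℚ) ^ (om W (toZ a) (toZ (n - a))) * (f a * g (n - a))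

instance (W : ι → ι → ℤ) : One (T W) where
  one := fun n => if n = 0 then 1 else 0

theorem T.mul_apply {W : ι → ι → ℤ} (f g : T W) (n : ι → ℕ) :
    (f * g) n = ∑ a ∈ Finset.Iic n,
      (2 : ℚ) ^ (om W (toZ a) (toZ (n - a))) * (f a * g (n - a)) := rfl

theorem T.one_apply {W : ι → ι → ℤ} (n : ι → ℕ) : (1 : T W) n = if n = 0 then 1 else 0 := rfl

theorem T.add_apply {W : ι → ι → ℤ} (f g : T W) (n : ι → ℕ) : (f + g) n = f n + g n := rfl
theorem T.neg_apply {W : ι → ι → ℤ} (f : T W) (n : ι → ℕ) : (-f) n = -f n := rfl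
theorem T.sub_apply {W : ι → ι → ℤ} (f g : T W) (n : ι → ℕ) : (f - g) n = f n - g n := rfl
theorem T.zero_apply {W : ι → ι → ℤ} (n : ι → ℕ) : (0 : T W) n = 0 := rfl

end Algebra

end Pool.Agent.RootConj
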