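import Pool.Agent.RootConj.Ring

set_option autoImplicit false

/-!
# Root conjecture for c-vectors: scattering elements and species
-/

namespace Pool.Agent.RootConj

/-! ## Factorisation with respect to a functional -/

section Fact

variable {ι : Type} [Fintype ι] [DecidableEq ι] {W : ι → ι → ℤ}
variable {Λ : Type} [AddCommGroup Λ] [LinearOrder Λ]

instance : Nonempty (T W) := ⟨0⟩

/-- Constant term `1`, and supported where `x > 0`. -/
def IsPos (x : (ι → ℤ) →+ Λ) (f : T W) : Prop :=
  f 0 = 1 ∧ ∀ n, n ≠ 0 → f n ≠ 0 → 0 < x (toZ n)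

/-- Constant term `1`, and supported where `x = 0`. -/
def IsZer (x : (ι → ℤ) →+ Λ) (f : T W) : Prop :=
  f 0 = 1 ∧ ∀ n, f n ≠ 0 → x (toZ n) = 0

/-- Constant term `1`, and supported where `x < 0`. -/
def IsNeg (x : (ι → ℤ) →+ Λ) (f : T W) : Prop :=
  f 0 = 1 ∧ ∀ n, n ≠ 0 → f n ≠ 0 → x (toZ n) < 0

/-- `f = p z m` with `p` positive, `z` zero, `m` negative for `x`. -/
structure IsFact (x : (ι → ℤ) →+ Λ) (f p z m : T W) : Prop where
  pos : IsPos x p
  zer : IsZer x z
  neg : IsNeg x m
  eq : f = p * z * m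

/-- The zero part of `f` with respect to `x`. -/
noncomputable def zp (x : (ι → ℤ) →+ Λ) (f : T W) : T W :=
  Classical.epsilon fun z => ∃ p m, IsFact x f p z m

/-- The coefficient at `n` of `log z` (for `z` with constant term `1`). -/
noncomputable def L (n : ι → ℕ) (z : T W) : ℚ :=
  ∑ r ∈ Finset.Icc 1 (∑ i, n i), ((-1 : ℚ) ^ (r - 1) / r) * ((z - 1) ^ r : T W) n

/-- The attractor datum of `g` at `n`. -/
noncomputable def data (g : T W) (n : ι → ℕ) : ℚ := L n (zp (omHom W (toZ n)) g)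

/-- The lexicographic combination of two functionals. -/
def lexHom {Λ' : Type} [AddCommGroup Λ'] (x : (ι → ℤ) →+ Λ) (z : (ι → ℤ) →+ Λ') :
    (ι → ℤ) →+ Λ ×ₗ Λ' where
  toFun m := toLex (x m, z m)
  map_zero' := by simp
  map_add' a b := by simp; rfl

end Fact

/-! ## Quantum dilogarithms and scattering elements -/

section Scat

variable {ι : Type} [Fintype ι] [DecidableEq ι]

/-- Coefficients of the quantum dilogarithm: `2^(d r) / ∏ (4^(d i) - 1)`. -/
noncomputable def coef (d r : ℕ) : ℚ := 2 ^ (d * r) / ∏ i ∈ Finset.Icc 1 r, ((4 : ℚ) ^ (d * i) - 1)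

/-- The series `∑ a_r x^(r c)` (for `c ≠ 0`). -/
noncomputable def ray (W : ι → ι → ℤ) (c : ι → ℕ) (a : ℕ → ℚ) : T W := fun n =>
  ∑ r ∈ Finset.range ((∑ i, n i) + 1), if n = r • c then a r else 0

/-- The skew form of `(B, d)`. -/
def WB (B : ι → ι → ℤ) (d : ι → ℕ) : ι → ι → ℤ := fun i j => (d i : ℤ) * B i j

/-- The dilogarithm of the simple vector `e_k`. -/
noncomputable def EE (B : ι → ι → ℤ) (d : ι → ℕ) (k : ι) : T (WB B d) :=
  ray (WB B d) (Pi.single k 1) (coef (d k))

/-- `g` is the scattering element of `(B, d)`. -/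
structure IsG (B : ι → ι → ℤ) (d : ι → ℕ) (g : T (WB B d)) : Prop where
  one : g 0 = 1
  simple : ∀ k r, g (Pi.single k r) = coef (d k) r
  data : ∀ n, (∀ k r, n ≠ Pi.single k r) → data g n = 0

/-- `∑ [b_kj]_+ n_j`. -/
def bL (B : ι → ι → ℤ) (k : ι) (n : ι → ℕ) : ℕ := ∑ j, (B k j).toNat * n j

/-- `∑ [-b_kj]_+ n_j`. -/
def bR (B : ι → ι → ℤ) (k : ι) (n : ι → ℕ) : ℕ := ∑ j, (-B k j).toNat * n j

/-- The change of coordinates `n_k ↦ bL n - n_k`. -/
def flipL (B : ι → ι → ℤ) (k : ι) (n : ι → ℕ) : ι → ℕ := Function.update n k (bL B k n - n k)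

/-- The change of coordinates `n_k ↦ bR n - n_k`. -/
def flipR (B : ι → ι → ℤ) (k : ι) (n : ι → ℕ) : ι → ℕ := Function.update n k (bR B k n - n k)

/-- Transport of series supported in `n_k ≤ bL n` to the mutated algebra. -/
noncomputable def trL (B : ι → ι → ℤ) (d : ι → ℕ) (k : ι) (f : T (WB B d)) :
    T (WB (mutB B k) d) := fun n => if n k ≤ bL B k n then f (flipL B k n) else 0

/-- Transport of series supported in `n_k ≤ bR n` to the mutated algebra. -/
noncomputable def trR (B : ι → ι → ℤ) (d : ι → ℕ) (k : ι) (f : T (WB B d)) :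
    T (WB (mutB B k) d) := fun n => if n k ≤ bR B k n then f (flipR B k n) else 0

/-- The linear change of coordinates behind `flipL`. -/
def zL (B : ι → ι → ℤ) (k : ι) : (ι → ℤ) →+ (ι → ℤ) where
  toFun m := Function.update m k ((∑ j, max (B k j) 0 * m j) - m k)
  map_zero' := by
    funext i
    by_cases h : i = k
    · subst h; simp
    · simp [h]
  map_add' a b := by
    funext i
    by_cases h : i = k
    · subst h; simp [mul_add, Finset.sum_add_distrib]; ring
    · simp [h]

/-- The linear change of coordinates behind `flipR`. -/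
def zR (B : ι → ι → ℤ) (k : ι) : (ι → ℤ) →+ (ι → ℤ) where
  toFun m := Function.update m k ((∑ j, max (-B k j) 0 * m j) - m k)
  map_zero' := by
    funext i
    by_cases h : i = k
    · subst h; simp
    · simp [h]
  map_add' a b := by
    funext i
    by_cases h : i = k
    · subst h; simp [mul_add, Finset.sum_add_distrib]; ring
    · simp [h]

/-- The Euler form: `χ(e_i, e_j) = d_i δ_ij - d_i [-b_ij]_+`. -/
def chi (B : ι → ι → ℤ) (d : ι → ℕ) (a b : ι → ℤ) : ℤ :=
  (∑ i, (d i : ℤ) * (a i * b i)) - ∑ i, ∑ j, a i * ((d i : ℤ) * max (-B i j) 0) * b j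

/-- The cone of charges of the extra simple objects. -/
def KS (B : ι → ι → ℤ) (d : ι → ℕ) (m : ι → ℕ) : Prop :=
  m ≠ 0 ∧ (∀ k, chi B d (Pi.single k 1) (toZ m) ≤ 0 ∧ chi B d (toZ m) (Pi.single k 1) ≤ 0) ∧
    ConnSupp (cartan B) (toZ m)

end Scat

/-! ## Finite fields and species -/

section Species

/-- The ambient field. -/
abbrev Om : Type := AlgebraicClosure (ZMod 2)

/-- The subfield with `4^d` elements (for `d > 0`). -/
noncomputable def KK (d : ℕ) : Subfield Om where
  carrier := {x | x ^ (4 ^ d) = x}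
  mul_mem' := by
    intro a b ha hb
    change a ^ (4 ^ d) = a at ha
    change b ^ (4 ^ d) = b at hb
    change (a * b) ^ (4 ^ d) = a * b
    rw [mul_pow, ha, hb]
  one_mem' := by simp
  add_mem' := by
    intro a b ha hb
    change a ^ (4 ^ d) = a at ha
    change b ^ (4 ^ d) = b at hb
    change (a + b) ^ (4 ^ d) = a + b
    have h4 : (4 : ℕ) ^ d = 2 ^ (2 * d) := by rw [pow_mul]; norm_num
    rw [h4] at ha hb ⊢
    rw [add_pow_char_pow, ha, hb]
  zero_mem' := by
    simp
  neg_mem' := by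
    intro a ha
    change a ^ (4 ^ d) = a at ha
    change (-a) ^ (4 ^ d) = -a
    have h2 : (-a : Om) = a := CharTwo.neg_eq a
    rw [h2, ha]
  inv_mem' := by
    intro a ha
    change a ^ (4 ^ d) = a at ha
    change (a⁻¹) ^ (4 ^ d) = a⁻¹
    rw [inv_pow, ha]

/-- The standard vector space of dimension `m` over `KK d`. -/
abbrev Vec (d m : ℕ) : Type := Fin m → KK d

/-- Additive maps that are linear over `KK d ∩ KK e`. -/
def SL (d e : ℕ) (V W : Type) [AddCommGroup V] [Module (KK d) V] [AddCommGroup W]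
    [Module (KK e) W] : AddSubgroup (V →+ W) where
  carrier := {f | ∀ (c : KK d) (c' : KK e), (c : Om) = (c' : Om) → ∀ v, f (c • v) = c' • f v}
  add_mem' := by
    intro f g hf hg c c' h v
    simp only [AddMonoidHom.add_apply, smul_add]
    rw [hf c c' h v, hg c c' h v]
  zero_mem' := by
    intro c c' h v
    simp
  neg_mem' := by
    intro f hf c c' h v
    simp only [AddMonoidHom.neg_apply, smul_neg]
    rw [hf c c' h v]

/-- A species with charges in `ι → ℕ`. The vertex `j` carries the field `KK (κ j)`, and there are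
`mult i j` arrows `i → j`, each of them an additive map linear over `KK (κ i) ∩ KK (κ j)`. -/
structure Species (ι : Type) where
  /-- vertices -/
  J : Type
  /-- finitely many vertices -/
  [fJ : Fintype J]
  /-- decidable equality -/
  [dJ : DecidableEq J]
  /-- degrees -/
  κ : J → ℕ
  κ_pos : ∀ j, 0 < κ j
  /-- numbers of arrows -/
  mult : J → J → ℕ
  /-- charges -/
  ch : J → (ι → ℕ)
  ch_ne : ∀ j, ch j ≠ 0

attribute [instance] Species.fJ Species.dJ

variable {ι : Type} [Fintype ι] [DecidableEq ι]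

namespace Species

/-- The charge of a dimension vector. -/
def charge (S : Species ι) (m : S.J → ℕ) : ι → ℕ := ∑ j, m j • S.ch j

/-- Representations with dimension vector `m`. -/
def Rep (S : Species ι) (m : S.J → ℕ) : Type :=
  ∀ i j : S.J, Fin (S.mult i j) → SL (S.κ i) (S.κ j) (Vec (S.κ i) (m i)) (Vec (S.κ j) (m j))

/-- Families of subspaces. -/
abbrev Sub (S : Species ι) (m : S.J → ℕ) : Type :=
  ∀ j : S.J, Submodule (KK (S.κ j)) (Vec (S.κ j) (m j))

/-- `U` is a subrepresentation of `φ`. -/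
def IsSub {S : Species ι} {m : S.J → ℕ} (φ : S.Rep m) (U : S.Sub m) : Prop :=
  ∀ i j r, ∀ v ∈ U i, (φ i j r).1 v ∈ U j

/-- The dimension vector of a family of subspaces. -/
noncomputable def dimU {S : Species ι} {m : S.J → ℕ} (U : S.Sub m) : S.J → ℕ :=
  fun j => Module.finrank (KK (S.κ j)) (U j)

/-- Dimension vectors of all subrepresentations. -/
def dims {S : Species ι} {m : S.J → ℕ} (φ : S.Rep m) : Set (S.J → ℕ) :=
  {u | ∃ U, IsSub φ U ∧ dimU U = u}

/-- Dimension vectors of the subrepresentations of `U`. -/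
def dimsBelow {S : Species ι} {m : S.J → ℕ} (φ : S.Rep m) (U : S.Sub m) : Set (S.J → ℕ) :=
  {u | ∃ U', IsSub φ U' ∧ U' ≤ U ∧ dimU U' = u}

/-- Dimension vectors of the subrepresentations of the quotient by `U`. -/
def dimsAbove {S : Species ι} {m : S.J → ℕ} (φ : S.Rep m) (U : S.Sub m) : Set (S.J → ℕ) :=
  {u | ∃ U', IsSub φ U' ∧ U ≤ U' ∧ dimU U' = dimU U + u}

/-- The dimension vectors of charge `n`. -/
noncomputable def fib (S : Species ι) (n : ι → ℕ) : Finset (S.J → ℕ) :=
  (Finset.Iic fun _ => ∑ i, n i).filter fun m => S.charge m = n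

/-- The order of `GL_m` over `KK d`. -/
noncomputable def glc (d m : ℕ) : ℚ := ∏ i ∈ Finset.range m, ((4 : ℚ) ^ (d * m) - 4 ^ (d * i))

/-- The weighted generating series of a class of representations. The class is described by the
dimension vector and the set of dimension vectors of subrepresentations. -/
noncomputable def gen (S : Species ι) (B : ι → ι → ℤ) (d : ι → ℕ) (y : S.J → ℚ)
    (Φ : (S.J → ℕ) → Set (S.J → ℕ) → Prop) : T (WB B d) := fun n =>
  ∑ m ∈ S.fib n, (∏ j, y j ^ m j) * (2 : ℚ) ^ (chi B d (toZ n) (toZ n)) *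
    (Nat.card {φ : S.Rep m // Φ m (dims φ)} : ℚ) / ∏ j, glc (S.κ j) (m j)

/-- The Euler form of the species is the pull-back of `chi B d`. -/
def Euler (S : Species ι) (B : ι → ι → ℤ) (d : ι → ℕ) : Prop :=
  ∀ i j, (if i = j then (S.κ i : ℤ) else 0) - (Nat.lcm (S.κ i) (S.κ j) * S.mult i j : ℕ) =
    chi B d (toZ (S.ch i)) (toZ (S.ch j))

section classes

variable {Λ : Type} [AddCommGroup Λ] [LinearOrder Λ]

/-- All representations. -/
def PAll (S : Species ι) : (S.J → ℕ) → Set (S.J → ℕ) → Prop := fun _ _ => True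

/-- All nonzero quotients have `x > 0`. -/
def PT (S : Species ι) (x : (ι → ℤ) →+ Λ) : (S.J → ℕ) → Set (S.J → ℕ) → Prop := fun m D =>
  ∀ u ∈ D, u ≠ m → x (toZ (S.charge u)) < x (toZ (S.charge m))

/-- All subrepresentations have `x ≤ 0`. -/
def PLe (S : Species ι) (x : (ι → ℤ) →+ Λ) : (S.J → ℕ) → Set (S.J → ℕ) → Prop := fun _ D =>
  ∀ u ∈ D, x (toZ (S.charge u)) ≤ 0

/-- Semistable of slope zero. -/
def PS (S : Species ι) (x : (ι → ℤ) →+ Λ) : (S.J → ℕ) → Set (S.J → ℕ) → Prop := fun m D =>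
  x (toZ (S.charge m)) = 0 ∧ ∀ u ∈ D, x (toZ (S.charge u)) ≤ 0

/-- All nonzero subrepresentations have `x < 0`. -/
def PN (S : Species ι) (x : (ι → ℤ) →+ Λ) : (S.J → ℕ) → Set (S.J → ℕ) → Prop := fun _ D =>
  ∀ u ∈ D, u ≠ 0 → x (toZ (S.charge u)) < 0

end classes

/-- Every nonzero endomorphism is injective. -/
def Brick {S : Species ι} {m : S.J → ℕ} (φ : S.Rep m) : Prop :=
  ∀ f : ∀ j : S.J, Vec (S.κ j) (m j) →ₗ[KK (S.κ j)] Vec (S.κ j) (m j),
    (∀ i j r v, f j ((φ i j r).1 v) = (φ i j r).1 (f i v)) → f ≠ 0 →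
      ∀ j, Function.Injective (f j)

end Species

open Classical in
/-- The species used for `(B, d)`: the simple vertices `ι` and one vertex for each charge `m ≤ N`
in the cone `KS`. -/
noncomputable def mkS (B : ι → ι → ℤ) (d : ι → ℕ) (hd : ∀ i, 0 < d i) (N : ι → ℕ) :
    Species ι where
  J := ι ⊕ {m : ι → ℕ // m ∈ (Finset.Iic N).filter (KS B d)}
  κ := Sum.elim d fun _ => 1
  κ_pos := by
    rintro (i | i)
    · exact hd i
    · exact one_pos
  ch := Sum.elim (fun i => Pi.single i 1) fun m => m.1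
  ch_ne := by
    rintro (i | m)
    · simp
    · have := m.2
      simp only [Finset.mem_filter] at this
      exact this.2.1
  mult := fun i j =>
    (((if i = j then ((Sum.elim d (fun _ => 1) i : ℕ) : ℤ) else 0) -
        chi B d (toZ (Sum.elim (fun i => Pi.single i 1) (fun m => m.1) i))
          (toZ (Sum.elim (fun i => Pi.single i 1) (fun m => m.1) j))) /
      (Nat.lcm (Sum.elim d (fun _ => 1) i) (Sum.elim d (fun _ => 1) j) : ℤ)).toNat

end Species

end Pool.Agent.RootConj
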