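import Pool.Agent.RootConj.Defs2

set_option autoImplicit false

/-!
# A one-variable identity for the quantum dilogarithm
-/

namespace Pool.Agent.RootConj

section Dilog

namespace DilogAux

open Polynomial

/-- `E(t X)`. -/
noncomputable def Es (d : ℕ) (t : ℚ) : PowerSeries ℚ := PowerSeries.mk fun s => t ^ s * coef d s

theorem coef_succ (d : ℕ) (hd : 0 < d) (s : ℕ) :
    ((4 : ℚ) ^ (d * (s + 1)) - 1) * coef d (s + 1) = 2 ^ d * coef d s := by
  have h1 : (4 : ℚ) ^ (d * (s + 1)) - 1 ≠ 0 := by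
    have : (1 : ℚ) < 4 ^ (d * (s + 1)) := one_lt_pow₀ (by norm_num) (by positivity)
    linarith
  unfold coef
  rw [Finset.prod_Icc_succ_top (by omega)]
  have h2 : ∏ i ∈ Finset.Icc 1 s, ((4 : ℚ) ^ (d * i) - 1) ≠ 0 := by
    rw [Finset.prod_ne_zero_iff]
    intro i hi
    rw [Finset.mem_Icc] at hi
    have : (1 : ℚ) < 4 ^ (d * i) := one_lt_pow₀ (by norm_num) (by
      have : 0 < i := by omega
      positivity)
    linarith
  have h3 : (2 : ℚ) ^ (d * (s + 1)) = 2 ^ d * 2 ^ (d * s) := by rw [← pow_add]; ring_nf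
  rw [h3]
  set x := (4 : ℚ) ^ (d * (s + 1)) - 1
  field_simp

theorem Es_step (d : ℕ) (hd : 0 < d) (t : ℚ) :
    Es d (4 ^ d * t) = ((1 + C (2 ^ d * t) * X : ℚ[X]) : PowerSeries ℚ) * Es d t := by
  have e : ((1 + C (2 ^ d * t) * X : ℚ[X]) : PowerSeries ℚ) =
      1 + PowerSeries.C (2 ^ d * t) * PowerSeries.X := by
    simp
  rw [e, add_mul, one_mul, mul_assoc]
  ext n
  rw [map_add, PowerSeries.coeff_C_mul]
  cases n with
  | zero => simp [Es]
  | succ n =>
    rw [PowerSeries.coeff_succ_X_mul]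
    simp only [Es, PowerSeries.coeff_mk]
    have h := coef_succ d hd n
    have h2 : ((4 : ℚ) ^ d * t) ^ (n + 1) = 4 ^ (d * (n + 1)) * t ^ (n + 1) := by
      rw [mul_pow, pow_mul]
    rw [h2]
    have h3 : t ^ (n + 1) = t * t ^ n := by rw [pow_succ]; ring
    rw [h3]
    linear_combination (t * t ^ n) * h

/-- The product. -/
noncomputable def P (d r : ℕ) (t : ℚ) : ℚ[X] := ∏ i ∈ Finset.range r, (1 + C (2 ^ d * ((4 ^ d) ^ i * t)) * X)

theorem Es_P (d : ℕ) (hd : 0 < d) (r : ℕ) (t : ℚ) :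
    Es d ((4 ^ d) ^ r * t) = (P d r t : PowerSeries ℚ) * Es d t := by
  induction r with
  | zero => simp [P]
  | succ r ih =>
    have h1 : ((4 : ℚ) ^ d) ^ (r + 1) * t = 4 ^ d * ((4 ^ d) ^ r * t) := by
      rw [pow_succ]; ring
    have h2 : P d (r + 1) t = P d r t * (1 + C (2 ^ d * ((4 ^ d) ^ r * t)) * X) := by
      unfold P
      rw [Finset.prod_range_succ]
    rw [h1, Es_step d hd, ih, h2, Polynomial.coe_mul]
    ring

theorem P_natDegree (d r : ℕ) (t : ℚ) : (P d r t).natDegree ≤ r := by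
  refine (natDegree_prod_le _ _).trans ?_
  calc ∑ i ∈ Finset.range r, (1 + C (2 ^ d * ((4 ^ d) ^ i * t)) * X : ℚ[X]).natDegree
      ≤ ∑ i ∈ Finset.range r, 1 := by
        apply Finset.sum_le_sum
        intro i _
        compute_degree
    _ = r := by simp

theorem reflect_lin (c : ℚ) : reflect 1 (1 + C c * X : ℚ[X]) = X + C c := by
  have h1 : (1 : ℚ[X]) = C 1 * X ^ 0 := by simp
  have h2 : (C c * X : ℚ[X]) = C c * X ^ 1 := by simp
  rw [reflect_add, h2, reflect_C_mul_X_pow]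
  nth_rewrite 1 [h1]
  rw [reflect_C_mul_X_pow]
  simp [revAt]

theorem reflect_prod_lin (c : ℕ → ℚ) (r : ℕ) :
    reflect r (∏ i ∈ Finset.range r, (1 + C (c i) * X : ℚ[X])) =
      ∏ i ∈ Finset.range r, (X + C (c i)) := by
  induction r with
  | zero => simp
  | succ r ih =>
    rw [Finset.prod_range_succ, Finset.prod_range_succ, reflect_mul _ _ (F := r) (G := 1), ih,
      reflect_lin]
    · refine (natDegree_prod_le _ _).trans ?_
      calc ∑ i ∈ Finset.range r, (1 + C (c i) * X : ℚ[X]).natDegree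
          ≤ ∑ i ∈ Finset.range r, 1 := by
            apply Finset.sum_le_sum
            intro i _
            compute_degree
        _ = r := by simp
    · compute_degree

/-- Palindromic. -/
theorem reflect_P (d r : ℕ) : reflect r (P d r ((2 : ℚ) ^ (-((d * r : ℕ) : ℤ)))) =
    P d r ((2 : ℚ) ^ (-((d * r : ℕ) : ℤ))) := by
  set c : ℕ → ℚ := fun i => 2 ^ d * ((4 ^ d) ^ i * (2 : ℚ) ^ (-((d * r : ℕ) : ℤ))) with hc
  have hcpos : ∀ i, 0 < c i := by
    intro i
    simp only [hc]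
    positivity
  have hcz : ∀ i, c i = (2 : ℚ) ^ ((d : ℤ) * (1 + 2 * i - r)) := by
    intro i
    simp only [hc]
    have h4 : (4 : ℚ) = 2 ^ (2 : ℤ) := by norm_num
    rw [h4, ← zpow_natCast (2 : ℚ) d, ← zpow_natCast ((2 : ℚ) ^ (2 : ℤ)) d, ← zpow_mul,
      ← zpow_natCast _ i, ← zpow_mul, ← zpow_add₀ (by norm_num), ← zpow_add₀ (by norm_num)]
    congr 1
    push_cast
    ring
  have hcinv : ∀ i < r, c i * c (r - 1 - i) = 1 := by
    intro i hi
    rw [hcz, hcz, ← zpow_add₀ (by norm_num)]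
    have : ((r - 1 - i : ℕ) : ℤ) = r - 1 - i := by omega
    rw [this]
    have h0 : (d : ℤ) * (1 + 2 * i - r) + d * (1 + 2 * (r - 1 - i) - r) = 0 := by ring
    rw [h0, zpow_zero]
  have hprod : ∏ i ∈ Finset.range r, c i = 1 := by
    have h1 : (∏ i ∈ Finset.range r, c i) * (∏ i ∈ Finset.range r, c (r - 1 - i)) = 1 := by
      rw [← Finset.prod_mul_distrib]
      exact Finset.prod_eq_one (fun i hi => hcinv i (Finset.mem_range.1 hi))
    rw [Finset.prod_range_reflect c r] at h1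
    have h2 : 0 < ∏ i ∈ Finset.range r, c i := Finset.prod_pos (fun i _ => hcpos i)
    nlinarith
  show reflect r (∏ i ∈ Finset.range r, (1 + C (c i) * X)) = ∏ i ∈ Finset.range r, (1 + C (c i) * X)
  rw [reflect_prod_lin]
  have h3 : ∀ i ∈ Finset.range r, (X + C (c i) : ℚ[X]) = C (c i) * (1 + C (c (r - 1 - i)) * X) := by
    intro i hi
    have := hcinv i (Finset.mem_range.1 hi)
    rw [mul_add, mul_one, ← mul_assoc, ← C_mul, this]
    simp [add_comm]
  rw [Finset.prod_congr rfl h3, Finset.prod_mul_distrib, ← map_prod, hprod]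
  rw [Finset.prod_range_reflect (fun i => (1 + C (c i) * X : ℚ[X])) r]
  simp

/-- Polynomial with given coefficients. -/
noncomputable def poly (b : ℕ) (A : ℕ → ℚ) : ℚ[X] := ∑ j ∈ Finset.range (b + 1), C (A j) * X ^ j

theorem poly_coeff (b : ℕ) (A : ℕ → ℚ) (hA : ∀ j, b < j → A j = 0) (n : ℕ) :
    (poly b A).coeff n = A n := by
  unfold poly
  rw [finsetSum_coeff]
  simp only [coeff_C_mul, coeff_X_pow]
  by_cases h : n < b + 1
  · rw [Finset.sum_eq_single n]
    · simp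
    · intro j _ hj
      rw [if_neg (Ne.symm hj)]
      simp
    · intro hn
      exact absurd (Finset.mem_range.2 h) hn
  · rw [Finset.sum_eq_zero, hA n (by omega)]
    intro j hj
    rw [Finset.mem_range] at hj
    rw [if_neg (by omega)]
    simp

theorem poly_natDegree (b : ℕ) (A : ℕ → ℚ) (hA : ∀ j, b < j → A j = 0) :
    (poly b A).natDegree ≤ b := by
  rw [natDegree_le_iff_coeff_eq_zero]
  intro N hN
  rw [poly_coeff b A hA, hA N hN]

theorem reflect_poly_coeff (b : ℕ) (A : ℕ → ℚ) (hA : ∀ j, b < j → A j = 0) (n : ℕ) :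
    (reflect b (poly b A)).coeff n = if n ≤ b then A (b - n) else 0 := by
  rw [coeff_reflect, poly_coeff b A hA]
  split_ifs with h
  · rw [revAt_le h]
  · rw [revAt_eq_self_of_lt (by omega)]
    exact hA n (by omega)

theorem coeff_Es_mul (d : ℕ) (t : ℚ) (p : ℚ[X]) (n : ℕ) :
    PowerSeries.coeff n (Es d t * (p : PowerSeries ℚ)) =
      ∑ s ∈ Finset.range (n + 1), t ^ s * coef d s * p.coeff (n - s) := by
  rw [PowerSeries.coeff_mul, Finset.Nat.sum_antidiagonal_eq_sum_range_succ_mk]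
  simp [Es]

theorem Es_ne_zero (d : ℕ) (t : ℚ) : Es d t ≠ 0 := by
  intro h
  have : PowerSeries.coeff 0 (Es d t) = 0 := by rw [h]; simp
  simp [Es, coef] at this

/-- The case `br ≤ bl`. -/
theorem flip_aux (d : ℕ) (hd : 0 < d) (r br : ℕ) (A C : ℕ → ℚ)
    (hA : ∀ j, r + br < j → A j = 0) (hC : ∀ j, br < j → C j = 0)
    (h : ∀ n : ℕ, ∑ s ∈ Finset.range (n + 1),
        ((2 : ℚ) ^ (-((d * r : ℕ) : ℤ))) ^ s * coef d s * A (n - s) =
      ∑ s ∈ Finset.range (n + 1),
        ((2 : ℚ) ^ (((d * r : ℕ) : ℤ))) ^ s * coef d s * C (n - s)) :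
    ∀ n : ℕ, ∑ s ∈ Finset.range (n + 1), (if n - s ≤ r + br then
        ((2 : ℚ) ^ (-((d * r : ℕ) : ℤ))) ^ s * coef d s * A (r + br - (n - s)) else 0) =
      ∑ s ∈ Finset.range (n + 1), (if n - s ≤ br then
        ((2 : ℚ) ^ (((d * r : ℕ) : ℤ))) ^ s * coef d s * C (br - (n - s)) else 0) := by
  set t : ℚ := (2 : ℚ) ^ (-((d * r : ℕ) : ℤ)) with ht
  set u : ℚ := (2 : ℚ) ^ (((d * r : ℕ) : ℤ)) with hu
  have hut : u = (4 ^ d) ^ r * t := by
    rw [hu, ht]
    have h4 : (4 : ℚ) = 2 ^ (2 : ℤ) := by norm_num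
    rw [h4, ← zpow_natCast ((2 : ℚ) ^ (2 : ℤ)) d, ← zpow_mul, ← zpow_natCast _ r, ← zpow_mul,
      ← zpow_add₀ (by norm_num)]
    congr 1
    push_cast
    ring
  have hE : Es d u = (P d r t : PowerSeries ℚ) * Es d t := by
    rw [hut]
    exact Es_P d hd r t
  have h1 : Es d t * (poly (r + br) A : PowerSeries ℚ) = Es d u * (poly br C : PowerSeries ℚ) := by
    ext n
    rw [coeff_Es_mul, coeff_Es_mul]
    simp only [poly_coeff _ A hA, poly_coeff _ C hC]
    exact h n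
  have h2 : poly (r + br) A = P d r t * poly br C := by
    have h3 : Es d t * (poly (r + br) A : PowerSeries ℚ) =
        Es d t * ((P d r t * poly br C : ℚ[X]) : PowerSeries ℚ) := by
      rw [h1, hE, Polynomial.coe_mul]
      ring
    exact Polynomial.coe_injective ℚ (mul_left_cancel₀ (Es_ne_zero d t) h3)
  have h4 : reflect (r + br) (poly (r + br) A) = P d r t * reflect br (poly br C) := by
    rw [h2, reflect_mul _ _ (P_natDegree d r t) (poly_natDegree br C hC), ht, reflect_P]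
  have h5 : Es d t * (reflect (r + br) (poly (r + br) A) : PowerSeries ℚ) =
      Es d u * (reflect br (poly br C) : PowerSeries ℚ) := by
    rw [h4, hE, Polynomial.coe_mul]
    ring
  intro n
  have h6 := congrArg (PowerSeries.coeff n) h5
  rw [coeff_Es_mul, coeff_Es_mul] at h6
  simp only [reflect_poly_coeff _ A hA, reflect_poly_coeff _ C hC, mul_ite, mul_zero] at h6
  exact h6

end DilogAux

open DilogAux

theorem dilog_flip (d : ℕ) (hd : 0 < d) (bl br : ℕ) (A C : ℕ → ℚ)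
    (hA : ∀ j, bl < j → A j = 0) (hC : ∀ j, br < j → C j = 0)
    (h : ∀ n : ℕ, ∑ s ∈ Finset.range (n + 1),
        (2 : ℚ) ^ (-((s : ℤ) * d * ((bl : ℤ) - br))) * coef d s * A (n - s) =
      ∑ s ∈ Finset.range (n + 1),
        (2 : ℚ) ^ ((s : ℤ) * d * ((bl : ℤ) - br)) * coef d s * C (n - s)) :
    ∀ n : ℕ, ∑ s ∈ Finset.range (n + 1), (if n - s ≤ bl then
        (2 : ℚ) ^ (-((s : ℤ) * d * ((bl : ℤ) - br))) * coef d s * A (bl - (n - s)) else 0) =
      ∑ s ∈ Finset.range (n + 1), (if n - s ≤ br then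
        (2 : ℚ) ^ ((s : ℤ) * d * ((bl : ℤ) - br)) * coef d s * C (br - (n - s)) else 0) := by
  rcases le_total br bl with hle | hle
  · obtain ⟨r, rfl⟩ := Nat.exists_eq_add_of_le' hle
    have e1 : ∀ s : ℕ, (2 : ℚ) ^ (-((s : ℤ) * d * (((r + br : ℕ) : ℤ) - br))) =
        ((2 : ℚ) ^ (-((d * r : ℕ) : ℤ))) ^ s := by
      intro s
      rw [← zpow_natCast _ s, ← zpow_mul]
      congr 1
      push_cast
      ring
    have e2 : ∀ s : ℕ, (2 : ℚ) ^ ((s : ℤ) * d * (((r + br : ℕ) : ℤ) - br)) =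
        ((2 : ℚ) ^ (((d * r : ℕ) : ℤ))) ^ s := by
      intro s
      rw [← zpow_natCast _ s, ← zpow_mul]
      congr 1
      push_cast
      ring
    simp only [e1, e2] at h ⊢
    exact flip_aux d hd r br A C hA hC h
  · obtain ⟨r, rfl⟩ := Nat.exists_eq_add_of_le' hle
    have e1 : ∀ s : ℕ, (2 : ℚ) ^ (-((s : ℤ) * d * ((bl : ℤ) - ((r + bl : ℕ) : ℤ)))) =
        ((2 : ℚ) ^ (((d * r : ℕ) : ℤ))) ^ s := by
      intro s
      rw [← zpow_natCast _ s, ← zpow_mul]
      congr 1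
      push_cast
      ring
    have e2 : ∀ s : ℕ, (2 : ℚ) ^ ((s : ℤ) * d * ((bl : ℤ) - ((r + bl : ℕ) : ℤ))) =
        ((2 : ℚ) ^ (-((d * r : ℕ) : ℤ))) ^ s := by
      intro s
      rw [← zpow_natCast _ s, ← zpow_mul]
      congr 1
      push_cast
      ring
    simp only [e1, e2] at h ⊢
    intro n
    exact (flip_aux d hd r bl C A hC hA (fun n => (h n).symm) n).symm

end Dilog

end Pool.Agent.RootConj
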