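import Pool.Agent.RootConj.Defs2

set_option autoImplicit false

/-!
# Finite subfields of the algebraic closure of `F_2`, and counting of (semi)linear maps
-/

namespace Pool.Agent.RootConj

section Fields

namespace FieldsAux

open Polynomial

/-! ### General lemmas over an arbitrary ambient field -/

theorem finrank_gen {K V : Type} [Field K] [Finite K] [AddCommGroup V] [Module K V] [Finite V]
    (n : ℕ) (hV : Nat.card V = Nat.card K ^ n) : Module.finrank K V = n := by
  have hfin : Module.Finite K V := Module.Finite.of_finite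
  have h1 := Module.natCard_eq_pow_finrank (K := K) (V := V)
  rw [hV] at h1
  exact (Nat.pow_right_injective (Finite.one_lt_card (α := K)) h1).symm

theorem family_gen {F : Type} [Field F] (K L : Subfield F) (hKL : K ≤ L) [Finite K] [Finite L]
    (n : ℕ) (hL : Nat.card L = Nat.card K ^ n) :
    ∃ b : Fin n → L, ∀ c : L, ∃! a : Fin n → K, (c : F) = ∑ i, (a i : F) * (b i : F) := by
  let _ : Module K L := Module.compHom L (Subfield.inclusion hKL)
  have hmf : Module.Finite K L := Module.Finite.of_finite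
  have hr : Module.finrank K L = n := finrank_gen n hL
  set b := Module.finBasisOfFinrankEq K L hr
  have hsum : ∀ f : Fin n → L, ((∑ i, f i : L) : F) = ∑ i, ((f i : L) : F) :=
    fun f => map_sum L.subtype f _
  have hs : ∀ (a : K) (x : L), ((a • x : L) : F) = (a : F) * (x : F) := fun _ _ => rfl
  refine ⟨fun i => b i, fun c => ?_⟩
  refine ⟨fun i => b.repr c i, ?_, ?_⟩
  · show (c : F) = ∑ i, ((b.repr c i : K) : F) * ((b i : L) : F)
    have h1 : c = ∑ i, b.repr c i • b i := (b.sum_repr c).symm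
    have h2 : (c : F) = ((∑ i, b.repr c i • b i : L) : F) := by rw [← h1]
    rw [h2, hsum]
    exact Finset.sum_congr rfl fun i _ => hs _ _
  · intro a ha
    have h1 : c = ∑ i, a i • b i := by
      apply Subtype.ext
      change (c : F) = ∑ i, (a i : F) * (b i : F) at ha
      rw [ha, hsum]
      exact Finset.sum_congr rfl fun i _ => (hs _ _).symm
    funext i
    rw [h1, b.repr_sum_self]

theorem card_semilin {F : Type} [Field F] (K₁ K₂ K : Subfield F) (hK : K₁ ⊓ K₂ = K)
    (V W : Type) [AddCommGroup V] [Module K₁ V] [AddCommGroup W] [Module K₂ W] [Finite V]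
    [Finite W] [Finite K] (n : ℕ) (hV : Nat.card V = Nat.card K ^ n) :
    Nat.card {f : V →+ W // ∀ (c : K₁) (c' : K₂), (c : F) = (c' : F) → ∀ v, f (c • v) = c' • f v} =
      Nat.card W ^ n := by
  have h1 : K ≤ K₁ := hK ▸ inf_le_left
  have h2 : K ≤ K₂ := hK ▸ inf_le_right
  let _ : Module K V := Module.compHom V (Subfield.inclusion h1)
  let _ : Module K W := Module.compHom W (Subfield.inclusion h2)
  have hmf : Module.Finite K V := Module.Finite.of_finite
  have hr : Module.finrank K V = n := finrank_gen n hV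
  set b := Module.finBasisOfFinrankEq K V hr
  have e1 : {f : V →+ W // ∀ (c : K₁) (c' : K₂), (c : F) = (c' : F) → ∀ v, f (c • v) = c' • f v} ≃
      (V →ₗ[K] W) :=
    { toFun := fun f =>
        { toFun := f.1
          map_add' := f.1.map_add
          map_smul' := by
            intro c v
            exact f.2 (Subfield.inclusion h1 c) (Subfield.inclusion h2 c) rfl v }
      invFun := fun f => ⟨f.toAddMonoidHom, by
        intro c c' h v
        have hc : (c : F) ∈ K := by
          rw [← hK, Subfield.mem_inf]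
          exact ⟨c.2, h ▸ c'.2⟩
        have h3 := f.map_smul (⟨(c : F), hc⟩ : K) v
        have h4 : c' = Subfield.inclusion h2 ⟨(c : F), hc⟩ := Subtype.ext h.symm
        rw [h4]
        exact h3⟩
      left_inv := fun f => rfl
      right_inv := fun f => rfl }
  have e2 : (V →ₗ[K] W) ≃ (Fin n → W) := ((b.constr ℕ).symm.toEquiv)
  rw [Nat.card_congr (e1.trans e2), Nat.card_fun, Nat.card_fin]

theorem card_gl_gen {K : Type} [Field K] [Finite K] (m : ℕ) :
    (Nat.card ((Fin m → K) ≃ₗ[K] (Fin m → K)) : ℚ) =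
      ∏ i ∈ Finset.range m, ((Nat.card K : ℚ) ^ m - (Nat.card K : ℚ) ^ i) := by
  classical
  let _ : Fintype K := Fintype.ofFinite _
  have h1 : Nat.card ((Fin m → K) ≃ₗ[K] (Fin m → K)) =
      Nat.card (Matrix.GeneralLinearGroup (Fin m) K) :=
    Nat.card_congr ((Matrix.GeneralLinearGroup.toLin.trans
      (LinearMap.GeneralLinearGroup.generalLinearEquiv K (Fin m → K))).symm.toEquiv)
  rw [h1, Matrix.card_GL_field, ← Nat.card_eq_fintype_card]
  push_cast
  rw [← Fin.prod_univ_eq_prod_range (fun i => ((Nat.card K : ℚ) ^ m - (Nat.card K : ℚ) ^ i)) m]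
  apply Finset.prod_congr rfl
  intro i _
  rw [Nat.cast_sub (Nat.pow_le_pow_right Nat.card_pos i.2.le)]
  push_cast
  rfl

/-! ### The subfields `KK d` -/

theorem mem_KK (d : ℕ) (x : Om) : x ∈ KK d ↔ x ^ (4 ^ d) = x := Iff.rfl

theorem card_KK' (d : ℕ) (hd : 0 < d) : Nat.card (KK d) = 4 ^ d := by
  classical
  have h1 : 1 < 4 ^ d := Nat.one_lt_pow hd.ne' (by norm_num)
  have hsep : (X ^ (4 ^ d) - X : Om[X]).Separable := by
    apply galois_poly_separable 2
    exact dvd_pow (by norm_num) hd.ne'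
  have hsplit : (map (algebraMap Om Om) (X ^ (4 ^ d) - X : Om[X])).Splits := IsAlgClosed.splits _
  have h2 := card_rootSet_eq_natDegree hsep hsplit
  rw [FiniteField.X_pow_card_sub_X_natDegree_eq Om h1] at h2
  rw [← h2, ← Nat.card_eq_fintype_card]
  apply Nat.card_congr
  apply Equiv.subtypeEquivRight
  intro x
  rw [mem_KK, mem_rootSet_of_ne (FiniteField.X_pow_card_sub_X_ne_zero Om h1)]
  simp [sub_eq_zero]

theorem iter (d : ℕ) (x : Om) : (fun y : Om => y ^ 4)^[d] x = x ^ (4 ^ d) := by
  induction d generalizing x with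
  | zero => simp
  | succ d ih =>
    rw [Function.iterate_succ_apply, ih, ← pow_mul]
    congr 1
    rw [pow_succ]
    ring

theorem mem_iff (d : ℕ) (x : Om) : x ∈ KK d ↔ Function.IsPeriodicPt (fun y : Om => y ^ 4) d x := by
  rw [mem_KK, Function.IsPeriodicPt, Function.IsFixedPt, iter]

theorem KK_le {d e : ℕ} (h : d ∣ e) : KK d ≤ KK e := by
  intro x hx
  rw [mem_iff] at hx ⊢
  exact hx.trans_dvd h

end FieldsAux

open FieldsAux

theorem card_KK (d : ℕ) (hd : 0 < d) : Nat.card (KK d) = 4 ^ d := card_KK' d hd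

theorem finite_KK (d : ℕ) (hd : 0 < d) : Finite (KK d) := by
  apply Nat.finite_of_card_ne_zero
  rw [card_KK d hd]
  positivity

theorem KK_inf (d e : ℕ) (hd : 0 < d) (he : 0 < e) : KK d ⊓ KK e = KK (Nat.gcd d e) := by
  have _ := hd
  have _ := he
  ext x
  rw [Subfield.mem_inf, mem_iff, mem_iff, mem_iff]
  constructor
  · rintro ⟨h1, h2⟩
    exact h1.gcd h2
  · intro h
    exact ⟨h.trans_dvd (Nat.gcd_dvd_left d e), h.trans_dvd (Nat.gcd_dvd_right d e)⟩

theorem FieldsAux.card_Vec (d m : ℕ) (hd : 0 < d) : Nat.card (Vec d m) = 4 ^ (d * m) := by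
  rw [Nat.card_fun, card_KK d hd, Nat.card_fin, pow_mul]

theorem FieldsAux.finite_Vec (d m : ℕ) (hd : 0 < d) : Finite (Vec d m) := by
  have := finite_KK d hd
  infer_instance

/-- A basis of `KK d` over `KK d ∩ KK e` (as a family), in a form suited to `SL`. -/
theorem exists_family (d e : ℕ) (hd : 0 < d) (he : 0 < e) :
    ∃ b : Fin (d / Nat.gcd d e) → KK d, ∀ c : KK d,
      ∃! a : Fin (d / Nat.gcd d e) → KK (Nat.gcd d e), (c : Om) = ∑ i, (a i : Om) * (b i : Om) := by
  have _ := he
  have hg0 : 0 < Nat.gcd d e := Nat.gcd_pos_of_pos_left e hd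
  have hgd : Nat.gcd d e ∣ d := Nat.gcd_dvd_left d e
  have hfin := finite_KK d hd
  have hfin' := finite_KK _ hg0
  apply family_gen (KK (Nat.gcd d e)) (KK d) (KK_le hgd) (d / Nat.gcd d e)
  rw [card_KK d hd, card_KK _ hg0, ← pow_mul, Nat.mul_div_cancel' hgd]

theorem card_SL (d e m m' : ℕ) (hd : 0 < d) (he : 0 < e) :
    Nat.card (SL d e (Vec d m) (Vec e m')) = 4 ^ (Nat.lcm d e * m * m') := by
  have hg0 : 0 < Nat.gcd d e := Nat.gcd_pos_of_pos_left e hd
  have hgd : Nat.gcd d e ∣ d := Nat.gcd_dvd_left d e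
  have hfd := finite_Vec d m hd
  have hfe := finite_Vec e m' he
  have hfin' := finite_KK _ hg0
  have h := card_semilin (KK d) (KK e) (KK (Nat.gcd d e)) (KK_inf d e hd he) (Vec d m) (Vec e m')
    (d / Nat.gcd d e * m) (by
      rw [card_Vec d m hd, card_KK _ hg0, ← pow_mul, ← mul_assoc, Nat.mul_div_cancel' hgd])
  rw [card_Vec e m' he, ← pow_mul] at h
  have h4 : Nat.lcm d e = e * (d / Nat.gcd d e) := by
    rw [Nat.lcm, mul_comm d e, Nat.mul_div_assoc _ hgd]
  have h5 : Nat.lcm d e * m * m' = e * m' * (d / Nat.gcd d e * m) := by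
    rw [h4]
    ring
  rw [h5, ← h]
  rfl

theorem card_glc (d m : ℕ) (hd : 0 < d) :
    (Nat.card (Vec d m ≃ₗ[KK d] Vec d m) : ℚ) = Species.glc d m := by
  have hfin := finite_KK d hd
  rw [card_gl_gen, card_KK d hd, Species.glc]
  push_cast
  apply Finset.prod_congr rfl
  intro i _
  rw [pow_mul, pow_mul]

end Fields

end Pool.Agent.RootConj
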