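import Pool.Agent.RootConj.Fields

set_option autoImplicit false
set_option linter.unusedSectionVars false

/-!
# Inequalities for the Euler form from missing sub- and quotient representations
(module Ineq of `MP_d86e12_al`)
-/

namespace Pool.Agent.RootConj

namespace Species

variable {ι : Type} [Fintype ι] [DecidableEq ι]

private theorem chi_zero_left (B : ι → ι → ℤ) (d : ι → ℕ) (b : ι → ℤ) : chi B d 0 b = 0 := by
  simp [chi]

private theorem chi_add_left (B : ι → ι → ℤ) (d : ι → ℕ) (a a' b : ι → ℤ) :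
    chi B d (a + a') b = chi B d a b + chi B d a' b := by
  unfold chi
  simp only [Pi.add_apply, add_mul, mul_add, Finset.sum_add_distrib]
  ring

private theorem chi_add_right (B : ι → ι → ℤ) (d : ι → ℕ) (a b b' : ι → ℤ) :
    chi B d a (b + b') = chi B d a b + chi B d a b' := by
  unfold chi
  simp only [Pi.add_apply, mul_add, Finset.sum_add_distrib]
  ring

private theorem chi_zero_right (B : ι → ι → ℤ) (d : ι → ℕ) (a : ι → ℤ) : chi B d a 0 = 0 := by
  simp [chi]

private def chiL (B : ι → ι → ℤ) (d : ι → ℕ) (b : ι → ℤ) : (ι → ℤ) →+ ℤ where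
  toFun a := chi B d a b
  map_zero' := chi_zero_left B d b
  map_add' a a' := chi_add_left B d a a' b

private def chiR (B : ι → ι → ℤ) (d : ι → ℕ) (a : ι → ℤ) : (ι → ℤ) →+ ℤ where
  toFun b := chi B d a b
  map_zero' := chi_zero_right B d a
  map_add' b b' := chi_add_right B d a b b'

private theorem toZ_charge (S : Species ι) (m : S.J → ℕ) :
    toZ (S.charge m) = ∑ j, (m j : ℕ) • toZ (S.ch j) := by
  unfold charge
  funext i
  simp [toZ, Finset.sum_apply]

private theorem chi_charge_left (S : Species ι) (B : ι → ι → ℤ) (d : ι → ℕ) (m : S.J → ℕ)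
    (b : ι → ℤ) : chi B d (toZ (S.charge m)) b = ∑ j, (m j : ℤ) * chi B d (toZ (S.ch j)) b := by
  rw [toZ_charge]
  change chiL B d b _ = _
  rw [map_sum]
  refine Finset.sum_congr rfl fun j _ => ?_
  rw [map_nsmul]
  simp [chiL]

private theorem chi_charge_right (S : Species ι) (B : ι → ι → ℤ) (d : ι → ℕ) (m : S.J → ℕ)
    (a : ι → ℤ) : chi B d a (toZ (S.charge m)) = ∑ j, (m j : ℤ) * chi B d a (toZ (S.ch j)) := by
  rw [toZ_charge]
  change chiR B d a _ = _
  rw [map_sum]
  refine Finset.sum_congr rfl fun j _ => ?_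
  rw [map_nsmul]
  simp [chiR]

/-- An element of the small field, seen in both fields. -/
private theorem mem_both {d e : ℕ} (hd : 0 < d) (he : 0 < e) (a : KK (Nat.gcd d e)) :
    (a : Om) ∈ KK d ∧ (a : Om) ∈ KK e := by
  have h : (a : Om) ∈ KK d ⊓ KK e := by
    rw [KK_inf d e hd he]
    exact a.2
  exact h

/-- The values of a map in `SL` are combinations of the values at `b β • v`. -/
private theorem SL_expand {d e : ℕ} (hd : 0 < d) (he : 0 < e) {V W : Type} [AddCommGroup V]
    [Module (KK d) V] [AddCommGroup W] [Module (KK e) W] (f : SL d e V W)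
    (b : Fin (d / Nat.gcd d e) → KK d) (c : KK d) (a : Fin (d / Nat.gcd d e) → KK (Nat.gcd d e))
    (ha : (c : Om) = ∑ i, (a i : Om) * (b i : Om)) (v : V) :
    f.1 (c • v) = ∑ i, (⟨(a i : Om), (mem_both hd he (a i)).2⟩ : KK e) • f.1 (b i • v) := by
  have hc : c = ∑ i, (⟨(a i : Om), (mem_both hd he (a i)).1⟩ : KK d) * b i := by
    apply Subtype.ext
    rw [ha]
    push_cast
    rfl
  rw [hc, Finset.sum_smul, map_sum]
  refine Finset.sum_congr rfl fun i _ => ?_
  rw [mul_smul]
  exact f.2 _ _ rfl _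

/-- No quotient concentrated at `k`. -/
theorem chi_le_of_no_quot {S : Species ι} {B : ι → ι → ℤ} {d : ι → ℕ} (hS : S.Euler B d)
    {m : S.J → ℕ} (φ : S.Rep m) (k : S.J) (hk : S.mult k k = 0)
    (h : ∀ u ∈ dims φ, (∀ j, j ≠ k → u j = m j) → u = m) :
    chi B d (toZ (S.charge m)) (toZ (S.ch k)) ≤ 0 := by
  classical
  -- the span of the images of the arrows into `k`
  let b : ∀ j : S.J, Fin (S.κ j / Nat.gcd (S.κ j) (S.κ k)) → KK (S.κ j) := fun j =>
    (exists_family (S.κ j) (S.κ k) (S.κ_pos j) (S.κ_pos k)).choose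
  have hb : ∀ (j : S.J) (c : KK (S.κ j)), ∃ a : Fin (S.κ j / Nat.gcd (S.κ j) (S.κ k)) →
      KK (Nat.gcd (S.κ j) (S.κ k)), (c : Om) = ∑ i, (a i : Om) * (b j i : Om) := fun j c =>
    ((exists_family (S.κ j) (S.κ k) (S.κ_pos j) (S.κ_pos k)).choose_spec c).exists
  let Idx : Type := Σ j : S.J, Fin (S.mult j k) × Fin (m j) ×
    Fin (S.κ j / Nat.gcd (S.κ j) (S.κ k))
  let F : Idx → Vec (S.κ k) (m k) := fun x =>
    (φ x.1 k x.2.1).1 (b x.1 x.2.2.2 • Pi.single x.2.2.1 1)
  let P : Submodule (KK (S.κ k)) (Vec (S.κ k) (m k)) := Submodule.span _ (Set.range F)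
  have hP : ∀ (j : S.J) (r : Fin (S.mult j k)) (v : Vec (S.κ j) (m j)),
      (φ j k r).1 v ∈ P := by
    intro j r v
    have hv : v = ∑ i, v i • (Pi.single i 1 : Vec (S.κ j) (m j)) := by
      funext i
      simp [Finset.sum_apply, Pi.single_apply]
    rw [hv, map_sum]
    refine Submodule.sum_mem _ fun i _ => ?_
    obtain ⟨a, ha⟩ := hb j (v i)
    rw [SL_expand (S.κ_pos j) (S.κ_pos k) (φ j k r) (b j) (v i) a ha]
    refine Submodule.sum_mem _ fun β _ => Submodule.smul_mem _ _ ?_
    exact Submodule.subset_span ⟨⟨j, r, i, β⟩, rfl⟩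
  -- the subrepresentation
  let U : S.Sub m := fun j => if h : j = k then h ▸ P else ⊤
  have hUk : U k = P := by simp [U]
  have hUj : ∀ j, j ≠ k → U j = ⊤ := by intro j hj; simp [U, hj]
  have hU : IsSub φ U := by
    intro i j r v _
    by_cases hj : j = k
    · subst hj
      rw [hUk]
      exact hP i r v
    · rw [hUj j hj]
      trivial
  have hdim : dimU U = m := by
    refine h _ ⟨U, hU, rfl⟩ ?_
    intro j hj
    unfold dimU
    rw [hUj j hj, finrank_top]
    simp
  have hmk : m k ≤ Fintype.card Idx := by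
    have h1 : Module.finrank (KK (S.κ k)) (U k) = m k := congrFun hdim k
    rw [hUk] at h1
    rw [← h1]
    exact finrank_range_le_card F
  have hcard : Fintype.card Idx =
      ∑ j, S.mult j k * (m j * (S.κ j / Nat.gcd (S.κ j) (S.κ k))) := by
    simp [Idx, Fintype.card_sigma]
  rw [hcard] at hmk
  -- conclusion
  rw [chi_charge_left]
  have hval : ∀ j, (m j : ℤ) * chi B d (toZ (S.ch j)) (toZ (S.ch k)) =
      (if j = k then (m k : ℤ) * S.κ k else 0) -
        ((S.κ k * (S.mult j k * (m j * (S.κ j / Nat.gcd (S.κ j) (S.κ k)))) : ℕ) : ℤ) := by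
    intro j
    rw [← hS j k, mul_sub]
    congr 1
    · split_ifs with hj
      · subst hj; rfl
      · simp
    · have : Nat.lcm (S.κ j) (S.κ k) = S.κ k * (S.κ j / Nat.gcd (S.κ j) (S.κ k)) := by
        rw [Nat.lcm, mul_comm (S.κ j), Nat.mul_div_assoc _ (Nat.gcd_dvd_left _ _)]
      rw [this]
      push_cast
      ring
  rw [Finset.sum_congr rfl fun j _ => hval j, Finset.sum_sub_distrib]
  simp only [Finset.sum_ite_eq', Finset.mem_univ, if_true]
  rw [← Nat.cast_sum, ← Finset.mul_sum]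
  have h2 : (m k : ℤ) * S.κ k ≤ ((S.κ k *
      ∑ j, S.mult j k * (m j * (S.κ j / Nat.gcd (S.κ j) (S.κ k))) : ℕ) : ℤ) := by
    have : m k * S.κ k ≤ S.κ k *
      ∑ j, S.mult j k * (m j * (S.κ j / Nat.gcd (S.κ j) (S.κ k))) := by
      rw [mul_comm (m k)]
      exact Nat.mul_le_mul_left _ hmk
    exact_mod_cast this
  linarith

/-- No subrepresentation concentrated at `k`. -/
theorem chi_le_of_no_sub {S : Species ι} {B : ι → ι → ℤ} {d : ι → ℕ} (hS : S.Euler B d)
    {m : S.J → ℕ} (φ : S.Rep m) (k : S.J) (hk : S.mult k k = 0)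
    (h : ∀ u ∈ dims φ, (∀ j, j ≠ k → u j = 0) → u = 0) :
    chi B d (toZ (S.ch k)) (toZ (S.charge m)) ≤ 0 := by
  classical
  let b : ∀ j : S.J, Fin (S.κ k / Nat.gcd (S.κ k) (S.κ j)) → KK (S.κ k) := fun j =>
    (exists_family (S.κ k) (S.κ j) (S.κ_pos k) (S.κ_pos j)).choose
  have hb : ∀ (j : S.J) (c : KK (S.κ k)), ∃ a : Fin (S.κ k / Nat.gcd (S.κ k) (S.κ j)) →
      KK (Nat.gcd (S.κ k) (S.κ j)), (c : Om) = ∑ i, (a i : Om) * (b j i : Om) := fun j c =>
    ((exists_family (S.κ k) (S.κ j) (S.κ_pos k) (S.κ_pos j)).choose_spec c).exists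
  -- the common kernel
  let K : Submodule (KK (S.κ k)) (Vec (S.κ k) (m k)) :=
    { carrier := {v | ∀ (j : S.J) (r : Fin (S.mult k j)) (c : KK (S.κ k)),
        (φ k j r).1 (c • v) = 0}
      add_mem' := by
        intro v w hv hw j r c
        rw [smul_add, map_add, hv j r c, hw j r c, add_zero]
      zero_mem' := by
        intro j r c
        rw [smul_zero, map_zero]
      smul_mem' := by
        intro c v hv j r c'
        rw [smul_smul]
        exact hv j r _ }
  let U : S.Sub m := fun j => if h : j = k then h ▸ K else ⊥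
  have hUk : U k = K := by simp [U]
  have hUj : ∀ j, j ≠ k → U j = ⊥ := by intro j hj; simp [U, hj]
  have hU : IsSub φ U := by
    intro i j r v hv
    by_cases hi : i = k
    · subst hi
      rw [hUk] at hv
      have h1 := hv j r 1
      rw [one_smul] at h1
      rw [h1]
      exact Submodule.zero_mem _
    · rw [hUj i hi, Submodule.mem_bot] at hv
      rw [hv, map_zero]
      exact Submodule.zero_mem _
  have hdim : dimU U = 0 := by
    refine h _ ⟨U, hU, rfl⟩ ?_
    intro j hj
    unfold dimU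
    rw [hUj j hj, finrank_bot]
  have hK : K = ⊥ := by
    have h1 : Module.finrank (KK (S.κ k)) (U k) = 0 := congrFun hdim k
    rw [hUk] at h1
    exact Submodule.finrank_eq_zero.mp h1
  -- the injection
  let Ψ : Vec (S.κ k) (m k) → ∀ j : S.J, Fin (S.mult k j) →
      Fin (S.κ k / Nat.gcd (S.κ k) (S.κ j)) → Vec (S.κ j) (m j) :=
    fun v j r β => (φ k j r).1 (b j β • v)
  have hΨ : Function.Injective Ψ := by
    intro v w hvw
    have h1 : v - w ∈ K := by
      intro j r c
      obtain ⟨a, ha⟩ := hb j c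
      rw [SL_expand (S.κ_pos k) (S.κ_pos j) (φ k j r) (b j) c a ha]
      refine Finset.sum_eq_zero fun β _ => ?_
      have h2 : (φ k j r).1 (b j β • v) = (φ k j r).1 (b j β • w) :=
        congrFun (congrFun (congrFun hvw j) r) β
      rw [smul_sub, map_sub, h2, sub_self, smul_zero]
    rw [hK, Submodule.mem_bot] at h1
    exact sub_eq_zero.mp h1
  have : ∀ j : S.J, Finite (KK (S.κ j)) := fun j => finite_KK _ (S.κ_pos j)
  have hcard := Nat.card_le_card_of_injective Ψ hΨ
  have hV : ∀ j : S.J, Nat.card (Vec (S.κ j) (m j)) = 4 ^ (S.κ j * m j) := by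
    intro j
    rw [Nat.card_pi, Finset.prod_const, card_KK _ (S.κ_pos j), Finset.card_univ, Fintype.card_fin,
      ← pow_mul]
  rw [hV k, Nat.card_pi] at hcard
  have h3 : ∀ j : S.J, Nat.card (Fin (S.mult k j) →
      Fin (S.κ k / Nat.gcd (S.κ k) (S.κ j)) → Vec (S.κ j) (m j)) =
      4 ^ (S.mult k j * (m j * Nat.lcm (S.κ k) (S.κ j))) := by
    intro j
    rw [Nat.card_pi, Finset.prod_const, Nat.card_pi, Finset.prod_const, hV j, Finset.card_univ,
      Fintype.card_fin, Finset.card_univ, Fintype.card_fin, ← pow_mul, ← pow_mul]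
    congr 1
    have : Nat.lcm (S.κ k) (S.κ j) = S.κ j * (S.κ k / Nat.gcd (S.κ k) (S.κ j)) := by
      rw [Nat.lcm, mul_comm (S.κ k), Nat.mul_div_assoc _ (Nat.gcd_dvd_left _ _)]
    rw [this]
    ring
  rw [Finset.prod_congr rfl fun j _ => h3 j, Finset.prod_pow_eq_pow_sum] at hcard
  have h4 : S.κ k * m k ≤ ∑ j, S.mult k j * (m j * Nat.lcm (S.κ k) (S.κ j)) :=
    (Nat.pow_le_pow_iff_right (by norm_num)).mp hcard
  rw [chi_charge_right]
  have hval : ∀ j, (m j : ℤ) * chi B d (toZ (S.ch k)) (toZ (S.ch j)) =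
      (if j = k then (S.κ k : ℤ) * m k else 0) -
        ((S.mult k j * (m j * Nat.lcm (S.κ k) (S.κ j)) : ℕ) : ℤ) := by
    intro j
    rw [← hS k j, mul_sub]
    congr 1
    · by_cases hj : j = k
      · subst hj
        simp [mul_comm]
      · rw [if_neg hj, if_neg (Ne.symm hj), mul_zero]
    · push_cast
      ring
  rw [Finset.sum_congr rfl fun j _ => hval j, Finset.sum_sub_distrib]
  simp only [Finset.sum_ite_eq', Finset.mem_univ, if_true]
  rw [← Nat.cast_sum]
  have h5 : (S.κ k : ℤ) * m k ≤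
      ((∑ j, S.mult k j * (m j * Nat.lcm (S.κ k) (S.κ j)) : ℕ) : ℤ) := by
    exact_mod_cast h4
  linarith

end Species

end Pool.Agent.RootConj
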