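import Pool.Agent.RootConj.HN
import Pool.Agent.RootConj.EulerS
import Pool.Agent.RootConj.Ineq

set_option autoImplicit false
set_option linter.unusedSectionVars false

/-!
# Root conjecture for c-vectors: the generating series and the simple dilogarithms (module GenPk)
-/

namespace Pool.Agent.RootConj

namespace Species

variable {ι : Type} [Fintype ι] [DecidableEq ι]

namespace GenPk

/-! ### Elementary facts -/

theorem diag_zero {B : ι → ι → ℤ} {d : ι → ℕ} (hB : SkewSym B d) (k : ι) : B k k = 0 := by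
  have h := hB.skew k k
  have hd : (0 : ℤ) < d k := by exact_mod_cast hB.pos k
  have : (d k : ℤ) * B k k = 0 := by linarith
  rcases mul_eq_zero.mp this with h | h
  · omega
  · exact h

theorem glc_zero (d : ℕ) : glc d 0 = 1 := by simp [glc]

theorem glc_eq (d r : ℕ) : glc d r =
    2 ^ (d * (r * (r - 1))) * ∏ i ∈ Finset.Icc 1 r, ((4 : ℚ) ^ (d * i) - 1) := by
  unfold glc
  have h1 : ∀ i ∈ Finset.range r, (4 : ℚ) ^ (d * r) - 4 ^ (d * i) =
      4 ^ (d * i) * (4 ^ (d * (r - i)) - 1) := by
    intro i hi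
    have hi' : i ≤ r := (Finset.mem_range.1 hi).le
    rw [mul_sub, mul_one, ← pow_add, ← mul_add, Nat.add_sub_cancel' hi']
  rw [Finset.prod_congr rfl h1, Finset.prod_mul_distrib]
  congr 1
  · rw [Finset.prod_pow_eq_pow_sum, ← Finset.mul_sum, Finset.sum_range_id]
    have h4 : (4 : ℚ) = 2 ^ 2 := by norm_num
    rw [h4, ← pow_mul]
    congr 1
    have h2 : 2 * (r * (r - 1) / 2) = r * (r - 1) :=
      Nat.mul_div_cancel' (Nat.even_mul_pred_self r).two_dvd
    calc 2 * (d * (r * (r - 1) / 2)) = d * (2 * (r * (r - 1) / 2)) := by ring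
      _ = d * (r * (r - 1)) := by rw [h2]
  · refine Finset.prod_bij' (fun i _ => r - i) (fun i _ => r - i) ?_ ?_ ?_ ?_ ?_
    · intro i hi
      rw [Finset.mem_range] at hi
      rw [Finset.mem_Icc]
      omega
    · intro i hi
      rw [Finset.mem_Icc] at hi
      rw [Finset.mem_range]
      omega
    · intro i hi
      rw [Finset.mem_range] at hi
      omega
    · intro i hi
      rw [Finset.mem_Icc] at hi
      omega
    · intro i _
      rfl

theorem coef_eq (d r : ℕ) (_hd : 0 < d) :
    (2 : ℚ) ^ ((d : ℤ) * (r * r)) / glc d r = coef d r := by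
  rw [glc_eq, coef]
  have h : (2 : ℚ) ^ ((d : ℤ) * (r * r)) = 2 ^ (d * (r * (r - 1))) * 2 ^ (d * r) := by
    rw [← pow_add, ← zpow_natCast]
    congr 1
    have : d * (r * (r - 1)) + d * r = d * (r * r) := by
      cases r with
      | zero => simp
      | succ r => simp only [Nat.add_sub_cancel]; ring
    rw [this]
    push_cast
    ring
  rw [h, mul_div_mul_left]
  positivity

theorem bR_single {B : ι → ι → ℤ} {d : ι → ℕ} (hB : SkewSym B d) (k : ι) (r : ℕ) :
    bR B k (Pi.single k r) = 0 := by
  unfold bR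
  refine Finset.sum_eq_zero fun j _ => ?_
  by_cases h : j = k
  · subst h; simp [diag_zero hB]
  · simp [h]

theorem chi_rek {B : ι → ι → ℤ} {d : ι → ℕ} (hB : SkewSym B d) (k : ι) (r : ℕ) :
    chi B d (toZ (Pi.single k r)) (toZ (Pi.single k r)) = (d k : ℤ) * (r * r) := by
  unfold chi
  rw [Finset.sum_eq_single k, Finset.sum_eq_single k]
  · rw [Finset.sum_eq_single k]
    · simp [toZ, diag_zero hB]
    · intro j _ hj; simp [toZ, hj]
    · intro h; exact absurd (Finset.mem_univ _) h
  · intro i _ hi
    refine Finset.sum_eq_zero fun j _ => ?_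
    simp [toZ, hi]
  · intro h; exact absurd (Finset.mem_univ _) h
  · intro i _ hi; simp [toZ, hi]
  · intro h; exact absurd (Finset.mem_univ _) h

section

variable {B : ι → ι → ℤ} {d : ι → ℕ} (hB : SkewSym B d) (N : ι → ℕ)

/-- The vertex `k`. -/
def vtx (k : ι) : (mkS B d hB.pos N).J := Sum.inl k

theorem ch_vtx (k : ι) : (mkS B d hB.pos N).ch (vtx hB N k) = Pi.single k 1 := rfl

theorem κ_vtx (k : ι) : (mkS B d hB.pos N).κ (vtx hB N k) = d k := rfl

theorem vtx_cases (j : (mkS B d hB.pos N).J) :
    (∃ i, j = vtx hB N i) ∨ KS B d ((mkS B d hB.pos N).ch j) := by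
  classical
  match j with
  | Sum.inl i => exact Or.inl ⟨i, rfl⟩
  | Sum.inr c => exact Or.inr (Finset.mem_filter.1 c.2).2

theorem charge_apply (m : (mkS B d hB.pos N).J → ℕ) (i : ι) :
    (mkS B d hB.pos N).charge m i = ∑ j, m j * (mkS B d hB.pos N).ch j i := by
  unfold Species.charge
  rw [Finset.sum_apply]
  simp

theorem le_charge (m : (mkS B d hB.pos N).J → ℕ) (j : (mkS B d hB.pos N).J) (i : ι) :
    m j * (mkS B d hB.pos N).ch j i ≤ (mkS B d hB.pos N).charge m i := by
  rw [charge_apply hB]
  exact Finset.single_le_sum (f := fun j => m j * (mkS B d hB.pos N).ch j i)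
    (fun _ _ => Nat.zero_le _) (Finset.mem_univ j)

theorem charge_single (k : ι) (r : ℕ) :
    (mkS B d hB.pos N).charge (Pi.single (vtx hB N k) r) = Pi.single k r := by
  unfold Species.charge
  rw [Finset.sum_eq_single (vtx hB N k)]
  · rw [Pi.single_eq_same, ch_vtx]
    funext i
    by_cases h : i = k
    · subst h; simp
    · simp [h]
  · intro j _ hj
    rw [Pi.single_eq_of_ne hj, zero_smul]
  · intro h; exact absurd (Finset.mem_univ _) h

/-- A dimension vector whose charge is supported at `k` is concentrated at the vertex `k`. -/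
theorem eq_single_of_charge (m : (mkS B d hB.pos N).J → ℕ) (k : ι)
    (h : ∀ i, i ≠ k → (mkS B d hB.pos N).charge m i = 0) :
    m = Pi.single (vtx hB N k) (m (vtx hB N k)) := by
  classical
  funext j
  by_cases hj : j = vtx hB N k
  · subst hj; rw [Pi.single_eq_same]
  rw [Pi.single_eq_of_ne hj]
  by_contra hm
  have hpos : 0 < m j := Nat.pos_of_ne_zero hm
  -- `ch j` is supported at `k`
  have hc : ∀ i, i ≠ k → (mkS B d hB.pos N).ch j i = 0 := by
    intro i hi
    have h1 := le_charge hB N m j i
    rw [h i hi] at h1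
    have h2 := Nat.le_zero.1 h1
    rcases Nat.mul_eq_zero.1 h2 with h3 | h3
    · omega
    · exact h3
  rcases vtx_cases hB N j with ⟨i, hi⟩ | hK
  · have hik : i ≠ k := by
      rintro rfl
      exact hj hi
    have := hc i hik
    rw [hi, ch_vtx, Pi.single_eq_same] at this
    exact one_ne_zero this
  · set c := (mkS B d hB.pos N).ch j with hcdef
    have hce : c = Pi.single k (c k) := by
      funext i
      by_cases hi : i = k
      · subst hi; simp
      · rw [Pi.single_eq_of_ne hi]
        exact hc i hi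
    have hchi := (hK.2.1 k).1
    have hb : bR B k c = 0 := by rw [hce]; exact bR_single hB k _
    rw [chi_right B d hB k, hb] at hchi
    have hdk : (0 : ℤ) < d k := by exact_mod_cast hB.pos k
    have hck : 0 < c k := by
      rcases Nat.eq_zero_or_pos (c k) with h0 | h0
      · exfalso
        apply hK.1
        rw [hce, h0]
        simp
      · exact h0
    have : (0 : ℤ) < (d k : ℤ) * ((c k : ℤ) - ((0 : ℕ) : ℤ)) := by
      apply mul_pos hdk
      push_cast
      omega
    exact absurd hchi (not_le.2 this)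

theorem charge_inl (m : (mkS B d hB.pos N).J → ℕ) (k : ι)
    (h : ∀ i, i ≠ k → (mkS B d hB.pos N).charge m i = 0) :
    (mkS B d hB.pos N).charge m = Pi.single k (m (vtx hB N k)) := by
  conv_lhs => rw [eq_single_of_charge hB N m k h]
  rw [charge_single]

theorem eq_single_iff (m : (mkS B d hB.pos N).J → ℕ) (k : ι) (r : ℕ) :
    (mkS B d hB.pos N).charge m = Pi.single k r ↔ m = Pi.single (vtx hB N k) r := by
  constructor
  · intro h
    have h0 : ∀ i, i ≠ k → (mkS B d hB.pos N).charge m i = 0 := by
      intro i hi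
      rw [h, Pi.single_eq_of_ne hi]
    have h1 := eq_single_of_charge hB N m k h0
    have h2 := charge_inl hB N m k h0
    rw [h] at h2
    have h3 := congrFun h2 k
    rw [Pi.single_eq_same, Pi.single_eq_same] at h3
    rw [h1, ← h3]
  · rintro rfl
    exact charge_single hB N k r

end

/-! ### Representations concentrated at a vertex -/

theorem subsingleton_SL_left (d e m' : ℕ) (m : ℕ) (hm : m = 0) :
    Subsingleton (SL d e (Vec d m) (Vec e m')) := by
  subst hm
  refine ⟨fun f g => Subtype.ext (AddMonoidHom.ext fun v => ?_)⟩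
  have hv : v = 0 := funext fun i => i.elim0
  rw [hv, map_zero, map_zero]

theorem subsingleton_SL_right (d e m m' : ℕ) (hm : m' = 0) :
    Subsingleton (SL d e (Vec d m) (Vec e m')) := by
  subst hm
  exact ⟨fun f g => Subtype.ext (AddMonoidHom.ext fun v => funext fun i => i.elim0)⟩

theorem card_rep_single {B : ι → ι → ℤ} {d : ι → ℕ} (hB : SkewSym B d) (N : ι → ℕ) (k : ι)
    (r : ℕ) (P : (mkS B d hB.pos N).Rep (Pi.single (vtx hB N k) r) → Prop) (hP : ∀ φ, P φ) :
    Nat.card {φ : (mkS B d hB.pos N).Rep (Pi.single (vtx hB N k) r) // P φ} = 1 := by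
  have hsub : Subsingleton ((mkS B d hB.pos N).Rep (Pi.single (vtx hB N k) r)) := by
    constructor
    intro φ ψ
    funext i j s
    by_cases hi : i = vtx hB N k
    · by_cases hj : j = vtx hB N k
      · exfalso
        have h0 := mult_loop B d hB N k
        have : (mkS B d hB.pos N).mult i j = 0 := by rw [hi, hj]; exact h0
        exact (Fin.elim0 (this ▸ s))
      · have := subsingleton_SL_right ((mkS B d hB.pos N).κ i) ((mkS B d hB.pos N).κ j)
          ((Pi.single (vtx hB N k) r : (mkS B d hB.pos N).J → ℕ) i)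
          ((Pi.single (vtx hB N k) r : (mkS B d hB.pos N).J → ℕ) j)
          (Pi.single_eq_of_ne hj _)
        exact Subsingleton.elim _ _
    · have := subsingleton_SL_left ((mkS B d hB.pos N).κ i) ((mkS B d hB.pos N).κ j)
        ((Pi.single (vtx hB N k) r : (mkS B d hB.pos N).J → ℕ) j)
        ((Pi.single (vtx hB N k) r : (mkS B d hB.pos N).J → ℕ) i)
        (Pi.single_eq_of_ne hi _)
      exact Subsingleton.elim _ _
  have φ0 : (mkS B d hB.pos N).Rep (Pi.single (vtx hB N k) r) := fun _ _ _ => 0
  rw [Nat.card_eq_one_iff_unique]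
  refine ⟨⟨fun a b => Subtype.ext (hsub.elim _ _)⟩, ⟨⟨φ0, hP φ0⟩⟩⟩

/-- The coefficient at `r e_k` of the generating series of a class containing all
representations concentrated at `k`. -/
theorem gen_single_of {B : ι → ι → ℤ} {d : ι → ℕ} (hB : SkewSym B d) (N : ι → ℕ)
    (y : (mkS B d hB.pos N).J → ℚ) (hy : ∀ k, y (vtx hB N k) = 1) (k : ι) (r : ℕ)
    (Φ : ((mkS B d hB.pos N).J → ℕ) → Set ((mkS B d hB.pos N).J → ℕ) → Prop)
    (hΦ : ∀ φ : (mkS B d hB.pos N).Rep (Pi.single (vtx hB N k) r),
      Φ (Pi.single (vtx hB N k) r) (dims φ)) :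
    gen (mkS B d hB.pos N) B d y Φ (Pi.single k r) = coef (d k) r := by
  have e1 : gen (mkS B d hB.pos N) B d y Φ (Pi.single k r) =
      ∑ m ∈ (mkS B d hB.pos N).fib (Pi.single k r), (∏ j, y j ^ m j) *
        (2 : ℚ) ^ (chi B d (toZ (Pi.single k r)) (toZ (Pi.single k r))) *
        (Nat.card {φ : (mkS B d hB.pos N).Rep m // Φ m (dims φ)} : ℚ) /
          ∏ j, glc ((mkS B d hB.pos N).κ j) (m j) := rfl
  rw [e1, Finset.sum_eq_single (Pi.single (vtx hB N k) r)]
  · rw [card_rep_single hB N k r _ hΦ, chi_rek hB]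
    have h1 : ∏ j, y j ^ (Pi.single (vtx hB N k) r : (mkS B d hB.pos N).J → ℕ) j = 1 := by
      refine Finset.prod_eq_one fun j _ => ?_
      by_cases hj : j = vtx hB N k
      · subst hj
        rw [hy k, one_pow]
      · rw [Pi.single_eq_of_ne hj, pow_zero]
    have h2 : ∏ j, glc ((mkS B d hB.pos N).κ j)
        ((Pi.single (vtx hB N k) r : (mkS B d hB.pos N).J → ℕ) j) = glc (d k) r := by
      rw [Finset.prod_eq_single (vtx hB N k)]
      · rw [Pi.single_eq_same, κ_vtx]
      · intro j _ hj
        rw [Pi.single_eq_of_ne hj, glc_zero]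
      · intro h; exact absurd (Finset.mem_univ _) h
    rw [h1, h2, one_mul, Nat.cast_one, mul_one]
    exact coef_eq (d k) r (hB.pos k)
  · intro m hm hne
    exfalso
    apply hne
    rw [mem_fib] at hm
    exact (eq_single_iff hB N m k r).1 hm
  · intro h
    exfalso
    apply h
    rw [mem_fib]
    exact charge_single hB N k r

/-! ### The two functionals -/

/-- The sum of the coordinates different from `k`. -/
def offHom (k : ι) : (ι → ℤ) →+ ℤ where
  toFun m := ∑ j ∈ Finset.univ.erase k, m j
  map_zero' := by simp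
  map_add' a b := by simp [Finset.sum_add_distrib]

/-- The coordinate `k`. -/
def coHom (k : ι) : (ι → ℤ) →+ ℤ where
  toFun m := m k
  map_zero' := rfl
  map_add' _ _ := rfl

theorem offHom_toZ_nonneg (k : ι) (n : ι → ℕ) : 0 ≤ offHom k (toZ n) := by
  change 0 ≤ ∑ j ∈ Finset.univ.erase k, toZ n j
  refine Finset.sum_nonneg fun j _ => ?_
  simp [toZ]

theorem offHom_toZ_eq_zero (k : ι) (n : ι → ℕ) (h : offHom k (toZ n) = 0) :
    ∀ i, i ≠ k → n i = 0 := by
  intro i hi
  change ∑ j ∈ Finset.univ.erase k, toZ n j = 0 at h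
  rw [Finset.sum_eq_zero_iff_of_nonneg (fun j _ => by simp [toZ])] at h
  have := h i (Finset.mem_erase.2 ⟨hi, Finset.mem_univ i⟩)
  simpa [toZ] using this

theorem offHom_single (k : ι) (r : ℕ) : offHom k (toZ (Pi.single k r)) = 0 := by
  change ∑ j ∈ Finset.univ.erase k, toZ (Pi.single k r) j = 0
  refine Finset.sum_eq_zero fun j hj => ?_
  have := (Finset.mem_erase.1 hj).1
  simp [toZ, this]

theorem eq_single_of_off (k : ι) (n : ι → ℕ) (h : offHom k (toZ n) = 0) :
    n = Pi.single k (n k) := by
  funext i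
  by_cases hi : i = k
  · subst hi; simp
  · rw [Pi.single_eq_of_ne hi]
    exact offHom_toZ_eq_zero k n h i hi

/-- Positive on multiples of `e_k`, negative elsewhere. -/
def xR (k : ι) : (ι → ℤ) →+ ℤ ×ₗ ℤ := lexHom (-offHom k) (coHom k)

/-- Negative on multiples of `e_k`, positive elsewhere. -/
def xL (k : ι) : (ι → ℤ) →+ ℤ ×ₗ ℤ := lexHom (offHom k) (-coHom k)

theorem xR_apply (k : ι) (m : ι → ℤ) : xR k m = toLex (-(offHom k m), m k) := rfl

theorem xL_apply (k : ι) (m : ι → ℤ) : xL k m = toLex (offHom k m, -(m k)) := rfl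

theorem lex_zero : (0 : ℤ ×ₗ ℤ) = toLex ((0 : ℤ), (0 : ℤ)) := rfl

theorem xR_pos (k : ι) (n : ι → ℕ) (h : 0 < xR k (toZ n)) :
    offHom k (toZ n) = 0 := by
  rw [xR_apply, lex_zero, Prod.Lex.toLex_lt_toLex] at h
  have h0 := offHom_toZ_nonneg k n
  rcases h with h | h
  · simp only at h; omega
  · simp only at h; omega

theorem xL_neg (k : ι) (n : ι → ℕ) (h : xL k (toZ n) < 0) :
    offHom k (toZ n) = 0 := by
  rw [xL_apply, lex_zero, Prod.Lex.toLex_lt_toLex] at h
  have h0 := offHom_toZ_nonneg k n
  rcases h with h | h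
  · simp only at h; omega
  · simp only at h; omega

theorem xR_eq_zero (k : ι) (n : ι → ℕ) (h : xR k (toZ n) = 0) : n = 0 := by
  rw [xR_apply, lex_zero] at h
  have h1 : (-(offHom k (toZ n)), toZ n k) = ((0 : ℤ), (0 : ℤ)) := toLex.injective h
  rw [Prod.mk.injEq] at h1
  have h2 := eq_single_of_off k n (by omega)
  have h3 : n k = 0 := by simpa [toZ] using h1.2
  rw [h2, h3]
  simp

theorem xL_eq_zero (k : ι) (n : ι → ℕ) (h : xL k (toZ n) = 0) : n = 0 := by
  rw [xL_apply, lex_zero] at h
  have h1 : (offHom k (toZ n), -(toZ n k)) = ((0 : ℤ), (0 : ℤ)) := toLex.injective h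
  rw [Prod.mk.injEq] at h1
  have h2 := eq_single_of_off k n (by omega)
  have h3 : n k = 0 := by
    have := h1.2
    simp only [toZ] at this
    omega
  rw [h2, h3]
  simp

/-! ### The dilogarithm -/

theorem EE_single {B : ι → ι → ℤ} {d : ι → ℕ} (k : ι) (r : ℕ) :
    EE B d k (Pi.single k r) = coef (d k) r := by
  change (∑ s ∈ Finset.range ((∑ i, (Pi.single k r : ι → ℕ) i) + 1),
    if (Pi.single k r : ι → ℕ) = s • (Pi.single k 1 : ι → ℕ) then coef (d k) s else 0) = _
  rw [Finset.sum_eq_single r]
  · rw [if_pos]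
    funext i
    by_cases h : i = k
    · subst h; simp
    · simp [h]
  · intro s _ hs
    rw [if_neg]
    intro h
    apply hs
    have := congrFun h k
    simpa using this.symm
  · intro h
    exfalso
    apply h
    rw [Finset.mem_range]
    have : r ≤ ∑ i, (Pi.single k r : ι → ℕ) i := by
      calc r = (Pi.single k r : ι → ℕ) k := by simp
        _ ≤ _ := Finset.single_le_sum (f := (Pi.single k r : ι → ℕ))
          (fun _ _ => Nat.zero_le _) (Finset.mem_univ k)
    omega

theorem EE_eq_zero {B : ι → ι → ℤ} {d : ι → ℕ} (k : ι) (n : ι → ℕ)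
    (h : ∀ r, n ≠ Pi.single k r) : EE B d k n = 0 := by
  change (∑ s ∈ Finset.range ((∑ i, n i) + 1),
    if n = s • (Pi.single k 1 : ι → ℕ) then coef (d k) s else 0) = _
  refine Finset.sum_eq_zero fun s _ => ?_
  rw [if_neg]
  intro hn
  apply h s
  rw [hn]
  funext i
  by_cases h : i = k
  · subst h; simp
  · simp [h]

/-- A series with the coefficients of the dilogarithm at the multiples of `e_k` and zero
elsewhere. -/
theorem eq_EE {B : ι → ι → ℤ} {d : ι → ℕ} (k : ι) (f : T (WB B d))
    (h1 : ∀ r, f (Pi.single k r) = coef (d k) r)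
    (h2 : ∀ n, f n ≠ 0 → offHom k (toZ n) = 0) : f = EE B d k := by
  ext n
  by_cases h : ∃ r, n = Pi.single k r
  · obtain ⟨r, rfl⟩ := h
    rw [h1, EE_single]
  · push Not at h
    rw [EE_eq_zero k n h]
    by_contra hf
    exact h _ (eq_single_of_off k n (h2 n hf))

theorem eq_one {B : ι → ι → ℤ} {d : ι → ℕ} (f : T (WB B d)) (h0 : f 0 = 1)
    (h : ∀ n, f n ≠ 0 → n = 0) : f = 1 := by
  ext n
  rw [T.one_apply]
  by_cases hn : n = 0
  · subst hn; rw [if_pos rfl, h0]
  · rw [if_neg hn]
    by_contra hf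
    exact hn (h n hf)

/-! ### Dimension vectors of subrepresentations -/

theorem le_of_mem_dims {S : Species ι} {m : S.J → ℕ} (φ : S.Rep m) {u : S.J → ℕ}
    (hu : u ∈ dims φ) : u ≤ m := by
  obtain ⟨U, _, rfl⟩ := hu
  exact HN.dimU_le U

theorem charge_mono (S : Species ι) {u m : S.J → ℕ} (h : u ≤ m) : S.charge u ≤ S.charge m := by
  have : m = u + (m - u) := (add_tsub_cancel_of_le h).symm
  rw [this, charge_add]
  exact le_self_add

end GenPk

open GenPk

theorem gen_simple {B : ι → ι → ℤ} {d : ι → ℕ} (hB : SkewSym B d) (N : ι → ℕ)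
    (y : (mkS B d hB.pos N).J → ℚ) (hy : ∀ k, y (Sum.inl k) = 1) (k : ι) (r : ℕ) :
    gen (mkS B d hB.pos N) B d y (PAll _) (Pi.single k r) = coef (d k) r :=
  gen_single_of hB N y hy k r _ fun _ => trivial

theorem gen_left {B : ι → ι → ℤ} {d : ι → ℕ} (hB : SkewSym B d) (N : ι → ℕ)
    (y : (mkS B d hB.pos N).J → ℚ) (hy : ∀ k, y (Sum.inl k) = 1) (k : ι) :
    ∃ gl : T (WB B d), gen (mkS B d hB.pos N) B d y (PAll _) = gl * EE B d k ∧
      ∀ n, gl n ≠ 0 → n k ≤ bL B k n := by
  have hE := euler_mkS B d hB N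
  have hf := gen_fact hB hE y (xL k)
  have hS1 : gen (mkS B d hB.pos N) B d y ((mkS B d hB.pos N).PS (xL k)) = 1 :=
    eq_one _ hf.zer.1 fun n hn => xL_eq_zero k n (hf.zer.2 n hn)
  have hN1 : gen (mkS B d hB.pos N) B d y ((mkS B d hB.pos N).PN (xL k)) = EE B d k := by
    apply eq_EE
    · intro r
      apply gen_single_of hB N y hy k r
      intro φ u hu hu0
      have hle := le_of_mem_dims φ hu
      have hu1 : u = Pi.single (vtx hB N k) (u (vtx hB N k)) := by
        funext j
        by_cases hj : j = vtx hB N k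
        · subst hj; simp
        · rw [Pi.single_eq_of_ne hj]
          have := hle j
          rw [Pi.single_eq_of_ne hj] at this
          exact Nat.le_zero.1 this
      have hpos : 0 < u (vtx hB N k) := by
        rcases Nat.eq_zero_or_pos (u (vtx hB N k)) with h | h
        · exfalso; apply hu0; rw [hu1, h]; simp
        · exact h
      rw [hu1, charge_single, xL_apply, lex_zero, Prod.Lex.toLex_lt_toLex]
      right
      refine ⟨offHom_single k _, ?_⟩
      simp only [toZ, Pi.single_eq_same]
      omega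
    · intro n hn
      by_cases h0 : n = 0
      · subst h0; rw [toZ_zero, map_zero]
      · exact xL_neg k n (hf.neg.2 n h0 hn)
  refine ⟨gen (mkS B d hB.pos N) B d y ((mkS B d hB.pos N).PT (xL k)), ?_, ?_⟩
  · rw [hf.eq, hS1, hN1, mul_one]
  · intro n hn
    obtain ⟨m, φ, hm, hφ⟩ := exists_of_gen_ne_zero y _ n hn
    have h1 := chi_le_of_no_quot hE φ (vtx hB N k) (mult_loop B d hB N k) (by
      intro u hu huj
      by_contra hne
      have h2 := hφ u hu hne
      have hle := le_of_mem_dims φ hu
      have hcl := charge_mono (mkS B d hB.pos N) hle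
      -- the charges differ only at `k`
      have hoff : ∀ i, i ≠ k → (mkS B d hB.pos N).charge u i = (mkS B d hB.pos N).charge m i := by
        intro i hi
        rw [charge_apply hB N u i, charge_apply hB N m i]
        refine Finset.sum_congr rfl fun j _ => ?_
        by_cases hj : j = vtx hB N k
        · subst hj
          rw [ch_vtx, Pi.single_eq_of_ne hi, mul_zero, mul_zero]
        · rw [huj j hj]
      rw [xL_apply, xL_apply, Prod.Lex.toLex_lt_toLex] at h2
      have hoff2 : offHom k (toZ ((mkS B d hB.pos N).charge u)) = offHom k (toZ ((mkS B d hB.pos N).charge m)) := by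
        change ∑ j ∈ Finset.univ.erase k, toZ ((mkS B d hB.pos N).charge u) j =
          ∑ j ∈ Finset.univ.erase k, toZ ((mkS B d hB.pos N).charge m) j
        refine Finset.sum_congr rfl fun j hj => ?_
        unfold toZ
        rw [hoff j (Finset.mem_erase.1 hj).1]
      rcases h2 with h2 | h2
      · simp only at h2; omega
      · have h3 := h2.2
        have h4 : (mkS B d hB.pos N).charge u k ≤ (mkS B d hB.pos N).charge m k := hcl k
        change -(((mkS B d hB.pos N).charge u k : ℕ) : ℤ) <
          -(((mkS B d hB.pos N).charge m k : ℕ) : ℤ) at h3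
        omega)
    rw [hm] at h1
    change chi B d (toZ n) (toZ (Pi.single k 1)) ≤ 0 at h1
    have hz : toZ (Pi.single k 1 : ι → ℕ) = Pi.single k 1 := by
      funext i
      by_cases h : i = k
      · subst h; simp [toZ]
      · simp [toZ, h]
    rw [hz, chi_left B d hB k n] at h1
    have hdk : (0 : ℤ) < d k := by exact_mod_cast hB.pos k
    have h3 : (n k : ℤ) - bL B k n ≤ 0 := by
      by_contra h
      push Not at h
      exact absurd h1 (not_le.2 (mul_pos hdk h))
    omega

theorem gen_right {B : ι → ι → ℤ} {d : ι → ℕ} (hB : SkewSym B d) (N : ι → ℕ)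
    (y : (mkS B d hB.pos N).J → ℚ) (hy : ∀ k, y (Sum.inl k) = 1) (k : ι) :
    ∃ gr : T (WB B d), gen (mkS B d hB.pos N) B d y (PAll _) = EE B d k * gr ∧
      ∀ n, gr n ≠ 0 → n k ≤ bR B k n := by
  have hE := euler_mkS B d hB N
  have hf := gen_fact hB hE y (xR k)
  have hS1 : gen (mkS B d hB.pos N) B d y ((mkS B d hB.pos N).PS (xR k)) = 1 :=
    eq_one _ hf.zer.1 fun n hn => xR_eq_zero k n (hf.zer.2 n hn)
  have hN1 : gen (mkS B d hB.pos N) B d y ((mkS B d hB.pos N).PT (xR k)) = EE B d k := by
    apply eq_EE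
    · intro r
      apply gen_single_of hB N y hy k r
      intro φ u hu hu0
      have hle := le_of_mem_dims φ hu
      have hu1 : u = Pi.single (vtx hB N k) (u (vtx hB N k)) := by
        funext j
        by_cases hj : j = vtx hB N k
        · subst hj; simp
        · rw [Pi.single_eq_of_ne hj]
          have := hle j
          rw [Pi.single_eq_of_ne hj] at this
          exact Nat.le_zero.1 this
      have hlt : u (vtx hB N k) < r := by
        have h1 := hle (vtx hB N k)
        rw [Pi.single_eq_same] at h1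
        rcases lt_or_eq_of_le h1 with h | h
        · exact h
        · exfalso; apply hu0; rw [hu1, h]
      rw [hu1, charge_single, charge_single, xR_apply, xR_apply, Prod.Lex.toLex_lt_toLex]
      right
      refine ⟨by simp only [offHom_single], ?_⟩
      simp only [toZ, Pi.single_eq_same]
      omega
    · intro n hn
      by_cases h0 : n = 0
      · subst h0; rw [toZ_zero, map_zero]
      · exact xR_pos k n (hf.pos.2 n h0 hn)
  refine ⟨gen (mkS B d hB.pos N) B d y ((mkS B d hB.pos N).PN (xR k)), ?_, ?_⟩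
  · rw [hf.eq, hS1, hN1, mul_one]
  · intro n hn
    obtain ⟨m, φ, hm, hφ⟩ := exists_of_gen_ne_zero y _ n hn
    have h1 := chi_le_of_no_sub hE φ (vtx hB N k) (mult_loop B d hB N k) (by
      intro u hu huj
      by_contra hne
      have h2 := hφ u hu hne
      have hu1 : u = Pi.single (vtx hB N k) (u (vtx hB N k)) := by
        funext j
        by_cases hj : j = vtx hB N k
        · subst hj; simp
        · rw [Pi.single_eq_of_ne hj, huj j hj]
      rw [hu1, charge_single, xR_apply, lex_zero, Prod.Lex.toLex_lt_toLex] at h2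
      rcases h2 with h2 | h2
      · simp only [offHom_single] at h2; omega
      · have h3 := h2.2
        simp only [toZ, Pi.single_eq_same] at h3
        omega)
    rw [hm] at h1
    change chi B d (toZ (Pi.single k 1)) (toZ n) ≤ 0 at h1
    have hz : toZ (Pi.single k 1 : ι → ℕ) = Pi.single k 1 := by
      funext i
      by_cases h : i = k
      · subst h; simp [toZ]
      · simp [toZ, h]
    rw [hz, chi_right B d hB k n] at h1
    have hdk : (0 : ℤ) < d k := by exact_mod_cast hB.pos k
    have h3 : (n k : ℤ) - bR B k n ≤ 0 := by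
      by_contra h
      push Not at h
      exact absurd h1 (not_le.2 (mul_pos hdk h))
    omega

end Species

end Pool.Agent.RootConj
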