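import Pool.Agent.RootConj.PiB
import Pool.Agent.RootConj.EulerS
import Pool.Agent.RootConj.Restr

set_option autoImplicit false
set_option linter.unusedSectionVars false

/-!
# Bricks have root charges
-/

namespace Pool.Agent.RootConj

open PiAux

namespace PiRoot

variable {ι : Type} [Fintype ι] [DecidableEq ι]

/-! ### Reflections -/

theorem srefl_srefl (A : ι → ι → ℤ) (k : ι) (hA : A k k = 2) (α : ι → ℤ) :
    srefl A k (srefl A k α) = α := by
  have h : ∑ j, A k j * srefl A k α j = -∑ j, A k j * α j := by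
    have h1 : ∀ j, A k j * srefl A k α j =
        A k j * α j - (if j = k then 2 * ∑ j, A k j * α j else 0) := by
      intro j
      by_cases hj : j = k
      · subst hj
        rw [if_pos rfl, srefl, Function.update_self, mul_sub, hA]
      · rw [if_neg hj, srefl, Function.update_of_ne hj, sub_zero]
    rw [Finset.sum_congr rfl fun j _ => h1 j, Finset.sum_sub_distrib,
      Finset.sum_ite_eq' Finset.univ k, if_pos (Finset.mem_univ _)]
    ring
  funext i
  by_cases hi : i = k
  · subst hi
    rw [srefl, Function.update_self, h, srefl, Function.update_self]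
    ring
  · rw [srefl, Function.update_of_ne hi, srefl, Function.update_of_ne hi]

theorem sum_srefl (A : ι → ι → ℤ) (k : ι) (α : ι → ℤ) :
    ∑ i, srefl A k α i = ∑ i, α i - ∑ j, A k j * α j := by
  have h : ∀ i, srefl A k α i = α i - (if i = k then ∑ j, A k j * α j else 0) := by
    intro i
    by_cases hi : i = k
    · subst hi
      rw [srefl, Function.update_self, if_pos rfl]
    · rw [srefl, Function.update_of_ne hi, if_neg hi, sub_zero]
  rw [Finset.sum_congr rfl fun i _ => h i, Finset.sum_sub_distrib,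
    Finset.sum_ite_eq' Finset.univ k, if_pos (Finset.mem_univ _)]

theorem srefl_neg (A : ι → ι → ℤ) (k : ι) (α : ι → ℤ) :
    srefl A k (-α) = -srefl A k α := by
  funext i
  by_cases hi : i = k
  · subst hi
    rw [Pi.neg_apply, srefl, Function.update_self, srefl, Function.update_self]
    simp only [Pi.neg_apply, mul_neg, Finset.sum_neg_distrib]
    ring
  · rw [Pi.neg_apply, srefl, Function.update_of_ne hi, srefl, Function.update_of_ne hi,
      Pi.neg_apply]

theorem isRoot_of_srefl (A : ι → ι → ℤ) (k : ι) (hA : A k k = 2) (α : ι → ℤ)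
    (h : IsRoot A (srefl A k α)) : IsRoot A α := by
  rcases h with ⟨i, hi⟩ | ⟨β, hβ, hi | hi⟩
  · left
    refine ⟨i, ?_⟩
    have := WOrbit.step k _ hi
    rwa [srefl_srefl A k hA] at this
  · right
    refine ⟨β, hβ, Or.inl ?_⟩
    have := WOrbit.step k _ hi
    rwa [srefl_srefl A k hA] at this
  · right
    refine ⟨β, hβ, Or.inr ?_⟩
    have := WOrbit.step k _ hi
    rwa [srefl_neg, srefl_srefl A k hA] at this

end PiRoot

namespace Species

variable {ι : Type} [Fintype ι] [DecidableEq ι]

open PiRefl PiRoot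

/-! ### The double of a representation -/

/-- The double representation of a representation. -/
theorem exists_double {S : Species ι} (D : ∀ i j : S.J, DualFam (S.κ i) (S.κ j)) {m : S.J → ℕ}
    (φ : S.Rep m) (hφ : Species.Brick φ) :
    ∃ M : DObj S, M.Brick ∧ (∀ k, M.Rel D k) ∧ M.dm = m := by
  have hfin : ∀ j, Finite (Vec (S.κ j) (m j)) := fun j => by
    have := finite_KK' S j
    infer_instance
  refine ⟨{ V := fun j => Vec (S.κ j) (m j), φ := φ, ψ := fun _ _ _ => 0 }, ?_, ?_, ?_⟩
  · intro f h1 _ h3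
    exact hφ f h1 h3
  · intro k v
    unfold DObj.cas
    have e1 : ∀ (j : S.J) (r : Fin (S.mult k j)), ∑ t : Fin (D k j).s,
        (D k j).bs t • ((0 : SL (S.κ j) (S.κ k) (Vec (S.κ j) (m j)) (Vec (S.κ k) (m k))).1
          ((φ k j r).1 ((D k j).b t • v))) = 0 := by
      intro j r
      exact Finset.sum_eq_zero fun t _ => smul_zero _
    have e2 : ∀ (i : S.J) (r : Fin (S.mult i k)), ∑ t : Fin (D k i).s,
        (D k i).bs t • ((φ i k r).1
          ((0 : SL (S.κ k) (S.κ i) (Vec (S.κ k) (m k)) (Vec (S.κ i) (m i))).1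
            ((D k i).b t • v))) = 0 := by
      intro i r
      refine Finset.sum_eq_zero fun t _ => ?_
      have : (φ i k r).1 ((0 : SL (S.κ k) (S.κ i) (Vec (S.κ k) (m k)) (Vec (S.κ i) (m i))).1
            ((D k i).b t • v)) = 0 := map_zero (φ i k r).1
      rw [this, smul_zero]
    exact (congrArg₂ (· + ·) (Finset.sum_eq_zero fun j _ => Finset.sum_eq_zero fun r _ => e1 j r)
      (Finset.sum_eq_zero fun i _ => Finset.sum_eq_zero fun r _ => e2 i r)).trans (add_zero _)
  · funext j
    change Module.finrank (KK (S.κ j)) (Vec (S.κ j) (m j)) = m j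
    simp

/-! ### Abstract form of the induction -/

/-- The properties of the species `mkS` that are used. -/
structure GoodS (B : ι → ι → ℤ) (d : ι → ℕ) (S : Species ι) (em : ι → S.J) : Prop where
  euler : S.Euler B d
  kap : ∀ k, S.κ (em k) = d k
  chE : ∀ k, S.ch (em k) = Pi.single k 1
  loop : ∀ k, S.mult (em k) (em k) = 0
  conn : ∀ j, (∃ k, j = em k) ∨ ConnSupp (cartan B) (toZ (S.ch j))

section Abs

variable {B : ι → ι → ℤ} {d : ι → ℕ} {S : Species ι} {em : ι → S.J}

/-- The pairing with a simple coroot. -/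
def pr (B : ι → ι → ℤ) (k : ι) : (ι → ℤ) →+ ℤ where
  toFun a := ∑ j, cartan B k j * a j
  map_zero' := by simp
  map_add' a b := by simp [mul_add, Finset.sum_add_distrib]

theorem pr_apply (B : ι → ι → ℤ) (k : ι) (a : ι → ℤ) : pr B k a = ∑ j, cartan B k j * a j := rfl

theorem toZ_charge (S : Species ι) (m : S.J → ℕ) :
    toZ (S.charge m) = ∑ j, (m j : ℤ) • toZ (S.ch j) := by
  funext i
  simp [toZ, charge, Finset.sum_apply]

theorem toZ_single (k : ι) (n : ℕ) : toZ (Pi.single k n) = Pi.single k (n : ℤ) := by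
  funext i
  by_cases h : i = k
  · subst h; simp [toZ]
  · simp [toZ, h]

theorem euler_pr (hB : SkewSym B d) (hS : GoodS B d S em) (k : ι) (j : S.J) (hj : j ≠ em k) :
    (((S.mult (em k) j + S.mult j (em k)) * Nat.lcm (S.κ (em k)) (S.κ j) : ℕ) : ℤ) =
      -((d k : ℤ) * pr B k (toZ (S.ch j))) := by
  have h1 := hS.euler (em k) j
  have h2 := hS.euler j (em k)
  rw [if_neg hj.symm, hS.chE, toZ_single] at h1
  rw [if_neg hj, hS.chE, toZ_single, Nat.lcm_comm] at h2
  have h3 := chi_sym B d hB k (toZ (S.ch j))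
  rw [pr_apply, ← h3]
  push_cast at h1 h2 ⊢
  linarith

theorem cartan_self (k : ι) : cartan B k k = 2 := by
  simp [cartan]

theorem pr_single (k : ι) : pr B k (Pi.single k 1) = 2 := by
  rw [pr_apply, Finset.sum_eq_single k]
  · simp [cartan]
  · intro b _ hb; simp [hb]
  · intro h; exact absurd (Finset.mem_univ _) h

/-- The numerical effect of a reflection. -/
theorem reflect_num (hB : SkewSym B d) (hS : GoodS B d S em) (k : ι) (m m' : S.J → ℕ)
    (h1 : ∀ j, j ≠ em k → m' j = m j)
    (h2 : S.κ (em k) * (m' (em k) + m (em k)) =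
      ∑ j ∈ Finset.univ.erase (em k),
        (S.mult (em k) j + S.mult j (em k)) * Nat.lcm (S.κ (em k)) (S.κ j) * m j) :
    toZ (S.charge m') = srefl (cartan B) k (toZ (S.charge m)) := by
  have hd : (0 : ℤ) < d k := by exact_mod_cast hB.pos k
  have e1 : pr B k (toZ (S.charge m)) = (m (em k) : ℤ) - m' (em k) := by
    have h3 : ((S.κ (em k) * (m' (em k) + m (em k)) : ℕ) : ℤ) =
        ∑ j ∈ Finset.univ.erase (em k), -((d k : ℤ) * pr B k (toZ (S.ch j))) * m j := by
      rw [h2, Nat.cast_sum]
      refine Finset.sum_congr rfl fun j hj => ?_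
      rw [Nat.cast_mul, euler_pr hB hS k j (Finset.ne_of_mem_erase hj)]
    rw [hS.kap] at h3
    have h4 : pr B k (toZ (S.charge m)) = ∑ j, (m j : ℤ) * pr B k (toZ (S.ch j)) := by
      rw [toZ_charge, map_sum]
      refine Finset.sum_congr rfl fun j _ => ?_
      rw [map_zsmul, smul_eq_mul]
    rw [← Finset.add_sum_erase _ _ (Finset.mem_univ (em k)), hS.chE, toZ_single] at h4
    have h5 : pr B k (Pi.single k ((1 : ℕ) : ℤ)) = 2 := by
      rw [Nat.cast_one]
      exact pr_single k
    rw [h5] at h4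
    have h6 : ∑ j ∈ Finset.univ.erase (em k), -((d k : ℤ) * pr B k (toZ (S.ch j))) * m j =
        -((d k : ℤ) * ∑ j ∈ Finset.univ.erase (em k), (m j : ℤ) * pr B k (toZ (S.ch j))) := by
      rw [Finset.mul_sum, ← Finset.sum_neg_distrib]
      refine Finset.sum_congr rfl fun j _ => by ring
    rw [h6] at h3
    push_cast at h3
    have h7 : (d k : ℤ) * (pr B k (toZ (S.charge m)) - ((m (em k) : ℤ) - m' (em k))) = 0 := by
      rw [h4]
      linarith
    rcases mul_eq_zero.1 h7 with h8 | h8
    · exact absurd h8 hd.ne'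
    · linarith
  funext i
  have e2 : toZ (S.charge m') i - toZ (S.charge m) i =
      ((m' (em k) : ℤ) - m (em k)) * (Pi.single k 1 : ι → ℤ) i := by
    rw [toZ_charge, toZ_charge, Finset.sum_apply, Finset.sum_apply, ← Finset.sum_sub_distrib,
      Finset.sum_eq_single (em k)]
    · simp only [Pi.smul_apply, smul_eq_mul]
      rw [hS.chE, toZ_single, Nat.cast_one]
      ring
    · intro j _ hj
      simp only [Pi.smul_apply, smul_eq_mul]
      rw [h1 j hj, sub_self]
    · intro h; exact absurd (Finset.mem_univ _) h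
  by_cases hi : i = k
  · subst hi
    rw [srefl, Function.update_self, ← pr_apply, e1]
    rw [Pi.single_eq_same] at e2
    linarith
  · rw [srefl, Function.update_of_ne hi]
    rw [Pi.single_eq_of_ne hi] at e2
    linarith

theorem dm_eq_zero {M : DObj S} {j : S.J} (h : M.dm j = 0) : Subsingleton (M.V j) := by
  have : Module.Finite (KK (S.κ j)) (M.V j) := Module.Finite.of_finite
  exact Module.finrank_zero_iff.1 h

theorem dm_ne_zero {M : DObj S} {j : S.J} (h : M.dm j ≠ 0) : Nontrivial (M.V j) :=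
  Module.nontrivial_of_finrank_pos (Nat.pos_of_ne_zero h)

theorem dm_ne_zero' {M : DObj S} {j : S.J} (h : Nontrivial (M.V j)) : M.dm j ≠ 0 := by
  intro h0
  have := dm_eq_zero h0
  exact not_subsingleton (M.V j) this

/-- A brick concentrated at a simple vertex. -/
theorem root_conc (hS : GoodS B d S em) (M : DObj S) (hM : M.Brick) (k : ι)
    (h0 : ∀ j, j ≠ em k → M.dm j = 0) (hne : M.dm ≠ 0) :
    IsRoot (cartan B) (toZ (S.charge M.dm)) := by
  have hk : M.dm (em k) ≠ 0 := by
    intro h
    apply hne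
    funext j
    by_cases hj : j = em k
    · rw [hj, h]; rfl
    · exact h0 j hj
  have hE := isEmpty_Ar (hS.loop k)
  have hnt := dm_ne_zero hk
  -- every nonzero endomorphism of `V (em k)` is injective
  have key : ∀ g : M.V (em k) →ₗ[KK (S.κ (em k))] M.V (em k), g ≠ 0 → Function.Injective g := by
    intro g hg
    have := brick_use M (em k) (hS.loop k) hM (fun _ => 0) g ?_ ?_ ?_ (Or.inr hg)
    · exact this.2
    · intro i j _ hj r v
      have := dm_eq_zero (h0 j hj)
      exact Subsingleton.elim _ _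
    · intro j hj r v
      have := dm_eq_zero (h0 j hj)
      exact Subsingleton.elim _ _
    · intro j hj r v
      have := dm_eq_zero (h0 j hj)
      have h1 : (0 : M.V j →ₗ[KK (S.κ j)] M.V j) v = 0 := rfl
      rw [h1, Subsingleton.elim v 0, map_zero, map_zero]
  have hfin : Module.Finite (KK (S.κ (em k))) (M.V (em k)) := Module.Finite.of_finite
  obtain ⟨θ, hθ, -⟩ := Submodule.exists_le_ker_of_lt_top
    (⊥ : Submodule (KK (S.κ (em k))) (M.V (em k))) bot_lt_top
  obtain ⟨v0, hv0⟩ := exists_ne (0 : M.V (em k))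
  have hinj := key (θ.smulRight v0) (by
    intro h
    apply hθ
    refine LinearMap.ext fun v => ?_
    have h' := congrArg (fun q => q v) h
    simp only [LinearMap.smulRight_apply, LinearMap.zero_apply] at h'
    rcases smul_eq_zero.1 h' with h'' | h''
    · exact h''
    · exact absurd h'' hv0)
  have hθi : Function.Injective θ := by
    intro u v huv
    apply hinj
    rw [LinearMap.smulRight_apply, LinearMap.smulRight_apply, huv]
  have hle := LinearMap.finrank_le_finrank_of_injective hθi
  rw [Module.finrank_self] at hle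
  have h1 : M.dm (em k) = 1 := le_antisymm hle (Nat.pos_of_ne_zero hk)
  left
  refine ⟨k, ?_⟩
  have h2 : toZ (S.charge M.dm) = Pi.single k 1 := by
    rw [toZ_charge, Finset.sum_eq_single (em k)]
    · rw [h1, hS.chE, toZ_single]
      simp
    · intro j _ hj
      rw [h0 j hj]
      simp
    · intro h; exact absurd (Finset.mem_univ _) h
  rw [h2]
  exact WOrbit.base

theorem chi_eq_zero (a b : ι → ℕ) (h : ∀ p q, a p ≠ 0 → b q ≠ 0 → p ≠ q ∧ B p q = 0) :
    chi B d (toZ a) (toZ b) = 0 := by
  unfold chi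
  rw [Finset.sum_eq_zero, Finset.sum_eq_zero, sub_zero]
  · intro p _
    refine Finset.sum_eq_zero fun q _ => ?_
    by_cases ha : a p = 0
    · simp [toZ, ha]
    · by_cases hb : b q = 0
      · simp [toZ, hb]
      · rw [(h p q ha hb).2]
        simp
  · intro p _
    by_cases ha : a p = 0
    · simp [toZ, ha]
    · by_cases hb : b p = 0
      · simp [toZ, hb]
      · exact absurd rfl (h p p ha hb).1

theorem mult_eq_zero (hS : GoodS B d S em) (i j : S.J) (hij : i ≠ j)
    (h : ∀ p q, S.ch i p ≠ 0 → S.ch j q ≠ 0 → p ≠ q ∧ B p q = 0) : S.mult i j = 0 := by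
  have h1 := hS.euler i j
  rw [if_neg hij, chi_eq_zero _ _ h] at h1
  have h2 : Nat.lcm (S.κ i) (S.κ j) * S.mult i j = 0 := by
    have : ((Nat.lcm (S.κ i) (S.κ j) * S.mult i j : ℕ) : ℤ) = 0 := by linarith
    exact_mod_cast this
  rcases Nat.mul_eq_zero.1 h2 with h3 | h3
  · exact absurd h3 (Nat.lcm_pos (S.κ_pos i) (S.κ_pos j)).ne'
  · exact h3

theorem charge_apply (S : Species ι) (m : S.J → ℕ) (i : ι) :
    S.charge m i = ∑ j, m j * S.ch j i := by
  simp [charge, Finset.sum_apply]

/-- The charge of a brick has connected support. -/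
theorem conn_charge (hB : SkewSym B d) (hS : GoodS B d S em) (M : DObj S) (hM : M.Brick) :
    ConnSupp (cartan B) (toZ (S.charge M.dm)) := by
  classical
  rintro T ⟨i0, hi0, hc0⟩ ⟨i1, hi1, hc1⟩
  by_contra hcon
  push Not at hcon
  have hB0 : ∀ p q, p ∈ T → q ∉ T → S.charge M.dm p ≠ 0 → S.charge M.dm q ≠ 0 →
      B p q = 0 ∧ B q p = 0 := by
    intro p q hp hq hcp hcq
    have h := hcon p hp q hq (by simpa [toZ] using hcp) (by simpa [toZ] using hcq)
    have hpq : p ≠ q := fun h => hq (h ▸ hp)
    rw [cartan, if_neg hpq, neg_eq_zero, abs_eq_zero] at h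
    refine ⟨h, ?_⟩
    have h' := hB.skew p q
    rw [h, mul_zero] at h'
    have h'' : (d q : ℤ) * B q p = 0 := by linarith
    rcases mul_eq_zero.1 h'' with h3 | h3
    · exact absurd h3 (by exact_mod_cast (hB.pos q).ne')
    · exact h3
  have hsub : ∀ j, M.dm j ≠ 0 → ∀ i, S.ch j i ≠ 0 → S.charge M.dm i ≠ 0 := by
    intro j hj i hi
    rw [charge_apply]
    intro h0
    have := (Finset.sum_eq_zero_iff.1 h0) j (Finset.mem_univ _)
    rcases Nat.mul_eq_zero.1 this with h | h
    · exact hj h
    · exact hi h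
  have hside : ∀ j, M.dm j ≠ 0 → (∃ i ∈ T, S.ch j i ≠ 0) → ∀ i, S.ch j i ≠ 0 → i ∈ T := by
    rintro j hj ⟨i, hi, hci⟩ i' hci'
    by_contra hi'
    rcases hS.conn j with ⟨k, rfl⟩ | hconn
    · rw [hS.chE] at hci hci'
      have e1 : i = k := by
        by_contra h
        exact hci (Pi.single_eq_of_ne h _)
      have e2 : i' = k := by
        by_contra h
        exact hci' (Pi.single_eq_of_ne h _)
      rw [e1] at hi
      rw [e2] at hi'
      exact hi' hi
    · obtain ⟨p, hp, q, hq, h1, h2, h3⟩ := hconn T ⟨i, hi, by simpa [toZ] using hci⟩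
        ⟨i', hi', by simpa [toZ] using hci'⟩
      have h1' : S.ch j p ≠ 0 := by simpa [toZ] using h1
      have h2' : S.ch j q ≠ 0 := by simpa [toZ] using h2
      have h4 := hB0 p q hp hq (hsub j hj p h1') (hsub j hj q h2')
      apply h3
      have hpq : p ≠ q := fun h => hq (h ▸ hp)
      rw [cartan, if_neg hpq, h4.1]
      simp
  -- no arrows between the two sides
  have hmult : ∀ i j, M.dm i ≠ 0 → M.dm j ≠ 0 → (∃ p ∈ T, S.ch i p ≠ 0) →
      ¬ (∃ p ∈ T, S.ch j p ≠ 0) → S.mult i j = 0 ∧ S.mult j i = 0 := by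
    intro i j hi hj hPi hPj
    have hij : i ≠ j := by
      rintro rfl
      exact hPj hPi
    have h1 : ∀ p q, S.ch i p ≠ 0 → S.ch j q ≠ 0 → p ≠ q ∧ B p q = 0 ∧ B q p = 0 := by
      intro p q hp hq
      have hpT := hside i hi hPi p hp
      have hqT : q ∉ T := fun h => hPj ⟨q, h, hq⟩
      exact ⟨fun h => hqT (h ▸ hpT), hB0 p q hpT hqT (hsub i hi p hp) (hsub j hj q hq)⟩
    exact ⟨mult_eq_zero hS i j hij fun p q hp hq => ⟨(h1 p q hp hq).1, (h1 p q hp hq).2.1⟩,
      mult_eq_zero hS j i hij.symm fun q p hq hp =>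
        ⟨(h1 p q hp hq).1.symm, (h1 p q hp hq).2.2⟩⟩
  have hM' := (brick_iff M).1 hM
    (fun j => if (∃ i ∈ T, S.ch j i ≠ 0) then LinearMap.id else 0) ?_ ?_
  · -- a vertex on the other side
    have h1 : S.charge M.dm i1 ≠ 0 := by simpa [toZ] using hc1
    rw [charge_apply] at h1
    obtain ⟨j, -, hj⟩ := Finset.exists_ne_zero_of_sum_ne_zero h1
    have hj1 : M.dm j ≠ 0 := left_ne_zero_of_mul hj
    have hj2 : S.ch j i1 ≠ 0 := right_ne_zero_of_mul hj
    have hP : ¬ (∃ i ∈ T, S.ch j i ≠ 0) := fun h => hi1 (hside j hj1 h i1 hj2)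
    have h2 := hM' j
    simp only [if_neg hP] at h2
    have := dm_ne_zero hj1
    obtain ⟨u, v, huv⟩ := exists_pair_ne (M.V j)
    exact huv (h2 rfl)
  · intro i j r v
    by_cases hdi : M.dm i = 0
    · have := dm_eq_zero hdi
      rw [Subsingleton.elim v 0, map_zero, map_zero, map_zero, map_zero]
    by_cases hdj : M.dm j = 0
    · have := dm_eq_zero hdj
      exact Subsingleton.elim _ _
    by_cases hPi : (∃ p ∈ T, S.ch i p ≠ 0)
    · by_cases hPj : (∃ p ∈ T, S.ch j p ≠ 0)
      · simp only [if_pos hPi, if_pos hPj, LinearMap.id_apply]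
      · exfalso
        obtain ⟨h1, h2⟩ := hmult i j hdi hdj hPi hPj
        rcases r with r | r
        · rw [h1] at r
          exact r.elim0
        · rw [h2] at r
          exact r.elim0
    · by_cases hPj : (∃ p ∈ T, S.ch j p ≠ 0)
      · exfalso
        obtain ⟨h1, h2⟩ := hmult j i hdj hdi hPj hPi
        rcases r with r | r
        · rw [h2] at r
          exact r.elim0
        · rw [h1] at r
          exact r.elim0
      · simp only [if_neg hPi, if_neg hPj, LinearMap.zero_apply, map_zero]
  · intro h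
    have h1 : S.charge M.dm i0 ≠ 0 := by simpa [toZ] using hc0
    rw [charge_apply] at h1
    obtain ⟨j, -, hj⟩ := Finset.exists_ne_zero_of_sum_ne_zero h1
    have hj1 : M.dm j ≠ 0 := left_ne_zero_of_mul hj
    have hj2 : S.ch j i0 ≠ 0 := right_ne_zero_of_mul hj
    have hP : (∃ i ∈ T, S.ch j i ≠ 0) := ⟨i0, hi0, hj2⟩
    have h2 := congrFun h j
    simp only [if_pos hP] at h2
    have := dm_ne_zero hj1
    obtain ⟨u, hu⟩ := exists_ne (0 : M.V j)
    exact hu (congrArg (fun q => q u) h2)

theorem root_of_brick (hB : SkewSym B d) (hS : GoodS B d S em)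
    (D : ∀ i j, DualFam (S.κ i) (S.κ j)) (n : ℕ) :
    ∀ M : DObj S, M.Brick → (∀ k : ι, M.Rel D (em k)) → M.dm ≠ 0 →
      ∑ i, S.charge M.dm i = n → IsRoot (cartan B) (toZ (S.charge M.dm)) := by
  induction n using Nat.strong_induction_on with
  | _ n ih =>
    intro M hM hrel hne hn
    by_cases hpos : ∃ k, 0 < pr B k (toZ (S.charge M.dm))
    · obtain ⟨k, hk⟩ := hpos
      by_cases hconc : ∀ j, j ≠ em k → M.dm j = 0
      · exact root_conc hS M hM k hconc hne
      · push Not at hconc
        obtain ⟨j0, hj0, hdj0⟩ := hconc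
        obtain ⟨M', h1, h2, h3, h4, h5⟩ := exists_reflect D M (em k) (hS.loop k) (hrel k) hM
          ⟨j0, hj0, dm_ne_zero hdj0⟩
        have hnum := reflect_num hB hS k M.dm M'.dm h4 h5
        have hdm' : M'.dm ≠ 0 := by
          intro h
          apply hdj0
          rw [← h4 j0 hj0, h]
          rfl
        have hlt : ∑ i, S.charge M'.dm i < n := by
          have e1 : ∑ i, toZ (S.charge M'.dm) i =
              ∑ i, toZ (S.charge M.dm) i - pr B k (toZ (S.charge M.dm)) := by
            rw [hnum, sum_srefl, pr_apply]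
          have e2 : ((∑ i, S.charge M'.dm i : ℕ) : ℤ) = ∑ i, toZ (S.charge M'.dm) i := by
            rw [Nat.cast_sum]; rfl
          have e3 : ((∑ i, S.charge M.dm i : ℕ) : ℤ) = ∑ i, toZ (S.charge M.dm) i := by
            rw [Nat.cast_sum]; rfl
          rw [hn] at e3
          have : ((∑ i, S.charge M'.dm i : ℕ) : ℤ) < n := by
            rw [e2, e1, ← e3]
            linarith
          exact_mod_cast this
        have hrel' : ∀ k' : ι, M'.Rel D (em k') := by
          intro k'
          by_cases h : em k' = em k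
          · rw [h]; exact h2
          · exact h3 _ h (hrel k')
        have := ih _ hlt M' h1 hrel' hdm' rfl
        rw [hnum] at this
        exact isRoot_of_srefl _ k (cartan_self k) _ this
    · push Not at hpos
      right
      refine ⟨toZ (S.charge M.dm), ⟨?_, ?_, ?_, ?_⟩, Or.inl WOrbit.base⟩
      · intro h
        apply hne
        rw [← charge_eq_zero S M.dm]
        funext i
        have := congrFun h i
        simpa [toZ] using this
      · intro i
        exact Int.natCast_nonneg _
      · intro k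
        exact hpos k
      · exact conn_charge hB hS M hM

end Abs

theorem goodS_mkS {B : ι → ι → ℤ} {d : ι → ℕ} (hB : SkewSym B d) (N : ι → ℕ) :
    GoodS B d (mkS B d hB.pos N) (fun k => Sum.inl k) where
  euler := euler_mkS B d hB N
  kap := fun _ => rfl
  chE := fun _ => rfl
  loop := fun k => mult_loop B d hB N k
  conn := by
    rintro (i | m)
    · exact Or.inl ⟨i, rfl⟩
    · right
      have := m.2
      simp only [Finset.mem_filter] at this
      exact this.2.2.2

theorem brick_root' {B : ι → ι → ℤ} {d : ι → ℕ} (hB : SkewSym B d) (N : ι → ℕ)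
    (D : ∀ i j, DualFam ((mkS B d hB.pos N).κ i) ((mkS B d hB.pos N).κ j))
    (M : DObj (mkS B d hB.pos N)) (hM : M.Brick) (hrel : ∀ k : ι, M.Rel D (Sum.inl k))
    (hne : M.dm ≠ 0) :
    IsRoot (cartan B) (toZ ((mkS B d hB.pos N).charge M.dm)) :=
  root_of_brick hB (goodS_mkS hB N) D _ M hM hrel hne rfl

/-- brick_root follows from `exists_dualFam`, `exists_double` and `brick_root'`. -/
theorem brick_root {B : ι → ι → ℤ} {d : ι → ℕ} (hB : SkewSym B d) (N : ι → ℕ)
    (m : (mkS B d hB.pos N).J → ℕ) (hm : m ≠ 0) (φ : (mkS B d hB.pos N).Rep m)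
    (hφ : Species.Brick φ) :
    IsRoot (cartan B) (toZ ((mkS B d hB.pos N).charge m)) := by
  have hD : Nonempty (∀ i j, DualFam ((mkS B d hB.pos N).κ i) ((mkS B d hB.pos N).κ j)) := by
    refine ⟨fun i j => Classical.choice (exists_dualFam _ _ ?_ ?_)⟩
    · exact (mkS B d hB.pos N).κ_pos i
    · exact (mkS B d hB.pos N).κ_pos j
  obtain ⟨D⟩ := hD
  obtain ⟨M, hM, hrel, hm'⟩ := exists_double D φ hφ
  have := brick_root' hB N D M hM (fun k => hrel _) (by rw [hm']; exact hm)
  rwa [hm'] at this

end Species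

end Pool.Agent.RootConj
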