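import Pool.Agent.RootConj.Restr
import Pool.Agent.RootConj.Count

set_option autoImplicit false
set_option linter.unusedSectionVars false

/-!
# Root conjecture for c-vectors: the Harder-Narasimhan factorisation (module HN)
-/

namespace Pool.Agent.RootConj

namespace Species

variable {ι : Type} [Fintype ι] [DecidableEq ι]
variable {Λ : Type} [AddCommGroup Λ] [LinearOrder Λ] [IsOrderedAddMonoid Λ]

namespace HN

variable {S : Species ι} {m : S.J → ℕ}

/-- The value of the functional on a family of subspaces. -/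
noncomputable def v (x : (ι → ℤ) →+ Λ) (U : S.Sub m) : Λ := x (toZ (S.charge (dimU U)))

theorem xc_add (x : (ι → ℤ) →+ Λ) (a b : S.J → ℕ) :
    x (toZ (S.charge (a + b))) = x (toZ (S.charge a)) + x (toZ (S.charge b)) := by
  rw [charge_add, toZ_add, map_add]

theorem v_modular (x : (ι → ℤ) →+ Λ) (U V : S.Sub m) :
    v x (U ⊓ V) + v x (U ⊔ V) = v x U + v x V := by
  unfold v
  rw [← xc_add, ← xc_add, dimU_modular]

theorem charge_zero : S.charge 0 = 0 := (charge_eq_zero S 0).2 rfl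

theorem xc_zero (x : (ι → ℤ) →+ Λ) : x (toZ (S.charge 0)) = 0 := by
  rw [charge_zero, toZ_zero, map_zero]

theorem isSub_bot (φ : S.Rep m) : IsSub φ ⊥ := by
  intro i j r w hw
  have : w = 0 := by simpa using hw
  subst this
  simp

theorem isSub_top (φ : S.Rep m) : IsSub φ ⊤ := by
  intro i j r w _
  simp

theorem dimU_le (U : S.Sub m) : dimU U ≤ m := by
  have := dimU_mono (le_top : U ≤ ⊤)
  rwa [dimU_top] at this

theorem finite_dims (φ : S.Rep m) : (dims φ).Finite := by
  refine (Set.finite_Iic m).subset ?_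
  rintro u ⟨U, _, rfl⟩
  exact dimU_le U

theorem sum_lt {a b : S.J → ℕ} (h : a ≤ b) (hne : a ≠ b) : ∑ j, a j < ∑ j, b j := by
  obtain ⟨j, hj⟩ := Function.ne_iff.1 hne
  exact Finset.sum_lt_sum (fun i _ => h i) ⟨j, Finset.mem_univ j, lt_of_le_of_ne (h j) hj⟩

/-- First step: the maximal destabilising subrepresentation. -/
theorem exists_first (x : (ι → ℤ) →+ Λ) (φ : S.Rep m) :
    ∃ U : S.Sub m, IsSub φ U ∧ (∀ V, IsSub φ V → v x V ≤ v x U) ∧
      ∀ V, IsSub φ V → V ≤ U → dimU V ≠ dimU U → v x V < v x U := by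
  classical
  have hfin := finite_dims φ
  -- maximal value
  obtain ⟨u1, hu1, hmax⟩ := hfin.toFinset.exists_max_image (fun u => x (toZ (S.charge u)))
    ⟨0, by rw [Set.Finite.mem_toFinset]; exact ⟨⊥, isSub_bot φ, dimU_bot⟩⟩
  -- minimal dimension among those
  obtain ⟨u2, hu2, hmin⟩ := (hfin.toFinset.filter
      (fun u => x (toZ (S.charge u)) = x (toZ (S.charge u1)))).exists_min_image
      (fun u => ∑ j, u j) ⟨u1, by simp only [Finset.mem_filter]; exact ⟨hu1, trivial⟩⟩
  simp only [Finset.mem_filter, Set.Finite.mem_toFinset] at hu2 hmin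
  obtain ⟨⟨U, hU, hUd⟩, hux⟩ := hu2
  have hle : ∀ V, IsSub φ V → v x V ≤ v x U := by
    intro V hV
    have := hmax (dimU V) (by rw [Set.Finite.mem_toFinset]; exact ⟨V, hV, rfl⟩)
    unfold v
    rw [hUd, hux]
    exact this
  refine ⟨U, hU, hle, ?_⟩
  intro V hV hVU hne
  refine lt_of_le_of_ne (hle V hV) ?_
  intro heq
  have h1 : x (toZ (S.charge (dimU V))) = x (toZ (S.charge u1)) := by
    have : v x V = v x U := heq
    unfold v at this
    rw [this, hUd, hux]
  have h2 := hmin (dimU V) ⟨⟨V, hV, rfl⟩, h1⟩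
  rw [← hUd] at h2
  exact absurd h2 (not_le.2 (sum_lt (dimU_mono hVU) hne))

/-- Second step: the maximal semistable subrepresentation of slope zero. -/
theorem exists_second (x : (ι → ℤ) →+ Λ) (φ : S.Rep m) :
    ∃ U : S.Sub m, IsSub φ U ∧ v x U = 0 ∧
      ∀ V, IsSub φ V → U ≤ V → v x V = 0 → dimU V = dimU U := by
  classical
  have hfin := finite_dims φ
  obtain ⟨u2, hu2, hmax⟩ := (hfin.toFinset.filter
      (fun u => x (toZ (S.charge u)) = 0)).exists_max_image
      (fun u => ∑ j, u j) ⟨0, by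
        simp only [Finset.mem_filter, Set.Finite.mem_toFinset]
        exact ⟨⟨⊥, isSub_bot φ, dimU_bot⟩, xc_zero x⟩⟩
  simp only [Finset.mem_filter, Set.Finite.mem_toFinset] at hu2 hmax
  obtain ⟨⟨U, hU, hUd⟩, hux⟩ := hu2
  refine ⟨U, hU, ?_, ?_⟩
  · unfold v
    rw [hUd, hux]
  · intro V hV hUV hv
    by_contra hne
    have h2 := hmax (dimU V) ⟨⟨V, hV, rfl⟩, hv⟩
    rw [← hUd] at h2
    exact absurd h2 (not_le.2 (sum_lt (dimU_mono hUV) (Ne.symm hne)))

/-- `PLe` for the quotient, unfolded. -/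
theorem ple_above (x : (ι → ℤ) →+ Λ) (φ : S.Rep m) (U : S.Sub m) :
    S.PLe x (m - dimU U) (dimsAbove φ U) ↔ ∀ V, IsSub φ V → U ≤ V → v x V ≤ v x U := by
  constructor
  · intro h V hV hUV
    have hd := dimU_mono hUV
    have h1 := h (dimU V - dimU U) ⟨V, hV, hUV, by rw [add_tsub_cancel_of_le hd]⟩
    have h2 : v x V = v x U + x (toZ (S.charge (dimU V - dimU U))) := by
      unfold v
      rw [← xc_add, add_tsub_cancel_of_le hd]
    rw [h2]
    exact add_le_of_nonpos_right h1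
  · rintro h u ⟨V, hV, hUV, hd⟩
    have h1 := h V hV hUV
    have h2 : v x V = v x U + x (toZ (S.charge u)) := by
      unfold v
      rw [← xc_add, hd]
    rw [h2] at h1
    exact le_of_add_le_add_left (a := v x U) (by rw [add_zero]; exact h1)

/-- `PN` for the quotient, unfolded. -/
theorem pn_above (x : (ι → ℤ) →+ Λ) (φ : S.Rep m) (U : S.Sub m) :
    S.PN x (m - dimU U) (dimsAbove φ U) ↔
      ∀ V, IsSub φ V → U ≤ V → dimU V ≠ dimU U → v x V < v x U := by
  constructor
  · intro h V hV hUV hne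
    have hd := dimU_mono hUV
    have h0 : dimU V - dimU U ≠ 0 := by
      intro h0
      apply hne
      apply le_antisymm _ hd
      exact tsub_eq_zero_iff_le.1 h0
    have h1 := h (dimU V - dimU U) ⟨V, hV, hUV, by rw [add_tsub_cancel_of_le hd]⟩ h0
    have h2 : v x V = v x U + x (toZ (S.charge (dimU V - dimU U))) := by
      unfold v
      rw [← xc_add, add_tsub_cancel_of_le hd]
    rw [h2]
    exact add_lt_of_neg_right _ h1
  · rintro h u ⟨V, hV, hUV, hd⟩ hu
    have hne : dimU V ≠ dimU U := by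
      intro h0
      apply hu
      rw [h0] at hd
      funext j
      have := congrFun hd j
      simp only [Pi.add_apply] at this
      simp only [Pi.zero_apply]
      omega
    have h1 := h V hV hUV hne
    have h2 : v x V = v x U + x (toZ (S.charge u)) := by
      unfold v
      rw [← xc_add, hd]
    rw [h2] at h1
    exact lt_of_add_lt_add_left (a := v x U) (by rw [add_zero]; exact h1)

/-- `PT` for a subrepresentation, unfolded. -/
theorem pt_below (x : (ι → ℤ) →+ Λ) (φ : S.Rep m) (U : S.Sub m) :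
    S.PT x (dimU U) (dimsBelow φ U) ↔
      ∀ V, IsSub φ V → V ≤ U → dimU V ≠ dimU U → v x V < v x U := by
  constructor
  · intro h V hV hVU hne
    exact h (dimU V) ⟨V, hV, hVU, rfl⟩ hne
  · rintro h u ⟨V, hV, hVU, rfl⟩ hne
    exact h V hV hVU hne

/-- `PS` for a subrepresentation, unfolded. -/
theorem ps_below (x : (ι → ℤ) →+ Λ) (φ : S.Rep m) (U : S.Sub m) :
    S.PS x (dimU U) (dimsBelow φ U) ↔
      v x U = 0 ∧ ∀ V, IsSub φ V → V ≤ U → v x V ≤ 0 := by
  constructor
  · rintro ⟨h0, h⟩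
    exact ⟨h0, fun V hV hVU => h (dimU V) ⟨V, hV, hVU, rfl⟩⟩
  · rintro ⟨h0, h⟩
    refine ⟨h0, ?_⟩
    rintro u ⟨V, hV, hVU, rfl⟩
    exact h V hV hVU

end HN

open HN

/-- First factorisation. -/
theorem gen_all_eq {S : Species ι} {B : ι → ι → ℤ} {d : ι → ℕ} (hB : SkewSym B d)
    (hS : S.Euler B d) (y : S.J → ℚ) (x : (ι → ℤ) →+ Λ) :
    gen S B d y S.PAll = gen S B d y (S.PT x) * gen S B d y (S.PLe x) := by
  refine gen_mul hB hS y _ _ _ ?_ (fun _ _ _ _ _ _ => trivial)
  intro m φ _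
  obtain ⟨U, hU, hmax, hmin⟩ := exists_first x φ
  refine ⟨U, ⟨hU, (pt_below x φ U).2 hmin, (ple_above x φ U).2 fun V hV _ => hmax V hV⟩, ?_⟩
  rintro V ⟨hV, hV1, hV2⟩
  rw [pt_below] at hV1
  rw [ple_above] at hV2
  have key : ∀ P Q : S.Sub m, IsSub φ P → IsSub φ Q →
      (∀ R, IsSub φ R → P ≤ R → v x R ≤ v x P) →
      (∀ R, IsSub φ R → R ≤ Q → dimU R ≠ dimU Q → v x R < v x Q) → Q ≤ P := by
    intro P Q hP hQ h1 h2
    have e : P ⊓ Q = Q := by
      apply eq_of_dimU_eq inf_le_right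
      by_contra hne
      have a1 := h2 (P ⊓ Q) (isSub_inf hP hQ) inf_le_right hne
      have a2 := h1 (P ⊔ Q) (isSub_sup hP hQ) le_sup_left
      have a3 := v_modular x P Q
      have a4 : v x (P ⊓ Q) + v x (P ⊔ Q) < v x Q + v x P := add_lt_add_of_lt_of_le a1 a2
      rw [a3, add_comm] at a4
      exact lt_irrefl _ a4
    rw [← e]
    exact inf_le_left
  apply le_antisymm
  · exact key U V hU hV (fun R hR _ => hmax R hR) hV1
  · exact key V U hV hU hV2 hmin

/-- Second factorisation. -/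
theorem gen_ple_eq {S : Species ι} {B : ι → ι → ℤ} {d : ι → ℕ} (hB : SkewSym B d)
    (hS : S.Euler B d) (y : S.J → ℚ) (x : (ι → ℤ) →+ Λ) :
    gen S B d y (S.PLe x) = gen S B d y (S.PS x) * gen S B d y (S.PN x) := by
  refine gen_mul hB hS y _ _ _ ?_ ?_
  · intro m φ hφ
    have hle : ∀ V, IsSub φ V → v x V ≤ 0 := fun V hV => hφ _ ⟨V, hV, rfl⟩
    obtain ⟨U, hU, h0, hmax⟩ := exists_second x φ
    have hN : ∀ V, IsSub φ V → U ≤ V → dimU V ≠ dimU U → v x V < v x U := by
      intro V hV hUV hne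
      rw [h0]
      refine lt_of_le_of_ne (hle V hV) ?_
      intro h
      exact hne (hmax V hV hUV h)
    refine ⟨U, ⟨hU, (ps_below x φ U).2 ⟨h0, fun V hV _ => hle V hV⟩, (pn_above x φ U).2 hN⟩, ?_⟩
    rintro V ⟨hV, hV1, hV2⟩
    rw [ps_below] at hV1
    rw [pn_above] at hV2
    have key : ∀ P Q : S.Sub m, IsSub φ P → IsSub φ Q → v x P = 0 → v x Q = 0 →
        (∀ R, IsSub φ R → P ≤ R → dimU R ≠ dimU P → v x R < v x P) → Q ≤ P := by
      intro P Q hP hQ hP0 hQ0 h1
      have e : P = P ⊔ Q := by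
        apply eq_of_dimU_eq le_sup_left
        by_contra hne
        have a1 := h1 (P ⊔ Q) (isSub_sup hP hQ) le_sup_left (Ne.symm hne)
        have a2 := hle (P ⊓ Q) (isSub_inf hP hQ)
        have a3 := v_modular x P Q
        rw [hP0, hQ0, add_zero] at a3
        rw [hP0] at a1
        have a4 : v x (P ⊓ Q) + v x (P ⊔ Q) < 0 := add_neg_of_nonpos_of_neg a2 a1
        rw [a3] at a4
        exact lt_irrefl _ a4
      rw [e]
      exact le_sup_right
    apply le_antisymm
    · exact key U V hU hV h0 hV1.1 hN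
    · exact key V U hV hU hV1.1 h0 hV2
  · intro m φ U hU h1 h2
    rw [ps_below] at h1
    rw [pn_above] at h2
    rintro u ⟨V, hV, rfl⟩
    change v x V ≤ 0
    have a3 := v_modular x U V
    rw [h1.1, zero_add] at a3
    rw [← a3]
    have a1 := h1.2 (U ⊓ V) (isSub_inf hU hV) inf_le_left
    have a2 : v x (U ⊔ V) ≤ 0 := by
      by_cases hne : dimU (U ⊔ V) = dimU U
      · have : v x (U ⊔ V) = v x U := by unfold v; rw [hne]
        rw [this, h1.1]
      · have := h2 (U ⊔ V) (isSub_sup hU hV) le_sup_left hne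
        rw [h1.1] at this
        exact this.le
    exact add_nonpos a1 a2

/-- The Harder-Narasimhan factorisation. -/
theorem gen_fact
    {S : Species ι} {B : ι → ι → ℤ} {d : ι → ℕ} (hB : SkewSym B d)
    (hS : S.Euler B d) (y : S.J → ℚ) (x : (ι → ℤ) →+ Λ) :
    IsFact x (gen S B d y S.PAll) (gen S B d y (S.PT x)) (gen S B d y (S.PS x))
      (gen S B d y (S.PN x)) := by
  refine ⟨⟨gen_zero y _ ?_, ?_⟩, ⟨gen_zero y _ ?_, ?_⟩, ⟨gen_zero y _ ?_, ?_⟩, ?_⟩
  · intro u hu hne
    exact absurd (Set.mem_singleton_iff.1 hu) hne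
  · intro n hn hg
    obtain ⟨m, φ, hm, hφ⟩ := exists_of_gen_ne_zero y _ n hg
    have hm0 : (0 : S.J → ℕ) ≠ m := by
      rintro rfl
      apply hn
      rw [← hm, charge_zero]
    have := hφ 0 ⟨⊥, isSub_bot φ, dimU_bot⟩ hm0
    rwa [xc_zero, hm] at this
  · refine ⟨xc_zero x, ?_⟩
    intro u hu
    rw [Set.mem_singleton_iff.1 hu, xc_zero]
  · intro n hg
    obtain ⟨m, φ, hm, hφ⟩ := exists_of_gen_ne_zero y _ n hg
    have := hφ.1
    rwa [hm] at this
  · intro u hu hne
    exact absurd (Set.mem_singleton_iff.1 hu) hne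
  · intro n hn hg
    obtain ⟨m, φ, hm, hφ⟩ := exists_of_gen_ne_zero y _ n hg
    have hm0 : m ≠ 0 := by
      rintro rfl
      apply hn
      rw [← hm, charge_zero]
    have := hφ m ⟨⊤, isSub_top φ, dimU_top⟩ hm0
    rwa [hm] at this
  · rw [gen_all_eq hB hS y x, gen_ple_eq hB hS y x, mul_assoc]

end Species

end Pool.Agent.RootConj
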