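import Pool.Agent.RootConj.Sep
import Pool.Agent.RootConj.FactMul
import Pool.Agent.RootConj.TrLog
import Pool.Agent.RootConj.Data
import Pool.Agent.RootConj.EulerS
import Pool.Agent.RootConj.Restr
import Pool.Agent.RootConj.Count
import Pool.Agent.RootConj.HN
import Pool.Agent.RootConj.Ineq

set_option autoImplicit false

/-!
# Attractor data of the generating series vanish off the cone
-/

namespace Pool.Agent.RootConj

variable {ι : Type} [Fintype ι] [DecidableEq ι]

omit [Fintype ι] [DecidableEq ι] in
theorem toZ_nsmul (r : ℕ) (n : ι → ℕ) : toZ (r • n) = r • toZ n := by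
  funext i; simp [toZ]

theorem bL_nsmul (B : ι → ι → ℤ) (k : ι) (r : ℕ) (n : ι → ℕ) : bL B k (r • n) = r * bL B k n := by
  simp only [bL, Finset.mul_sum, Pi.smul_apply, smul_eq_mul]
  exact Finset.sum_congr rfl fun j _ => by ring

theorem bR_nsmul (B : ι → ι → ℤ) (k : ι) (r : ℕ) (n : ι → ℕ) : bR B k (r • n) = r * bR B k n := by
  simp only [bR, Finset.mul_sum, Pi.smul_apply, smul_eq_mul]
  exact Finset.sum_congr rfl fun j _ => by ring

namespace Species

/-- If the total charge has a separated support, the representation has two complementary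
subrepresentations. -/
theorem exists_split_of_sep {B : ι → ι → ℤ} {d : ι → ℕ} {S : Species ι} (hE : S.Euler B d)
    (hconn : ∀ j, ConnSupp (cartan B) (toZ (S.ch j)))
    {m : S.J → ℕ} (φ : S.Rep m) (P : Set ι)
    (h1 : ∃ i ∈ P, S.charge m i ≠ 0)
    (h2 : ∃ i, i ∉ P ∧ S.charge m i ≠ 0)
    (hsep : ∀ i ∈ P, ∀ j, j ∉ P → S.charge m i ≠ 0 →
      S.charge m j ≠ 0 → cartan B i j = 0)
    (hsep' : ∀ i ∈ P, ∀ j, j ∉ P → S.charge m i ≠ 0 →
      S.charge m j ≠ 0 → cartan B j i = 0) :
    ∃ u v : S.J → ℕ, u ∈ dims φ ∧ v ∈ dims φ ∧ u + v = m ∧ u ≠ 0 ∧ v ≠ 0 := by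
  classical
  -- charges of active vertices are contained in the support of the total charge
  have hsupp : ∀ j, m j ≠ 0 → ∀ i, S.ch j i ≠ 0 → S.charge m i ≠ 0 := by
    intro j hj i hi
    simp only [charge, Finset.sum_apply, Pi.smul_apply, smul_eq_mul]
    intro h0
    have := (Finset.sum_eq_zero_iff.mp h0) j (Finset.mem_univ j)
    rcases Nat.mul_eq_zero.mp this with h | h
    · exact hj h
    · exact hi h
  have hside : ∀ j, m j ≠ 0 → (∀ i, S.ch j i ≠ 0 → i ∈ P) ∨ (∀ i, S.ch j i ≠ 0 → i ∉ P) := by
    intro j hj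
    by_contra hcon
    push Not at hcon
    obtain ⟨⟨a, ha, haP⟩, ⟨b, hb, hbP⟩⟩ := hcon
    obtain ⟨i, hi, i', hi', hi0, hi0', hA⟩ := hconn j P
      ⟨b, hbP, by simpa [toZ] using hb⟩ ⟨a, haP, by simpa [toZ] using ha⟩
    apply hA
    exact hsep i hi i' hi' (hsupp j hj i (by simpa [toZ] using hi0))
      (hsupp j hj i' (by simpa [toZ] using hi0'))
  let A : Set S.J := {j | ∀ i, S.ch j i ≠ 0 → i ∈ P}
  let U : S.Sub m := fun j => if j ∈ A then ⊤ else ⊥
  let V : S.Sub m := fun j => if j ∈ A then ⊥ else ⊤
  have hzero : ∀ j, m j = 0 → ∀ w : Vec (S.κ j) (m j), w = 0 := by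
    intro j hj w
    funext t
    rw [hj] at t
    exact t.elim0
  have hmult : ∀ i j, m i ≠ 0 → m j ≠ 0 → i ∈ A → j ∉ A → S.mult i j = 0 ∧ S.mult j i = 0 := by
    intro i j hi hj hiA hjA
    have hjP : ∀ a, S.ch j a ≠ 0 → a ∉ P := (hside j hj).resolve_left hjA
    constructor
    · apply mult_eq_zero_of_sep hE
      intro a b ha hb
      have haP := hiA a ha
      have hbP := hjP b hb
      exact ⟨fun h => hbP (h ▸ haP), hsep a haP b hbP (hsupp i hi a ha) (hsupp j hj b hb)⟩
    · apply mult_eq_zero_of_sep hE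
      intro a b ha hb
      have haP := hjP a ha
      have hbP := hiA b hb
      exact ⟨fun h => haP (h ▸ hbP), hsep' b hbP a haP (hsupp i hi b hb) (hsupp j hj a ha)⟩
  have hU : IsSub φ U := by
    intro i j r v hv
    by_cases hi : m i = 0
    · rw [hzero i hi v, map_zero]; exact zero_mem _
    by_cases hj : m j = 0
    · rw [hzero j hj ((φ i j r).1 v)]; exact zero_mem _
    by_cases hiA : i ∈ A
    · by_cases hjA : j ∈ A
      · simp only [U, hjA, if_true]; trivial
      · exfalso
        have := (hmult i j hi hj hiA hjA).1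
        rw [this] at r
        exact r.elim0
    · simp only [U, hiA, if_false] at hv
      rw [(Submodule.mem_bot _).mp hv, map_zero]; exact zero_mem _
  have hV : IsSub φ V := by
    intro i j r v hv
    by_cases hi : m i = 0
    · rw [hzero i hi v, map_zero]; exact zero_mem _
    by_cases hj : m j = 0
    · rw [hzero j hj ((φ i j r).1 v)]; exact zero_mem _
    by_cases hiA : i ∈ A
    · simp only [V, hiA, if_true] at hv
      rw [(Submodule.mem_bot _).mp hv, map_zero]; exact zero_mem _
    · by_cases hjA : j ∈ A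
      · exfalso
        have := (hmult j i hj hi hjA hiA).2
        rw [this] at r
        exact r.elim0
      · simp only [V, hjA, if_false]; trivial
  have hdU : ∀ j, dimU U j = if j ∈ A then m j else 0 := by
    intro j
    by_cases hjA : j ∈ A
    · have hUj : U j = ⊤ := if_pos hjA
      rw [if_pos hjA]
      show Module.finrank (KK (S.κ j)) (U j) = m j
      rw [hUj, finrank_top, Module.finrank_fintype_fun_eq_card, Fintype.card_fin]
    · have hUj : U j = ⊥ := if_neg hjA
      rw [if_neg hjA]
      show Module.finrank (KK (S.κ j)) (U j) = 0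
      rw [hUj, finrank_bot]
  have hdV : ∀ j, dimU V j = if j ∈ A then 0 else m j := by
    intro j
    by_cases hjA : j ∈ A
    · have hVj : V j = ⊥ := if_pos hjA
      rw [if_pos hjA]
      show Module.finrank (KK (S.κ j)) (V j) = 0
      rw [hVj, finrank_bot]
    · have hVj : V j = ⊤ := if_neg hjA
      rw [if_neg hjA]
      show Module.finrank (KK (S.κ j)) (V j) = m j
      rw [hVj, finrank_top, Module.finrank_fintype_fun_eq_card, Fintype.card_fin]
  refine ⟨dimU U, dimU V, ⟨U, hU, rfl⟩, ⟨V, hV, rfl⟩, ?_, ?_, ?_⟩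
  · funext j
    rw [Pi.add_apply, hdU, hdV]
    split_ifs <;> simp
  · obtain ⟨i, hi, hi0⟩ := h1
    intro h0
    simp only [charge, Finset.sum_apply, Pi.smul_apply, smul_eq_mul] at hi0
    obtain ⟨j, _, hj⟩ := Finset.exists_ne_zero_of_sum_ne_zero hi0
    have hmj : m j ≠ 0 := fun h => hj (by rw [h, zero_mul])
    have hcj : S.ch j i ≠ 0 := fun h => hj (by rw [h, mul_zero])
    have hjA : j ∈ A := (hside j hmj).resolve_right (fun h => h i hcj hi)
    have := congrFun h0 j
    rw [hdU, if_pos hjA] at this
    exact hmj this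
  · obtain ⟨i, hi, hi0⟩ := h2
    intro h0
    simp only [charge, Finset.sum_apply, Pi.smul_apply, smul_eq_mul] at hi0
    obtain ⟨j, _, hj⟩ := Finset.exists_ne_zero_of_sum_ne_zero hi0
    have hmj : m j ≠ 0 := fun h => hj (by rw [h, zero_mul])
    have hcj : S.ch j i ≠ 0 := fun h => hj (by rw [h, mul_zero])
    have hjA : j ∉ A := fun h => hi (h i hcj)
    have := congrFun h0 j
    rw [hdV, if_neg hjA] at this
    exact hmj this

/-- Dimension vectors of subrepresentations are bounded. -/
theorem le_of_mem_dims {S : Species ι} {m : S.J → ℕ} {φ : S.Rep m} {u : S.J → ℕ}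
    (h : u ∈ dims φ) : u ≤ m := by
  obtain ⟨U, _, rfl⟩ := h
  calc dimU U ≤ dimU (⊤ : S.Sub m) := dimU_mono le_top
    _ = m := dimU_top

/-- A dimension vector concentrated at one vertex. -/
theorem charge_single {S : Species ι} {m : S.J → ℕ} (k : S.J) (h : ∀ j, j ≠ k → m j = 0) :
    S.charge m = m k • S.ch k := by
  unfold charge
  rw [Finset.sum_eq_single k]
  · intro j _ hj; rw [h j hj, zero_smul]
  · intro h; exact absurd (Finset.mem_univ k) h

/-- The key step: a stable representation of charge proportional to `n` at the (perturbed)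
attractor point of `n` forces `n` to be in the cone or simple. -/
theorem ks_of_stable {B : ι → ι → ℤ} {d : ι → ℕ} (hB : SkewSym B d) {S : Species ι}
    (hE : S.Euler B d) (hconn : ∀ j, ConnSupp (cartan B) (toZ (S.ch j)))
    (vs : ι → S.J) (hch : ∀ k : ι, S.ch (vs k) = Pi.single k 1)
    (hmulz : ∀ k : ι, S.mult (vs k) (vs k) = 0)
    {m : S.J → ℕ} (φ : S.Rep m) (hm : m ≠ 0)
    (n : ι → ℕ) (hn : ∀ k r, n ≠ Pi.single k r) (α β : ℕ) (hα : 0 < α) (hβ : 0 < β)
    (hprop : β • S.charge m = α • n)
    (z : (ι → ℤ) →+ ℤ)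
    (h0 : lexHom (omHom (WB B d) (toZ n)) z (toZ (S.charge m)) = 0)
    (hst : ∀ u ∈ dims φ, u ≠ 0 → u ≠ m →
      lexHom (omHom (WB B d) (toZ n)) z (toZ (S.charge u)) < 0) :
    KS B d n := by
  classical
  set x := lexHom (omHom (WB B d) (toZ n)) z with hx
  set c := S.charge m with hc
  have hn0 : n ≠ 0 := by
    rintro rfl
    have : c = 0 := by
      have h1 : β • c = 0 := by rw [hprop, smul_zero]
      funext i
      have := congrFun h1 i
      simp only [Pi.smul_apply, smul_eq_mul, Pi.zero_apply, Nat.mul_eq_zero] at this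
      rcases this with h | h
      · omega
      · exact h
    exact hm ((charge_eq_zero S m).mp this)
  -- not concentrated at a simple vertex
  have hconc : ∀ k : ι, ¬ (∀ j, j ≠ vs k → m j = 0) := by
    intro k hk
    have h1 : c = m (vs k) • (Pi.single k 1 : ι → ℕ) := by
      rw [hc, charge_single (vs k) hk, hch]
    apply hn k (n k)
    funext i
    by_cases hik : i = k
    · subst hik; simp
    · have := congrFun hprop i
      rw [h1] at this
      simp only [Pi.smul_apply, smul_eq_mul, Pi.single_apply, hik, if_false, mul_zero] at this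
      have h2 : n i = 0 := by
        rcases Nat.mul_eq_zero.mp this.symm with h | h
        · omega
        · exact h
      rw [h2]; simp [hik]
  have htoZ : ∀ k : ι, toZ (Pi.single k 1 : ι → ℕ) = Pi.single k 1 := by
    intro k; funext i
    by_cases hik : i = k
    · subst hik; simp [toZ]
    · simp [toZ, hik]
  -- the two inequalities
  have hsub : ∀ k : ι, 0 ≤ x (Pi.single k 1) → chi B d (Pi.single k 1) (toZ c) ≤ 0 := by
    intro k hk
    have := chi_le_of_no_sub hE φ (vs k) (hmulz k) (by
      intro u hu hconcu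
      by_contra hu0
      have hum : u ≠ m := by
        rintro rfl; exact hconc k hconcu
      have h1 := hst u hu hu0 hum
      rw [charge_single (vs k) hconcu, hch, toZ_nsmul, htoZ, map_nsmul] at h1
      exact absurd h1 (not_lt.mpr (nsmul_nonneg hk _)))
    rwa [hch, htoZ] at this
  have hquot : ∀ k : ι, x (Pi.single k 1) ≤ 0 → chi B d (toZ c) (Pi.single k 1) ≤ 0 := by
    intro k hk
    have := chi_le_of_no_quot hE φ (vs k) (hmulz k) (by
      intro u hu hconcu
      by_contra hum
      have hu0 : u ≠ 0 := by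
        rintro rfl; exact hconc k fun j hj => (hconcu j hj).symm
      have h1 := hst u hu hu0 hum
      have hle : u ≤ m := le_of_mem_dims hu
      have hdec : m = u + (m - u) := (add_tsub_cancel_of_le hle).symm
      have h2 : S.charge (m - u) = (m - u) (vs k) • S.ch (vs k) := by
        apply charge_single
        intro j hj
        simp [hconcu j hj]
      have h3 : x (toZ c) = x (toZ (S.charge u)) +
          (m - u) (vs k) • x (Pi.single k 1) := by
        rw [hc]
        conv_lhs => rw [hdec]
        rw [charge_add, toZ_add, map_add, h2, hch, toZ_nsmul, htoZ, map_nsmul]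
      rw [h0] at h3
      have h4 : (m - u) (vs k) • x (Pi.single k 1) ≤ 0 := nsmul_nonpos hk _
      have h5 : x (toZ (S.charge u)) + (m - u) (vs k) • x (Pi.single k 1) < 0 :=
        add_neg_of_neg_of_nonpos h1 h4
      rw [← h3] at h5
      exact lt_irrefl _ h5)
    rwa [hch, htoZ] at this
  -- proportionality of the form
  have hom : ∀ k : ι, (β : ℤ) * om (WB B d) (Pi.single k 1) (toZ c) =
      α * om (WB B d) (Pi.single k 1) (toZ n) := by
    intro k
    have h1 : (β : ℤ) * omHom (WB B d) (Pi.single k 1) (toZ c) =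
        α * omHom (WB B d) (Pi.single k 1) (toZ n) := by
      have h2 : omHom (WB B d) (Pi.single k 1) (toZ (β • c)) =
          omHom (WB B d) (Pi.single k 1) (toZ (α • n)) := by rw [hprop]
      rw [toZ_nsmul, toZ_nsmul, map_nsmul, map_nsmul] at h2
      simpa only [nsmul_eq_mul] using h2
    have hskew : ∀ a : ι → ℤ, om (WB B d) (Pi.single k 1) a =
        - omHom (WB B d) (Pi.single k 1) a := by
      intro a
      show _ = - om (WB B d) a (Pi.single k 1)
      simp only [om]
      rw [Finset.sum_comm, ← Finset.sum_neg_distrib]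
      refine Finset.sum_congr rfl fun i _ => ?_
      rw [← Finset.sum_neg_distrib]
      refine Finset.sum_congr rfl fun j _ => ?_
      rw [WB_skew hB j i]; ring
    rw [hskew, hskew]
    linarith
  have hpair : ∀ k : ι, chi B d (Pi.single k 1) (toZ c) ≤ 0 ∧
      chi B d (toZ c) (Pi.single k 1) ≤ 0 := by
    intro k
    have hsc := chi_sub_chi B d hB (Pi.single k 1) (toZ c)
    have hβ' : (0 : ℤ) < β := by exact_mod_cast hβ
    have hα' : (0 : ℤ) < α := by exact_mod_cast hα
    have hk := hom k
    rcases le_total 0 (x (Pi.single k 1)) with hpos | hneg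
    · have h1 := hsub k hpos
      refine ⟨h1, ?_⟩
      have h2 : 0 ≤ om (WB B d) (Pi.single k 1) (toZ n) := by
        have h3 : (toLex ((0 : ℤ), (0 : ℤ)) : ℤ ×ₗ ℤ) ≤
          toLex (om (WB B d) (Pi.single k 1) (toZ n), z (Pi.single k 1)) := hpos
        rw [Prod.Lex.toLex_le_toLex] at h3
        rcases h3 with h3 | h3
        · exact le_of_lt h3
        · exact h3.1.le
      have h4 : 0 ≤ om (WB B d) (Pi.single k 1) (toZ c) := by
        by_contra hcon
        push Not at hcon
        nlinarith
      linarith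
    · have h1 := hquot k hneg
      refine ⟨?_, h1⟩
      have h2 : om (WB B d) (Pi.single k 1) (toZ n) ≤ 0 := by
        have h3 : (toLex (om (WB B d) (Pi.single k 1) (toZ n), z (Pi.single k 1)) : ℤ ×ₗ ℤ) ≤
          toLex ((0 : ℤ), (0 : ℤ)) := hneg
        rw [Prod.Lex.toLex_le_toLex] at h3
        rcases h3 with h3 | h3
        · exact le_of_lt h3
        · exact h3.1.le
      have h4 : om (WB B d) (Pi.single k 1) (toZ c) ≤ 0 := by
        by_contra hcon
        push Not at hcon
        nlinarith
      linarith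
  -- scaling to `n`
  have hcn : ∀ i, c i ≠ 0 ↔ n i ≠ 0 := by
    intro i
    have := congrFun hprop i
    simp only [Pi.smul_apply, smul_eq_mul] at this
    constructor
    · intro h h'
      rw [h', mul_zero] at this
      rcases Nat.mul_eq_zero.mp this with h1 | h1
      · omega
      · exact h h1
    · intro h h'
      rw [h', mul_zero] at this
      rcases Nat.mul_eq_zero.mp this.symm with h1 | h1
      · omega
      · exact h h1
  refine ⟨hn0, ?_, ?_⟩
  · intro k
    obtain ⟨h1, h2⟩ := hpair k
    rw [chi_right B d hB] at h1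
    rw [chi_left B d hB] at h2
    have hd : (0 : ℤ) < d k := by exact_mod_cast hB.pos k
    have h1' : (c k : ℤ) ≤ bR B k c := by
      by_contra hcon
      push Not at hcon
      nlinarith
    have h2' : (c k : ℤ) ≤ bL B k c := by
      by_contra hcon
      push Not at hcon
      nlinarith
    have h1'' : c k ≤ bR B k c := by exact_mod_cast h1'
    have h2'' : c k ≤ bL B k c := by exact_mod_cast h2'
    have e1 := congrFun hprop k
    simp only [Pi.smul_apply, smul_eq_mul] at e1
    have e2 := congrArg (bR B k) hprop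
    have e3 := congrArg (bL B k) hprop
    rw [bR_nsmul, bR_nsmul] at e2
    rw [bL_nsmul, bL_nsmul] at e3
    have g1 : n k ≤ bR B k n := by
      have : α * n k ≤ α * bR B k n := by
        rw [← e1, ← e2]; exact Nat.mul_le_mul_left _ h1''
      exact Nat.le_of_mul_le_mul_left this hα
    have g2 : n k ≤ bL B k n := by
      have : α * n k ≤ α * bL B k n := by
        rw [← e1, ← e3]; exact Nat.mul_le_mul_left _ h2''
      exact Nat.le_of_mul_le_mul_left this hα
    rw [chi_right B d hB, chi_left B d hB]
    have g1' : (n k : ℤ) ≤ bR B k n := by exact_mod_cast g1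
    have g2' : (n k : ℤ) ≤ bL B k n := by exact_mod_cast g2
    constructor <;> nlinarith
  · rintro P ⟨i, hiP, hi0⟩ ⟨i', hiP', hi0'⟩
    by_contra hcon
    push Not at hcon
    have hi1 : c i ≠ 0 := (hcn i).mpr (by simpa [toZ] using hi0)
    have hi1' : c i' ≠ 0 := (hcn i').mpr (by simpa [toZ] using hi0')
    have hsep : ∀ i ∈ P, ∀ j, j ∉ P → c i ≠ 0 → c j ≠ 0 → cartan B i j = 0 := by
      intro a haP b hbP ha hb
      exact hcon a haP b hbP (by simpa [toZ] using (hcn a).mp ha) (by simpa [toZ] using (hcn b).mp hb)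
    have hsym : ∀ i j, cartan B i j = 0 → cartan B j i = 0 := by
      intro a b hab
      by_cases h : a = b
      · subst h; simp [cartan] at hab
      have h' : b ≠ a := fun e => h e.symm
      have h1 : B a b = 0 := by simpa [cartan, h] using hab
      have h2 := hB.skew a b
      rw [h1, mul_zero] at h2
      have h3 : (d b : ℤ) ≠ 0 := by
        have := hB.pos b; positivity
      have h4 : B b a = 0 := by
        have h5 : (d b : ℤ) * B b a = 0 := by linarith
        rcases mul_eq_zero.mp h5 with h6 | h6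
        · exact absurd h6 h3
        · exact h6
      simp [cartan, h', h4]
    obtain ⟨u, v, hu, hv, huv, hu0, hv0⟩ := exists_split_of_sep hE hconn φ P ⟨i, hiP, hi1⟩
      ⟨i', hiP', hi1'⟩ hsep (fun a ha b hb h1 h2 => hsym _ _ (hsep a ha b hb h1 h2))
    have hum : u ≠ m := by
      rintro rfl; exact hv0 (by simpa using huv)
    have hvm : v ≠ m := by
      rintro rfl; exact hu0 (by simpa using huv)
    have e1 := hst u hu hu0 hum
    have e2 := hst v hv hv0 hvm
    have e3 : x (toZ c) = x (toZ (S.charge u)) + x (toZ (S.charge v)) := by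
      rw [hc, ← huv, charge_add, toZ_add, map_add]
    rw [h0] at e3
    exact absurd e3.symm (ne_of_lt (add_neg e1 e2))

/-- The attractor data of the generating series of all representations vanish off the cone. -/
theorem data_gen_aux {B : ι → ι → ℤ} {d : ι → ℕ} (hB : SkewSym B d) {S : Species ι}
    (hE : S.Euler B d) (hconn : ∀ j, ConnSupp (cartan B) (toZ (S.ch j)))
    (vs : ι → S.J) (hch : ∀ k : ι, S.ch (vs k) = Pi.single k 1)
    (hmulz : ∀ k : ι, S.mult (vs k) (vs k) = 0) (y : S.J → ℚ) (n : ι → ℕ)
    (hn : ∀ k r, n ≠ Pi.single k r) (hK : ¬ KS B d n) :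
    data (gen S B d y (PAll S)) n = 0 := by
  classical
  set g := gen S B d y (PAll S) with hg
  by_cases hn0 : n = 0
  · subst hn0
    simp [data, L]
  obtain ⟨i0, hi0⟩ := Function.ne_iff.mp hn0
  have hi0 : n i0 ≠ 0 := hi0
  obtain ⟨z, hzn, hz⟩ := exists_sep n i0
  set att := omHom (WB B d) (toZ n) with hatt
  set x := lexHom att z with hx
  have hfact := gen_fact hB hE y x
  have hg0 : g 0 = 1 := by
    rw [hg, hfact.eq, T.mul_apply_zero, T.mul_apply_zero, hfact.pos.1, hfact.zer.1, hfact.neg.1]
    norm_num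
  have hWs := fun i j => WB_skew hB i j
  have hzz := isZer_zp att g hg0
  have e1 : data g n = L n (gen S B d y (S.PS x)) := by
    have h1 : L n (zp z (zp att g)) = L n (zp att g) :=
      L_zp hWs n hn0 z hzn (zp att g) hzz.1 (fun m hm => hzz.2 m hm)
    have h2 : zp x g = zp z (zp att g) := zp_lex att z g hg0
    have h3 : zp x g = gen S B d y (S.PS x) := zp_eq x hfact
    rw [data, ← h1, ← h2, h3]
  rw [e1]
  have e2 : ∀ n' ≤ n, gen S B d y (S.PS x) n' = (1 : T (WB B d)) n' := by
    intro n' hn'
    by_cases h0 : n' = 0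
    · subst h0; rw [hfact.zer.1]; simp [T.one_apply]
    rw [T.one_apply, if_neg h0]
    by_contra hne
    obtain ⟨m, φ, hcm, hPS⟩ := exists_of_gen_ne_zero y (S.PS x) n' hne
    obtain ⟨hx0, hss⟩ := hPS
    -- minimal subrepresentation of slope zero
    let Q : ℕ → Prop := fun s => ∃ U : S.Sub m, IsSub φ U ∧ dimU U ≠ 0 ∧
      x (toZ (S.charge (dimU U))) = 0 ∧ ∑ j, dimU U j = s
    have hm0 : m ≠ 0 := by
      rintro rfl
      apply h0
      rw [← hcm]
      exact (charge_eq_zero S 0).mpr rfl
    have hQ : ∃ s, Q s := by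
      refine ⟨_, (⊤ : S.Sub m), ?_, ?_, ?_, rfl⟩
      · intro i j r v _; trivial
      · rw [dimU_top]; exact hm0
      · rw [dimU_top]; exact hx0
    obtain ⟨U, hU, hU0, hUx, hUs⟩ := Nat.find_spec hQ
    have hmin : ∀ s, Q s → Nat.find hQ ≤ s := fun s hs => Nat.find_min' hQ hs
    obtain ⟨m', hm', φ', hφ'⟩ : ∃ m' : S.J → ℕ, m' = dimU U ∧ ∃ φ' : S.Rep m',
        dims φ' = dimsBelow φ U := ⟨dimU U, rfl, exists_restrict φ U hU⟩
    rw [← hm'] at hU0 hUx hUs
    have hm'le : m' ≤ m := by
      calc m' = dimU U := hm'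
        _ ≤ dimU (⊤ : S.Sub m) := dimU_mono le_top
        _ = m := dimU_top
    have hcle : S.charge m' ≤ n := by
      have : S.charge m = S.charge m' + S.charge (m - m') := by
        rw [← charge_add, add_tsub_cancel_of_le hm'le]
      calc S.charge m' ≤ S.charge m := by rw [this]; exact le_self_add
        _ = n' := hcm
        _ ≤ n := hn'
    have hatt0 : att (toZ (S.charge m')) = 0 ∧ z (toZ (S.charge m')) = 0 := by
      have : (toLex (att (toZ (S.charge m')), z (toZ (S.charge m'))) : ℤ ×ₗ ℤ) =
        toLex (0, 0) := hUx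
      have h3 := toLex.injective this
      exact ⟨congrArg Prod.fst h3, congrArg Prod.snd h3⟩
    have hprop := hz (S.charge m') hcle hatt0.2
    have hc0 : S.charge m' ≠ 0 := fun h => hU0 ((charge_eq_zero S m').mp h)
    have hci : S.charge m' i0 ≠ 0 := by
      intro h
      apply hc0
      funext j
      have := hprop j
      rw [h, mul_zero] at this
      rcases Nat.mul_eq_zero.mp this with h1 | h1
      · exact absurd h1 hi0
      · exact h1
    apply hK
    refine ks_of_stable hB hE hconn vs hch hmulz φ' hU0 n hn (S.charge m' i0) (n i0) (Nat.pos_of_ne_zero hci)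
      (Nat.pos_of_ne_zero hi0) ?_ z hUx ?_
    · funext j
      simp only [Pi.smul_apply, smul_eq_mul]
      rw [hprop j]; ring
    · intro u hu hu0 hum
      rw [hφ'] at hu
      obtain ⟨U', hU', hle, hU'u⟩ := hu
      have h1 : x (toZ (S.charge u)) ≤ 0 := hss u ⟨U', hU', hU'u⟩
      refine lt_of_le_of_ne h1 fun h2 => ?_
      have h3 : Q (∑ j, u j) := ⟨U', hU', by rw [hU'u]; exact hu0, by rw [hU'u]; exact h2,
        by rw [hU'u]⟩
      have h4 := hmin _ h3
      rw [← hUs] at h4
      have h5 : u ≤ m' := by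
        rw [← hU'u, hm']; exact dimU_mono hle
      apply hum
      apply le_antisymm h5
      intro j
      by_contra hlt
      push Not at hlt
      have : ∑ j, u j < ∑ j, m' j :=
        Finset.sum_lt_sum (fun i _ => h5 i) ⟨j, Finset.mem_univ j, hlt⟩
      exact absurd h4 (not_le.mpr this)
  rw [L_congr n e2, L_one]

theorem data_gen_eq_zero {B : ι → ι → ℤ} {d : ι → ℕ} (hB : SkewSym B d) (N : ι → ℕ)
    (y : (mkS B d hB.pos N).J → ℚ) (n : ι → ℕ)
    (hn : ∀ k r, n ≠ Pi.single k r) (hK : ¬ KS B d n) :
    data (gen (mkS B d hB.pos N) B d y (PAll _)) n = 0 :=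
  data_gen_aux hB (euler_mkS B d hB N) (mkS_ch_conn B d hB.pos N) (fun k => Sum.inl k)
    (fun _ => rfl) (fun k => mult_loop B d hB N k) y n hn hK

end Species

end Pool.Agent.RootConj
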