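import Pool.Agent.RootConj.Restr
import Pool.Agent.RootConj.Data
import Pool.Agent.RootConj.Fields
import Pool.Agent.RootConj.Count
import Pool.Agent.RootConj.GenPk
import Pool.Agent.RootConj.Vanish

set_option autoImplicit false
set_option linter.unusedSectionVars false
set_option linter.unusedFintypeInType false
set_option linter.unusedDecidableInType false

/-!
# Root conjecture for c-vectors: realisation of scattering elements (module Real)
-/

namespace Pool.Agent.RootConj

/-- Triangular systems are solvable. -/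
private theorem rl_exists_triangular {X : Type} [Preorder X] [WellFoundedLT X]
    (F : (X → ℚ) → X → ℚ) (a : X → ℚ) (ha : ∀ n, a n ≠ 0)
    (h : ∀ n y y', (∀ m, m < n → y m = y' m) → F y n - a n * y n = F y' n - a n * y' n) :
    ∃ y, ∀ n, F y n = 0 := by
  classical
  let Y : X → ℚ := (wellFounded_lt (α := X)).fix fun n rec =>
    -(F (fun m => if hm : m < n then rec m hm else 0) n) / a n
  have hY : ∀ n, Y n = -(F (fun m => if m < n then Y m else 0) n) / a n := by
    intro n
    have := (wellFounded_lt (α := X)).fix_eq (fun n rec =>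
      -(F (fun m => if hm : m < n then rec m hm else 0) n) / a n) n
    change Y n = _ at this
    rw [this]
    rfl
  refine ⟨Y, fun n => ?_⟩
  have h1 := h n Y (fun m => if m < n then Y m else 0) (fun m hm => by simp [hm])
  have h2 : a n * Y n = -(F (fun m => if m < n then Y m else 0) n) := by
    rw [hY n]
    field_simp [ha n]
  have h3 : (if n < n then Y n else 0) = 0 := by simp
  simp only [h3] at h1
  linarith

namespace Species

variable {ι : Type} [Fintype ι] [DecidableEq ι]

private theorem rl_finite_Rep (S : Species ι) (m : S.J → ℕ) : Finite (S.Rep m) := by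
  have h1 : ∀ i, Finite (Vec (S.κ i) (m i)) := fun i => by
    have := finite_KK (S.κ i) (S.κ_pos i)
    infer_instance
  have h2 : ∀ i j, Finite (SL (S.κ i) (S.κ j) (Vec (S.κ i) (m i)) (Vec (S.κ j) (m j))) := by
    intro i j
    have := h1 i
    have := h1 j
    have : Finite (Vec (S.κ i) (m i) →+ Vec (S.κ j) (m j)) :=
      Finite.of_injective (fun f => (f : Vec (S.κ i) (m i) → Vec (S.κ j) (m j)))
        DFunLike.coe_injective
    infer_instance
  unfold Rep
  infer_instance

private theorem rl_card_Rep_pos (S : Species ι) (m : S.J → ℕ) (Φ : (S.J → ℕ) → Set (S.J → ℕ) → Prop)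
    (hΦ : ∀ φ : S.Rep m, Φ m (dims φ)) :
    (Nat.card {φ : S.Rep m // Φ m (dims φ)} : ℚ) ≠ 0 := by
  have := rl_finite_Rep S m
  have h : Nonempty {φ : S.Rep m // Φ m (dims φ)} := ⟨⟨fun _ _ _ => 0, hΦ _⟩⟩
  exact_mod_cast Nat.card_pos.ne'

private theorem rl_ch_le_charge (S : Species ι) (m : S.J → ℕ) (j : S.J) (hj : m j ≠ 0) :
    S.ch j ≤ S.charge m := by
  intro i
  rw [charge, Finset.sum_apply]
  calc S.ch j i ≤ m j * S.ch j i := Nat.le_mul_of_pos_left _ (Nat.pos_of_ne_zero hj)
    _ ≤ _ := Finset.single_le_sum (f := fun j' => (m j' • S.ch j') i) (fun _ _ => Nat.zero_le _)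
        (Finset.mem_univ j)

private theorem rl_charge_single (S : Species ι) (j : S.J) : S.charge (Pi.single j 1) = S.ch j := by
  rw [charge, Finset.sum_eq_single j]
  · simp
  · intro b _ hb
    rw [Pi.single_eq_of_ne hb, zero_smul]
  · intro h
    exact absurd (Finset.mem_univ j) h

private theorem rl_eq_single_of_charge (S : Species ι) (m : S.J → ℕ) (j : S.J) (hj : m j ≠ 0)
    (h : S.charge m = S.ch j) : m = Pi.single j 1 := by
  have h1 : m = Pi.single j 1 + (m - Pi.single j 1) := by
    funext i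
    by_cases hi : i = j
    · subst hi
      simp
      omega
    · simp [hi]
  have h2 : S.charge (m - Pi.single j 1) = 0 := by
    have h3 := charge_add S (Pi.single j 1) (m - Pi.single j 1)
    rw [← h1, h, rl_charge_single] at h3
    funext i
    have := congrFun h3 i
    simp only [Pi.add_apply] at this
    simp only [Pi.zero_apply]
    omega
  rw [charge_eq_zero] at h2
  rw [h1, h2, add_zero]

private theorem rl_gen_congr_y (S : Species ι) (B : ι → ι → ℤ) (d : ι → ℕ) (y y' : S.J → ℚ)
    (Φ : (S.J → ℕ) → Set (S.J → ℕ) → Prop) (n : ι → ℕ)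
    (h : ∀ j, S.ch j ≤ n → y j = y' j) : gen S B d y Φ n = gen S B d y' Φ n := by
  unfold gen
  refine Finset.sum_congr rfl fun m hm => ?_
  rw [mem_fib] at hm
  have : ∏ j, y j ^ m j = ∏ j, y' j ^ m j := by
    refine Finset.prod_congr rfl fun j _ => ?_
    by_cases hj : m j = 0
    · rw [hj, pow_zero, pow_zero]
    · rw [h j (hm ▸ rl_ch_le_charge S m j hj)]
  rw [this]

/-- The top coefficient. -/
private noncomputable def rl_topC (S : Species ι) (B : ι → ι → ℤ) (d : ι → ℕ) (j : S.J) : ℚ :=
  (2 : ℚ) ^ (chi B d (toZ (S.ch j)) (toZ (S.ch j))) *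
    (Nat.card {φ : S.Rep (Pi.single j 1) // S.PAll (Pi.single j 1) (dims φ)} : ℚ) /
      ∏ i, glc (S.κ i) ((Pi.single j 1 : S.J → ℕ) i)

private theorem rl_glc_ne_zero (d m : ℕ) (hd : 0 < d) : glc d m ≠ 0 := by
  unfold glc
  refine Finset.prod_ne_zero_iff.mpr fun i hi => ?_
  rw [Finset.mem_range] at hi
  have h1 : d * i < d * m := Nat.mul_lt_mul_of_pos_left hi hd
  have h2 : (4 : ℚ) ^ (d * i) < 4 ^ (d * m) := pow_lt_pow_right₀ (by norm_num) h1
  exact (sub_pos.mpr h2).ne'

private theorem rl_topC_ne_zero (S : Species ι) (B : ι → ι → ℤ) (d : ι → ℕ) (j : S.J) :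
    rl_topC S B d j ≠ 0 := by
  unfold rl_topC
  refine div_ne_zero (mul_ne_zero (zpow_ne_zero _ (by norm_num)) ?_) ?_
  · exact rl_card_Rep_pos S _ _ fun _ => trivial
  · exact Finset.prod_ne_zero_iff.mpr fun i _ => rl_glc_ne_zero _ _ (S.κ_pos i)

private theorem rl_gen_top (S : Species ι) (B : ι → ι → ℤ) (d : ι → ℕ) (y y' : S.J → ℚ) (j : S.J)
    (h : ∀ i, i ≠ j → S.ch i ≤ S.ch j → y i = y' i) :
    gen S B d y S.PAll (S.ch j) - rl_topC S B d j * y j =
      gen S B d y' S.PAll (S.ch j) - rl_topC S B d j * y' j := by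
  have key : ∀ y : S.J → ℚ, gen S B d y S.PAll (S.ch j) - rl_topC S B d j * y j =
      ∑ m ∈ (S.fib (S.ch j)).erase (Pi.single j 1), (∏ j, y j ^ m j) *
        (2 : ℚ) ^ (chi B d (toZ (S.ch j)) (toZ (S.ch j))) *
        (Nat.card {φ : S.Rep m // S.PAll m (dims φ)} : ℚ) / ∏ j, glc (S.κ j) (m j) := by
    intro y
    have hmem : (Pi.single j 1 : S.J → ℕ) ∈ S.fib (S.ch j) := by
      rw [mem_fib, rl_charge_single]
    have hp : ∏ i, y i ^ ((Pi.single j 1 : S.J → ℕ) i) = y j := by
      rw [Finset.prod_eq_single j]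
      · simp
      · intro b _ hb
        rw [Pi.single_eq_of_ne hb, pow_zero]
      · intro h
        exact absurd (Finset.mem_univ j) h
    unfold gen
    rw [← Finset.add_sum_erase _ _ hmem, hp]
    unfold rl_topC
    ring
  rw [key y, key y']
  refine Finset.sum_congr rfl fun m hm => ?_
  rw [Finset.mem_erase, mem_fib] at hm
  have : ∏ j, y j ^ m j = ∏ j, y' j ^ m j := by
    refine Finset.prod_congr rfl fun i _ => ?_
    by_cases hi : m i = 0
    · rw [hi, pow_zero, pow_zero]
    · have h1 := rl_ch_le_charge S m i hi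
      rw [hm.2] at h1
      by_cases hij : i = j
      · subst hij
        exact absurd (rl_eq_single_of_charge S m i hi hm.2) hm.1
      · rw [h i hij h1]
  rw [this]

theorem realize {B : ι → ι → ℤ} {d : ι → ℕ} (hB : SkewSym B d) (g : T (WB B d))
    (hg : IsG B d g) (N : ι → ℕ) :
    ∃ y : (mkS B d hB.pos N).J → ℚ, (∀ k, y (Sum.inl k) = 1) ∧
      ∀ n ≤ N, gen (mkS B d hB.pos N) B d y (PAll _) n = g n := by
  classical
  let S := mkS B d hB.pos N
  let X : Type := {m : ι → ℕ // m ∈ (Finset.Iic N).filter (KS B d)}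
  let ext : (X → ℚ) → (S.J → ℚ) := fun Y => Sum.elim (fun _ => 1) Y
  let G : (X → ℚ) → T (WB B d) := fun Y => gen S B d (ext Y) (PAll _)
  have hG0 : ∀ Y, G Y 0 = 1 := fun Y => gen_zero (ext Y) (PAll S) trivial
  have hlt : ∀ (n : X) (m : ι → ℕ), m ≤ n.1 → m ≠ n.1 → ∀ Y Y' : X → ℚ,
      (∀ q, q < n → Y q = Y' q) → G Y m = G Y' m := by
    intro n m hm hmn Y Y' hY
    refine rl_gen_congr_y S B d (ext Y) (ext Y') (PAll _) m fun j hj => ?_
    rcases j with k | q
    · rfl
    · change Y q = Y' q
      refine hY q ?_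
      have h1 : q.1 ≤ m := hj
      have h2 : m < n.1 := lt_of_le_of_ne hm hmn
      have h3 : q.1 < n.1 := lt_of_le_of_lt h1 h2
      exact h3
  obtain ⟨Y, hY⟩ := rl_exists_triangular (X := X) (fun Y n => data (G Y) n.1)
    (fun n => rl_topC S B d (Sum.inr n)) (fun n => rl_topC_ne_zero S B d _) (by
      intro n Y Y' h
      have hn0 : n.1 ≠ 0 := by
        have := n.2
        simp only [Finset.mem_filter] at this
        exact this.2.1
      have h1 : data (G Y) n.1 - G Y n.1 = data (G Y') n.1 - G Y' n.1 :=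
        data_affine (WB_skew hB) (hG0 Y) (hG0 Y') n.1 hn0 fun m hm hmn => hlt n m hm hmn Y Y' h
      have h2 : G Y n.1 - rl_topC S B d (Sum.inr n) * Y n =
          G Y' n.1 - rl_topC S B d (Sum.inr n) * Y' n := by
        refine rl_gen_top S B d (ext Y) (ext Y') (Sum.inr n) fun i hi hle => ?_
        rcases i with k | q
        · rfl
        · change Y q = Y' q
          refine h q ?_
          have h3 : q.1 ≤ n.1 := hle
          have h4 : q.1 ≠ n.1 := fun e => hi (by rw [Subtype.ext e])
          have h5 : q.1 < n.1 := lt_iff_le_and_ne.mpr ⟨h3, h4⟩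
          exact h5
      linarith)
  refine ⟨ext Y, fun k => rfl, ?_⟩
  refine eq_on_of_data B d hB g (G Y) hg (hG0 Y) N (fun k r => gen_simple hB N (ext Y)
    (fun _ => rfl) k r) fun n hn hs => ?_
  by_cases hK : KS B d n
  · exact hY ⟨n, Finset.mem_filter.mpr ⟨Finset.mem_Iic.mpr hn, hK⟩⟩
  · exact data_gen_eq_zero hB N (ext Y) n hs hK

end Species

end Pool.Agent.RootConj
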