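import Pool.Agent.RootConj.FactMul
import Pool.Agent.RootConj.HN
import Pool.Agent.RootConj.EulerS
import Pool.Agent.RootConj.Real

set_option autoImplicit false
set_option linter.unusedSectionVars false
set_option linter.unusedFintypeInType false
set_option linter.unusedDecidableInType false

/-!
# Root conjecture for c-vectors: stable representations (module Stab)
-/

namespace Pool.Agent.RootConj

namespace Species

variable {ι : Type} [Fintype ι] [DecidableEq ι]

/-- Stable representations are bricks. -/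
theorem brick_of_stable {Λ : Type} [AddCommGroup Λ] [LinearOrder Λ] [IsOrderedAddMonoid Λ]
    {S : Species ι} {m : S.J → ℕ} (φ : S.Rep m) (x : (ι → ℤ) →+ Λ)
    (h0 : x (toZ (S.charge m)) = 0)
    (h : ∀ u ∈ dims φ, u ≠ 0 → u ≠ m → x (toZ (S.charge u)) < 0) : Brick φ := by
  intro f hf hne
  let K : S.Sub m := fun j => LinearMap.ker (f j)
  let I : S.Sub m := fun j => LinearMap.range (f j)
  have hK : IsSub φ K := by
    intro i j r v hv
    change f j ((φ i j r).1 v) = 0
    have hv' : f i v = 0 := hv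
    rw [hf i j r v, hv', map_zero]
  have hI : IsSub φ I := by
    intro i j r v hv
    obtain ⟨w, rfl⟩ := hv
    exact ⟨(φ i j r).1 w, hf i j r w⟩
  have hdim : dimU K + dimU I = m := by
    funext j
    change Module.finrank (KK (S.κ j)) (LinearMap.ker (f j)) +
      Module.finrank (KK (S.κ j)) (LinearMap.range (f j)) = m j
    rw [add_comm, LinearMap.finrank_range_add_finrank_ker, Module.finrank_fin_fun]
  have hKm : dimU K ≠ m := by
    intro e
    have h1 : K = ⊤ := eq_of_dimU_eq le_top (by rw [e, dimU_top])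
    apply hne
    funext j
    have h2 : LinearMap.ker (f j) = ⊤ := congrFun h1 j
    exact LinearMap.ker_eq_top.mp h2
  by_cases hK0 : dimU K = 0
  · have h1 : (⊥ : S.Sub m) = K := eq_of_dimU_eq bot_le (by rw [hK0, dimU_bot])
    intro j
    have h2 : (⊥ : Submodule _ _) = LinearMap.ker (f j) := congrFun h1 j
    exact LinearMap.ker_eq_bot.mp h2.symm
  · exfalso
    have hI0 : dimU I ≠ 0 := by
      intro e
      rw [e, add_zero] at hdim
      exact hKm hdim
    have hIm : dimU I ≠ m := by
      intro e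
      apply hK0
      rw [e] at hdim
      funext j
      have := congrFun hdim j
      simp only [Pi.add_apply] at this
      simp only [Pi.zero_apply]
      omega
    have h1 := h (dimU K) ⟨K, hK, rfl⟩ hK0 hKm
    have h2 := h (dimU I) ⟨I, hI, rfl⟩ hI0 hIm
    have h3 : x (toZ (S.charge (dimU K))) + x (toZ (S.charge (dimU I))) = 0 := by
      rw [← map_add, ← toZ_add, ← charge_add, hdim, h0]
    have h4 := add_neg h1 h2
    rw [h3] at h4
    exact lt_irrefl _ h4

/-- A functional whose kernel is `ℚ n` (with values in a lexicographically ordered group). -/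
noncomputable def perpHom (n : ι → ℕ) (i0 : ι) :
    (ι → ℤ) →+ Lex (Fin (Fintype.card ι) → ℤ) where
  toFun m := toLex fun j => (n i0 : ℤ) * m ((Fintype.equivFin ι).symm j) -
    (n ((Fintype.equivFin ι).symm j) : ℤ) * m i0
  map_zero' := by
    apply toLex.injective.eq_iff.mpr
    funext j
    simp
  map_add' a b := by
    rw [← toLex_add]
    congr 1
    funext j
    simp only [Pi.add_apply]
    ring

theorem perpHom_eq_zero (n : ι → ℕ) (i0 : ι) (m : ι → ℤ) :
    perpHom n i0 m = 0 ↔ ∀ j, (n i0 : ℤ) * m j = (n j : ℤ) * m i0 := by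
  constructor
  · intro h j
    have h1 : (fun j => (n i0 : ℤ) * m ((Fintype.equivFin ι).symm j) -
      (n ((Fintype.equivFin ι).symm j) : ℤ) * m i0) = 0 := toLex.injective h
    have h2 := congrFun h1 (Fintype.equivFin ι j)
    simp only [Equiv.symm_apply_apply, Pi.zero_apply] at h2
    linarith
  · intro h
    apply toLex.injective.eq_iff.mpr
    funext j
    change (n i0 : ℤ) * m ((Fintype.equivFin ι).symm j) -
      (n ((Fintype.equivFin ι).symm j) : ℤ) * m i0 = 0
    rw [h]
    ring

/-- Vectors below a primitive vector and proportional to it. -/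
theorem eq_of_primitive (c : ι → ℕ) (i0 : ι) (hi0 : c i0 ≠ 0)
    (hp : ∀ (r : ℕ) (c' : ι → ℕ), c = r • c' → r = 1) (n : ι → ℕ) (hn : n ≤ c)
    (h : ∀ j, (c i0 : ℤ) * (n j : ℤ) = (c j : ℤ) * (n i0 : ℤ)) : n = 0 ∨ n = c := by
  have h' : ∀ j, c i0 * n j = c j * n i0 := fun j => by exact_mod_cast h j
  obtain ⟨g, a, b, hg, hab, ha, hb⟩ :
      ∃ g a b : ℕ, 0 < g ∧ Nat.Coprime a b ∧ c i0 = a * g ∧ n i0 = b * g := by
    obtain ⟨a, b, hab, ha, hb⟩ := Nat.exists_coprime (c i0) (n i0)
    exact ⟨_, a, b, Nat.gcd_pos_of_pos_left _ (Nat.pos_of_ne_zero hi0), hab, ha, hb⟩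
  have h1 : ∀ j, a * n j = b * c j := by
    intro j
    have := h' j
    rw [ha, hb] at this
    have h2 : g * (a * n j) = g * (b * c j) := by linarith
    exact Nat.eq_of_mul_eq_mul_left hg h2
  have h2 : ∀ j, a ∣ c j := by
    intro j
    refine hab.dvd_of_dvd_mul_left ?_
    exact ⟨n j, (h1 j).symm⟩
  have h3 : c = a • fun j => c j / a := by
    funext j
    change c j = a * (c j / a)
    rw [Nat.mul_div_cancel' (h2 j)]
  have h4 : a = 1 := hp a _ h3
  subst h4
  have h5 : ∀ j, n j = b * c j := fun j => by rw [← h1 j, one_mul]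
  have h6 : b ≤ 1 := by
    by_contra hb1
    have h7 : b * c i0 ≤ c i0 := by
      rw [← h5 i0]
      exact hn i0
    have h8 : 0 < c i0 := Nat.pos_of_ne_zero hi0
    have h9 : 2 * c i0 ≤ b * c i0 := Nat.mul_le_mul_right _ (by omega)
    omega
  interval_cases b
  · left
    funext j
    rw [h5 j, zero_mul]; rfl
  · right
    funext j
    rw [h5 j, one_mul]

theorem exists_brick {B : ι → ι → ℤ} {d : ι → ℕ} (hB : SkewSym B d) (g : T (WB B d))
    (hg : IsG B d g) (c : ι → ℕ) (hc : c ≠ 0) (hp : ∀ (r : ℕ) (c' : ι → ℕ), c = r • c' → r = 1)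
    (x : (ι → ℤ) →+ ℤ) (hx : x (toZ c) = 0) (h1 : zp x g c ≠ 0)
    (h2 : ∀ n ≤ c, zp x g n ≠ 0 → n = 0 ∨ n = c) :
    ∃ (m : (mkS B d hB.pos c).J → ℕ) (φ : (mkS B d hB.pos c).Rep m),
      (mkS B d hB.pos c).charge m = c ∧ Brick φ := by
  classical
  obtain ⟨y, hy, hyg⟩ := realize hB g hg c
  obtain ⟨i0, hi0⟩ := Function.ne_iff.mp hc
  simp only [Pi.zero_apply] at hi0
  let S := mkS B d hB.pos c
  let G : T (WB B d) := gen S B d y (PAll S)
  have hG0 : G 0 = 1 := gen_zero y (PAll S) trivial
  have hzp : ∀ n ≤ c, zp x G n = zp x g n := zp_congr_on x hG0 hg.one c hyg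
  obtain ⟨z, hz⟩ : ∃ z, z = perpHom c i0 := ⟨_, rfl⟩
  have hzc : z (toZ c) = 0 := by
    rw [hz, perpHom_eq_zero]
    intro j
    simp only [toZ]
    ring
  -- the refined zero part
  let h' : T (WB B d) := fun n => if n = 0 then 1 else if n = c then zp x G c else 0
  have h'0 : h' 0 = 1 := if_pos rfl
  have h'Z : IsZer z h' := by
    refine ⟨h'0, fun n hn => ?_⟩
    by_cases e0 : n = 0
    · rw [e0, toZ_zero, map_zero]
    · by_cases ec : n = c
      · rw [ec, hzc]
      · exact absurd (by change (if n = 0 then (1 : ℚ) else if n = c then zp x G c else 0) = 0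
                         rw [if_neg e0, if_neg ec]) hn
  have hzx0 : zp x G 0 = 1 := (isZer_zp x G hG0).1
  have hagree : ∀ n ≤ c, zp x G n = h' n := by
    intro n hn
    change _ = (if n = 0 then (1 : ℚ) else if n = c then zp x G c else 0)
    by_cases e0 : n = 0
    · rw [if_pos e0, e0, hzx0]
    · by_cases ec : n = c
      · rw [if_neg e0, if_pos ec, ec]
      · rw [if_neg e0, if_neg ec]
        by_contra hne
        rw [hzp n hn] at hne
        rcases h2 n hn hne with h | h
        · exact e0 h
        · exact ec h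
  have h3 : zp (lexHom x z) G c ≠ 0 := by
    rw [zp_lex x z G hG0]
    have h4 := zp_congr_on z hzx0 h'0 c hagree c le_rfl
    rw [h4, zp_of_isZer z h'Z, ← hagree c le_rfl, hzp c le_rfl]
    exact h1
  have h4 : gen S B d y (S.PS (lexHom x z)) c ≠ 0 := by
    rw [← zp_eq (lexHom x z) (gen_fact hB (euler_mkS B d hB c) y (lexHom x z))]
    exact h3
  obtain ⟨m, φ, hm, hps⟩ := exists_of_gen_ne_zero y _ c h4
  refine ⟨m, φ, hm, ?_⟩
  refine brick_of_stable φ (lexHom x z) hps.1 fun u hu hu0 hum => ?_
  refine lt_of_le_of_ne (hps.2 u hu) fun e => ?_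
  have hle : u ≤ m := by
    obtain ⟨U, _, rfl⟩ := hu
    have := dimU_mono (le_top : U ≤ ⊤)
    rwa [dimU_top] at this
  have hadd : S.charge u + S.charge (m - u) = c := by
    rw [← charge_add, add_tsub_cancel_of_le hle, hm]
  have hcle : S.charge u ≤ c := by
    rw [← hadd]
    exact le_self_add
  have hz0 : z (toZ (S.charge u)) = 0 := by
    have : toLex (x (toZ (S.charge u)), z (toZ (S.charge u))) = toLex (0, 0) := e
    exact (Prod.mk.inj (toLex.injective this)).2
  rw [hz, perpHom_eq_zero] at hz0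
  rcases eq_of_primitive c i0 hi0 hp (S.charge u) hcle (fun j => hz0 j) with h5 | h5
  · exact hu0 ((charge_eq_zero S u).mp h5)
  · rw [h5] at hadd
    have h6 : S.charge (m - u) = 0 := by
      funext j
      have := congrFun hadd j
      simp only [Pi.add_apply] at this
      simp only [Pi.zero_apply]
      omega
    rw [charge_eq_zero] at h6
    apply hum
    apply le_antisymm hle
    intro j
    have h7 : m j - u j = 0 := congrFun h6 j
    exact Nat.sub_eq_zero_iff_le.mp h7

end Species

end Pool.Agent.RootConj
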