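import Pool.Agent.RootConj.CVec
import Pool.Agent.RootConj.GenPk
import Pool.Agent.RootConj.Real
import Pool.Agent.RootConj.Stab
import Pool.Agent.RootConj.PiC

set_option autoImplicit false

/-!
# Every c-vector is a root
-/

namespace Pool.Agent.RootConj

variable {ι : Type} [Fintype ι] [DecidableEq ι]

theorem ray_at {W : ι → ι → ℤ} (c : ι → ℕ) (a : ℕ → ℚ) (hc : c ≠ 0) :
    ray W c a c = a 1 := by
  unfold ray
  obtain ⟨i, hi⟩ := Function.ne_iff.mp hc
  have hi : c i ≠ 0 := hi
  have hs : 1 ≤ ∑ i, c i := by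
    have : c i ≤ ∑ i, c i := Finset.single_le_sum (f := c) (fun _ _ => Nat.zero_le _)
      (Finset.mem_univ i)
    omega
  rw [Finset.sum_eq_single 1]
  · simp
  · intro r _ hr
    rw [if_neg]
    intro h
    apply hr
    have := congrFun h i
    simp only [Pi.smul_apply, smul_eq_mul] at this
    have h2 : 1 * c i = r * c i := by rw [one_mul]; exact this
    exact (Nat.eq_of_mul_eq_mul_right (Nat.pos_of_ne_zero hi) h2).symm
  · intro h
    exact absurd (Finset.mem_range.mpr (by omega)) h

theorem ray_supp {W : ι → ι → ℤ} (c : ι → ℕ) (a : ℕ → ℚ) (n : ι → ℕ) (h : ray W c a n ≠ 0) :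
    ∃ r : ℕ, n = r • c := by
  unfold ray at h
  obtain ⟨r, _, hr⟩ := Finset.exists_ne_zero_of_sum_ne_zero h
  refine ⟨r, ?_⟩
  by_contra hne
  exact hr (if_neg hne)

theorem coef_zero (d : ℕ) : coef d 0 = 1 := by simp [coef]

theorem coef_one_ne (d : ℕ) (hd : 0 < d) : coef d 1 ≠ 0 := by
  unfold coef
  apply div_ne_zero
  · positivity
  · simp only [Finset.Icc_self, Finset.prod_singleton, mul_one]
    have : (1 : ℚ) < 4 ^ d := one_lt_pow₀ (by norm_num) hd.ne'
    linarith

theorem EE_zero (B : ι → ι → ℤ) (d : ι → ℕ) (k : ι) : EE B d k 0 = 1 := by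
  show ray (WB B d) (Pi.single k 1) (coef (d k)) 0 = 1
  unfold ray
  simp [coef_zero]

/-- The support property of scattering elements. -/
theorem pk_prop : PkProp ι := by
  intro B d hB g hg k gl gr hgl hgr
  obtain ⟨E', hE1, hE2, hE0⟩ := exists_inv (EE B d k) (EE_zero B d k)
  constructor
  · intro n hn
    obtain ⟨y, hy, hyg⟩ := Species.realize hB g hg n
    obtain ⟨gl', hgl', hsupp⟩ := Species.gen_left hB n y hy k
    apply hsupp
    have e1 : gl = g * E' := by rw [hgl, mul_assoc, hE1, mul_one]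
    have e2 : gl' = Species.gen (mkS B d hB.pos n) B d y (Species.PAll _) * E' := by
      rw [hgl', mul_assoc, hE1, mul_one]
    have e3 := mul_congr_on n hyg (fun m (_ : m ≤ n) => (rfl : E' m = E' m)) n le_rfl
    rw [e2, e3, ← e1]
    exact hn
  · intro n hn
    obtain ⟨y, hy, hyg⟩ := Species.realize hB g hg n
    obtain ⟨gr', hgr', hsupp⟩ := Species.gen_right hB n y hy k
    apply hsupp
    have e1 : gr = E' * g := by rw [hgr, ← mul_assoc, hE2, one_mul]
    have e2 : gr' = E' * Species.gen (mkS B d hB.pos n) B d y (Species.PAll _) := by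
      rw [hgr', ← mul_assoc, hE2, one_mul]
    have e3 := mul_congr_on n (fun m (_ : m ≤ n) => (rfl : E' m = E' m)) hyg n le_rfl
    rw [e2, e3, ← e1]
    exact hn

theorem srefl_neg (A : ι → ι → ℤ) (k : ι) (α : ι → ℤ) : srefl A k (-α) = -srefl A k α := by
  funext i
  by_cases h : i = k
  · subst h
    simp [srefl, Finset.sum_neg_distrib]
    ring
  · simp [srefl, h]

theorem worbit_neg (A : ι → ι → ℤ) (i : ι) (hA : A i i = 2) (α : ι → ℤ)
    (h : WOrbit A (Pi.single i 1) α) : WOrbit A (Pi.single i 1) (-α) := by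
  induction h with
  | base =>
    have h1 := WOrbit.step (A := A) i _ (WOrbit.base (A := A) (β := Pi.single i 1))
    have h2 : srefl A i (Pi.single i 1) = -Pi.single i 1 := by
      funext j
      by_cases hj : j = i
      · subst hj
        simp [srefl, Pi.single_apply, hA]
      · simp [srefl, hj]
    rwa [h2] at h1
  | step k α _ ih =>
    rw [← srefl_neg]
    exact WOrbit.step k _ ih

theorem isRoot_neg (A : ι → ι → ℤ) (hA : ∀ i, A i i = 2) (α : ι → ℤ) (h : IsRoot A α) :
    IsRoot A (-α) := by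
  rcases h with ⟨i, h⟩ | ⟨β, hβ, h⟩
  · exact Or.inl ⟨i, worbit_neg A i (hA i) α h⟩
  · refine Or.inr ⟨β, hβ, ?_⟩
    rcases h with h | h
    · exact Or.inr (by rwa [neg_neg])
    · exact Or.inl h

theorem cv_isRoot (B : ι → ι → ℤ) (d : ι → ℕ) (hB : SkewSym B d) (l : List ι) (j : ι) :
    IsRoot (cartan B) (cv B l j) := by
  classical
  have hG := good_all pk_prop B d hB l
  obtain ⟨g, hg⟩ := exists_isG B d hB
  obtain ⟨R, hR, hRm⟩ := hG.basis
  -- the sign
  obtain ⟨ε, hε, hcv⟩ : ∃ ε : ℤ, (ε = 1 ∨ ε = -1) ∧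
      cv B l j = ε • toZ (fun i => (cv B l j i).natAbs) := by
    rcases hG.sign j with h | h
    · refine ⟨1, Or.inl rfl, ?_⟩
      funext i
      simp only [toZ, one_smul, Int.natCast_natAbs]
      rw [abs_of_nonneg (h i)]
    · refine ⟨-1, Or.inr rfl, ?_⟩
      funext i
      simp only [toZ, Pi.smul_apply, smul_eq_mul, Int.natCast_natAbs]
      rw [abs_of_nonpos (h i)]; ring
  set c : ι → ℕ := fun i => (cv B l j i).natAbs with hc
  have hRc : R j (cv B l j) = 1 := by rw [hR]; simp
  have hc0 : c ≠ 0 := by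
    intro h
    have h1 : cv B l j = 0 := by
      rw [hcv, h]
      funext i; simp [toZ]
    rw [h1, map_zero] at hRc
    exact zero_ne_one hRc
  have hprim : ∀ (r : ℕ) (c' : ι → ℕ), c = r • c' → r = 1 := by
    intro r c' h
    have h1 : toZ c = (r : ℤ) • toZ c' := by
      rw [h]; funext i; simp [toZ]
    rw [hcv, h1, map_zsmul, map_zsmul, smul_eq_mul, smul_eq_mul] at hRc
    have h2 : (r : ℤ) ∣ 1 := ⟨ε * R j (toZ c'), by linarith⟩
    have h3 := Int.natAbs_dvd_natAbs.mpr h2
    simpa using h3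
  let x : (ι → ℤ) →+ ℤ := ∑ i ∈ Finset.univ.erase j, R i
  have hx : ∀ i, x (cv B l i) = if i = j then 0 else 1 := by
    intro i
    simp only [x, AddMonoidHom.finset_sum_apply, hR]
    by_cases hij : i = j
    · rw [if_pos hij]
      refine Finset.sum_eq_zero fun t ht => ?_
      rw [if_neg]
      intro h
      exact (Finset.mem_erase.mp ht).1 (h.trans hij)
    · rw [if_neg hij, Finset.sum_eq_single i]
      · simp
      · intro t _ hti; rw [if_neg hti]
      · intro h
        exact absurd (Finset.mem_erase.mpr ⟨hij, Finset.mem_univ i⟩) h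
  have hfacet := hG.facet g hg j x (by rw [hx]; simp) (by
    intro i hij
    rw [hx, if_neg hij]; exact one_pos)
  have hxc : x (toZ c) = 0 := by
    have h1 : x (cv B l j) = 0 := by rw [hx]; simp
    rw [hcv, map_zsmul, smul_eq_mul] at h1
    rcases mul_eq_zero.mp h1 with h2 | h2
    · exfalso
      rcases hε with h | h <;> omega
    · exact h2
  obtain ⟨m, φ, hm, hφ⟩ := Species.exists_brick hB g hg c hc0 hprim x hxc (by
    rw [hfacet, ray_at c _ hc0]
    exact coef_one_ne _ (hB.pos j)) (by
    intro n hn hne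
    rw [hfacet] at hne
    obtain ⟨r, hr⟩ := ray_supp _ _ _ hne
    obtain ⟨i, hi⟩ := Function.ne_iff.mp hc0
    have hi : 0 < c i := Nat.pos_of_ne_zero hi
    have h1 : r * c i ≤ 1 * c i := by
      have := hn i
      rw [hr] at this
      simpa using this
    have h2 : r ≤ 1 := Nat.le_of_mul_le_mul_right h1 hi
    rcases Nat.le_one_iff_eq_zero_or_eq_one.mp h2 with h | h
    · left; rw [hr, h, zero_smul]
    · right; rw [hr, h, one_smul])
  have hm0 : m ≠ 0 := by
    intro h
    apply hc0
    rw [← hm]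
    exact (Species.charge_eq_zero _ m).mpr h
  have hroot := Species.brick_root hB c m hm0 φ hφ
  rw [hm] at hroot
  rw [hcv]
  rcases hε with h | h
  · rw [h, one_smul]; exact hroot
  · rw [h, neg_smul, one_smul]
    exact isRoot_neg _ (fun i => by simp [cartan]) _ hroot

end Pool.Agent.RootConj
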