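import Mathlib

set_option autoImplicit false

/-!
# Kac-Moody algebras and their roots: definitions
-/

namespace Pool.Agent.RootConj

universe u v

/-- A Lie algebra `g` over `K` with a Cartan subspace and Chevalley generators for the matrix `A`:
an abelian subspace `H`, linearly independent simple coroots in `H`, linearly independent simple
roots in the dual of `H` whose pairing with the coroots is `A`, and elements `e i`, `f i` with the
Chevalley relations, such that `H` and these elements generate `g`. -/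
structure PreKacMoody (K : Type u) [Field K] {ι : Type} [DecidableEq ι] (A : ι → ι → ℤ)
    (𝔤 : Type v) [LieRing 𝔤] [LieAlgebra K 𝔤] where
  /-- the Cartan subalgebra -/
  H : Submodule K 𝔤
  lie_H_H : ∀ h h' : H, ⁅(h : 𝔤), (h' : 𝔤)⁆ = 0
  /-- the simple coroots -/
  coroot : ι → H
  coroot_indep : LinearIndependent K coroot
  /-- the simple roots -/
  root : ι → Module.Dual K H
  root_indep : LinearIndependent K root
  root_coroot : ∀ i j, root j (coroot i) = (A i j : K)
  /-- the positive Chevalley generators -/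
  e : ι → 𝔤
  /-- the negative Chevalley generators -/
  f : ι → 𝔤
  lie_e_f : ∀ i j, ⁅e i, f j⁆ = if i = j then (coroot i : 𝔤) else 0
  lie_H_e : ∀ (h : H) (i : ι), ⁅(h : 𝔤), e i⁆ = root i h • e i
  lie_H_f : ∀ (h : H) (i : ι), ⁅(h : 𝔤), f i⁆ = -(root i h • f i)
  generates : LieSubalgebra.lieSpan K 𝔤 ((H : Set 𝔤) ∪ Set.range e ∪ Set.range f) = ⊤

/-- A Kac-Moody algebra with matrix `A` (V. Kac, Infinite dimensional Lie algebras, Section 1.3 and
Proposition 1.4): moreover no nonzero ideal of `g` meets the Cartan subalgebra trivially. -/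
structure KacMoody (K : Type u) [Field K] {ι : Type} [DecidableEq ι] (A : ι → ι → ℤ)
    (𝔤 : Type v) [LieRing 𝔤] [LieAlgebra K 𝔤] extends PreKacMoody K A 𝔤 where
  no_ideal : ∀ I : LieIdeal K 𝔤, (∀ x ∈ I, x ∈ H → x = 0) → I = ⊥

/-- `c` is a root: it is nonzero and the root space of `∑ c_i α_i` is nonzero. -/
def PreKacMoody.IsRoot {K : Type u} [Field K] {ι : Type} [Fintype ι] [DecidableEq ι]
    {A : ι → ι → ℤ} {𝔤 : Type v} [LieRing 𝔤] [LieAlgebra K 𝔤] (M : PreKacMoody K A 𝔤)
    (c : ι → ℤ) : Prop :=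
  c ≠ 0 ∧ ∃ x : 𝔤, x ≠ 0 ∧ ∀ h : M.H, ⁅(h : 𝔤), x⁆ = (∑ i, (c i : K) * M.root i h) • x

end Pool.Agent.RootConj
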