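import Pool.Agent.RootConj.Defs
import Pool.Agent.RootConj.KMDefs

set_option autoImplicit false

/-!
# Kac-Moody algebras: weight spaces, Serre relations, strings
-/

namespace Pool.Agent.RootConj

universe u v

namespace PreKacMoody

variable {K : Type u} [Field K] {ι : Type} [Fintype ι] [DecidableEq ι] {A : ι → ι → ℤ}
  {𝔤 : Type v} [LieRing 𝔤] [LieAlgebra K 𝔤] (M : PreKacMoody K A 𝔤)

/-- The functional of an element of the root lattice. -/
def wtf (c : ι → ℤ) : Module.Dual K M.H := ∑ i, (c i : K) • M.root i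

theorem wtf_apply (c : ι → ℤ) (h : M.H) : M.wtf c h = ∑ i, (c i : K) * M.root i h := by
  simp [wtf]

theorem wtf_add (c c' : ι → ℤ) : M.wtf (c + c') = M.wtf c + M.wtf c' := by
  simp [wtf, add_smul, Finset.sum_add_distrib]

theorem wtf_zero : M.wtf 0 = 0 := by simp [wtf]

theorem wtf_neg (c : ι → ℤ) : M.wtf (-c) = -M.wtf c := by
  apply LinearMap.ext
  intro h
  rw [LinearMap.neg_apply, wtf_apply, wtf_apply, ← Finset.sum_neg_distrib]
  exact Finset.sum_congr rfl fun i _ => by simp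

theorem wtf_single (i : ι) : M.wtf (Pi.single i 1) = M.root i := by
  unfold wtf
  rw [Finset.sum_eq_single i]
  · simp
  · intro j _ hj; simp [hj]
  · intro h; exact absurd (Finset.mem_univ i) h

theorem wtf_injective [CharZero K] : Function.Injective M.wtf := by
  intro c c' h
  have h1 : ∑ i, ((c i : K) - c' i) • M.root i = 0 := by
    apply LinearMap.ext
    intro y
    have h3 : (∑ i, ((c i : K) - c' i) • M.root i) y = M.wtf c y - M.wtf c' y := by
      rw [wtf_apply, wtf_apply, ← Finset.sum_sub_distrib, LinearMap.sum_apply]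
      refine Finset.sum_congr rfl fun i _ => ?_
      rw [LinearMap.smul_apply, smul_eq_mul, sub_mul]
    rw [h3, h, sub_self, LinearMap.zero_apply]
  have h2 := Fintype.linearIndependent_iff.mp M.root_indep _ h1
  funext i
  have := h2 i
  exact_mod_cast sub_eq_zero.mp this

theorem wtf_coroot (c : ι → ℤ) (i : ι) :
    M.wtf c (M.coroot i) = ((∑ j, A i j * c j : ℤ) : K) := by
  rw [wtf_apply]
  push_cast
  refine Finset.sum_congr rfl fun j _ => ?_
  rw [M.root_coroot]; ring

/-- The weight spaces. -/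
def wt (c : ι → ℤ) : Submodule K 𝔤 where
  carrier := {x | ∀ h : M.H, ⁅(h : 𝔤), x⁆ = M.wtf c h • x}
  add_mem' := by
    intro a b ha hb h
    rw [lie_add, ha h, hb h, smul_add]
  zero_mem' := by intro h; simp
  smul_mem' := by
    intro r a ha h
    rw [lie_smul, ha h, smul_comm]

theorem mem_wt {c : ι → ℤ} {x : 𝔤} : x ∈ M.wt c ↔ ∀ h : M.H, ⁅(h : 𝔤), x⁆ = M.wtf c h • x :=
  Iff.rfl

theorem isRoot_iff (c : ι → ℤ) : M.IsRoot c ↔ c ≠ 0 ∧ ∃ x ∈ M.wt c, x ≠ 0 := by
  unfold IsRoot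
  constructor
  · rintro ⟨h0, x, hx, hw⟩
    exact ⟨h0, x, fun h => by rw [hw h, wtf_apply], hx⟩
  · rintro ⟨h0, x, hw, hx⟩
    exact ⟨h0, x, hx, fun h => by rw [hw h, wtf_apply]⟩

theorem lie_mem_wt {c c' : ι → ℤ} {x y : 𝔤} (hx : x ∈ M.wt c) (hy : y ∈ M.wt c') :
    ⁅x, y⁆ ∈ M.wt (c + c') := by
  intro h
  rw [leibniz_lie, hx h, hy h, wtf_add, LinearMap.add_apply, add_smul, smul_lie, lie_smul]

theorem e_mem_wt (i : ι) : M.e i ∈ M.wt (Pi.single i 1) := by
  intro h; rw [wtf_single, M.lie_H_e]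

theorem f_mem_wt (i : ι) : M.f i ∈ M.wt (-Pi.single i 1) := by
  intro h; rw [wtf_neg, wtf_single, M.lie_H_f, LinearMap.neg_apply, neg_smul]

theorem H_mem_wt {x : 𝔤} (hx : x ∈ M.H) : x ∈ M.wt 0 := by
  intro h
  rw [wtf_zero, LinearMap.zero_apply, zero_smul]
  exact M.lie_H_H h ⟨x, hx⟩

theorem coroot_ne (i : ι) : M.coroot i ≠ 0 := M.coroot_indep.ne_zero i

theorem e_ne (i : ι) : M.e i ≠ 0 := by
  intro h
  have := M.lie_e_f i i
  rw [h, zero_lie, if_pos rfl] at this
  exact M.coroot_ne i (Subtype.ext this.symm)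

theorem f_ne (i : ι) : M.f i ≠ 0 := by
  intro h
  have := M.lie_e_f i i
  rw [h, lie_zero, if_pos rfl] at this
  exact M.coroot_ne i (Subtype.ext this.symm)

/-- Weight spaces are independent. -/
theorem indep [CharZero K] : iSupIndep M.wt := by
  let F : M.H → Module.End K 𝔤 := fun h => LieModule.toEnd K 𝔤 𝔤 (h : 𝔤)
  have hcomm : ∀ h h', Commute (F h) (F h') := by
    intro h h'
    apply LinearMap.ext
    intro x
    have h1 := leibniz_lie (h : 𝔤) (h' : 𝔤) x
    rw [M.lie_H_H, zero_lie, zero_add] at h1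
    exact h1
  have h1 := Module.End.independent_iInf_maxGenEigenspace_of_forall_mapsTo F (by
    intro i j φ
    exact Module.End.mapsTo_maxGenEigenspace_of_comm (hcomm j i) φ)
  have hinj : Function.Injective (fun c : ι → ℤ => fun h : M.H => M.wtf c h) := by
    intro c c' h
    apply M.wtf_injective
    apply LinearMap.ext
    intro x
    exact congrFun h x
  have h2 := h1.comp hinj
  refine h2.mono fun c x hx => ?_
  simp only [Function.comp]
  rw [Submodule.mem_iInf]
  intro h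
  have h3 : x ∈ (F h).eigenspace (M.wtf c h) := Module.End.mem_eigenspace_iff.mpr (hx h)
  exact Module.End.genEigenspace_le_maximal (F h) (M.wtf c h) 1 h3

theorem eq_zero_of_mem_iSup [CharZero K] (P : (ι → ℤ) → Prop) (c : ι → ℤ) (hc : ¬ P c) {x : 𝔤}
    (hx : x ∈ M.wt c) (hx' : x ∈ ⨆ c', ⨆ _ : P c', M.wt c') : x = 0 := by
  have h1 := M.indep c
  rw [Submodule.disjoint_def] at h1
  apply h1 x hx
  refine (iSup₂_mono' ?_ : (⨆ c', ⨆ _ : P c', M.wt c') ≤ _) hx'
  intro c' hc'
  exact ⟨c', fun h => hc (h ▸ hc'), le_rfl⟩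

/-- The opposite structure. -/
def swap : PreKacMoody K A 𝔤 where
  H := M.H
  lie_H_H := M.lie_H_H
  coroot := fun i => -M.coroot i
  coroot_indep := by
    have := M.coroot_indep.units_smul (fun _ => (-1 : Kˣ))
    convert this using 1
    funext i
    simp
  root := fun i => -M.root i
  root_indep := by
    have := M.root_indep.units_smul (fun _ => (-1 : Kˣ))
    convert this using 1
    funext i
    simp
  root_coroot := by
    intro i j
    simp [M.root_coroot]
  e := M.f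
  f := M.e
  lie_e_f := by
    intro i j
    rw [← lie_skew, M.lie_e_f]
    by_cases h : i = j
    · subst h; simp
    · have h' : ¬ j = i := fun e => h e.symm
      simp [h, h']
  lie_H_e := by
    intro h i
    rw [M.lie_H_f, LinearMap.neg_apply, neg_smul]
  lie_H_f := by
    intro h i
    rw [M.lie_H_e, LinearMap.neg_apply, neg_smul, neg_neg]
  generates := by
    rw [← M.generates]
    congr 1
    rw [Set.union_right_comm]

theorem swap_wt (c : ι → ℤ) : M.swap.wt c = M.wt (-c) := by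
  ext x
  have h1 : ∀ h : M.H, M.swap.wtf c h = M.wtf (-c) h := by
    intro h
    have h2 := M.swap.wtf_apply c h
    rw [h2, M.wtf_apply]
    refine Finset.sum_congr rfl fun i _ => ?_
    show (c i : K) * (-M.root i) h = _
    simp
  constructor
  · intro hx h
    rw [← h1]; exact hx h
  · intro hx h
    rw [h1]; exact hx h

/-- The stabiliser of a subspace. -/
def stab (N : Submodule K 𝔤) : LieSubalgebra K 𝔤 where
  carrier := {z | ∀ y ∈ N, ⁅z, y⁆ ∈ N}
  add_mem' := by
    intro a b ha hb y hy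
    rw [add_lie]; exact add_mem (ha y hy) (hb y hy)
  zero_mem' := by
    intro y _
    rw [zero_lie]; exact zero_mem _
  smul_mem' := by
    intro r a ha y hy
    rw [smul_lie]; exact N.smul_mem _ (ha y hy)
  lie_mem' := by
    intro a b ha hb y hy
    rw [lie_lie]
    exact sub_mem (ha _ (hb y hy)) (hb _ (ha y hy))

omit [Fintype ι] in
theorem stab_all (N : Submodule K 𝔤) (hH : ∀ h : M.H, ∀ y ∈ N, ⁅(h : 𝔤), y⁆ ∈ N)
    (he : ∀ i, ∀ y ∈ N, ⁅M.e i, y⁆ ∈ N) (hf : ∀ i, ∀ y ∈ N, ⁅M.f i, y⁆ ∈ N) (z y : 𝔤)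
    (hy : y ∈ N) : ⁅z, y⁆ ∈ N := by
  have h1 : LieSubalgebra.lieSpan K 𝔤 ((M.H : Set 𝔤) ∪ Set.range M.e ∪ Set.range M.f) ≤ stab N := by
    rw [LieSubalgebra.lieSpan_le]
    rintro x ((hx | ⟨i, rfl⟩) | ⟨i, rfl⟩)
    · exact hH ⟨x, hx⟩
    · exact he i
    · exact hf i
  rw [M.generates] at h1
  exact h1 (LieSubalgebra.mem_top z) y hy

/-- Brackets obtained from `x0` by applying the `ad e_i`. -/
inductive Up (x0 : 𝔤) (c0 : ι → ℤ) : 𝔤 → (ι → ℤ) → Prop
  | base : Up x0 c0 x0 c0
  | step (i : ι) (x : 𝔤) (c : ι → ℤ) : Up x0 c0 x c → Up x0 c0 ⁅M.e i, x⁆ (Pi.single i 1 + c)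

theorem Up.mem_wt {x0 : 𝔤} {c0 : ι → ℤ} (h0 : x0 ∈ M.wt c0) {x : 𝔤} {c : ι → ℤ}
    (h : M.Up x0 c0 x c) : x ∈ M.wt c := by
  induction h with
  | base => exact h0
  | step i x c _ ih => exact M.lie_mem_wt (M.e_mem_wt i) ih

omit [Fintype ι] in
theorem Up.ge {x0 : 𝔤} {c0 : ι → ℤ} {x : 𝔤} {c : ι → ℤ} (h : M.Up x0 c0 x c) : c0 ≤ c := by
  induction h with
  | base => exact le_rfl
  | step i x c _ ih =>
    refine ih.trans ?_
    refine le_add_of_nonneg_left ?_
    intro j
    by_cases hj : j = i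
    · subst hj; simp
    · simp [hj]

end PreKacMoody

namespace KacMoody

variable {K : Type u} [Field K] {ι : Type} [Fintype ι] [DecidableEq ι] {A : ι → ι → ℤ}
  {𝔤 : Type v} [LieRing 𝔤] [LieAlgebra K 𝔤] (M : KacMoody K A 𝔤)

/-- The opposite structure. -/
def swap : KacMoody K A 𝔤 where
  toPreKacMoody := M.toPreKacMoody.swap
  no_ideal := M.no_ideal

theorem swap_wt (c : ι → ℤ) : M.swap.wt c = M.wt (-c) := M.toPreKacMoody.swap_wt c

/-- A positive weight vector killed by all `ad f_i` is zero. -/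
theorem eq_zero_of_lie_f [CharZero K] {c : ι → ℤ} (hc : 0 ≤ c) (hc0 : c ≠ 0) {x : 𝔤}
    (hx : x ∈ M.wt c) (hf : ∀ i, ⁅M.f i, x⁆ = 0) : x = 0 := by
  let N : Submodule K 𝔤 := Submodule.span K {y | ∃ c', M.Up x c y c'}
  have hH : ∀ h : M.H, ∀ y ∈ N, ⁅(h : 𝔤), y⁆ ∈ N := by
    intro h y hy
    induction hy using Submodule.span_induction with
    | mem y hy =>
      obtain ⟨c', hy'⟩ := hy
      rw [PreKacMoody.Up.mem_wt M.toPreKacMoody hx hy' h]
      exact N.smul_mem _ (Submodule.subset_span ⟨c', hy'⟩)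
    | zero => rw [lie_zero]; exact zero_mem _
    | add a b _ _ ha hb => rw [lie_add]; exact add_mem ha hb
    | smul r a _ ha => rw [lie_smul]; exact N.smul_mem _ ha
  have he : ∀ i, ∀ y ∈ N, ⁅M.e i, y⁆ ∈ N := by
    intro i y hy
    induction hy using Submodule.span_induction with
    | mem y hy =>
      obtain ⟨c', hy'⟩ := hy
      exact Submodule.subset_span ⟨_, PreKacMoody.Up.step i y c' hy'⟩
    | zero => rw [lie_zero]; exact zero_mem _
    | add a b _ _ ha hb => rw [lie_add]; exact add_mem ha hb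
    | smul r a _ ha => rw [lie_smul]; exact N.smul_mem _ ha
  have hff : ∀ j, ∀ y ∈ N, ⁅M.f j, y⁆ ∈ N := by
    intro j y hy
    induction hy using Submodule.span_induction with
    | mem y hy =>
      obtain ⟨c', hy'⟩ := hy
      induction hy' with
      | base => rw [hf]; exact zero_mem _
      | step i y c' hy' ih =>
        rw [leibniz_lie]
        refine add_mem ?_ (he i _ ih)
        rw [← lie_skew (M.f j) (M.e i), M.lie_e_f]
        by_cases hij : i = j
        · rw [if_pos hij, neg_lie]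
          exact neg_mem (hH _ _ (Submodule.subset_span ⟨c', hy'⟩))
        · rw [if_neg hij, neg_zero, zero_lie]; exact zero_mem _
    | zero => rw [lie_zero]; exact zero_mem _
    | add a b _ _ ha hb => rw [lie_add]; exact add_mem ha hb
    | smul r a _ ha => rw [lie_smul]; exact N.smul_mem _ ha
  let I : LieIdeal K 𝔤 := { N with lie_mem := fun {z y} hy => M.stab_all N hH he hff z y hy }
  have hI : I = ⊥ := by
    apply M.no_ideal
    intro y hy hyH
    have h1 : N ≤ ⨆ c', ⨆ _ : c ≤ c', M.wt c' := by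
      rw [Submodule.span_le]
      rintro z ⟨c', hz⟩
      exact (le_iSup₂ (f := fun c' (_ : c ≤ c') => M.wt c') c' hz.ge) (PreKacMoody.Up.mem_wt M.toPreKacMoody hx hz)
    refine M.eq_zero_of_mem_iSup (fun c' => c ≤ c') 0 ?_ (M.H_mem_wt hyH) (h1 hy)
    intro h
    exact hc0 (le_antisymm h hc)
  have hx' : x ∈ I := Submodule.subset_span ⟨c, PreKacMoody.Up.base⟩
  rw [hI] at hx'
  exact (LieSubmodule.mem_bot x).mp hx'

theorem eq_zero_of_lie_e [CharZero K] {c : ι → ℤ} (hc : 0 ≤ c) (hc0 : c ≠ 0) {x : 𝔤}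
    (hx : x ∈ M.wt (-c)) (hf : ∀ i, ⁅M.e i, x⁆ = 0) : x = 0 :=
  M.swap.eq_zero_of_lie_f hc hc0 (by rw [swap_wt]; exact hx) hf

end KacMoody

end Pool.Agent.RootConj
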