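import Pool.Agent.RootConj.KM

set_option autoImplicit false

/-!
# Kac-Moody algebras: triangular decomposition, Serre relations, strings
-/

namespace Pool.Agent.RootConj

universe u v

namespace PreKacMoody

variable {K : Type u} [Field K] {ι : Type} [Fintype ι] [DecidableEq ι] {A : ι → ι → ℤ}
  {𝔤 : Type v} [LieRing 𝔤] [LieAlgebra K 𝔤] (M : PreKacMoody K A 𝔤)

/-! ## The positive part -/

/-- The span of the iterated brackets of the `e_i`. -/
def npos : Submodule K 𝔤 := Submodule.span K {y | ∃ i c, M.Up (M.e i) (Pi.single i 1) y c}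

omit [Fintype ι] in
theorem single_nonneg (i : ι) : (0 : ι → ℤ) ≤ Pi.single i 1 := by
  intro j
  by_cases hj : j = i
  · subst hj; simp
  · simp [hj]

omit [Fintype ι] in
theorem npos_e (i : ι) (y : 𝔤) (hy : y ∈ M.npos) : ⁅M.e i, y⁆ ∈ M.npos := by
  unfold npos at hy ⊢
  induction hy using Submodule.span_induction with
  | mem y hy =>
    obtain ⟨j, c', hy'⟩ := hy
    exact Submodule.subset_span ⟨j, _, Up.step i y c' hy'⟩
  | zero => rw [lie_zero]; exact zero_mem _
  | add a b _ _ ha hb => rw [lie_add]; exact add_mem ha hb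
  | smul r a _ ha => rw [lie_smul]; exact Submodule.smul_mem _ _ ha

omit [Fintype ι] in
theorem e_mem_npos (i : ι) : M.e i ∈ M.npos := Submodule.subset_span ⟨i, _, Up.base⟩

theorem npos_h (h : M.H) (y : 𝔤) (hy : y ∈ M.npos) : ⁅(h : 𝔤), y⁆ ∈ M.npos := by
  unfold npos at hy ⊢
  induction hy using Submodule.span_induction with
  | mem y hy =>
    obtain ⟨j, c', hy'⟩ := hy
    rw [Up.mem_wt M (M.e_mem_wt j) hy' h]
    exact Submodule.smul_mem _ _ (Submodule.subset_span ⟨j, _, hy'⟩)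
  | zero => rw [lie_zero]; exact zero_mem _
  | add a b _ _ ha hb => rw [lie_add]; exact add_mem ha hb
  | smul r a _ ha => rw [lie_smul]; exact Submodule.smul_mem _ _ ha

theorem npos_f (j : ι) (y : 𝔤) (hy : y ∈ M.npos) : ⁅M.f j, y⁆ ∈ M.npos ⊔ M.H := by
  have key : ∀ y i c, M.Up (M.e i) (Pi.single i 1) y c → ⁅M.f j, y⁆ ∈ M.npos ⊔ M.H := by
    intro y i c h
    induction h with
    | base =>
      rw [← lie_skew (M.f j) (M.e i), M.lie_e_f]
      by_cases hij : i = j
      · rw [if_pos hij]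
        exact neg_mem (Submodule.mem_sup_right (M.coroot i).2)
      · rw [if_neg hij, neg_zero]; exact zero_mem _
    | step i' y c' hy' ih =>
      rw [leibniz_lie]
      refine add_mem ?_ ?_
      · rw [← lie_skew (M.f j) (M.e i'), M.lie_e_f]
        by_cases hij : i' = j
        · rw [if_pos hij, neg_lie]
          exact neg_mem (Submodule.mem_sup_left
            (M.npos_h _ _ (Submodule.subset_span ⟨i, c', hy'⟩)))
        · rw [if_neg hij, neg_zero, zero_lie]; exact zero_mem _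
      · obtain ⟨a, ha, b, hb, hab⟩ := Submodule.mem_sup.mp ih
        rw [← hab, lie_add]
        refine add_mem (Submodule.mem_sup_left (M.npos_e _ _ ha)) (Submodule.mem_sup_left ?_)
        rw [← lie_skew, M.lie_H_e ⟨b, hb⟩]
        exact neg_mem (Submodule.smul_mem _ _ (M.e_mem_npos i'))
  unfold npos at hy
  induction hy using Submodule.span_induction with
  | mem y hy =>
    obtain ⟨i, c', hy'⟩ := hy
    exact key y i c' hy'
  | zero => rw [lie_zero]; exact zero_mem _
  | add a b _ _ ha hb => rw [lie_add]; exact add_mem ha hb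
  | smul r a _ ha => rw [lie_smul]; exact Submodule.smul_mem _ _ ha

theorem npos_le : M.npos ≤ ⨆ c : ι → ℤ, ⨆ _ : 0 ≤ c ∧ c ≠ 0, M.wt c := by
  unfold npos
  rw [Submodule.span_le]
  rintro y ⟨i, c, h⟩
  have h1 : Pi.single i 1 ≤ c := Up.ge M h
  have h2 : (0 : ι → ℤ) ≤ c := (single_nonneg i).trans h1
  have h3 : c ≠ 0 := by
    rintro rfl
    have := h1 i
    simp at this
  exact (le_iSup₂ (f := fun c (_ : 0 ≤ c ∧ c ≠ 0) => M.wt c) c ⟨h2, h3⟩)
    (Up.mem_wt M (M.e_mem_wt i) h)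

/-- The triangular decomposition. -/
theorem triangular (x : 𝔤) : x ∈ M.swap.npos ⊔ M.H ⊔ M.npos := by
  set U : Submodule K 𝔤 := M.swap.npos ⊔ M.H ⊔ M.npos with hU
  have hn : M.swap.npos ≤ U := le_sup_left.trans le_sup_left
  have hH : M.H ≤ U := le_sup_right.trans le_sup_left
  have hp : M.npos ≤ U := le_sup_right
  have hsH : M.swap.H = M.H := rfl
  have key : ∀ z : 𝔤, (∀ y ∈ M.swap.npos, ⁅z, y⁆ ∈ U) → (∀ y ∈ M.H, ⁅z, y⁆ ∈ U) →
      (∀ y ∈ M.npos, ⁅z, y⁆ ∈ U) → ∀ y ∈ U, ⁅z, y⁆ ∈ U := by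
    intro z h1 h2 h3 y hy
    obtain ⟨a, ha, b, hb, hab⟩ := Submodule.mem_sup.mp hy
    obtain ⟨a1, ha1, a2, ha2, haa⟩ := Submodule.mem_sup.mp ha
    rw [← hab, ← haa, lie_add, lie_add]
    exact add_mem (add_mem (h1 _ ha1) (h2 _ ha2)) (h3 _ hb)
  have hst : ∀ z y : 𝔤, y ∈ U → ⁅z, y⁆ ∈ U := by
    intro z y hy
    refine M.stab_all U ?_ ?_ ?_ z y hy
    · intro h
      apply key
      · intro y hy; exact hn (M.swap.npos_h h y hy)
      · intro y hy
        rw [M.lie_H_H h ⟨y, hy⟩]; exact zero_mem _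
      · intro y hy; exact hp (M.npos_h h y hy)
    · intro i
      apply key
      · intro y hy
        have h1 := M.swap.npos_f i y hy
        rw [hsH] at h1
        exact (le_sup_left : M.swap.npos ⊔ M.H ≤ U) h1
      · intro y hy
        rw [← lie_skew, M.lie_H_e ⟨y, hy⟩]
        exact neg_mem (hp (Submodule.smul_mem _ _ (M.e_mem_npos i)))
      · intro y hy; exact hp (M.npos_e i y hy)
    · intro i
      apply key
      · intro y hy; exact hn (M.swap.npos_e i y hy)
      · intro y hy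
        rw [← lie_skew, M.lie_H_f ⟨y, hy⟩, neg_neg]
        exact hn (Submodule.smul_mem _ _ (M.swap.e_mem_npos i))
      · intro y hy
        have h1 := M.npos_f i y hy
        exact (sup_le hp hH : M.npos ⊔ M.H ≤ U) h1
  let L : LieSubalgebra K 𝔤 := { U with lie_mem' := fun {z y} _ hy => hst z y hy }
  have hL : LieSubalgebra.lieSpan K 𝔤 ((M.H : Set 𝔤) ∪ Set.range M.e ∪ Set.range M.f) ≤ L := by
    rw [LieSubalgebra.lieSpan_le]
    rintro x ((hx | ⟨i, rfl⟩) | ⟨i, rfl⟩)
    · exact hH hx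
    · exact hp (M.e_mem_npos i)
    · exact hn (M.swap.e_mem_npos i)
  rw [M.generates] at hL
  exact hL (LieSubalgebra.mem_top x)

/-- Weights are positive or negative. -/
theorem nonneg_or_nonpos [CharZero K] {c : ι → ℤ} {x : 𝔤} (hx : x ∈ M.wt c) (h0 : x ≠ 0) :
    0 ≤ c ∨ c ≤ 0 := by
  by_contra hcon
  apply h0
  refine M.eq_zero_of_mem_iSup (fun c => 0 ≤ c ∨ c ≤ 0) c hcon hx ?_
  have h1 : M.swap.npos ⊔ M.H ⊔ M.npos ≤ ⨆ c : ι → ℤ, ⨆ _ : 0 ≤ c ∨ c ≤ 0, M.wt c := by
    refine sup_le (sup_le ?_ ?_) ?_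
    · refine M.swap.npos_le.trans (iSup₂_le fun c hc => ?_)
      rw [swap_wt]
      exact le_iSup₂ (f := fun c (_ : 0 ≤ c ∨ c ≤ 0) => M.wt c) (-c)
        (Or.inr (neg_nonpos.mpr hc.1))
    · intro y hy
      exact le_iSup₂ (f := fun c (_ : 0 ≤ c ∨ c ≤ 0) => M.wt c) 0 (Or.inl le_rfl)
        (M.H_mem_wt hy)
    · refine M.npos_le.trans (iSup₂_le fun c hc => ?_)
      exact le_iSup₂ (f := fun c (_ : 0 ≤ c ∨ c ≤ 0) => M.wt c) c (Or.inl hc.1)
  exact h1 (M.triangular x)

/-! ## Serre relations -/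

omit [Fintype ι] in
theorem comm_pow {x y : 𝔤} (h : ⁅x, y⁆ = 0) (n : ℕ) (z : 𝔤) :
    ⁅x, ((LieModule.toEnd K 𝔤 𝔤 y) ^ n) z⁆ = ((LieModule.toEnd K 𝔤 𝔤 y) ^ n) ⁅x, z⁆ := by
  induction n with
  | zero => simp
  | succ n ih =>
    rw [pow_succ', Module.End.mul_apply, Module.End.mul_apply, LieModule.toEnd_apply_apply,
      LieModule.toEnd_apply_apply, leibniz_lie, h, zero_lie, zero_add, ih]

theorem sl2 (hA : ∀ i, A i i = 2) (i : ι) : IsSl2Triple (M.coroot i : 𝔤) (M.e i) (M.f i) where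
  h_ne_zero := fun h => M.coroot_ne i (Subtype.ext h)
  lie_e_f := by rw [M.lie_e_f, if_pos rfl]
  lie_h_e_nsmul := by
    rw [M.lie_H_e, M.root_coroot, hA]
    rw [← Nat.cast_smul_eq_nsmul K]; norm_num
  lie_h_f_nsmul := by
    rw [M.lie_H_f, M.root_coroot, hA]
    rw [← Nat.cast_smul_eq_nsmul K]; norm_num

end PreKacMoody

namespace KacMoody

variable {K : Type u} [Field K] {ι : Type} [Fintype ι] [DecidableEq ι] {A : ι → ι → ℤ}
  {𝔤 : Type v} [LieRing 𝔤] [LieAlgebra K 𝔤] (M : KacMoody K A 𝔤)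

/-- The Serre relations for the `f_i`. -/
theorem serre_f [CharZero K] (hA : ∀ i, A i i = 2) (hA0 : ∀ i j, i ≠ j → A i j ≤ 0)
    (hA1 : ∀ i j, A i j = 0 → A j i = 0) (i j : ι) (hij : i ≠ j) :
    ((LieModule.toEnd K 𝔤 𝔤 (M.f i)) ^ ((-A i j).toNat + 1)) (M.f j) = 0 := by
  set μ := (-A i j).toNat with hμ
  have hμ' : (μ : ℤ) = -A i j := Int.toNat_of_nonneg (by have := hA0 i j hij; omega)
  have hpow : ∀ n : ℕ, ((LieModule.toEnd K 𝔤 𝔤 (M.f i)) ^ n) (M.f j) ∈
      M.wt (-(Pi.single j 1 + n • Pi.single i 1)) := by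
    intro n
    induction n with
    | zero => simpa using M.f_mem_wt j
    | succ n ih =>
      rw [pow_succ', Module.End.mul_apply, LieModule.toEnd_apply_apply]
      have h1 := M.lie_mem_wt (M.f_mem_wt i) ih
      have h2 : (-Pi.single i 1 + -(Pi.single j 1 + n • Pi.single i 1) : ι → ℤ) =
          -(Pi.single j 1 + (n + 1) • Pi.single i 1) := by
        rw [add_smul, one_smul]; abel
      rwa [h2] at h1
  refine M.eq_zero_of_lie_e ?_ ?_ (hpow (μ + 1)) ?_
  · exact add_nonneg (PreKacMoody.single_nonneg j) (nsmul_nonneg (PreKacMoody.single_nonneg i) _)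
  · intro h
    have := congrFun h j
    simp [hij] at this
  · intro k
    by_cases hki : k = i
    · subst hki
      have hprim : (M.sl2 hA k).HasPrimitiveVectorWith (M.f j) (μ : K) := by
        refine ⟨M.f_ne j, ?_, ?_⟩
        · rw [M.lie_H_f, M.root_coroot, ← neg_smul]
          congr 1
          have : ((μ : ℤ) : K) = ((-A k j : ℤ) : K) := by rw [hμ']
          push_cast at this
          exact this.symm
        · rw [M.lie_e_f, if_neg hij]
      rw [hprim.lie_e_pow_succ_toEnd_f μ, sub_self, mul_zero, zero_smul]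
    · rw [PreKacMoody.comm_pow (by rw [M.lie_e_f, if_neg hki])]
      by_cases hkj : k = j
      · subst hkj
        rw [M.lie_e_f, if_pos rfl]
        have h1 : ((LieModule.toEnd K 𝔤 𝔤 (M.f i)) ^ 1) (M.coroot k : 𝔤) =
            (A k i : K) • M.f i := by
          rw [pow_one, LieModule.toEnd_apply_apply, ← lie_skew, M.lie_H_f, neg_neg,
            M.root_coroot]
        rw [pow_succ, Module.End.mul_apply]
        rw [pow_one] at h1
        rw [h1, map_smul]
        rcases Nat.eq_zero_or_pos μ with h0 | h0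
        · have h2 : A i k = 0 := by rw [h0] at hμ'; push_cast at hμ'; linarith
          rw [hA1 i k h2, Int.cast_zero, zero_smul]
        · obtain ⟨t, ht⟩ := Nat.exists_eq_succ_of_ne_zero h0.ne'
          rw [ht, pow_succ, Module.End.mul_apply, LieModule.toEnd_apply_apply, lie_self, map_zero,
            smul_zero]
      · rw [M.lie_e_f, if_neg hkj, map_zero]

/-- `ad f_i` is locally nilpotent. -/
theorem nilp_f [CharZero K] (hA : ∀ i, A i i = 2) (hA0 : ∀ i j, i ≠ j → A i j ≤ 0)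
    (hA1 : ∀ i j, A i j = 0 → A j i = 0) (i : ι) (x : 𝔤) :
    ∃ n : ℕ, ((LieModule.toEnd K 𝔤 𝔤 (M.f i)) ^ n) x = 0 := by
  have h : LieSubalgebra.lieSpan K 𝔤 ((M.H : Set 𝔤) ∪ Set.range M.e ∪ Set.range M.f) ≤
      LieSubalgebra.engel K (M.f i) := by
    rw [LieSubalgebra.lieSpan_le]
    rintro x ((hx | ⟨j, rfl⟩) | ⟨j, rfl⟩)
    · refine (LieSubalgebra.mem_engel_iff K _ _).mpr ⟨2, ?_⟩
      have h1 : ⁅M.f i, x⁆ = M.root i ⟨x, hx⟩ • M.f i := by
        rw [← lie_skew, M.lie_H_f ⟨x, hx⟩, neg_neg]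
      rw [pow_two, Module.End.mul_apply, LieAlgebra.ad_apply, LieAlgebra.ad_apply, h1, lie_smul,
        lie_self, smul_zero]
    · refine (LieSubalgebra.mem_engel_iff K _ _).mpr ?_
      by_cases hij : j = i
      · subst hij
        refine ⟨3, ?_⟩
        have h1 : ⁅M.f j, M.e j⁆ = -(M.coroot j : 𝔤) := by
          rw [← lie_skew, M.lie_e_f, if_pos rfl]
        have h2 : ⁅M.f j, (M.coroot j : 𝔤)⁆ = M.root j (M.coroot j) • M.f j := by
          rw [← lie_skew, M.lie_H_f, neg_neg]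
        rw [pow_succ, pow_two, Module.End.mul_apply, Module.End.mul_apply]
        simp only [LieAlgebra.ad_apply]
        rw [h1, lie_neg, h2, lie_neg, lie_smul, lie_self, smul_zero, neg_zero]
      · refine ⟨1, ?_⟩
        rw [pow_one, LieAlgebra.ad_apply, ← lie_skew, M.lie_e_f, if_neg hij, neg_zero]
    · refine (LieSubalgebra.mem_engel_iff K _ _).mpr ?_
      by_cases hij : i = j
      · subst hij
        exact ⟨1, by rw [pow_one, LieAlgebra.ad_apply, lie_self]⟩
      · exact ⟨_, M.serre_f hA hA0 hA1 i j hij⟩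
  rw [M.generates] at h
  exact (LieSubalgebra.mem_engel_iff K _ _).mp (h (LieSubalgebra.mem_top x))

end KacMoody

end Pool.Agent.RootConj
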