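import Pool.Agent.RootConj.Trans
import Pool.Agent.RootConj.Dilog

set_option autoImplicit false

/-!
# Root conjecture for c-vectors: mutation of the product formula
-/

namespace Pool.Agent.RootConj

section MutProd

variable {ι : Type} [Fintype ι] [DecidableEq ι]

theorem ray_single (W : ι → ι → ℤ) (k : ι) (a : ℕ → ℚ) (s : ℕ) :
    ray W (Pi.single k 1) a (Pi.single k s) = a s := by
  show ∑ r ∈ Finset.range ((∑ i, (Pi.single k s : ι → ℕ) i) + 1),
    (if (Pi.single k s : ι → ℕ) = r • Pi.single k 1 then a r else 0) = a s
  have h1 : ∑ i, (Pi.single k s : ι → ℕ) i = s := by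
    rw [Finset.sum_eq_single k]
    · simp
    · intro j _ hj; simp [hj]
    · simp
  rw [h1, Finset.sum_eq_single s]
  · rw [if_pos]
    funext i
    by_cases h : i = k
    · subst h; simp
    · simp [h]
  · intro r _ hr
    rw [if_neg]
    intro h
    apply hr
    have := congrFun h k
    simpa using this.symm
  · intro h
    exact absurd (Finset.mem_range.mpr (Nat.lt_succ_self s)) h

theorem ray_ne_zero (W : ι → ι → ℤ) (k : ι) (a : ℕ → ℚ) (n : ι → ℕ)
    (h : ray W (Pi.single k 1) a n ≠ 0) : ∃ s, n = Pi.single k s := by
  change ∑ r ∈ Finset.range ((∑ i, n i) + 1),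
    (if n = r • (Pi.single k 1 : ι → ℕ) then a r else 0) ≠ 0 at h
  obtain ⟨r, _, hr⟩ := Finset.exists_ne_zero_of_sum_ne_zero h
  by_cases h1 : n = r • (Pi.single k 1 : ι → ℕ)
  · refine ⟨r, ?_⟩
    rw [h1]
    funext i
    by_cases h : i = k
    · subst h; simp
    · simp [h]
  · rw [if_neg h1] at hr
    exact absurd rfl hr

theorem toZ_single (k : ι) (s : ℕ) :
    toZ (Pi.single k s : ι → ℕ) = (s : ℤ) • (Pi.single k 1 : ι → ℤ) := by
  funext i
  by_cases h : i = k
  · subst h; simp [toZ]
  · simp [toZ, h]

private theorem toZ_upd (k : ι) (n : ι → ℕ) (s : ℕ) (hs : s ≤ n k) :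
    toZ (Function.update n k (n k - s)) = toZ n + (-(s : ℤ)) • (Pi.single k 1 : ι → ℤ) := by
  funext i
  by_cases h : i = k
  · subst h
    simp [toZ, Nat.cast_sub hs]; ring
  · simp [toZ, h]

omit [DecidableEq ι] in
private theorem om_smul_left (W : ι → ι → ℤ) (c : ℤ) (a b : ι → ℤ) :
    om W (c • a) b = c * om W a b := by
  simp only [om, Pi.smul_apply, smul_eq_mul, Finset.mul_sum]
  refine Finset.sum_congr rfl fun i _ => Finset.sum_congr rfl fun j _ => by ring

omit [DecidableEq ι] in
private theorem om_smul_right (W : ι → ι → ℤ) (c : ℤ) (a b : ι → ℤ) :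
    om W a (c • b) = c * om W a b := by
  simp only [om, Pi.smul_apply, smul_eq_mul, Finset.mul_sum]
  refine Finset.sum_congr rfl fun i _ => Finset.sum_congr rfl fun j _ => by ring

private theorem om_ss (W : ι → ι → ℤ) (k : ι) (hW : W k k = 0) :
    om W (Pi.single k 1) (Pi.single k 1) = 0 := by
  unfold om
  rw [Finset.sum_eq_single k]
  · rw [Finset.sum_eq_single k]
    · simp [hW]
    · intro j _ hj; simp [hj]
    · simp
  · intro j _ hj; simp [hj]
  · simp

private theorem sub_upd (k : ι) (n : ι → ℕ) (s : ℕ) (hs : s ≤ n k) :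
    n - Function.update n k (n k - s) = Pi.single k s := by
  funext i
  by_cases h : i = k
  · subst h
    simp; omega
  · simp [h]

private theorem upd_le (k : ι) (n : ι → ℕ) (s : ℕ) : Function.update n k (n k - s) ≤ n := by
  intro i
  by_cases h : i = k
  · subst h; simp
  · simp [h]

private theorem upd_of_sub (k : ι) (n a : ι → ℕ) (s : ℕ) (ha : a ≤ n)
    (h : n - a = Pi.single k s) : s ≤ n k ∧ a = Function.update n k (n k - s) := by
  have hk := congrFun h k
  have hak : a k ≤ n k := ha k
  simp only [Pi.sub_apply, Pi.single_eq_same] at hk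
  refine ⟨by omega, ?_⟩
  funext i
  by_cases hi : i = k
  · subst hi; simp; omega
  · have h1 := congrFun h i
    have h2 : a i ≤ n i := ha i
    simp only [Pi.sub_apply, Pi.single_eq_of_ne hi] at h1
    rw [Function.update_of_ne hi]
    omega

/-- Right multiplication by a series on the ray of `e_k`. -/
theorem mul_ray_apply (W : ι → ι → ℤ) (k : ι) (hW : W k k = 0) (a : ℕ → ℚ) (f : T W) (n : ι → ℕ) :
    (f * ray W (Pi.single k 1) a) n = ∑ s ∈ Finset.range (n k + 1),
      (2 : ℚ) ^ ((s : ℤ) * om W (toZ n) (Pi.single k 1)) * a s *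
        f (Function.update n k (n k - s)) := by
  rw [T.mul_apply]
  symm
  refine Finset.sum_of_injOn (fun s => Function.update n k (n k - s)) ?_ ?_ ?_ ?_
  · intro s hs t ht h
    simp only [Finset.coe_range, Set.mem_Iio] at hs ht
    have := congrFun h k
    simp only [Function.update_self] at this
    omega
  · intro s _
    simp only [Finset.coe_Iic, Set.mem_Iic]
    exact upd_le k n s
  · intro b hb hb2
    simp only [Finset.mem_Iic] at hb
    by_cases h0 : ray W (Pi.single k 1) a (n - b) = 0
    · rw [h0]; ring
    · exfalso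
      obtain ⟨s, hs⟩ := ray_ne_zero W k a _ h0
      obtain ⟨h1, h2⟩ := upd_of_sub k n b s hb hs
      apply hb2
      exact ⟨s, by simp; omega, h2.symm⟩
  · intro s hs
    have hs' : s ≤ n k := by
      have := Finset.mem_range.mp hs
      omega
    beta_reduce
    rw [sub_upd k n s hs', ray_single, toZ_single, toZ_upd k n s hs', om_smul_right, om_add_left,
      om_smul_left, om_ss W k hW, mul_zero, add_zero]
    ring

/-- Left multiplication by a series on the ray of `e_k`. -/
theorem ray_mul_apply (W : ι → ι → ℤ) (k : ι) (hW : W k k = 0) (a : ℕ → ℚ) (f : T W) (n : ι → ℕ) :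
    (ray W (Pi.single k 1) a * f) n = ∑ s ∈ Finset.range (n k + 1),
      (2 : ℚ) ^ ((s : ℤ) * om W (Pi.single k 1) (toZ n)) * a s *
        f (Function.update n k (n k - s)) := by
  rw [T.mul_apply]
  symm
  refine Finset.sum_of_injOn (fun s => Pi.single k s) ?_ ?_ ?_ ?_
  · intro s hs t ht h
    have := congrFun h k
    simpa using this
  · intro s hs
    have hs' : s ≤ n k := by
      have := Finset.mem_range.mp hs
      omega
    simp only [Finset.coe_Iic, Set.mem_Iic]
    intro i
    by_cases h : i = k
    · subst h; simpa using hs'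
    · simp [h]
  · intro b hb hb2
    simp only [Finset.mem_Iic] at hb
    by_cases h0 : ray W (Pi.single k 1) a b = 0
    · rw [h0]; ring
    · exfalso
      obtain ⟨s, hs⟩ := ray_ne_zero W k a _ h0
      apply hb2
      refine ⟨s, ?_, hs.symm⟩
      have := hb k
      rw [hs] at this
      simp at this
      simp; omega
  · intro s hs
    have hs' : s ≤ n k := by
      have := Finset.mem_range.mp hs
      omega
    have e : n - Pi.single k s = Function.update n k (n k - s) := by
      funext i
      by_cases h : i = k
      · subst h; simp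
      · simp [h]
    beta_reduce
    rw [e, ray_single, toZ_single, toZ_upd k n s hs', om_smul_left, om_add_right,
      om_smul_right, om_ss W k hW, mul_zero, add_zero]
    ring

omit [Fintype ι] [DecidableEq ι] in
theorem B_diag {B : ι → ι → ℤ} {d : ι → ℕ} (hB : SkewSym B d) (k : ι) : B k k = 0 := by
  have h := hB.skew k k
  have hd : (0 : ℤ) < d k := by exact_mod_cast hB.pos k
  have h2 : (d k : ℤ) * B k k = 0 := by linarith
  rcases mul_eq_zero.mp h2 with h3 | h3
  · omega
  · exact h3

theorem bL_sub_bR (B : ι → ι → ℤ) (k : ι) (n : ι → ℕ) :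
    (bL B k n : ℤ) - bR B k n = ∑ j, B k j * n j := by
  unfold bL bR
  push_cast
  rw [← Finset.sum_sub_distrib]
  refine Finset.sum_congr rfl fun j _ => ?_
  rw [← sub_mul]
  congr 1
  omega

theorem om_WB_single_left (B : ι → ι → ℤ) (d : ι → ℕ) (k : ι) (n : ι → ℕ) :
    om (WB B d) (Pi.single k 1) (toZ n) = d k * ((bL B k n : ℤ) - bR B k n) := by
  rw [bL_sub_bR, Finset.mul_sum]
  unfold om
  rw [Finset.sum_eq_single k]
  · simp [WB, toZ, mul_assoc]
  · intro i _ hi; simp [hi]
  · simp

theorem om_WB_single_right {B : ι → ι → ℤ} {d : ι → ℕ} (hB : SkewSym B d) (k : ι) (n : ι → ℕ) :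
    om (WB B d) (toZ n) (Pi.single k 1) = -(d k * ((bL B k n : ℤ) - bR B k n)) := by
  rw [bL_sub_bR, Finset.mul_sum, ← Finset.sum_neg_distrib]
  unfold om
  refine Finset.sum_congr rfl fun i _ => ?_
  rw [Finset.sum_eq_single k]
  · simp only [toZ, WB, Pi.single_eq_same, mul_one]
    have := hB.skew i k
    linear_combination (n i : ℤ) * this
  · intro j _ hj; simp [hj]
  · simp

theorem bL_mut (B : ι → ι → ℤ) (k : ι) (n : ι → ℕ) : bL (mutB B k) k n = bR B k n := by
  simp [bL, bR, mutB]

theorem bR_mut (B : ι → ι → ℤ) (k : ι) (n : ι → ℕ) : bR (mutB B k) k n = bL B k n := by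
  simp [bL, bR, mutB]

theorem bL_update {B : ι → ι → ℤ} {d : ι → ℕ} (hB : SkewSym B d) (k : ι) (n : ι → ℕ) (j : ℕ) :
    bL B k (Function.update n k j) = bL B k n := by
  unfold bL
  refine Finset.sum_congr rfl fun i _ => ?_
  by_cases h : i = k
  · subst h; simp [B_diag hB]
  · simp [h]

theorem bR_update {B : ι → ι → ℤ} {d : ι → ℕ} (hB : SkewSym B d) (k : ι) (n : ι → ℕ) (j : ℕ) :
    bR B k (Function.update n k j) = bR B k n := by
  unfold bR
  refine Finset.sum_congr rfl fun i _ => ?_
  by_cases h : i = k
  · subst h; simp [B_diag hB]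
  · simp [h]

theorem WB_diag {B : ι → ι → ℤ} {d : ι → ℕ} (hB : SkewSym B d) (k : ι) : WB B d k k = 0 := by
  simp [WB, B_diag hB]

theorem mut_prod {B : ι → ι → ℤ} {d : ι → ℕ} (hB : SkewSym B d) (k : ι) (gl gr : T (WB B d))
    (h : gl * EE B d k = EE B d k * gr)
    (hl : ∀ n, gl n ≠ 0 → n k ≤ bL B k n) (hr : ∀ n, gr n ≠ 0 → n k ≤ bR B k n) :
    EE (mutB B k) d k * trL B d k gl = trR B d k gr * EE (mutB B k) d k := by
  have hB' := skewSym_mutB hB k
  ext n
  have key := dilog_flip (d k) (hB.pos k) (bL B k n) (bR B k n)
    (fun j => gl (Function.update n k j)) (fun j => gr (Function.update n k j)) ?_ ?_ ?_ (n k)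
  · unfold EE
    rw [ray_mul_apply _ k (WB_diag hB' k), mul_ray_apply _ k (WB_diag hB' k)]
    convert key using 1
    · refine Finset.sum_congr rfl fun s hs => ?_
      have hs' : s ≤ n k := by
        have := Finset.mem_range.mp hs
        omega
      rw [om_WB_single_left, bL_mut, bR_mut]
      have e : trL B d k gl (Function.update n k (n k - s)) =
          if n k - s ≤ bL B k n then gl (Function.update n k (bL B k n - (n k - s))) else 0 := by
        show (if _ then _ else _) = _
        rw [bL_update hB, Function.update_self]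
        congr 2
        unfold flipL
        rw [bL_update hB, Function.update_self, Function.update_idem]
      rw [e]
      split_ifs with h1
      · congr 3
        ring
      · ring
    · refine Finset.sum_congr rfl fun s hs => ?_
      have hs' : s ≤ n k := by
        have := Finset.mem_range.mp hs
        omega
      rw [om_WB_single_right hB', bL_mut, bR_mut]
      have e : trR B d k gr (Function.update n k (n k - s)) =
          if n k - s ≤ bR B k n then gr (Function.update n k (bR B k n - (n k - s))) else 0 := by
        show (if _ then _ else _) = _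
        rw [bR_update hB, Function.update_self]
        congr 2
        unfold flipR
        rw [bR_update hB, Function.update_self, Function.update_idem]
      rw [e]
      split_ifs with h1
      · congr 3
        ring
      · ring
  · intro j hj
    by_contra h0
    have := hl _ h0
    rw [bL_update hB, Function.update_self] at this
    omega
  · intro j hj
    by_contra h0
    have := hr _ h0
    rw [bR_update hB, Function.update_self] at this
    omega
  · intro j
    have h1 := congrArg (fun f : T (WB B d) => f (Function.update n k j)) h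
    beta_reduce at h1
    unfold EE at h1
    rw [ray_mul_apply _ k (WB_diag hB k), mul_ray_apply _ k (WB_diag hB k)] at h1
    rw [Function.update_self] at h1
    convert h1 using 1
    · refine Finset.sum_congr rfl fun s hs => ?_
      rw [om_WB_single_right hB, bL_update hB, bR_update hB, Function.update_idem]
      congr 3
      ring
    · refine Finset.sum_congr rfl fun s hs => ?_
      rw [om_WB_single_left, bL_update hB, bR_update hB, Function.update_idem]
      congr 3
      ring

end MutProd

end Pool.Agent.RootConj
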