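import Pool.Agent.RootConj.PiDefs

set_option autoImplicit false

/-!
# Trace-dual families of finite fields, and the cardinality of coinduced spaces
-/

namespace Pool.Agent.RootConj

namespace PiAux

theorem mem_KK {d : ℕ} {x : Om} : x ∈ KK d ↔ x ^ (4 ^ d) = x := Iff.rfl

open Polynomial in
theorem card_KK (d : ℕ) (hd : 0 < d) : Nat.card (KK d) = 4 ^ d := by
  classical
  have h1 : 1 < 4 ^ d := Nat.one_lt_pow hd.ne' (by norm_num)
  have hdvd : 2 ∣ 4 ^ d := dvd_pow (by norm_num) hd.ne'
  have hsep : (X ^ (4 ^ d) - X : Om[X]).Separable := galois_poly_separable 2 (4 ^ d) hdvd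
  have h := card_rootSet_eq_natDegree (K := Om) hsep (IsAlgClosed.splits _)
  rw [FiniteField.X_pow_card_sub_X_natDegree_eq Om h1] at h
  rw [← h, ← Nat.card_eq_fintype_card]
  have hne : (X ^ (4 ^ d) - X : Om[X]) ≠ 0 := FiniteField.X_pow_card_sub_X_ne_zero Om h1
  refine Nat.card_congr (Equiv.subtypeEquivRight fun x => ?_)
  rw [mem_rootSet_of_ne hne, mem_KK]
  simp [sub_eq_zero]

theorem finite_KK (d : ℕ) (hd : 0 < d) : Finite (KK d) := by
  have h := card_KK d hd
  exact Nat.finite_of_card_ne_zero (by rw [h]; positivity)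

theorem KK_le_left (d e : ℕ) : KK (Nat.gcd d e) ≤ KK d := by
  intro x hx
  rw [mem_KK] at hx ⊢
  obtain ⟨m, hm⟩ := Nat.gcd_dvd_left d e
  have key : ∀ n : ℕ, x ^ (4 ^ (Nat.gcd d e * n)) = x := by
    intro n
    induction n with
    | zero => simp
    | succ n ih => rw [Nat.mul_succ, pow_add, pow_mul, ih, hx]
  rw [hm]
  exact key m

theorem KK_le_right (d e : ℕ) : KK (Nat.gcd d e) ≤ KK e := by
  rw [Nat.gcd_comm]; exact KK_le_left e d

theorem mem_gcd {d e : ℕ} {x : Om} (h1 : x ∈ KK d) (h2 : x ∈ KK e) : x ∈ KK (Nat.gcd d e) := by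
  rw [mem_KK] at *
  have hit : ∀ n : ℕ, (fun y : Om => y ^ 4)^[n] x = x ^ (4 ^ n) := by
    intro n
    induction n with
    | zero => simp
    | succ n ih => rw [Function.iterate_succ', Function.comp_apply, ih, ← pow_mul, ← pow_succ]
  have a1 : Function.IsPeriodicPt (fun y : Om => y ^ 4) d x := by
    rw [Function.IsPeriodicPt, Function.IsFixedPt, hit, h1]
  have a2 : Function.IsPeriodicPt (fun y : Om => y ^ 4) e x := by
    rw [Function.IsPeriodicPt, Function.IsFixedPt, hit, h2]
  have a3 := a1.gcd a2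
  rw [Function.IsPeriodicPt, Function.IsFixedPt, hit] at a3
  exact a3

/-- The data of the intersection of two of the fields. -/
structure IsInf (g d e : ℕ) : Prop where
  eq : g = Nat.gcd d e
  pos : 0 < g
  left : ∀ x : Om, x ∈ KK g → x ∈ KK d
  right : ∀ x : Om, x ∈ KK g → x ∈ KK e
  inf : ∀ x : Om, x ∈ KK d → x ∈ KK e → x ∈ KK g

theorem exists_isInf (d e : ℕ) (hd : 0 < d) : ∃ g, IsInf g d e :=
  ⟨Nat.gcd d e, rfl, Nat.gcd_pos_of_pos_left _ hd, fun _ h => KK_le_left d e h,
    fun _ h => KK_le_right d e h, fun _ h1 h2 => mem_gcd h1 h2⟩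

/-- The inclusion. -/
noncomputable def inc {g d : ℕ} (h : ∀ x : Om, x ∈ KK g → x ∈ KK d) : KK g →+* KK d where
  toFun x := ⟨x.1, h x.1 x.2⟩
  map_one' := Subtype.ext rfl
  map_zero' := Subtype.ext rfl
  map_mul' _ _ := Subtype.ext rfl
  map_add' _ _ := Subtype.ext rfl

theorem mk_coe {d : ℕ} (x : Om) (hx : x ∈ KK d) : ((⟨x, hx⟩ : KK d) : Om) = x := rfl

/- The proof avoids `rfl` across two of the fields, which is slow in the kernel. -/
theorem inc_coe {g d : ℕ} (h : ∀ x : Om, x ∈ KK g → x ∈ KK d) (x : KK g) :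
    (inc h x : Om) = x := mk_coe x.1 (h x.1 x.2)

theorem inc_mk {g d : ℕ} (h : ∀ x : Om, x ∈ KK g → x ∈ KK d) (x : KK d) (hx : (x : Om) ∈ KK g) :
    inc h ⟨x.1, hx⟩ = x := Subtype.ext ((inc_coe h _).trans (mk_coe _ _))

theorem card_eq_gcd {g d e s : ℕ} (hg : IsInf g d e) (hd : 0 < d)
    (h : Nat.card (KK d) = Nat.card (KK g) ^ s) : s = d / Nat.gcd d e := by
  rw [card_KK d hd, card_KK _ hg.pos, ← pow_mul] at h
  have h2 := Nat.pow_right_injective (le_refl 2 |>.trans (by norm_num : 2 ≤ 4)) h
  rw [← hg.eq]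
  exact (Nat.div_eq_of_eq_mul_right hg.pos h2).symm

/-- Trace-dual bases of a finite extension of finite fields. -/
theorem exists_dual_bases (F K : Type) [Field F] [Field K] [Finite F] [Finite K] (i : F →+* K) :
    ∃ (s : ℕ) (b bs : Fin s → K) (tr : K →+ F), (∀ c x, tr (i c * x) = c * tr x) ∧
      (∀ x, ∑ t, i (tr (x * bs t)) * b t = x) ∧ (∀ x, ∑ t, i (tr (x * b t)) * bs t = x) ∧
      Nat.card K = Nat.card F ^ s := by
  classical
  let _ : Algebra F K := i.toAlgebra
  have : Module.Finite F K := Module.Finite.of_finite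
  have hsm : ∀ (c : F) (x : K), c • x = i c * x := fun c x => rfl
  have hB : (Algebra.traceForm F K).Nondegenerate := traceForm_nondegenerate _ _
  have hsymm : (Algebra.traceForm F K).IsSymm := Algebra.traceForm_isSymm _
  refine ⟨Module.finrank F K, Module.finBasis F K,
    (Algebra.traceForm F K).dualBasis hB (Module.finBasis F K),
    (Algebra.trace F K).toAddMonoidHom, ?_, ?_, ?_, Module.natCard_eq_pow_finrank⟩
  · intro c x
    change Algebra.trace F K (i c * x) = c * Algebra.trace F K x
    rw [← hsm, map_smul, smul_eq_mul]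
  · intro x
    conv_rhs => rw [← ((Algebra.traceForm F K).dualBasis hB
      ((Algebra.traceForm F K).dualBasis hB (Module.finBasis F K))).sum_repr x]
    rw [LinearMap.BilinForm.dualBasis_dualBasis hB hsymm]
    refine Finset.sum_congr rfl fun t _ => ?_
    rw [← LinearMap.BilinForm.dualBasis_dualBasis hB hsymm (Module.finBasis F K),
      LinearMap.BilinForm.dualBasis_repr_apply, hsm,
      LinearMap.BilinForm.dualBasis_dualBasis hB hsymm]
    rfl
  · intro x
    conv_rhs => rw [← ((Algebra.traceForm F K).dualBasis hB (Module.finBasis F K)).sum_repr x]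
    refine Finset.sum_congr rfl fun t _ => ?_
    rw [LinearMap.BilinForm.dualBasis_repr_apply, hsm]
    rfl

/-- The number of semilinear maps. -/
theorem exists_card_maps (F K V : Type) [Field F] [Field K] [Finite F] [Finite K] (i : F →+* K)
    [AddCommGroup V] [Module F V] :
    ∃ s : ℕ, Nat.card K = Nat.card F ^ s ∧
      Nat.card {f : K →+ V // ∀ c x, f (i c * x) = c • f x} = Nat.card V ^ s := by
  classical
  let _ : Algebra F K := i.toAlgebra
  have : Module.Finite F K := Module.Finite.of_finite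
  refine ⟨Module.finrank F K, Module.natCard_eq_pow_finrank, ?_⟩
  let E1 : {f : K →+ V // ∀ c x, f (i c * x) = c • f x} ≃ (K →ₗ[F] V) :=
    { toFun := fun f =>
        { toFun := f.1
          map_add' := fun x y => map_add f.1 x y
          map_smul' := fun c x => f.2 c x }
      invFun := fun g => ⟨g.toAddMonoidHom, fun c x => g.map_smul c x⟩
      left_inv := fun f => rfl
      right_inv := fun g => rfl }
  have E2 : (Fin (Module.finrank F K) → V) ≃ (K →ₗ[F] V) :=
    ((Module.finBasis F K).constr (M' := V) ℕ).toEquiv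
  rw [Nat.card_congr (E1.trans E2.symm), Nat.card_fun, Nat.card_eq_fintype_card (α := Fin _),
    Fintype.card_fin]

end PiAux

open PiAux

theorem exists_dualFam (d e : ℕ) (hd : 0 < d) (_he : 0 < e) : Nonempty (DualFam d e) := by
  obtain ⟨g, hg⟩ := exists_isInf d e hd
  have := finite_KK d hd
  have := finite_KK _ hg.pos
  obtain ⟨s, b, bs, tr, h1, h2, h3, h4⟩ := exists_dual_bases (KK g) (KK d) (inc hg.left)
  refine ⟨{ s := s
            b := b
            bs := bs
            trD := (inc hg.left).toAddMonoidHom.comp tr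
            trE := (inc hg.right).toAddMonoidHom.comp tr
            tr_eq := ?_
            tr_mul := ?_
            expand := h2
            expand' := h3
            card := card_eq_gcd hg hd h4 }⟩
  · intro x
    change ((inc hg.left (tr x) : KK d) : Om) = (inc hg.right (tr x) : KK e)
    rw [inc_coe, inc_coe]
  · intro c c' h x
    have hc : (c : Om) ∈ KK g := hg.inf _ c.2 (h ▸ c'.2)
    have h1' := inc_mk hg.left c hc
    change inc hg.left (tr (c * x)) = c * inc hg.left (tr x)
    conv_lhs => rw [← h1', h1, map_mul]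
    rw [h1']

/-- The Casimir property: moving a scalar across the dual families. -/
theorem DualFam.casimir {d e : ℕ} (D : DualFam d e) {A : Type} [AddCommGroup A]
    (F : KK d →+ KK d →+ A)
    (hF : ∀ (l : KK d) (l' : KK e), (l : Om) = (l' : Om) → ∀ x y, F (x * l) y = F x (l * y))
    (c : KK d) : ∑ t, F (c * D.bs t) (D.b t) = ∑ t, F (D.bs t) (D.b t * c) := by
  have h1 : ∀ t, F (D.bs t) (D.b t * c) =
      ∑ s, F (D.bs t * D.trD (D.b t * c * D.bs s)) (D.b s) := by
    intro t
    conv_lhs => rw [← D.expand (D.b t * c)]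
    rw [map_sum]
    refine Finset.sum_congr rfl fun s _ => ?_
    rw [hF _ _ (D.tr_eq _)]
  have h2 : ∀ s, F (c * D.bs s) (D.b s) =
      ∑ t, F (D.bs t * D.trD (D.b t * c * D.bs s)) (D.b s) := by
    intro s
    conv_lhs => rw [← D.expand' (c * D.bs s)]
    rw [map_sum, AddMonoidHom.finsetSum_apply]
    refine Finset.sum_congr rfl fun t _ => ?_
    congr 2
    rw [mul_comm]
    congr 2
    ring
  rw [Finset.sum_congr rfl fun t _ => h1 t, Finset.sum_congr rfl fun t _ => h2 t,
    Finset.sum_comm]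

theorem DualFam.sum_tr {d e : ℕ} (D : DualFam d e) : ∑ t, D.trD (D.b t) * D.bs t = 1 := by
  have h := D.expand' 1
  simpa using h

/-- Cardinality of the coinduced space. -/
theorem card_coind (d e : ℕ) (hd : 0 < d) (_he : 0 < e) (V : Type) [AddCommGroup V]
    [Module (KK e) V] [Finite V] :
    Nat.card (SL d e (KK d) V) = Nat.card V ^ (d / Nat.gcd d e) := by
  obtain ⟨g, hg⟩ := exists_isInf d e hd
  let _ : Module (KK g) V := Module.compHom V (inc hg.right)
  have := finite_KK d hd
  have := finite_KK _ hg.pos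
  obtain ⟨s, h1, h2⟩ := exists_card_maps (KK g) (KK d) V (inc hg.left)
  have hs := card_eq_gcd hg hd h1
  rw [← hs, ← h2]
  refine Nat.card_congr (Equiv.subtypeEquivRight fun f => ?_)
  constructor
  · intro h c x
    exact h (inc hg.left c) (inc hg.right c) ((inc_coe _ _).trans (inc_coe _ _).symm) x
  · intro h c c' hcc v
    have hc : (c : Om) ∈ KK g := hg.inf _ c.2 (hcc ▸ c'.2)
    have h1 := inc_mk hg.left c hc
    have h2 : inc hg.right ⟨c.1, hc⟩ = c' :=
      Subtype.ext (((inc_coe _ _).trans (mk_coe _ _)).trans hcc)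
    have h3 := h ⟨c.1, hc⟩ v
    rw [h1] at h3
    change f (c * v) = c' • f v
    rw [h3, ← h2]
    rfl

end Pool.Agent.RootConj
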