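import Pool.Agent.RootConj.PiB0

set_option autoImplicit false
set_option linter.unusedSectionVars false

/-!
# The reflection functor for double representations: the two cases
-/

noncomputable section

namespace Pool.Agent.RootConj

open PiAux

namespace Species

variable {ι : Type} [Fintype ι] [DecidableEq ι]

namespace PiRefl

variable {S : Species ι}

theorem finite_KK' (S : Species ι) (k : S.J) : Finite (KK (S.κ k)) := finite_KK _ (S.κ_pos k)

theorem finite_WW (M : DObj S) (k : S.J) : Finite (WW M k) := by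
  have := finite_KK' S k
  infer_instance

/-- The cardinality of a vector space. -/
theorem card_eq (d : ℕ) (hd : 0 < d) (V : Type) [AddCommGroup V] [Module (KK d) V] [Finite V] :
    Nat.card V = 4 ^ (d * Module.finrank (KK d) V) := by
  have : Module.Finite (KK d) V := Module.Finite.of_finite
  rw [Module.natCard_eq_pow_finrank (K := KK d), card_KK d hd, pow_mul]

theorem finrank_WW (M : DObj S) (k : S.J) :
    S.κ k * Module.finrank (KK (S.κ k)) (WW M k) =
      ∑ j, (S.mult k j + S.mult j k) * Nat.lcm (S.κ k) (S.κ j) * M.dm j := by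
  have hf := finite_WW M k
  have h1 := card_eq (S.κ k) (S.κ_pos k) (WW M k)
  have h2 : ∀ j, Nat.card (Co (S.κ k) (S.κ j) (M.V j)) =
      4 ^ (Nat.lcm (S.κ k) (S.κ j) * M.dm j) := by
    intro j
    change Nat.card (SL (S.κ k) (S.κ j) (KK (S.κ k)) (M.V j)) = _
    rw [card_coind _ _ (S.κ_pos k) (S.κ_pos j), card_eq (S.κ j) (S.κ_pos j) (M.V j), ← pow_mul]
    congr 1
    have hl : Nat.lcm (S.κ k) (S.κ j) = S.κ j * (S.κ k / Nat.gcd (S.κ k) (S.κ j)) := by
      rw [Nat.lcm, mul_comm, Nat.mul_div_assoc _ (Nat.gcd_dvd_left _ _)]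
    rw [hl]
    unfold DObj.dm
    ring
  have h3 : Nat.card (WW M k) =
      4 ^ (∑ j, (S.mult k j + S.mult j k) * Nat.lcm (S.κ k) (S.κ j) * M.dm j) := by
    rw [Nat.card_pi, ← Finset.prod_pow_eq_pow_sum]
    refine Finset.prod_congr rfl fun j _ => ?_
    rw [Nat.card_pi, Finset.prod_congr rfl fun r _ => h2 j, Finset.prod_const, Finset.card_univ,
      Fintype.card_sum, Fintype.card_fin, Fintype.card_fin, ← pow_mul]
    congr 1
    ring
  rw [h1] at h3
  exact Nat.pow_right_injective (le_refl 2 |>.trans (by norm_num : 2 ≤ 4)) h3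

section Cases

variable (D : ∀ i j : S.J, DualFam (S.κ i) (S.κ j)) (M : DObj S) (k : S.J)

/-- Extension of a family of endomorphisms by a map at `k`. -/
theorem brick_use (hk : S.mult k k = 0) (hM : M.Brick)
    (f : ∀ j, M.V j →ₗ[KK (S.κ j)] M.V j) (fk : M.V k →ₗ[KK (S.κ k)] M.V k)
    (h0 : ∀ i j, i ≠ k → j ≠ k → ∀ r v, f j ((mp M i j r).1 v) = (mp M i j r).1 (f i v))
    (h1 : ∀ j, j ≠ k → ∀ r v, f j ((mp M k j r).1 v) = (mp M k j r).1 (fk v))
    (h2 : ∀ j, j ≠ k → ∀ r v, fk ((mp M j k r).1 v) = (mp M j k r).1 (f j v))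
    (hne : (∃ j, j ≠ k ∧ f j ≠ 0) ∨ fk ≠ 0) :
    (∀ j, j ≠ k → Function.Injective (f j)) ∧ Function.Injective fk := by
  have hE := isEmpty_Ar hk
  rw [brick_iff] at hM
  have h := hM (Function.update f k fk) ?_ ?_
  · constructor
    · intro j hj
      have := h j
      rwa [Function.update_of_ne hj] at this
    · have := h k
      rwa [Function.update_self] at this
  · intro i j r v
    by_cases hi : i = k
    · subst hi
      by_cases hj : j = i
      · subst hj
        exact hE.elim r
      · rw [Function.update_self, Function.update_of_ne hj, h1 j hj]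
    · by_cases hj : j = k
      · subst hj
        rw [Function.update_self, Function.update_of_ne hi, h2 i hi]
      · rw [Function.update_of_ne hi, Function.update_of_ne hj, h0 i j hi hj]
  · intro hz
    rcases hne with ⟨j, hj, hfj⟩ | hfk
    · apply hfj
      have := congrFun hz j
      rwa [Function.update_of_ne hj] at this
    · apply hfk
      have := congrFun hz k
      rwa [Function.update_self] at this

theorem brick_dich (hk : S.mult k k = 0) (hM : M.Brick)
    (hne : ∃ j, j ≠ k ∧ Nontrivial (M.V j)) :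
    Function.Surjective (bb D M k) ∨ Function.Injective (aa M k) := by
  by_contra hcon
  push Not at hcon
  obtain ⟨hs, hi⟩ := hcon
  -- a functional vanishing on the image of `bb`
  have hlt : LinearMap.range (bb D M k) < ⊤ :=
    lt_top_iff_ne_top.2 fun h => hs (LinearMap.range_eq_top.1 h)
  obtain ⟨θ, hθ, hθ'⟩ := Submodule.exists_le_ker_of_lt_top _ hlt
  have hker : LinearMap.ker (aa M k) ≠ ⊥ := fun h => hi (LinearMap.ker_eq_bot.1 h)
  obtain ⟨v0, hv0, hv0'⟩ := Submodule.exists_mem_ne_zero_of_ne_bot hker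
  have hv : ∀ (j : S.J) (r : Ar S k j) (x : KK (S.κ k)), (mp M k j r).1 (x • v0) = 0 := by
    intro j r x
    rw [← ev_aa M k v0 j r x, LinearMap.mem_ker.1 hv0]
    rfl
  have hθb : ∀ j (r : Ar S j k) u, θ ((mp M j k r).1 u) = 0 := by
    intro j r u
    have h := bb_io D M k j r.swap u
    rw [Sum.swap_swap] at h
    rw [← h]
    exact hθ' ⟨_, rfl⟩
  have key := brick_use M k hk hM (fun j => 0) (θ.smulRight v0) ?_ ?_ ?_ ?_
  · obtain ⟨j, hj, hnt⟩ := hne
    obtain ⟨x, y, hxy⟩ := hnt
    exact hxy (key.1 j hj rfl)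
  · intro i j hi hj r v
    simp
  · intro j hj r v
    rw [LinearMap.smulRight_apply, hv, LinearMap.zero_apply]
  · intro j hj r v
    rw [LinearMap.smulRight_apply, hθb, zero_smul, LinearMap.zero_apply, map_zero]
  · right
    intro h
    apply hθ
    refine LinearMap.ext fun v => ?_
    have h' := congrArg (fun q => q v) h
    simp only [LinearMap.smulRight_apply, LinearMap.zero_apply] at h'
    rcases smul_eq_zero.1 h' with h'' | h''
    · exact h''
    · exact absurd h'' hv0'

theorem mapW_eq_zero (hk : S.mult k k = 0) (f : ∀ j, M.V j →ₗ[KK (S.κ j)] M.V j)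
    (h : ∀ j, j ≠ k → f j = 0) (w : WW M k) : mapW M k f w = 0 := by
  have hE := isEmpty_Ar hk
  refine W_ext M k fun j r x => ?_
  have hj : j ≠ k := by
    rintro rfl
    exact hE.elim r
  rw [ev_mapW, h j hj]
  rfl

theorem mapW_injective (hk : S.mult k k = 0) (f : ∀ j, M.V j →ₗ[KK (S.κ j)] M.V j)
    (h : ∀ j, j ≠ k → Function.Injective (f j)) : Function.Injective (mapW M k f) := by
  have hE := isEmpty_Ar hk
  intro w w' hw
  refine W_ext M k fun j r x => ?_
  have hj : j ≠ k := by
    rintro rfl
    exact hE.elim r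
  apply h j hj
  rw [← ev_mapW, ← ev_mapW, hw]

/-- The leg for surjective `bb`. -/
def legB (hrel : M.Rel D k) : Leg M k where
  N := LinearMap.ker (bb D M k)
  fin := by
    have := finite_WW M k
    infer_instance
  α := fun j r => pre (ev1 M k j r) (LinearMap.ker (bb D M k)).subtype
  β := fun j r => post ((aa M k).codRestrict (LinearMap.ker (bb D M k))
    fun v => LinearMap.mem_ker.2 (bb_aa D M k hrel v)) (mp M j k r)

/-- The leg for injective `aa`. -/
def legA (hrel : M.Rel D k) : Leg M k where
  N := WW M k ⧸ LinearMap.range (aa M k)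
  fin := by
    have := finite_WW M k
    exact Finite.of_surjective _ (Submodule.mkQ_surjective (LinearMap.range (aa M k)))
  α := fun j r => pre (mp M k j r) ((LinearMap.range (aa M k)).liftQ (bb D M k) (by
    rintro _ ⟨v, rfl⟩
    exact LinearMap.mem_ker.2 (bb_aa D M k hrel v)))
  β := fun j r => post (LinearMap.range (aa M k)).mkQ (io D M k j r.swap)

theorem caseB (hk : S.mult k k = 0) (hrel : M.Rel D k) (hM : M.Brick)
    (hb : Function.Surjective (bb D M k)) :
    ∃ M' : DObj S, M'.Brick ∧ M'.Rel D k ∧ (∀ j, j ≠ k → M.Rel D j → M'.Rel D j) ∧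
      (∀ j, j ≠ k → M'.dm j = M.dm j) ∧
      M'.dm k + M.dm k = Module.finrank (KK (S.κ k)) (WW M k) := by
  have hE := isEmpty_Ar hk
  have H := glue D M k hk (legB D M k hrel) ?_ ?_ ?_
  · obtain ⟨M', h1, h2, h3, h4, h5⟩ := H
    refine ⟨M', h1, h2, h3, h4, ?_⟩
    rw [h5]
    have hfin := finite_WW M k
    have : Module.Finite (KK (S.κ k)) (WW M k) := Module.Finite.of_finite
    have hr := LinearMap.finrank_range_add_finrank_ker (bb D M k)
    rw [LinearMap.range_eq_top.2 hb, finrank_top] at hr
    rw [← hr, add_comm]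
    rfl
  · intro (n : LinearMap.ker (bb D M k))
    let A := (aa M k).codRestrict (LinearMap.ker (bb D M k))
      fun v => LinearMap.mem_ker.2 (bb_aa D M k hrel v)
    change ∑ j, ∑ r : Ar S k j, ∑ t : Fin (D k j).s, (D k j).bs t •
      A ((mp M j k r.swap).1 ((ev1 M k j r).1 ((D k j).b t • (n : WW M k)))) = 0
    have h := LinearMap.mem_ker.1 n.2
    have h' : A (bb D M k n) = 0 := by rw [h, map_zero]
    rw [← h', bb_apply, map_sum]
    refine Finset.sum_congr rfl fun j _ => ?_
    rw [map_sum]
    refine Finset.sum_congr rfl fun r _ => ?_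
    rw [bt_apply, map_sum]
    refine Finset.sum_congr rfl fun t _ => ?_
    rw [ev1_smul, LinearMap.map_smul]
  · intro j hj r u
    change ev (aa M k ((mp M j k r).1 u) j r.swap) 1 = _
    rw [ev_aa, one_smul]
  · intro f (g : LinearMap.ker (bb D M k) →ₗ[KK (S.κ k)] LinearMap.ker (bb D M k))
      hf hα hβ hne
    have hα' : ∀ j, j ≠ k → ∀ (r : Ar S k j) (n : LinearMap.ker (bb D M k)),
        f j ((ev1 M k j r).1 (n : WW M k)) = (ev1 M k j r).1 (g n : WW M k) := hα
    have hβ' : ∀ j, j ≠ k → ∀ (r : Ar S j k) (u : M.V j) (hu hu'),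
        g ⟨aa M k ((mp M j k r).1 u), hu⟩ = ⟨aa M k ((mp M j k r).1 (f j u)), hu'⟩ :=
      fun j hj r u _ _ => hβ j hj r u
    -- the first claim
    have c1 : ∀ n : LinearMap.ker (bb D M k), (g n : WW M k) = mapW M k f n := by
      intro n
      refine W_ext M k fun j r x => ?_
      have hj : j ≠ k := by
        rintro rfl
        exact hE.elim r
      rw [ev_mapW, ← ev1_smul, ← ev1_smul]
      have h := hα' j hj r (x • n)
      rw [map_smul] at h
      exact h.symm
    have c2 : LinearMap.ker (bb D M k) ≤ LinearMap.ker ((bb D M k).comp (mapW M k f)) := by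
      intro w hw
      rw [LinearMap.mem_ker, LinearMap.comp_apply]
      have := c1 ⟨w, hw⟩
      rw [← this]
      exact LinearMap.mem_ker.1 (g ⟨w, hw⟩).2
    let fk : M.V k →ₗ[KK (S.κ k)] M.V k :=
      ((LinearMap.ker (bb D M k)).liftQ ((bb D M k).comp (mapW M k f)) c2).comp
        ((bb D M k).quotKerEquivOfSurjective hb).symm.toLinearMap
    have c3 : ∀ w, fk (bb D M k w) = bb D M k (mapW M k f w) := by
      intro w
      have : ((bb D M k).quotKerEquivOfSurjective hb).symm (bb D M k w) =
          (LinearMap.ker (bb D M k)).mkQ w := by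
        rw [LinearEquiv.symm_apply_eq]
        rfl
      change (LinearMap.ker (bb D M k)).liftQ ((bb D M k).comp (mapW M k f)) c2
        (((bb D M k).quotKerEquivOfSurjective hb).symm (bb D M k w)) = _
      rw [this]
      rfl
    have c4 : (mapW M k f).comp ((aa M k).comp (bb D M k)) =
        (aa M k).comp ((bb D M k).comp (mapW M k f)) := by
      refine hom_ext_W D M k _ _ fun j r u => ?_
      have hj : j ≠ k := by
        rintro rfl
        exact hE.elim r
      rw [LinearMap.comp_apply, LinearMap.comp_apply, LinearMap.comp_apply,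
        LinearMap.comp_apply, mapW_io, bb_io, bb_io]
      have h := hβ' j hj r.swap u (LinearMap.mem_ker.2 (bb_aa D M k hrel _))
        (LinearMap.mem_ker.2 (bb_aa D M k hrel _))
      have h' := c1 ⟨aa M k ((mp M j k r.swap).1 u), LinearMap.mem_ker.2 (bb_aa D M k hrel _)⟩
      rw [h] at h'
      exact h'.symm
    have c5 : ∀ v, mapW M k f (aa M k v) = aa M k (fk v) := by
      intro v
      obtain ⟨w, rfl⟩ := hb v
      rw [c3]
      exact congrArg (fun q => q w) c4
    have key := brick_use M k hk hM f fk hf ?_ ?_ ?_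
    · refine ⟨key.1, ?_⟩
      intro (n : LinearMap.ker (bb D M k)) (n' : LinearMap.ker (bb D M k)) (hn : g n = g n')
      apply Subtype.ext
      apply mapW_injective M k hk f key.1
      rw [← c1, ← c1, hn]
    · intro j hj r v
      have h := congrArg (fun w : WW M k => ev (w j r) 1) (c5 v)
      simp only [ev_mapW, ev_aa, one_smul] at h
      exact h
    · intro j hj r v
      have h := bb_io D M k j r.swap v
      have h' := bb_io D M k j r.swap (f j v)
      rw [Sum.swap_swap] at h h'
      rw [← h, ← h', c3, mapW_io]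
    · rcases hne with h | h
      · exact Or.inl h
      · by_contra hcon
        push Not at hcon
        apply h
        refine LinearMap.ext fun n => ?_
        apply Subtype.ext
        rw [c1, mapW_eq_zero M k hk f hcon.1]
        rfl

theorem caseA (hk : S.mult k k = 0) (hrel : M.Rel D k) (hM : M.Brick)
    (ha : Function.Injective (aa M k)) :
    ∃ M' : DObj S, M'.Brick ∧ M'.Rel D k ∧ (∀ j, j ≠ k → M.Rel D j → M'.Rel D j) ∧
      (∀ j, j ≠ k → M'.dm j = M.dm j) ∧
      M'.dm k + M.dm k = Module.finrank (KK (S.κ k)) (WW M k) := by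
  have hE := isEmpty_Ar hk
  have hle : LinearMap.range (aa M k) ≤ LinearMap.ker (bb D M k) := by
    rintro _ ⟨v, rfl⟩
    exact LinearMap.mem_ker.2 (bb_aa D M k hrel v)
  have H := glue D M k hk (legA D M k hrel) ?_ ?_ ?_
  · obtain ⟨M', h1, h2, h3, h4, h5⟩ := H
    refine ⟨M', h1, h2, h3, h4, ?_⟩
    rw [h5]
    have hfin := finite_WW M k
    have : Module.Finite (KK (S.κ k)) (WW M k) := Module.Finite.of_finite
    have hr := Submodule.finrank_quotient_add_finrank (LinearMap.range (aa M k))
    rw [LinearMap.finrank_range_of_inj ha] at hr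
    exact hr
  · intro (n : WW M k ⧸ LinearMap.range (aa M k))
    obtain ⟨w, rfl⟩ := Submodule.mkQ_surjective _ n
    change ∑ j, ∑ r : Ar S k j, ∑ t : Fin (D k j).s, (D k j).bs t •
      (LinearMap.range (aa M k)).mkQ ((io D M k j r.swap.swap).1 ((mp M k j r).1
        ((LinearMap.range (aa M k)).liftQ (bb D M k) hle
          ((D k j).b t • (LinearMap.range (aa M k)).mkQ w)))) = 0
    have h : (LinearMap.range (aa M k)).mkQ (aa M k (bb D M k w)) = 0 := by
      rw [Submodule.mkQ_apply, Submodule.Quotient.mk_eq_zero]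
      exact ⟨_, rfl⟩
    rw [← h]
    conv_rhs => rw [← recon_W D M k (aa M k (bb D M k w)), map_sum]
    refine Finset.sum_congr rfl fun j _ => ?_
    rw [map_sum]
    refine Finset.sum_congr rfl fun r _ => ?_
    rw [map_sum]
    refine Finset.sum_congr rfl fun t _ => ?_
    have e : (LinearMap.range (aa M k)).liftQ (bb D M k) hle
        ((D k j).b t • (LinearMap.range (aa M k)).mkQ w) = (D k j).b t • bb D M k w := by
      rw [LinearMap.map_smul]
      rfl
    rw [e, Sum.swap_swap, ev_aa, LinearMap.map_smul]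
  · intro j hj r u
    change (mp M k j r.swap).1 (bb D M k ((io D M k j r.swap).1 u)) = _
    rw [bb_io, Sum.swap_swap]
  · intro f (g : (WW M k ⧸ LinearMap.range (aa M k)) →ₗ[KK (S.κ k)]
      (WW M k ⧸ LinearMap.range (aa M k))) hf hα hβ hne
    let Q := (LinearMap.range (aa M k)).mkQ
    have hα' : ∀ j, j ≠ k → ∀ (r : Ar S k j) (n : WW M k ⧸ LinearMap.range (aa M k)),
        f j ((mp M k j r).1 ((LinearMap.range (aa M k)).liftQ (bb D M k) hle n)) =
          (mp M k j r).1 ((LinearMap.range (aa M k)).liftQ (bb D M k) hle (g n)) := hα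
    have hβ' : ∀ j, j ≠ k → ∀ (r : Ar S j k) (u : M.V j),
        g (Q ((io D M k j r.swap).1 u)) = Q ((io D M k j r.swap).1 (f j u)) := hβ
    have c1 : g.comp Q = Q.comp (mapW M k f) := by
      refine hom_ext_W D M k _ _ fun j r u => ?_
      have hj : j ≠ k := by
        rintro rfl
        exact hE.elim r
      rw [LinearMap.comp_apply, LinearMap.comp_apply, mapW_io]
      have h := hβ' j hj r.swap u
      rw [Sum.swap_swap] at h
      exact h
    have c1' : ∀ w, g (Q w) = Q (mapW M k f w) := fun w => congrArg (fun q => q w) c1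
    have c2 : ∀ v, mapW M k f (aa M k v) ∈ LinearMap.range (aa M k) := by
      intro v
      rw [← Submodule.Quotient.mk_eq_zero, ← Submodule.mkQ_apply]
      have h : Q (aa M k v) = 0 := by
        rw [Submodule.mkQ_apply, Submodule.Quotient.mk_eq_zero]
        exact ⟨_, rfl⟩
      have h' := c1' (aa M k v)
      rw [h, map_zero] at h'
      exact h'.symm
    let fk : M.V k →ₗ[KK (S.κ k)] M.V k :=
      (LinearEquiv.ofInjective (aa M k) ha).symm.toLinearMap.comp
        (((mapW M k f).comp (aa M k)).codRestrict (LinearMap.range (aa M k)) c2)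
    have c3 : ∀ v, mapW M k f (aa M k v) = aa M k (fk v) := by
      intro v
      have h := (LinearEquiv.ofInjective (aa M k) ha).apply_symm_apply
        (((mapW M k f).comp (aa M k)).codRestrict (LinearMap.range (aa M k)) c2 v)
      have h' := congrArg Subtype.val h
      exact h'.symm
    have c4 : ∀ w, fk (bb D M k w) = bb D M k (mapW M k f w) := by
      intro w
      apply ha
      rw [← c3]
      refine W_ext M k fun j r x => ?_
      have hj : j ≠ k := by
        rintro rfl
        exact hE.elim r
      have h := hα' j hj r (Q (x • w))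
      rw [c1'] at h
      have h1 : ∀ w' : WW M k, (LinearMap.range (aa M k)).liftQ (bb D M k) hle (Q w') =
          bb D M k w' := fun w' => rfl
      rw [h1, h1, (mapW M k f).map_smul, (bb D M k).map_smul, (bb D M k).map_smul] at h
      rw [ev_mapW, ev_aa, ev_aa, h]
    have key := brick_use M k hk hM f fk hf ?_ ?_ ?_
    · refine ⟨key.1, ?_⟩
      refine (injective_iff_map_eq_zero g).2 ?_
      intro (n : WW M k ⧸ LinearMap.range (aa M k)) hn
      obtain ⟨w, rfl⟩ := Submodule.mkQ_surjective _ n
      have h1 : Q (mapW M k f w) = 0 := by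
        rw [← c1']
        exact hn
      rw [Submodule.mkQ_apply, Submodule.Quotient.mk_eq_zero] at h1
      obtain ⟨v, hv⟩ := h1
      obtain ⟨v', rfl⟩ := (Finite.injective_iff_surjective.1 key.2) v
      rw [← c3] at hv
      have h2 := mapW_injective M k hk f key.1 hv
      rw [Submodule.mkQ_apply, Submodule.Quotient.mk_eq_zero]
      exact ⟨v', h2⟩
    · intro j hj r v
      have h := congrArg (fun w : WW M k => ev (w j r) 1) (c3 v)
      simp only [ev_mapW, ev_aa, one_smul] at h
      exact h
    · intro j hj r v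
      have h := bb_io D M k j r.swap v
      have h' := bb_io D M k j r.swap (f j v)
      rw [Sum.swap_swap] at h h'
      rw [← h, ← h', c4, mapW_io]
    · rcases hne with h | h
      · exact Or.inl h
      · by_contra hcon
        push Not at hcon
        apply h
        refine LinearMap.ext fun n => ?_
        obtain ⟨w, rfl⟩ := Submodule.mkQ_surjective _ n
        have h1 := c1' w
        rw [mapW_eq_zero M k hk f hcon.1, map_zero] at h1
        exact h1

end Cases

end PiRefl

open PiRefl in
theorem exists_reflect {S : Species ι} (D : ∀ i j : S.J, DualFam (S.κ i) (S.κ j)) (M : DObj S)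
    (k : S.J) (hk : S.mult k k = 0) (hrel : M.Rel D k) (hM : M.Brick)
    (hne : ∃ j, j ≠ k ∧ Nontrivial (M.V j)) :
    ∃ M' : DObj S, M'.Brick ∧ M'.Rel D k ∧ (∀ j, j ≠ k → M.Rel D j → M'.Rel D j) ∧
      (∀ j, j ≠ k → M'.dm j = M.dm j) ∧
      S.κ k * (M'.dm k + M.dm k) =
        ∑ j ∈ Finset.univ.erase k,
          (S.mult k j + S.mult j k) * Nat.lcm (S.κ k) (S.κ j) * M.dm j := by
  have hsum : S.κ k * Module.finrank (KK (S.κ k)) (WW M k) =
      ∑ j ∈ Finset.univ.erase k,
        (S.mult k j + S.mult j k) * Nat.lcm (S.κ k) (S.κ j) * M.dm j := by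
    rw [finrank_WW, ← Finset.add_sum_erase _ _ (Finset.mem_univ k), hk]
    simp
  rcases brick_dich D M k hk hM hne with hb | ha
  · obtain ⟨M', h1, h2, h3, h4, h5⟩ := caseB D M k hk hrel hM hb
    exact ⟨M', h1, h2, h3, h4, by rw [h5, hsum]⟩
  · obtain ⟨M', h1, h2, h3, h4, h5⟩ := caseA D M k hk hrel hM ha
    exact ⟨M', h1, h2, h3, h4, by rw [h5, hsum]⟩

end Species

end Pool.Agent.RootConj
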