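import Pool.Agent.RootConj.PiA

set_option autoImplicit false
set_option linter.unusedSectionVars false
set_option linter.unusedSimpArgs false

/-!
# The reflection functor for double representations
-/

noncomputable section

namespace Pool.Agent.RootConj

namespace Species

variable {ι : Type} [Fintype ι] [DecidableEq ι]

namespace PiRefl

/-! ### Composition of semilinear maps with linear maps -/

section SLcomp

variable {d e : ℕ} {V V' W W' : Type} [AddCommGroup V] [Module (KK d) V] [AddCommGroup V']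
  [Module (KK d) V'] [AddCommGroup W] [Module (KK e) W] [AddCommGroup W'] [Module (KK e) W']

/-- Composition with a linear map on the target. -/
def post (g : W →ₗ[KK e] W') (f : SL d e V W) : SL d e V W' :=
  ⟨g.toAddMonoidHom.comp f.1, by
    intro c c' h v
    change g (f.1 (c • v)) = c' • g (f.1 v)
    rw [f.2 c c' h v, map_smul]⟩

/-- Composition with a linear map on the source. -/
def pre (f : SL d e V W) (h : V' →ₗ[KK d] V) : SL d e V' W :=
  ⟨f.1.comp h.toAddMonoidHom, by
    intro c c' hc v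
    change f.1 (h (c • v)) = c' • f.1 (h v)
    rw [map_smul, f.2 c c' hc]⟩

theorem post_apply (g : W →ₗ[KK e] W') (f : SL d e V W) (v : V) : (post g f).1 v = g (f.1 v) := rfl

theorem pre_apply (f : SL d e V W) (h : V' →ₗ[KK d] V) (v : V') : (pre f h).1 v = f.1 (h v) := rfl

theorem add_apply (f g : SL d e V W) (v : V) : (f + g).1 v = f.1 v + g.1 v := rfl

end SLcomp

variable {S : Species ι}

/-- Arrows between `i` and `j`, in both directions. -/
abbrev Ar (S : Species ι) (i j : S.J) : Type := Fin (S.mult i j) ⊕ Fin (S.mult j i)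

/-- All the maps of a double representation. -/
def mp (M : DObj S) (i j : S.J) : Ar S i j → SL (S.κ i) (S.κ j) (M.V i) (M.V j)
  | Sum.inl r => M.φ i j r
  | Sum.inr r => M.ψ j i r

theorem rel_iff (M : DObj S) (D : ∀ i j : S.J, DualFam (S.κ i) (S.κ j)) (k : S.J) :
    M.Rel D k ↔ ∀ v : M.V k, ∑ j, ∑ r : Ar S k j, ∑ t : Fin (D k j).s,
      (D k j).bs t • (mp M j k r.swap).1 ((mp M k j r).1 ((D k j).b t • v)) = 0 := by
  unfold DObj.Rel
  refine forall_congr' fun v => ?_
  rw [← Finset.sum_add_distrib]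
  simp only [Fintype.sum_sum_type, mp, Sum.swap_inl, Sum.swap_inr, DObj.cas]

theorem brick_iff (M : DObj S) : M.Brick ↔
    ∀ f : ∀ j : S.J, M.V j →ₗ[KK (S.κ j)] M.V j,
      (∀ i j r v, f j ((mp M i j r).1 v) = (mp M i j r).1 (f i v)) → f ≠ 0 →
      ∀ j, Function.Injective (f j) := by
  unfold DObj.Brick
  refine forall_congr' fun f => ?_
  constructor
  · intro h hf
    refine h (fun i j r v => hf i j (Sum.inl r) v) (fun i j r v => hf j i (Sum.inr r) v)
  · intro h h1 h2
    refine h ?_
    rintro i j (r | r) v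
    · exact h1 i j r v
    · exact h2 j i r v

theorem isEmpty_Ar {k : S.J} (hk : S.mult k k = 0) : IsEmpty (Ar S k k) := by
  unfold Ar
  rw [hk]
  infer_instance

/-! ### Replacing the space at one vertex -/

/-- A new space for the vertex `k` with its maps. -/
structure Leg (M : DObj S) (k : S.J) where
  /-- the space -/
  N : Type
  [acg : AddCommGroup N]
  [mod : Module (KK (S.κ k)) N]
  [fin : Finite N]
  /-- outgoing maps -/
  α : ∀ j, Ar S k j → SL (S.κ k) (S.κ j) N (M.V j)
  /-- incoming maps -/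
  β : ∀ j, Ar S j k → SL (S.κ j) (S.κ k) (M.V j) N

attribute [instance] Leg.acg Leg.mod Leg.fin

section Glue

variable (M : DObj S) (k : S.J) (L : ∀ i, Leg M i)

/-- The spaces of the new object. -/
def NV (i : S.J) : Submodule (KK (S.κ i)) (M.V i × (L i).N) where
  carrier := {p | (i = k → p.1 = 0) ∧ (i ≠ k → p.2 = 0)}
  add_mem' := by
    rintro a b ⟨ha, ha'⟩ ⟨hb, hb'⟩
    exact ⟨fun h => by simp [ha h, hb h], fun h => by simp [ha' h, hb' h]⟩
  zero_mem' := ⟨fun _ => rfl, fun _ => rfl⟩
  smul_mem' := by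
    rintro c a ⟨ha, ha'⟩
    exact ⟨fun h => by simp [ha h], fun h => by simp [ha' h]⟩

/-- Inclusion of the old space. -/
def ofV (i : S.J) : M.V i →ₗ[KK (S.κ i)] NV M k L i where
  toFun v := ⟨(if i = k then 0 else v, 0), fun h => by simp [h], fun _ => rfl⟩
  map_add' u v := by
    apply Subtype.ext
    by_cases h : i = k
    · simp [h]
    · simp [h]
  map_smul' c v := by
    apply Subtype.ext
    by_cases h : i = k
    · simp [h]
    · simp [h]

/-- Inclusion of the new space. -/
def ofN (i : S.J) : (L i).N →ₗ[KK (S.κ i)] NV M k L i where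
  toFun v := ⟨(0, if i = k then v else 0), fun _ => rfl, fun h => by simp [h]⟩
  map_add' u v := by
    apply Subtype.ext
    by_cases h : i = k
    · simp [h]
    · simp [h]
  map_smul' c v := by
    apply Subtype.ext
    by_cases h : i = k
    · simp [h]
    · simp [h]

/-- Projection to the old space. -/
def toV (i : S.J) : NV M k L i →ₗ[KK (S.κ i)] M.V i :=
  (LinearMap.fst _ _ _).comp (NV M k L i).subtype

/-- Projection to the new space. -/
def toN (i : S.J) : NV M k L i →ₗ[KK (S.κ i)] (L i).N :=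
  (LinearMap.snd _ _ _).comp (NV M k L i).subtype

theorem toV_ofV {i : S.J} (h : i ≠ k) (v : M.V i) : toV M k L i (ofV M k L i v) = v := by
  simp [toV, ofV, h]

theorem toV_ofV_self (v : M.V k) : toV M k L k (ofV M k L k v) = 0 := by
  simp [toV, ofV]

theorem toV_ofN {i : S.J} (v : (L i).N) : toV M k L i (ofN M k L i v) = 0 := by
  simp [toV, ofN]

theorem toN_ofV {i : S.J} (v : M.V i) : toN M k L i (ofV M k L i v) = 0 := by
  simp [toN, ofV]

theorem toN_ofN (v : (L k).N) : toN M k L k (ofN M k L k v) = v := by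
  simp [toN, ofN]

theorem toN_of_ne {i : S.J} (h : i ≠ k) (p : NV M k L i) : toN M k L i p = 0 := p.2.2 h

theorem toV_self (p : NV M k L k) : toV M k L k p = 0 := p.2.1 rfl

theorem ext_ne {i : S.J} (h : i ≠ k) {p q : NV M k L i} (hpq : toV M k L i p = toV M k L i q) :
    p = q := by
  apply Subtype.ext
  refine Prod.ext hpq ?_
  exact (p.2.2 h).trans (q.2.2 h).symm

theorem ext_self {p q : NV M k L k} (hpq : toN M k L k p = toN M k L k q) : p = q := by
  apply Subtype.ext
  refine Prod.ext ?_ hpq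
  exact (p.2.1 rfl).trans (q.2.1 rfl).symm

theorem ofV_toV {i : S.J} (h : i ≠ k) (p : NV M k L i) : ofV M k L i (toV M k L i p) = p :=
  ext_ne M k L h (toV_ofV M k L h _)

theorem ofN_toN (p : NV M k L k) : ofN M k L k (toN M k L k p) = p :=
  ext_self M k L (toN_ofN M k L _)

/-- The maps of the new object. -/
def mm (i j : S.J) (r : Ar S i j) : SL (S.κ i) (S.κ j) (NV M k L i) (NV M k L j) :=
  post (ofV M k L j) (pre (mp M i j r) (toV M k L i)) +
    post (ofV M k L j) (pre ((L i).α j r) (toN M k L i)) +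
    post (ofN M k L j) (pre ((L j).β i r) (toV M k L i))

/-- The new object. -/
def newObj : DObj S where
  V := fun i => NV M k L i
  φ := fun i j r => mm M k L i j (Sum.inl r)
  ψ := fun i j r => mm M k L j i (Sum.inr r)

theorem mp_newObj (i j : S.J) (r : Ar S i j) : mp (newObj M k L) i j r = mm M k L i j r := by
  rcases r with r | r <;> rfl

theorem newObj_brick (h : ∀ f' : ∀ j : S.J, NV M k L j →ₗ[KK (S.κ j)] NV M k L j,
    (∀ i j r v, f' j ((mm M k L i j r).1 v) = (mm M k L i j r).1 (f' i v)) → f' ≠ 0 →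
      ∀ j, Function.Injective (f' j)) : (newObj M k L).Brick := by
  rw [brick_iff]
  intro f hf hne
  refine h f (fun i j r v => ?_) hne
  have := hf i j r v
  rw [mp_newObj] at this
  exact this

theorem newObj_rel (D : ∀ i j : S.J, DualFam (S.κ i) (S.κ j)) (i : S.J)
    (h : ∀ p : NV M k L i, ∑ j, ∑ r : Ar S i j, ∑ t : Fin (D i j).s,
      (D i j).bs t • (mm M k L j i r.swap).1 ((mm M k L i j r).1 ((D i j).b t • p)) = 0) :
    (newObj M k L).Rel D i := by
  rw [rel_iff]
  simp only [mp_newObj]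
  exact h

theorem toV_mm (i j : S.J) (hi : i ≠ k) (hj : j ≠ k) (r : Ar S i j) (p : NV M k L i) :
    toV M k L j ((mm M k L i j r).1 p) = (mp M i j r).1 (toV M k L i p) := by
  simp only [mm, add_apply, post_apply, pre_apply, map_add, toV_ofV M k L hj, toV_ofN,
    toN_of_ne M k L hi, map_zero, add_zero]

theorem toV_mm_self (j : S.J) (hj : j ≠ k) (r : Ar S k j) (p : NV M k L k) :
    toV M k L j ((mm M k L k j r).1 p) = ((L k).α j r).1 (toN M k L k p) := by
  simp only [mm, add_apply, post_apply, pre_apply, map_add, toV_ofV M k L hj, toV_ofN,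
    toV_self, map_zero, add_zero, zero_add]

theorem toN_mm (i : S.J) (r : Ar S i k) (p : NV M k L i) :
    toN M k L k ((mm M k L i k r).1 p) = ((L k).β i r).1 (toV M k L i p) := by
  simp only [mm, add_apply, post_apply, pre_apply, map_add, toN_ofV, toN_ofN,
    zero_add]

end Glue

theorem glue' (D : ∀ i j : S.J, DualFam (S.κ i) (S.κ j)) (M : DObj S) (k : S.J)
    (hk : S.mult k k = 0) (L : ∀ i, Leg M i)
    (h1 : ∀ n : (L k).N, ∑ j, ∑ r : Ar S k j, ∑ t : Fin (D k j).s,
      (D k j).bs t • ((L k).β j r.swap).1 (((L k).α j r).1 ((D k j).b t • n)) = 0)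
    (h2 : ∀ j, j ≠ k → ∀ (r : Ar S j k) (u : M.V j),
      ((L k).α j r.swap).1 (((L k).β j r).1 u) = (mp M k j r.swap).1 ((mp M j k r).1 u))
    (h3 : ∀ (f : ∀ j, M.V j →ₗ[KK (S.κ j)] M.V j) (g : (L k).N →ₗ[KK (S.κ k)] (L k).N),
      (∀ i j, i ≠ k → j ≠ k → ∀ r v, f j ((mp M i j r).1 v) = (mp M i j r).1 (f i v)) →
      (∀ j, j ≠ k → ∀ r n, f j (((L k).α j r).1 n) = ((L k).α j r).1 (g n)) →
      (∀ j, j ≠ k → ∀ r u, g (((L k).β j r).1 u) = ((L k).β j r).1 (f j u)) →
      ((∃ j, j ≠ k ∧ f j ≠ 0) ∨ g ≠ 0) →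
        (∀ j, j ≠ k → Function.Injective (f j)) ∧ Function.Injective g) :
    ∃ M' : DObj S, M'.Brick ∧ M'.Rel D k ∧ (∀ j, j ≠ k → M.Rel D j → M'.Rel D j) ∧
      (∀ j, j ≠ k → M'.dm j = M.dm j) ∧ M'.dm k = Module.finrank (KK (S.κ k)) (L k).N := by
  have hE := isEmpty_Ar hk
  refine ⟨newObj M k L, ?_, ?_, ?_, ?_, ?_⟩
  · refine newObj_brick M k L fun f' hf'' hne => ?_
    let f : ∀ j, M.V j →ₗ[KK (S.κ j)] M.V j := fun j =>
      (toV M k L j).comp ((f' j : NV M k L j →ₗ[KK (S.κ j)] NV M k L j).comp (ofV M k L j))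
    let g : (L k).N →ₗ[KK (S.κ k)] (L k).N :=
      (toN M k L k).comp ((f' k : NV M k L k →ₗ[KK (S.κ k)] NV M k L k).comp (ofN M k L k))
    have hfa : ∀ j v, f j v = toV M k L j (f' j (ofV M k L j v)) := fun j v => rfl
    have hga : ∀ n, g n = toN M k L k (f' k (ofN M k L k n)) := fun n => rfl
    have key := h3 f g ?_ ?_ ?_ ?_
    · intro j
      by_cases hj : j = k
      · subst hj
        intro (p : NV M j L j) (q : NV M j L j) hpq
        apply ext_self
        apply key.2
        rw [hga, hga, ofN_toN, ofN_toN, hpq]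
      · intro (p : NV M k L j) (q : NV M k L j) hpq
        apply ext_ne M k L hj
        apply key.1 j hj
        rw [hfa, hfa, ofV_toV M k L hj, ofV_toV M k L hj, hpq]
    · intro i j hi hj r v
      rw [hfa, hfa, ← toV_mm M k L i j hi hj r, ← hf'']
      congr 2
      apply ext_ne M k L hj
      rw [toV_ofV M k L hj, toV_mm M k L i j hi hj, toV_ofV M k L hi]
    · intro j hj r n
      rw [hfa, hga, ← toV_mm_self M k L j hj r, ← hf'']
      congr 2
      apply ext_ne M k L hj
      rw [toV_ofV M k L hj, toV_mm_self M k L j hj, toN_ofN]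
    · intro j hj r u
      rw [hfa, hga, ← toN_mm M k L j r, ← hf'']
      congr 2
      apply ext_self M k L
      rw [toN_ofN, toN_mm M k L j, toV_ofV M k L hj]
    · by_contra hcon
      push Not at hcon
      apply hne
      funext j
      refine LinearMap.ext fun (p : NV M k L j) => ?_
      by_cases hj : j = k
      · subst hj
        apply ext_self M j L
        have h := congrArg (fun q => q (toN M j L j p)) hcon.2
        simp only [LinearMap.zero_apply] at h
        rw [hga, ofN_toN] at h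
        rw [h]
        rfl
      · apply ext_ne M k L hj
        have h := congrArg (fun q => q (toV M k L j p)) (hcon.1 j hj)
        simp only [LinearMap.zero_apply] at h
        rw [hfa, ofV_toV M k L hj] at h
        rw [h]
        rfl
  · refine newObj_rel M k L D k fun p => ?_
    apply ext_self M k L
    rw [map_zero, ← h1 (toN M k L k p), map_sum]
    refine Finset.sum_congr rfl fun j _ => ?_
    rw [map_sum]
    refine Finset.sum_congr rfl fun r _ => ?_
    rw [map_sum]
    refine Finset.sum_congr rfl fun t _ => ?_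
    have hj : j ≠ k := by
      rintro rfl
      exact hE.elim r
    rw [map_smul, toN_mm, toV_mm_self M k L j hj, map_smul]
  · intro j hj
    rw [rel_iff]
    intro hM
    refine newObj_rel M k L D j fun p => ?_
    apply ext_ne M k L hj
    rw [map_zero, ← hM (toV M k L j p), map_sum]
    refine Finset.sum_congr rfl fun i _ => ?_
    rw [map_sum]
    refine Finset.sum_congr rfl fun r _ => ?_
    rw [map_sum]
    refine Finset.sum_congr rfl fun t _ => ?_
    by_cases hi : i = k
    · subst hi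
      rw [map_smul, toV_mm_self M i L j hj, toN_mm, map_smul, h2 j hj]
    · rw [map_smul, toV_mm M k L i j hi hj, toV_mm M k L j i hj hi, map_smul]
  · intro j hj
    exact LinearEquiv.finrank_eq (LinearEquiv.ofLinearMap (toV M k L j) (ofV M k L j)
      (LinearMap.ext fun v => toV_ofV M k L hj v) (LinearMap.ext fun v => ofV_toV M k L hj v))
  · exact LinearEquiv.finrank_eq (LinearEquiv.ofLinearMap (toN M k L k) (ofN M k L k)
      (LinearMap.ext fun v => toN_ofN M k L v) (LinearMap.ext fun v => ofN_toN M k L v))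

/-- The trivial leg. -/
def trivLeg (M : DObj S) (k : S.J) : Leg M k where
  N := PUnit
  α := fun _ _ => 0
  β := fun _ _ => 0

theorem glue (D : ∀ i j : S.J, DualFam (S.κ i) (S.κ j)) (M : DObj S) (k : S.J)
    (hk : S.mult k k = 0) (L : Leg M k)
    (h1 : ∀ n : L.N, ∑ j, ∑ r : Ar S k j, ∑ t : Fin (D k j).s,
      (D k j).bs t • (L.β j r.swap).1 ((L.α j r).1 ((D k j).b t • n)) = 0)
    (h2 : ∀ j, j ≠ k → ∀ (r : Ar S j k) (u : M.V j),
      (L.α j r.swap).1 ((L.β j r).1 u) = (mp M k j r.swap).1 ((mp M j k r).1 u))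
    (h3 : ∀ (f : ∀ j, M.V j →ₗ[KK (S.κ j)] M.V j) (g : L.N →ₗ[KK (S.κ k)] L.N),
      (∀ i j, i ≠ k → j ≠ k → ∀ r v, f j ((mp M i j r).1 v) = (mp M i j r).1 (f i v)) →
      (∀ j, j ≠ k → ∀ r n, f j ((L.α j r).1 n) = (L.α j r).1 (g n)) →
      (∀ j, j ≠ k → ∀ r u, g ((L.β j r).1 u) = (L.β j r).1 (f j u)) →
      ((∃ j, j ≠ k ∧ f j ≠ 0) ∨ g ≠ 0) →
        (∀ j, j ≠ k → Function.Injective (f j)) ∧ Function.Injective g) :
    ∃ M' : DObj S, M'.Brick ∧ M'.Rel D k ∧ (∀ j, j ≠ k → M.Rel D j → M'.Rel D j) ∧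
      (∀ j, j ≠ k → M'.dm j = M.dm j) ∧ M'.dm k = Module.finrank (KK (S.κ k)) L.N := by
  obtain ⟨L', rfl⟩ : ∃ L' : ∀ i, Leg M i, L' k = L :=
    ⟨Function.update (fun i => trivLeg M i) k L, Function.update_self _ _ _⟩
  exact glue' D M k hk L' h1 h2 h3

/-! ### Coinduced spaces -/

section Coind

variable {d e : ℕ} {V V' : Type} [AddCommGroup V] [Module (KK e) V] [AddCommGroup V']
  [Module (KK e) V']

/-- Coinduced spaces. -/
def Co (d e : ℕ) (V : Type) [AddCommGroup V] [Module (KK e) V] : Type := SL d e (KK d) V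

instance : AddCommGroup (Co d e V) := inferInstanceAs (AddCommGroup (SL d e (KK d) V))

/-- Evaluation. -/
def ev (g : Co d e V) : KK d →+ V := g.1

theorem ev_mul (g : Co d e V) (c : KK d) (c' : KK e) (h : (c : Om) = (c' : Om)) (x : KK d) :
    ev g (c * x) = c' • ev g x := g.2 c c' h x

theorem ev_ext {g h : Co d e V} (H : ∀ x, ev g x = ev h x) : g = h :=
  Subtype.ext (AddMonoidHom.ext H)

/-- Construction of elements. -/
def mkCo (f : KK d →+ V) (hf : ∀ (c : KK d) (c' : KK e), (c : Om) = (c' : Om) →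
    ∀ x, f (c * x) = c' • f x) : Co d e V := ⟨f, hf⟩

theorem ev_mkCo (f : KK d →+ V) (hf : ∀ (c : KK d) (c' : KK e), (c : Om) = (c' : Om) →
    ∀ x, f (c * x) = c' • f x) (x : KK d) : ev (mkCo f hf) x = f x := rfl

theorem ev_add (g h : Co d e V) (x : KK d) : ev (g + h) x = ev g x + ev h x := rfl

theorem ev_zero (x : KK d) : ev (0 : Co d e V) x = 0 := rfl

instance : SMul (KK d) (Co d e V) where
  smul c g := mkCo ((ev g).comp (AddMonoidHom.mulRight c)) (by
    intro a a' h x
    change ev g (a * x * c) = a' • ev g (x * c)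
    rw [mul_assoc, ev_mul g a a' h])

theorem ev_smul (c : KK d) (g : Co d e V) (x : KK d) : ev (c • g) x = ev g (x * c) := rfl

instance : Module (KK d) (Co d e V) where
  one_smul g := ev_ext fun x => by rw [ev_smul, mul_one]
  mul_smul a b g := ev_ext fun x => by rw [ev_smul, ev_smul, ev_smul, mul_assoc]
  smul_zero a := ev_ext fun x => by rw [ev_smul, ev_zero, ev_zero]
  smul_add a g h := ev_ext fun x => by rw [ev_smul, ev_add, ev_add, ev_smul, ev_smul]
  add_smul a b g := ev_ext fun x => by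
    rw [ev_smul, ev_add, ev_smul, ev_smul, mul_add, map_add]
  zero_smul g := ev_ext fun x => by rw [ev_smul, mul_zero, map_zero, ev_zero]

/-- Evaluation as an additive map in the first variable. -/
def evHom (x : KK d) : Co d e V →+ V where
  toFun g := ev g x
  map_zero' := rfl
  map_add' _ _ := rfl

theorem evHom_apply (x : KK d) (g : Co d e V) : evHom x g = ev g x := rfl

theorem ev_sum {α : Type} (s : Finset α) (g : α → Co d e V) (x : KK d) :
    ev (∑ i ∈ s, g i) x = ∑ i ∈ s, ev (g i) x := by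
  simp only [← evHom_apply, map_sum]

instance [Finite V] [Finite (KK d)] : Finite (Co d e V) :=
  Finite.of_injective (fun g : Co d e V => (ev g : KK d → V)) fun _ _ h =>
    ev_ext fun x => congrFun h x

/-- The functor on maps. -/
def coMap (f : V →ₗ[KK e] V') : Co d e V →ₗ[KK d] Co d e V' where
  toFun g := mkCo (f.toAddMonoidHom.comp (ev g)) (by
    intro c c' h x
    change f (ev g (c * x)) = c' • f (ev g x)
    rw [ev_mul g c c' h, map_smul])
  map_add' g h := ev_ext fun x => map_add f _ _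
  map_smul' c g := ev_ext fun x => rfl

theorem ev_coMap (f : V →ₗ[KK e] V') (g : Co d e V) (x : KK d) :
    ev (coMap f g) x = f (ev g x) := rfl

theorem trE_mul (D : DualFam d e) (c : KK d) (c' : KK e) (h : (c : Om) = (c' : Om)) (x : KK d) :
    D.trE (c * x) = c' * D.trE x := by
  apply Subtype.ext
  rw [← D.tr_eq, D.tr_mul c c' h]
  change (c : Om) * (D.trD x : Om) = (c' : Om) * (D.trE x : Om)
  rw [D.tr_eq, h]

/-- The element `x ↦ tr x • u`. -/
def tz (D : DualFam d e) : V →+ Co d e V where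
  toFun u := mkCo
    { toFun := fun x => D.trE x • u
      map_zero' := by rw [map_zero, zero_smul]
      map_add' := fun x y => by rw [map_add, add_smul] }
    (by
      intro c c' h x
      change D.trE (c * x) • u = c' • D.trE x • u
      rw [trE_mul D c c' h, mul_smul])
  map_zero' := ev_ext fun x => by
    rw [ev_mkCo]
    exact smul_zero _
  map_add' u v := ev_ext fun x => by
    rw [ev_mkCo, ev_add, ev_mkCo, ev_mkCo]
    exact smul_add _ _ _

theorem ev_tz (D : DualFam d e) (u : V) (x : KK d) : ev (tz D u) x = D.trE x • u := rfl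

theorem coMap_tz (D : DualFam d e) (f : V →ₗ[KK e] V') (u : V) :
    coMap f (tz D u) = tz D (f u) := ev_ext fun x => by
  rw [ev_coMap, ev_tz, ev_tz, map_smul]

theorem tz_smul (D : DualFam d e) (c : KK d) (c' : KK e) (h : (c : Om) = (c' : Om)) (u : V) :
    tz D (c' • u) = c • tz D u := ev_ext fun x => by
  rw [ev_smul, ev_tz, ev_tz, mul_comm, trE_mul D c c' h, mul_comm c', mul_smul]

theorem recon (D : DualFam d e) (w : Co d e V) :
    ∑ t, D.bs t • tz D (ev w (D.b t)) = w := ev_ext fun x => by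
  rw [ev_sum]
  conv_rhs => rw [← D.expand x, map_sum]
  refine Finset.sum_congr rfl fun t _ => ?_
  rw [ev_smul, ev_tz, ev_mul w _ _ (D.tr_eq _)]

end Coind

section WW

/-- The product of the coinduced spaces at `k`. -/
abbrev WW (M : DObj S) (k : S.J) : Type := ∀ j, Ar S k j → Co (S.κ k) (S.κ j) (M.V j)

variable (D : ∀ i j : S.J, DualFam (S.κ i) (S.κ j)) (M : DObj S) (k : S.J)

/-- The map from `V k`. -/
def aa : M.V k →ₗ[KK (S.κ k)] WW M k where
  toFun v := fun j r => mkCo ((mp M k j r).1.comp ((smulAddHom (KK (S.κ k)) (M.V k)).flip v)) (by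
    intro c c' h x
    change (mp M k j r).1 ((c * x) • v) = c' • (mp M k j r).1 (x • v)
    rw [mul_smul, (mp M k j r).2 c c' h])
  map_add' u v := by
    funext j r
    refine ev_ext fun x => ?_
    change (mp M k j r).1 (x • (u + v)) = (mp M k j r).1 (x • u) + (mp M k j r).1 (x • v)
    rw [smul_add, map_add]
  map_smul' c v := by
    funext j r
    refine ev_ext fun x => ?_
    change (mp M k j r).1 (x • (c • v)) = (mp M k j r).1 ((x * c) • v)
    rw [mul_smul]

theorem ev_aa (v : M.V k) (j : S.J) (r : Ar S k j) (x : KK (S.κ k)) :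
    ev (aa M k v j r) x = (mp M k j r).1 (x • v) := rfl

/-- One term of the map to `V k`. -/
def bt (j : S.J) (r : Ar S k j) : Co (S.κ k) (S.κ j) (M.V j) →ₗ[KK (S.κ k)] M.V k where
  toFun g := ∑ t : Fin (D k j).s, (D k j).bs t • (mp M j k r.swap).1 (ev g ((D k j).b t))
  map_add' g h := by
    rw [← Finset.sum_add_distrib]
    refine Finset.sum_congr rfl fun t _ => ?_
    rw [ev_add, map_add, smul_add]
  map_smul' c g := by
    have h := (D k j).casimir
      ((smulAddHom (KK (S.κ k)) (M.V k)).compl₂ ((mp M j k r.swap).1.comp (ev g))) (by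
        intro l l' hl x y
        change (x * l) • (mp M j k r.swap).1 (ev g y) = x • (mp M j k r.swap).1 (ev g (l * y))
        rw [ev_mul g l l' hl, (mp M j k r.swap).2 l' l hl.symm, mul_smul]) c
    have h' : ∑ t : Fin (D k j).s,
        (c * (D k j).bs t) • (mp M j k r.swap).1 (ev g ((D k j).b t)) =
        ∑ t : Fin (D k j).s, (D k j).bs t • (mp M j k r.swap).1 (ev g ((D k j).b t * c)) := h
    rw [RingHom.id_apply, Finset.smul_sum]
    simp only [mul_smul] at h'
    rw [h']
    rfl

theorem bt_apply (j : S.J) (r : Ar S k j) (g : Co (S.κ k) (S.κ j) (M.V j)) :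
    bt D M k j r g = ∑ t : Fin (D k j).s,
      (D k j).bs t • (mp M j k r.swap).1 (ev g ((D k j).b t)) := rfl

/-- The projections. -/
def prj (j : S.J) (r : Ar S k j) : WW M k →ₗ[KK (S.κ k)] Co (S.κ k) (S.κ j) (M.V j) where
  toFun w := w j r
  map_add' _ _ := rfl
  map_smul' _ _ := rfl

/-- The map to `V k`. -/
def bb : WW M k →ₗ[KK (S.κ k)] M.V k :=
  ∑ j, ∑ r : Ar S k j, (bt D M k j r).comp (prj M k j r)

theorem bb_apply (w : WW M k) : bb D M k w = ∑ j, ∑ r : Ar S k j, bt D M k j r (w j r) := by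
  simp only [bb, LinearMap.sum_apply, LinearMap.comp_apply]
  rfl

/-- Inclusion of a factor. -/
def sg (j : S.J) (r : Ar S k j) : Co (S.κ k) (S.κ j) (M.V j) →ₗ[KK (S.κ k)] WW M k :=
  (LinearMap.single (KK (S.κ k)) (fun j => Ar S k j → Co (S.κ k) (S.κ j) (M.V j)) j).comp
    (LinearMap.single (KK (S.κ k)) (fun _ : Ar S k j => Co (S.κ k) (S.κ j) (M.V j)) r)

theorem sg_self (j : S.J) (r : Ar S k j) (g : Co (S.κ k) (S.κ j) (M.V j)) :
    sg M k j r g j r = g := by
  simp [sg]

theorem sg_ne_right (j : S.J) (r r' : Ar S k j) (h : r' ≠ r) (g : Co (S.κ k) (S.κ j) (M.V j)) :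
    sg M k j r g j r' = 0 := by
  simp [sg, h]

theorem sg_ne_left (j j' : S.J) (h : j' ≠ j) (r : Ar S k j) (r' : Ar S k j')
    (g : Co (S.κ k) (S.κ j) (M.V j)) : sg M k j r g j' r' = 0 := by
  simp [sg, Pi.single_eq_of_ne h]

theorem sum_sg (w : WW M k) : ∑ j, ∑ r : Ar S k j, sg M k j r (w j r) = w := by
  funext j' r'
  rw [Finset.sum_apply, Finset.sum_apply, Finset.sum_eq_single j', Finset.sum_apply,
    Finset.sum_apply, Finset.sum_eq_single r', sg_self]
  · intro r _ hr
    exact sg_ne_right M k j' r r' hr.symm _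
  · intro h
    exact absurd (Finset.mem_univ _) h
  · intro j _ hj
    rw [Finset.sum_apply, Finset.sum_apply]
    exact Finset.sum_eq_zero fun r _ => sg_ne_left M k j j' hj.symm r r' _
  · intro h
    exact absurd (Finset.mem_univ _) h

theorem bb_sg (j : S.J) (r : Ar S k j) (g : Co (S.κ k) (S.κ j) (M.V j)) :
    bb D M k (sg M k j r g) = bt D M k j r g := by
  rw [bb_apply, Finset.sum_eq_single j, Finset.sum_eq_single r, sg_self]
  · intro r' _ hr
    rw [sg_ne_right M k j r r' hr, map_zero]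
  · intro h
    exact absurd (Finset.mem_univ _) h
  · intro j' _ hj
    exact Finset.sum_eq_zero fun r' _ => by rw [sg_ne_left M k j j' hj r r', map_zero]
  · intro h
    exact absurd (Finset.mem_univ _) h

/-- The maps `V j → W`. -/
def io (j : S.J) (r : Ar S k j) : SL (S.κ j) (S.κ k) (M.V j) (WW M k) :=
  ⟨(sg M k j r).toAddMonoidHom.comp (tz (D k j)), by
    intro c' c h u
    change sg M k j r (tz (D k j) (c' • u)) = c • sg M k j r (tz (D k j) u)
    rw [tz_smul (D k j) c c' h.symm, map_smul]⟩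

theorem io_apply (j : S.J) (r : Ar S k j) (u : M.V j) :
    (io D M k j r).1 u = sg M k j r (tz (D k j) u) := rfl

theorem recon_W (w : WW M k) :
    ∑ j, ∑ r : Ar S k j, ∑ t : Fin (D k j).s,
      (D k j).bs t • (io D M k j r).1 (ev (w j r) ((D k j).b t)) = w := by
  conv_rhs => rw [← sum_sg M k w]
  refine Finset.sum_congr rfl fun j _ => Finset.sum_congr rfl fun r _ => ?_
  conv_rhs => rw [← recon (D k j) (w j r), map_sum]
  refine Finset.sum_congr rfl fun t _ => ?_
  rw [map_smul, io_apply]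

theorem hom_ext_W {X : Type} [AddCommGroup X] [Module (KK (S.κ k)) X]
    (f g : WW M k →ₗ[KK (S.κ k)] X)
    (h : ∀ j r u, f ((io D M k j r).1 u) = g ((io D M k j r).1 u)) : f = g := by
  refine LinearMap.ext fun w => ?_
  rw [← recon_W D M k w]
  simp only [map_sum, map_smul, h]

theorem bb_io (j : S.J) (r : Ar S k j) (u : M.V j) :
    bb D M k ((io D M k j r).1 u) = (mp M j k r.swap).1 u := by
  rw [io_apply, bb_sg, bt_apply]
  have h : ∀ t, (D k j).bs t • (mp M j k r.swap).1 (ev (tz (D k j) u) ((D k j).b t)) =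
      ((D k j).trD ((D k j).b t) * (D k j).bs t) • (mp M j k r.swap).1 u := by
    intro t
    rw [ev_tz, (mp M j k r.swap).2 _ _ ((D k j).tr_eq _).symm, ← mul_smul, mul_comm]
  simp only [h]
  rw [← Finset.sum_smul, (D k j).sum_tr, one_smul]

/-- The functor on endomorphisms. -/
def mapW (f : ∀ j, M.V j →ₗ[KK (S.κ j)] M.V j) : WW M k →ₗ[KK (S.κ k)] WW M k :=
  LinearMap.pi fun j => LinearMap.pi fun r =>
    (coMap (f j)).comp (prj M k j r)

theorem ev_mapW (f : ∀ j, M.V j →ₗ[KK (S.κ j)] M.V j) (w : WW M k) (j : S.J) (r : Ar S k j)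
    (x : KK (S.κ k)) : ev (mapW M k f w j r) x = f j (ev (w j r) x) := rfl

theorem mapW_io (f : ∀ j, M.V j →ₗ[KK (S.κ j)] M.V j) (j : S.J) (r : Ar S k j) (u : M.V j) :
    mapW M k f ((io D M k j r).1 u) = (io D M k j r).1 (f j u) := by
  funext j' r'
  refine ev_ext fun x => ?_
  rw [ev_mapW, io_apply, io_apply]
  by_cases hj : j' = j
  · subst hj
    by_cases hr : r' = r
    · subst hr
      rw [sg_self, sg_self, ev_tz, ev_tz, map_smul]
    · rw [sg_ne_right M k j' r r' hr, sg_ne_right M k j' r r' hr, ev_zero, map_zero]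
  · rw [sg_ne_left M k j j' hj r r', sg_ne_left M k j j' hj r r', ev_zero, map_zero]

theorem W_ext {w w' : WW M k} (h : ∀ j r x, ev (w j r) x = ev (w' j r) x) : w = w' := by
  funext j r
  exact ev_ext fun x => h j r x

theorem bb_aa (hrel : M.Rel D k) (v : M.V k) : bb D M k (aa M k v) = 0 := by
  rw [rel_iff] at hrel
  rw [← hrel v, bb_apply]
  rfl

/-- Evaluation at one. -/
def ev1 (j : S.J) (r : Ar S k j) : SL (S.κ k) (S.κ j) (WW M k) (M.V j) :=
  ⟨{ toFun := fun w => ev (w j r) 1
     map_zero' := rfl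
     map_add' := fun _ _ => rfl }, by
    intro c c' h w
    change ev (w j r) (1 * c) = c' • ev (w j r) 1
    rw [one_mul, ← ev_mul (w j r) c c' h, mul_one]⟩

theorem ev1_apply (j : S.J) (r : Ar S k j) (w : WW M k) : (ev1 M k j r).1 w = ev (w j r) 1 := rfl

theorem ev1_smul (j : S.J) (r : Ar S k j) (w : WW M k) (x : KK (S.κ k)) :
    (ev1 M k j r).1 (x • w) = ev (w j r) x := by
  rw [ev1_apply, Pi.smul_apply, Pi.smul_apply, ev_smul, one_mul]

end WW

end PiRefl

end Species

end Pool.Agent.RootConj
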