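import Pool.Agent.RootConj.Defs2

set_option autoImplicit false

/-!
# Double representations of species (preprojective modules)
-/

namespace Pool.Agent.RootConj

/-- Trace-dual families of `KK d` over `KK d ∩ KK e`. -/
structure DualFam (d e : ℕ) where
  /-- number of elements -/
  s : ℕ
  /-- the family -/
  b : Fin s → KK d
  /-- the dual family -/
  bs : Fin s → KK d
  /-- the trace, as an element of `KK d` -/
  trD : KK d →+ KK d
  /-- the trace, as an element of `KK e` -/
  trE : KK d →+ KK e
  tr_eq : ∀ x, (trD x : Om) = (trE x : Om)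
  /-- linearity over the intersection -/
  tr_mul : ∀ (c : KK d) (c' : KK e), (c : Om) = (c' : Om) → ∀ x, trD (c * x) = c * trD x
  expand : ∀ x : KK d, ∑ i, trD (x * bs i) * b i = x
  expand' : ∀ x : KK d, ∑ i, trD (x * b i) * bs i = x
  /-- the number of elements is the degree -/
  card : s = d / Nat.gcd d e

namespace Species

variable {ι : Type} [Fintype ι] [DecidableEq ι]

/-- Double representations of the species `S`. -/
structure DObj (S : Species ι) where
  /-- the spaces -/
  V : S.J → Type
  [acg : ∀ j, AddCommGroup (V j)]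
  [mod : ∀ j, Module (KK (S.κ j)) (V j)]
  [fin : ∀ j, Finite (V j)]
  /-- the arrows -/
  φ : ∀ i j, Fin (S.mult i j) → SL (S.κ i) (S.κ j) (V i) (V j)
  /-- the opposite arrows -/
  ψ : ∀ i j, Fin (S.mult i j) → SL (S.κ j) (S.κ i) (V j) (V i)

attribute [instance] DObj.acg DObj.mod DObj.fin

namespace DObj

variable {S : Species ι}

/-- Dimension vector. -/
noncomputable def dm (M : DObj S) : S.J → ℕ := fun j => Module.finrank (KK (S.κ j)) (M.V j)

/-- The projection of `β ∘ α` to a `KK (κ k)`-linear map. -/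
noncomputable def cas (M : DObj S) (k j : S.J) (D : DualFam (S.κ k) (S.κ j))
    (α : SL (S.κ k) (S.κ j) (M.V k) (M.V j)) (β : SL (S.κ j) (S.κ k) (M.V j) (M.V k))
    (v : M.V k) : M.V k :=
  ∑ t : Fin D.s, D.bs t • β.1 (α.1 (D.b t • v))

/-- The preprojective relation at the vertex `k`, for a choice `D` of dual families. -/
def Rel (M : DObj S) (D : ∀ i j : S.J, DualFam (S.κ i) (S.κ j)) (k : S.J) : Prop :=
  ∀ v : M.V k, (∑ j, ∑ r : Fin (S.mult k j), M.cas k j (D k j) (M.φ k j r) (M.ψ k j r) v) +
    (∑ i, ∑ r : Fin (S.mult i k), M.cas k i (D k i) (M.ψ i k r) (M.φ i k r) v) = 0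

/-- Every nonzero endomorphism is injective. -/
def Brick (M : DObj S) : Prop :=
  ∀ f : ∀ j : S.J, M.V j →ₗ[KK (S.κ j)] M.V j,
    (∀ i j r v, f j ((M.φ i j r).1 v) = (M.φ i j r).1 (f i v)) →
    (∀ i j r v, f i ((M.ψ i j r).1 v) = (M.ψ i j r).1 (f j v)) → f ≠ 0 →
      ∀ j, Function.Injective (f j)

end DObj

end Species

end Pool.Agent.RootConj
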