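import Pool.Agent.RootConj.Defs

set_option autoImplicit false

/-!
# The twisted power series form a ring
-/

namespace Pool.Agent.RootConj

variable {ι : Type} [Fintype ι] [DecidableEq ι]

omit [Fintype ι] [DecidableEq ι] in
theorem toZ_add (a b : ι → ℕ) : toZ (a + b) = toZ a + toZ b := by
  funext i; simp [toZ]

omit [Fintype ι] [DecidableEq ι] in
theorem toZ_zero : toZ (0 : ι → ℕ) = 0 := by
  funext i; simp [toZ]

omit [Fintype ι] [DecidableEq ι] in
theorem toZ_injective : Function.Injective (toZ (ι := ι)) := by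
  intro a b h
  funext i
  have := congrFun h i
  simpa [toZ] using this

omit [DecidableEq ι] in
theorem om_add_left (W : ι → ι → ℤ) (a a' b : ι → ℤ) : om W (a + a') b = om W a b + om W a' b := by
  simp only [om, Pi.add_apply, add_mul, Finset.sum_add_distrib]

omit [DecidableEq ι] in
theorem om_add_right (W : ι → ι → ℤ) (a b b' : ι → ℤ) : om W a (b + b') = om W a b + om W a b' := by
  simp only [om, Pi.add_apply, mul_add, Finset.sum_add_distrib]

omit [DecidableEq ι] in
theorem om_zero_left (W : ι → ι → ℤ) (b : ι → ℤ) : om W 0 b = 0 := by simp [om]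

omit [DecidableEq ι] in
theorem om_zero_right (W : ι → ι → ℤ) (a : ι → ℤ) : om W a 0 = 0 := by simp [om]

namespace T

variable {W : ι → ι → ℤ}

omit [DecidableEq ι] in
/-- The product as a sum over pairs. -/
theorem mul_apply' [DecidableEq ι] (f g : T W) (n : ι → ℕ) :
    (f * g) n = ∑ p ∈ (Finset.Iic n ×ˢ Finset.Iic n) with p.1 + p.2 = n,
      (2 : ℚ) ^ (om W (toZ p.1) (toZ p.2)) * (f p.1 * g p.2) := by
  rw [T.mul_apply]
  refine Finset.sum_bij' (fun a _ => (a, n - a)) (fun p _ => p.1) ?_ ?_ ?_ ?_ ?_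
  · intro a ha
    simp only [Finset.mem_Iic] at ha
    simp only [Finset.mem_filter, Finset.mem_product, Finset.mem_Iic]
    exact ⟨⟨ha, tsub_le_self⟩, add_tsub_cancel_of_le ha⟩
  · intro p hp
    simp only [Finset.mem_filter, Finset.mem_product] at hp
    exact hp.1.1
  · intro a _; rfl
  · intro p hp
    simp only [Finset.mem_filter, Finset.mem_product] at hp
    obtain ⟨_, h⟩ := hp
    ext1
    · rfl
    · show n - p.1 = p.2
      rw [← h, add_tsub_cancel_left]
  · intro a _; rfl

protected theorem one_mul (f : T W) : 1 * f = f := by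
  ext n
  rw [T.mul_apply, Finset.sum_eq_single 0]
  · simp [T.one_apply, toZ_zero, om_zero_left]
  · intro b _ hb
    simp [T.one_apply, hb]
  · intro h; exact absurd (Finset.mem_Iic.mpr (by simp)) h

protected theorem mul_one (f : T W) : f * 1 = f := by
  ext n
  rw [T.mul_apply, Finset.sum_eq_single n]
  · simp [T.one_apply, toZ_zero, om_zero_right]
  · intro b hb hne
    have hb' : b ≤ n := Finset.mem_Iic.mp hb
    have : n - b ≠ 0 := by
      intro h
      apply hne
      apply le_antisymm hb'
      exact tsub_eq_zero_iff_le.mp h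
    simp [T.one_apply, this]
  · intro h; exact absurd (Finset.mem_Iic.mpr (le_refl n)) h

protected theorem mul_assoc (f g h : T W) : f * g * h = f * (g * h) := by
  ext n
  simp only [T.mul_apply, Finset.mul_sum, Finset.sum_mul]
  rw [Finset.sum_sigma', Finset.sum_sigma']
  refine Finset.sum_bij' (fun x _ => ⟨x.2, x.1 - x.2⟩) (fun x _ => ⟨x.1 + x.2, x.1⟩) ?_ ?_ ?_ ?_ ?_
  · rintro ⟨c, a⟩ hx
    simp only [Finset.mem_sigma, Finset.mem_Iic] at hx ⊢
    exact ⟨hx.2.trans hx.1, tsub_le_tsub_right hx.1 a⟩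
  · rintro ⟨a, b⟩ hx
    simp only [Finset.mem_sigma, Finset.mem_Iic] at hx ⊢
    refine ⟨?_, le_self_add⟩
    calc a + b ≤ a + (n - a) := by gcongr; exact hx.2
      _ = n := add_tsub_cancel_of_le hx.1
  · rintro ⟨c, a⟩ hx
    simp only [Finset.mem_sigma, Finset.mem_Iic] at hx
    simp only [Sigma.mk.injEq, heq_eq_eq, and_true]
    exact add_tsub_cancel_of_le hx.2
  · rintro ⟨a, b⟩ hx
    simp only [Sigma.mk.injEq, heq_eq_eq, true_and]
    exact add_tsub_cancel_left a b
  · rintro ⟨c, a⟩ hx
    simp only [Finset.mem_sigma, Finset.mem_Iic] at hx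
    obtain ⟨hc, ha⟩ := hx
    obtain ⟨b, rfl⟩ := le_iff_exists_add.mp ha
    obtain ⟨r, rfl⟩ := le_iff_exists_add.mp hc
    simp only [add_tsub_cancel_left]
    have e1 : a + b + r - a = b + r := by rw [add_assoc, add_tsub_cancel_left]
    have e2 : b + r - b = r := add_tsub_cancel_left b r
    rw [e1, e2]
    have hz : (2 : ℚ) ≠ 0 := by norm_num
    have : (2 : ℚ) ^ (om W (toZ (a + b)) (toZ r)) * (2 : ℚ) ^ (om W (toZ a) (toZ b)) =
        (2 : ℚ) ^ (om W (toZ a) (toZ (b + r))) * (2 : ℚ) ^ (om W (toZ b) (toZ r)) := by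
      rw [← zpow_add₀ hz, ← zpow_add₀ hz]
      congr 1
      rw [toZ_add, toZ_add, om_add_left, om_add_right]
      ring
    calc (2 : ℚ) ^ (om W (toZ (a + b)) (toZ r)) *
          ((2 : ℚ) ^ (om W (toZ a) (toZ b)) * (f a * g b) * h r)
        = ((2 : ℚ) ^ (om W (toZ (a + b)) (toZ r)) * (2 : ℚ) ^ (om W (toZ a) (toZ b))) *
          (f a * g b * h r) := by ring
      _ = ((2 : ℚ) ^ (om W (toZ a) (toZ (b + r))) * (2 : ℚ) ^ (om W (toZ b) (toZ r))) *
          (f a * g b * h r) := by rw [this]
      _ = _ := by ring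

protected theorem mul_add (f g h : T W) : f * (g + h) = f * g + f * h := by
  ext n
  simp only [T.mul_apply, T.add_apply, mul_add, Finset.sum_add_distrib]

protected theorem add_mul (f g h : T W) : (f + g) * h = f * h + g * h := by
  ext n
  simp only [T.mul_apply, T.add_apply, add_mul, mul_add, Finset.sum_add_distrib]

protected theorem zero_mul (f : T W) : 0 * f = 0 := by
  ext n; simp [T.mul_apply, T.zero_apply]

protected theorem mul_zero (f : T W) : f * 0 = 0 := by
  ext n; simp [T.mul_apply, T.zero_apply]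

noncomputable instance : Ring (T W) :=
  { (inferInstance : AddCommGroup (T W)) with
    mul := (· * ·)
    one := 1
    one_mul := T.one_mul
    mul_one := T.mul_one
    mul_assoc := T.mul_assoc
    left_distrib := T.mul_add
    right_distrib := T.add_mul
    zero_mul := T.zero_mul
    mul_zero := T.mul_zero }

/-- The constant coefficient is multiplicative. -/
theorem mul_apply_zero (f g : T W) : (f * g) 0 = f 0 * g 0 := by
  rw [T.mul_apply]
  have : Finset.Iic (0 : ι → ℕ) = {0} := by
    ext a; simp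
  rw [this, Finset.sum_singleton]
  simp [toZ_zero, om_zero_left]

end T

end Pool.Agent.RootConj
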