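import Pool.Agent.RootConj.Defs2

set_option autoImplicit false

/-!
# Separating functionals, connectedness of charges
-/

namespace Pool.Agent.RootConj

variable {ι : Type} [Fintype ι] [DecidableEq ι]

/-- Finitely many nonzero integral vectors are separated from zero by one functional. -/
theorem exists_functional (F : Finset (ι → ℤ)) (hF : ∀ w ∈ F, w ≠ 0) :
    ∃ z : (ι → ℤ) →+ ℤ, ∀ w ∈ F, z w ≠ 0 := by
  classical
  let e := Fintype.equivFin ι
  let P : (ι → ℤ) → Polynomial ℤ := fun w =>
    ∑ j, Polynomial.monomial (e j : ℕ) (w j)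
  have hP : ∀ w, w ≠ 0 → P w ≠ 0 := by
    intro w hw h
    apply hw
    funext j
    have h1 : (P w).coeff (e j : ℕ) = w j := by
      simp only [P, Polynomial.finset_sum_coeff, Polynomial.coeff_monomial]
      rw [Finset.sum_eq_single j]
      · simp
      · intro b _ hb
        rw [if_neg]
        intro h2
        exact hb (e.injective (Fin.ext h2))
      · intro h2; exact absurd (Finset.mem_univ j) h2
    rw [h, Polynomial.coeff_zero] at h1
    exact h1.symm
  have hprod : (∏ w ∈ F, P w) ≠ 0 := Finset.prod_ne_zero_iff.mpr fun w hw => hP w (hF w hw)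
  obtain ⟨t, ht⟩ : ∃ t : ℤ, Polynomial.eval t (∏ w ∈ F, P w) ≠ 0 := by
    by_contra hcon
    push Not at hcon
    exact hprod (Polynomial.funext fun t => by rw [hcon t, Polynomial.eval_zero])
  refine ⟨⟨⟨fun w => Polynomial.eval t (P w), ?_⟩, ?_⟩, ?_⟩
  · simp [P]
  · intro a b
    simp [P, Polynomial.eval_add, ← Finset.sum_add_distrib, Polynomial.eval_finset_sum,
      Polynomial.eval_monomial, add_mul]
  · intro w hw
    rw [Polynomial.eval_prod] at ht
    exact Finset.prod_ne_zero_iff.mp ht w hw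

/-- A functional whose kernel on the box below `n` is the line of `n`. -/
theorem exists_sep (n : ι → ℕ) (i0 : ι) :
    ∃ z : (ι → ℤ) →+ ℤ, z (toZ n) = 0 ∧
      ∀ m ≤ n, z (toZ m) = 0 → ∀ j, n i0 * m j = n j * m i0 := by
  classical
  let Dn : (ι → ℤ) →+ (ι → ℤ) :=
    { toFun := fun m j => (n i0 : ℤ) * m j - (n j : ℤ) * m i0
      map_zero' := by funext j; simp
      map_add' := by intro a b; funext j; simp only [Pi.add_apply]; ring }
  obtain ⟨z, hz⟩ := exists_functional
    (((Finset.Iic n).image fun m => Dn (toZ m)).erase 0) (by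
      intro w hw; exact Finset.ne_of_mem_erase hw)
  refine ⟨z.comp Dn, ?_, ?_⟩
  · have : Dn (toZ n) = 0 := by
      funext j; simp only [Dn, toZ, AddMonoidHom.coe_mk, ZeroHom.coe_mk, Pi.zero_apply]; ring
    rw [AddMonoidHom.comp_apply, this, map_zero]
  · intro m hm h j
    by_contra hne
    have hD : Dn (toZ m) ≠ 0 := by
      intro h0
      apply hne
      have := congrFun h0 j
      simp only [Dn, toZ, AddMonoidHom.coe_mk, ZeroHom.coe_mk, Pi.zero_apply] at this
      have h2 : (n i0 : ℤ) * m j = n j * m i0 := by linarith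
      exact_mod_cast h2
    exact hz _ (Finset.mem_erase.mpr ⟨hD, Finset.mem_image.mpr ⟨m, Finset.mem_Iic.mpr hm, rfl⟩⟩) h

/-- `chi` of vectors with separated supports vanishes. -/
theorem chi_eq_zero_of_sep (B : ι → ι → ℤ) (d : ι → ℕ) (a b : ι → ℤ)
    (h : ∀ i j, a i ≠ 0 → b j ≠ 0 → i ≠ j ∧ cartan B i j = 0) : chi B d a b = 0 := by
  unfold chi
  have h1 : ∑ i, (d i : ℤ) * (a i * b i) = 0 := by
    refine Finset.sum_eq_zero fun i _ => ?_
    by_cases ha : a i = 0
    · simp [ha]
    by_cases hb : b i = 0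
    · simp [hb]
    exact absurd rfl (h i i ha hb).1
  have h2 : ∑ i, ∑ j, a i * ((d i : ℤ) * max (-B i j) 0) * b j = 0 := by
    refine Finset.sum_eq_zero fun i _ => Finset.sum_eq_zero fun j _ => ?_
    by_cases ha : a i = 0
    · simp [ha]
    by_cases hb : b j = 0
    · simp [hb]
    obtain ⟨hij, hc⟩ := h i j ha hb
    have : B i j = 0 := by
      simpa [cartan, hij] using hc
    simp [this]
  rw [h1, h2, sub_zero]

namespace Species

/-- No arrows between vertices with separated charges. -/
theorem mult_eq_zero_of_sep {S : Species ι} {B : ι → ι → ℤ} {d : ι → ℕ} (hS : S.Euler B d)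
    (i j : S.J) (h : ∀ a b, S.ch i a ≠ 0 → S.ch j b ≠ 0 → a ≠ b ∧ cartan B a b = 0) :
    S.mult i j = 0 := by
  have hchi : chi B d (toZ (S.ch i)) (toZ (S.ch j)) = 0 := by
    apply chi_eq_zero_of_sep
    intro a b ha hb
    exact h a b (by simpa [toZ] using ha) (by simpa [toZ] using hb)
  have hij : i ≠ j := by
    rintro rfl
    obtain ⟨a, ha⟩ := Function.ne_iff.mp (S.ch_ne i)
    exact absurd rfl (h a a ha ha).1
  have := hS i j
  rw [hchi, if_neg hij, zero_sub, neg_eq_zero] at this
  have h2 : Nat.lcm (S.κ i) (S.κ j) * S.mult i j = 0 := by exact_mod_cast this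
  rcases Nat.mul_eq_zero.mp h2 with h3 | h3
  · exfalso
    have := Nat.lcm_pos (S.κ_pos i) (S.κ_pos j)
    omega
  · exact h3

/-- The charges of the vertices of `mkS` are connected. -/
theorem mkS_ch_conn (B : ι → ι → ℤ) (d : ι → ℕ) (hd : ∀ i, 0 < d i) (N : ι → ℕ)
    (j : (mkS B d hd N).J) : ConnSupp (cartan B) (toZ ((mkS B d hd N).ch j)) := by
  classical
  rcases j with k | m
  · rintro S ⟨i, hi, hi0⟩ ⟨i', hi', hi0'⟩
    have h1 : i = k := by
      by_contra h
      apply hi0
      show ((Pi.single k 1 : ι → ℕ) i : ℤ) = 0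
      simp [h]
    have h2 : i' = k := by
      by_contra h
      apply hi0'
      show ((Pi.single k 1 : ι → ℕ) i' : ℤ) = 0
      simp [h]
    rw [h1] at hi; rw [h2] at hi'
    exact absurd hi hi'
  · have := m.2
    simp only [Finset.mem_filter] at this
    exact this.2.2.2

end Species

end Pool.Agent.RootConj
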