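import Pool.Agent.RootConj.Defs2

set_option autoImplicit false

/-!
# Additivity of the trace of the logarithm: abstract version
-/

namespace Pool.Agent.RootConj
namespace TrLogAux

open Polynomial

section Abs

variable {A : Type*} [Ring A] (τ : A →+ ℚ)

/-- Trace of the coefficient `j`. -/
def tc (j : ℕ) (P : A[X]) : ℚ := τ (P.coeff j)

theorem tc_add (j : ℕ) (P Q : A[X]) : tc τ j (P + Q) = tc τ j P + tc τ j Q := by
  simp [tc]

theorem tc_comm (hτ : ∀ u v, τ (u * v) = τ (v * u)) (j : ℕ) (P Q : A[X]) :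
    tc τ j (P * Q) = tc τ j (Q * P) := by
  unfold tc
  rw [coeff_mul, coeff_mul, map_sum, map_sum]
  rw [← Finset.Nat.sum_antidiagonal_swap]
  refine Finset.sum_congr rfl fun p _ => ?_
  rw [hτ]
  rfl

theorem tc_deriv_pow (hτ : ∀ u v, τ (u * v) = τ (v * u)) (j : ℕ) (V : A[X]) (r s : ℕ) :
    tc τ j (V ^ s * derivative (V ^ (r + 1))) =
      ((r : ℚ) + 1) * tc τ j (V ^ (s + r) * derivative V) := by
  induction r generalizing s with
  | zero => simp
  | succ r ih =>
    rw [pow_succ V (r + 1), derivative_mul, mul_add, tc_add, ← mul_assoc, tc_comm τ hτ,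
      ← mul_assoc, ← pow_succ', ih, ← mul_assoc, ← pow_add]
    have e1 : s + 1 + r = s + (r + 1) := by ring
    rw [e1]
    push_cast
    ring

variable (I : ℕ → AddSubgroup A)

/-- All coefficients have order at least `s`. -/
def OrdP (s : ℕ) (P : A[X]) : Prop := ∀ j, P.coeff j ∈ I s

theorem OrdP.mul (hI : ∀ s s' u v, u ∈ I s → v ∈ I s' → u * v ∈ I (s + s')) {s s' : ℕ}
    {P Q : A[X]} (hP : OrdP I s P) (hQ : OrdP I s' Q) : OrdP I (s + s') (P * Q) := by
  intro j
  rw [coeff_mul]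
  exact AddSubgroup.sum_mem _ fun p _ => hI _ _ _ _ (hP _) (hQ _)

theorem OrdP.pow (hI0 : ∀ a, a ∈ I 0) (hI : ∀ s s' u v, u ∈ I s → v ∈ I s' → u * v ∈ I (s + s'))
    {P : A[X]} (hP : OrdP I 1 P) (r : ℕ) : OrdP I r (P ^ r) := by
  induction r with
  | zero => intro j; exact hI0 _
  | succ r ih => rw [pow_succ]; exact OrdP.mul I hI ih hP

theorem OrdP.neg {s : ℕ} {P : A[X]} (hP : OrdP I s P) : OrdP I s (-P) := by
  intro j; rw [coeff_neg]; exact neg_mem (hP j)

theorem OrdP.add {s : ℕ} {P Q : A[X]} (hP : OrdP I s P) (hQ : OrdP I s Q) :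
    OrdP I s (P + Q) := by
  intro j; rw [coeff_add]; exact add_mem (hP j) (hQ j)

theorem OrdP.zero' (hI0 : ∀ a, a ∈ I 0) (P : A[X]) : OrdP I 0 P := fun _ => hI0 _

/-- The key identity: for `V = y + (x + x y) t` and `G = ∑ (-V)^r`, the trace of the coefficients
of `G V'`. -/
theorem tc_geom (hτ : ∀ u v, τ (u * v) = τ (v * u)) (hI0 : ∀ a, a ∈ I 0)
    (hI : ∀ s s' u v, u ∈ I s → v ∈ I s' → u * v ∈ I (s + s')) (N : ℕ)
    (hN : ∀ u ∈ I (N + 1), τ u = 0) (x y : A) (hx : x ∈ I 1) (hy : y ∈ I 1) (j : ℕ) :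
    tc τ j ((∑ r ∈ Finset.range N, (-(C y + C (x + x * y) * X)) ^ r) *
      derivative (C y + C (x + x * y) * X : A[X])) =
      if j < N then (-1 : ℚ) ^ j * τ (x ^ (j + 1)) else 0 := by
  set V : A[X] := C y + C (x + x * y) * X with hV
  set G : A[X] := ∑ r ∈ Finset.range N, (-V) ^ r with hG
  set Z : A[X] := C x * X with hZ
  set H : A[X] := ∑ r ∈ Finset.range N, (-Z) ^ r with hH
  have hd : derivative V = C x * (1 + C y) := by
    rw [hV]
    simp [mul_add]
  have hU : 1 - -V = (1 - -Z) * (1 + C y) := by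
    have hXC : C x * X * C y = C x * C y * (X : A[X]) := by rw [mul_assoc, X_mul_C, mul_assoc]
    rw [hV, hZ, sub_neg_eq_add, sub_neg_eq_add, mul_add, mul_one, add_mul (1 : A[X]) (C x * X),
      one_mul, hXC]
    simp only [map_add, map_mul, add_mul]
    abel
  have hUG : (1 - -V) * G = 1 - (-V) ^ N := mul_neg_geom_sum _ _
  have hHZ : H * (1 - -Z) = 1 - (-Z) ^ N := geom_sum_mul_neg _ _
  have hx1 : OrdP I 1 (C x : A[X]) := by
    intro i; rw [coeff_C]; split_ifs
    · exact hx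
    · exact zero_mem _
  have hy1 : OrdP I 1 (C y : A[X]) := by
    intro i; rw [coeff_C]; split_ifs
    · exact hy
    · exact zero_mem _
  have hZ1 : OrdP I 1 Z := by
    have := OrdP.mul I hI hx1 (OrdP.zero' I hI0 X)
    simpa using this
  have hV1 : OrdP I 1 V := by
    have e : V = C y + (Z + Z * C y) := by
      have := hU
      rw [sub_neg_eq_add, sub_neg_eq_add, add_mul, one_mul, mul_add, mul_one, add_assoc] at this
      exact add_left_cancel this
    rw [e]
    refine OrdP.add I hy1 (OrdP.add I hZ1 ?_)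
    have := OrdP.mul I hI hZ1 (OrdP.zero' I hI0 (C y))
    simpa using this
  have key : (1 + C y) * G = H - H * (-V) ^ N + (-Z) ^ N * ((1 + C y) * G) := by
    have h1 : H * ((1 - -V) * G) = H - H * (-V) ^ N := by rw [hUG, mul_sub, mul_one]
    have h2 : H * ((1 - -V) * G) = (1 - (-Z) ^ N) * ((1 + C y) * G) := by
      rw [hU, mul_assoc (1 - -Z), ← mul_assoc H, hHZ]
    rw [← h1, h2, sub_mul, one_mul]
    simp
  have h3 : tc τ j (G * derivative V) = tc τ j (H * C x) := by
    rw [hd, ← mul_assoc, tc_comm τ hτ, ← mul_assoc]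
    have e : (1 + C y) * G * C x = H * C x +
        (-(H * (-V) ^ N) * C x + (-Z) ^ N * ((1 + C y) * G) * C x) := by
      conv_lhs => rw [key]
      rw [add_mul, sub_mul, neg_mul, sub_eq_add_neg, add_assoc]
    rw [e, tc_add, add_eq_left]
    apply hN
    have h4 : OrdP I (N + 1) (-(H * (-V) ^ N) * C x) := by
      refine OrdP.mul I hI (OrdP.neg I ?_) hx1
      have := OrdP.mul I hI (OrdP.zero' I hI0 H) (OrdP.pow I hI0 hI (OrdP.neg I hV1) N)
      simpa using this
    have h5 : OrdP I (N + 1) ((-Z) ^ N * ((1 + C y) * G) * C x) := by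
      refine OrdP.mul I hI ?_ hx1
      have := OrdP.mul I hI (OrdP.pow I hI0 hI (OrdP.neg I hZ1) N)
        (OrdP.zero' I hI0 ((1 + C y) * G))
      simpa using this
    exact OrdP.add I h4 h5 j
  rw [h3]
  unfold tc
  have hc : H.coeff j = if j < N then (-x) ^ j else 0 := by
    rw [hH, finsetSum_coeff]
    have : ∀ r, ((-Z) ^ r).coeff j = if r = j then (-x) ^ j else 0 := by
      intro r
      have e : -Z = monomial 1 (-x) := by
        rw [hZ, C_mul_X_eq_monomial, ← map_neg]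
      rw [e, monomial_pow, coeff_monomial, one_mul]
      split_ifs with h
      · rw [h]
      · rfl
    simp only [this]
    rw [Finset.sum_ite_eq' (Finset.range N) j]
    simp
  rw [coeff_mul_C, hc]
  split_ifs with h
  · rw [neg_pow, mul_assoc, ← pow_succ]
    rcases Nat.even_or_odd j with h' | h'
    · rw [h'.neg_one_pow, h'.neg_one_pow, one_mul, one_mul]
    · rw [h'.neg_one_pow, h'.neg_one_pow, neg_mul, one_mul, map_neg, neg_mul, one_mul]
  · simp

theorem abs_log (hτ : ∀ u v, τ (u * v) = τ (v * u)) (hI0 : ∀ a, a ∈ I 0)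
    (hI : ∀ s s' u v, u ∈ I s → v ∈ I s' → u * v ∈ I (s + s')) (N : ℕ)
    (hN : ∀ u ∈ I (N + 1), τ u = 0) (x y : A) (hx : x ∈ I 1) (hy : y ∈ I 1) :
    ∑ r ∈ Finset.Icc 1 N, ((-1 : ℚ) ^ (r - 1) / r) * τ ((x + y + x * y) ^ r) =
      ∑ r ∈ Finset.Icc 1 N, ((-1 : ℚ) ^ (r - 1) / r) * τ (x ^ r) +
        ∑ r ∈ Finset.Icc 1 N, ((-1 : ℚ) ^ (r - 1) / r) * τ (y ^ r) := by
  set V : A[X] := C y + C (x + x * y) * X with hV
  -- the coefficient `j + 1`
  have hc : ∀ j, ∑ r ∈ Finset.range N, ((-1 : ℚ) ^ r / ((r : ℚ) + 1)) * tc τ (j + 1) (V ^ (r + 1))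
      = if j < N then (-1 : ℚ) ^ j / ((j : ℚ) + 1) * τ (x ^ (j + 1)) else 0 := by
    intro j
    have h1 : ∀ P : A[X], tc τ (j + 1) P = tc τ j (derivative P) / ((j : ℚ) + 1) := by
      intro P
      have hj : ((j : ℚ) + 1) ≠ 0 := by positivity
      rw [eq_div_iff hj]
      unfold tc
      rw [coeff_derivative]
      have : P.coeff (j + 1) * ((j : A) + 1) = (j + 1 : ℕ) • P.coeff (j + 1) := by
        rw [nsmul_eq_mul, ← Nat.cast_succ, Nat.cast_comm]
      rw [this, map_nsmul, nsmul_eq_mul]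
      push_cast
      ring
    have h2 : ∀ r : ℕ, tc τ (j + 1) (V ^ (r + 1)) =
        ((r : ℚ) + 1) * tc τ j (V ^ r * derivative V) / ((j : ℚ) + 1) := by
      intro r
      rw [h1]
      have := tc_deriv_pow τ hτ j V r 0
      simp only [pow_zero, one_mul, zero_add] at this
      rw [this]
    have h3 : ∀ r ∈ Finset.range N, ((-1 : ℚ) ^ r / ((r : ℚ) + 1)) * tc τ (j + 1) (V ^ (r + 1)) =
        tc τ j ((-V) ^ r * derivative V) / ((j : ℚ) + 1) := by
      intro r _
      have hr : ((r : ℚ) + 1) ≠ 0 := by positivity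
      have hj : ((j : ℚ) + 1) ≠ 0 := by positivity
      rw [h2]
      have h4 : tc τ j ((-V) ^ r * derivative V) = (-1) ^ r * tc τ j (V ^ r * derivative V) := by
        rcases Nat.even_or_odd r with h' | h'
        · rw [h'.neg_pow, h'.neg_one_pow, one_mul]
        · rw [h'.neg_pow, h'.neg_one_pow, neg_mul, neg_mul, one_mul]
          simp [tc]
      rw [h4]
      field_simp
    rw [Finset.sum_congr rfl h3, ← Finset.sum_div]
    have h5 : ∑ r ∈ Finset.range N, tc τ j ((-V) ^ r * derivative V) =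
        tc τ j ((∑ r ∈ Finset.range N, (-V) ^ r) * derivative V) := by
      rw [Finset.sum_mul]
      unfold tc
      rw [finsetSum_coeff, map_sum]
    rw [h5, hV, tc_geom τ I hτ hI0 hI N hN x y hx hy j]
    split_ifs
    · ring
    · simp
  -- evaluation at one
  have hev : ∀ r, r < N → τ ((x + y + x * y) ^ (r + 1)) =
      τ (y ^ (r + 1)) + ∑ j ∈ Finset.range N, tc τ (j + 1) (V ^ (r + 1)) := by
    intro r hr
    have e1 : (eval₂RingHom' (RingHom.id A) (1 : A) (fun a => Commute.one_right _)) V =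
        x + y + x * y := by
      rw [hV]
      simp [eval₂RingHom', eval₂_add, eval₂_mul_X]
      abel
    have hdeg : (V ^ (r + 1)).natDegree < N + 1 := by
      have h1 : V.natDegree ≤ 1 := by
        rw [hV]
        refine (natDegree_add_le _ _).trans ?_
        rw [max_le_iff]
        exact ⟨by simp, (natDegree_C_mul_le _ _).trans natDegree_X_le⟩
      have h2 := natDegree_pow_le (p := V) (n := r + 1)
      have h3 : (r + 1) * V.natDegree ≤ (r + 1) * 1 := Nat.mul_le_mul_left _ h1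
      omega
    have e2 : (x + y + x * y) ^ (r + 1) = ∑ j ∈ Finset.range (N + 1), (V ^ (r + 1)).coeff j := by
      rw [← e1, ← map_pow]
      show eval₂ (RingHom.id A) 1 (V ^ (r + 1)) = _
      have := eval₂_eq_sum_range' (RingHom.id A) hdeg (1 : A)
      rw [this]
      simp
    have e3 : (V ^ (r + 1)).coeff 0 = y ^ (r + 1) := by
      have : (V ^ (r + 1)).coeff 0 = (constantCoeff (V ^ (r + 1)) : A) := rfl
      rw [this, map_pow]
      congr 1
      rw [hV]
      simp
    rw [e2, map_sum, Finset.sum_range_succ', e3, add_comm]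
    rfl
  have conv : ∀ g : ℕ → ℚ, ∑ r ∈ Finset.Icc 1 N, ((-1 : ℚ) ^ (r - 1) / r) * g r =
      ∑ r ∈ Finset.range N, ((-1 : ℚ) ^ r / ((r : ℚ) + 1)) * g (r + 1) := by
    intro g
    have h := Finset.sum_Ico_add' (fun r : ℕ => ((-1 : ℚ) ^ (r - 1) / r) * g r) 0 N 1
    rw [← Finset.range_eq_Ico] at h
    have e : Finset.Icc 1 N = Finset.Ico (0 + 1) (N + 1) := by
      ext a; simp
    rw [e, ← h]
    refine Finset.sum_congr rfl fun r _ => ?_
    simp
  rw [conv (fun r => τ ((x + y + x * y) ^ r)), conv (fun r => τ (x ^ r)), conv (fun r => τ (y ^ r))]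
  have h6 : ∀ r ∈ Finset.range N, ((-1 : ℚ) ^ r / ((r : ℚ) + 1)) * τ ((x + y + x * y) ^ (r + 1)) =
      ((-1 : ℚ) ^ r / ((r : ℚ) + 1)) * τ (y ^ (r + 1)) +
        ∑ j ∈ Finset.range N, ((-1 : ℚ) ^ r / ((r : ℚ) + 1)) * tc τ (j + 1) (V ^ (r + 1)) := by
    intro r hr
    rw [hev r (Finset.mem_range.1 hr), mul_add, Finset.mul_sum]
  rw [Finset.sum_congr rfl h6, Finset.sum_add_distrib, Finset.sum_comm]
  rw [Finset.sum_congr rfl (fun j _ => hc j), add_comm]
  congr 1
  refine Finset.sum_congr rfl fun j hj => ?_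
  rw [if_pos (Finset.mem_range.1 hj)]

end Abs

end TrLogAux
end Pool.Agent.RootConj
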