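import Pool.Agent.RootConj.Fact

set_option autoImplicit false

/-!
# Root conjecture for c-vectors: transport of series along a mutation
-/

namespace Pool.Agent.RootConj

section Trans

variable {ι : Type} [Fintype ι] [DecidableEq ι]

private theorem sgn_max (a b : ℤ) :
    a.sign * max (a * b) 0 = max a 0 * max b 0 - max (-a) 0 * max (-b) 0 := by
  rcases lt_trichotomy a 0 with ha | ha | ha
  · rw [Int.sign_eq_neg_one_of_neg ha, max_eq_right ha.le, max_eq_left (by omega : (0 : ℤ) ≤ -a)]
    rcases le_or_gt b 0 with hb | hb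
    · rw [max_eq_left (mul_nonneg_of_nonpos_of_nonpos ha.le hb),
        max_eq_left (by omega : (0 : ℤ) ≤ -b)]
      ring
    · rw [max_eq_right (mul_nonpos_of_nonpos_of_nonneg ha.le hb.le),
        max_eq_right (by omega : -b ≤ (0 : ℤ))]
      ring
  · subst ha
    simp
  · rw [Int.sign_eq_one_of_pos ha, max_eq_left ha.le, max_eq_right (by omega : -a ≤ (0 : ℤ))]
    rcases le_or_gt b 0 with hb | hb
    · rw [max_eq_right (mul_nonpos_of_nonneg_of_nonpos ha.le hb), max_eq_right hb]
      ring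
    · rw [max_eq_left (mul_nonneg ha.le hb.le), max_eq_left hb.le]
      ring

private theorem max_sub (a : ℤ) : max a 0 - max (-a) 0 = a := by
  rcases le_total a 0 with h | h
  · rw [max_eq_right h, max_eq_left (by omega)]; ring
  · rw [max_eq_left h, max_eq_right (by omega)]; ring

private theorem d_max {B : ι → ι → ℤ} {d : ι → ℕ} (hB : SkewSym B d) (i k : ι) :
    (d i : ℤ) * max (B i k) 0 = d k * max (-B k i) 0 := by
  rw [mul_max_of_nonneg _ _ (Int.natCast_nonneg _), mul_max_of_nonneg _ _ (Int.natCast_nonneg _),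
    hB.skew i k]
  simp

private theorem d_max' {B : ι → ι → ℤ} {d : ι → ℕ} (hB : SkewSym B d) (i k : ι) :
    (d i : ℤ) * max (-B i k) 0 = d k * max (B k i) 0 := (d_max hB k i).symm

private theorem diag_zero {B : ι → ι → ℤ} {d : ι → ℕ} (hB : SkewSym B d) (k : ι) : B k k = 0 := by
  have h := hB.skew k k
  have hd : (0 : ℤ) < d k := by exact_mod_cast hB.pos k
  have h2 : (d k : ℤ) * B k k = 0 := by linarith
  rcases mul_eq_zero.mp h2 with h3 | h3
  · omega
  · exact h3

theorem skewSym_mutB {B : ι → ι → ℤ} {d : ι → ℕ} (hB : SkewSym B d) (k : ι) :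
    SkewSym (mutB B k) d := by
  refine ⟨hB.pos, fun i j => ?_⟩
  unfold mutB
  by_cases h : i = k ∨ j = k
  · rw [if_pos h, if_pos h.symm]
    have := hB.skew i j
    linarith
  · have h' : ¬ (j = k ∨ i = k) := fun h2 => h h2.symm
    rw [if_neg h, if_neg h', sgn_max, sgn_max]
    have h1 := hB.skew i j
    have h2 := d_max hB i k
    have h3 := d_max' hB i k
    have h4 := d_max hB j k
    have h5 := d_max' hB j k
    linear_combination h1 + max (B k j) 0 * h2 - max (-B k j) 0 * h3 + max (B k i) 0 * h4 -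
      max (-B k i) 0 * h5

omit [DecidableEq ι] in
private theorem om_smul_left (W : ι → ι → ℤ) (c : ℤ) (a b : ι → ℤ) :
    om W (c • a) b = c * om W a b := by
  simp only [om, Pi.smul_apply, smul_eq_mul, Finset.mul_sum]
  refine Finset.sum_congr rfl fun i _ => Finset.sum_congr rfl fun j _ => by ring

omit [DecidableEq ι] in
private theorem om_smul_right (W : ι → ι → ℤ) (c : ℤ) (a b : ι → ℤ) :
    om W a (c • b) = c * om W a b := by
  simp only [om, Pi.smul_apply, smul_eq_mul, Finset.mul_sum]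
  refine Finset.sum_congr rfl fun i _ => Finset.sum_congr rfl fun j _ => by ring

private theorem om_single_left (W : ι → ι → ℤ) (k : ι) (b : ι → ℤ) :
    om W (Pi.single k 1) b = ∑ j, W k j * b j := by
  unfold om
  rw [Finset.sum_eq_single k]
  · simp
  · intro i _ hi; simp [hi]
  · simp

private theorem om_single_right (W : ι → ι → ℤ) (k : ι) (a : ι → ℤ) :
    om W a (Pi.single k 1) = ∑ i, a i * W i k := by
  unfold om
  refine Finset.sum_congr rfl fun i _ => ?_
  rw [Finset.sum_eq_single k]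
  · simp
  · intro j _ hj; simp [hj]
  · simp

private theorem update_eq (m : ι → ℤ) (k : ι) (t : ℤ) :
    Function.update m k t = m + (t - m k) • Pi.single k (1 : ℤ) := by
  funext i
  by_cases h : i = k
  · subst h; simp
  · simp [h]

private theorem om_gen (W W' : ι → ι → ℤ) (k : ι) (P : ι → ℤ) (hkk : W k k = 0)
    (hW' : ∀ i j, W' i j = W i j + W i k * P j + P i * W k j
      - 2 * (if i = k then W k j else 0) - 2 * (if j = k then W i k else 0))
    (a b : ι → ℤ) :
    om W' a b = om W (Function.update a k ((∑ j, P j * a j) - a k))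
      (Function.update b k ((∑ j, P j * b j) - b k)) := by
  rw [update_eq, update_eq, om_add_left, om_add_right, om_add_right, om_smul_left, om_smul_right,
    om_smul_left, om_smul_right, om_single_left, om_single_right, om_single_left]
  have h0 : ∑ j, W k j * (Pi.single k (1 : ℤ) : ι → ℤ) j = 0 := by
    rw [Finset.sum_eq_single k]
    · simp [hkk]
    · intro j _ hj; simp [hj]
    · simp
  rw [h0]
  have h1 : om W' a b = om W a b + (∑ i, a i * W i k) * (∑ j, P j * b j)
      + (∑ i, P i * a i) * (∑ j, W k j * b j) - 2 * (a k * ∑ j, W k j * b j)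
      - 2 * ((∑ i, a i * W i k) * b k) := by
    have e1 : (∑ i, a i * W i k) * (∑ j, P j * b j)
        = ∑ i, ∑ j, (a i * W i k) * (P j * b j) := by
      rw [Finset.sum_mul_sum]
    have e2 : (∑ i, P i * a i) * (∑ j, W k j * b j)
        = ∑ i, ∑ j, (P i * a i) * (W k j * b j) := by
      rw [Finset.sum_mul_sum]
    have e3 : a k * ∑ j, W k j * b j = ∑ i, ∑ j, a i * (if i = k then W k j else 0) * b j := by
      symm
      rw [Finset.sum_eq_single k]
      · rw [Finset.mul_sum]
        refine Finset.sum_congr rfl fun j _ => by simp; ring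
      · intro i _ hi; simp [hi]
      · simp
    have e4 : (∑ i, a i * W i k) * b k
        = ∑ i, ∑ j, a i * (if j = k then W i k else 0) * b j := by
      rw [Finset.sum_mul]
      refine Finset.sum_congr rfl fun i _ => ?_
      rw [Finset.sum_eq_single k]
      · simp
      · intro j _ hj; simp [hj]
      · simp
    rw [e1, e2, e3, e4]
    simp only [om]
    simp only [Finset.mul_sum, ← Finset.sum_add_distrib, ← Finset.sum_sub_distrib]
    refine Finset.sum_congr rfl fun i _ => Finset.sum_congr rfl fun j _ => ?_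
    rw [hW' i j]
    ring
  rw [h1]
  ring

private theorem WB_mut {B : ι → ι → ℤ} {d : ι → ℕ} (hB : SkewSym B d) (k i j : ι) :
    WB (mutB B k) d i j = WB B d i j + WB B d i k * max (B k j) 0 + max (B k i) 0 * WB B d k j
      - 2 * (if i = k then WB B d k j else 0) - 2 * (if j = k then WB B d i k else 0) := by
  have hkk := diag_zero hB k
  unfold WB mutB
  by_cases hi : i = k
  · subst hi
    by_cases hj : j = i
    · subst hj
      simp [hkk]
    · simp [hkk, hj]; ring
  · by_cases hj : j = k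
    · subst hj
      simp [hkk, hi]; ring
    · simp only [hi, hj, or_self, if_false]
      rw [sgn_max]
      have h3 := d_max' hB i k
      have h4 := max_sub (B i k)
      have h5 := max_sub (B k j)
      linear_combination ((d i : ℤ) * max (B k j) 0) * (h4) + (B k j) * h3
        + ((d i : ℤ) * (-max (-B i k) 0)) * (-h5)

private theorem WB_mut' {B : ι → ι → ℤ} {d : ι → ℕ} (hB : SkewSym B d) (k i j : ι) :
    WB (mutB B k) d i j = WB B d i j + WB B d i k * max (-B k j) 0 + max (-B k i) 0 * WB B d k j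
      - 2 * (if i = k then WB B d k j else 0) - 2 * (if j = k then WB B d i k else 0) := by
  have hkk := diag_zero hB k
  unfold WB mutB
  by_cases hi : i = k
  · subst hi
    by_cases hj : j = i
    · subst hj
      simp [hkk]
    · simp [hkk, hj]; ring
  · by_cases hj : j = k
    · subst hj
      simp [hkk, hi]; ring
    · simp only [hi, hj, or_self, if_false]
      rw [sgn_max]
      have h3 := d_max hB i k
      have h4 := max_sub (B i k)
      have h5 := max_sub (B k j)
      linear_combination (d i : ℤ) * max (-B k j) 0 * h4 + (B k j) * h3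
        + ((d i : ℤ) * (max (B i k) 0)) * (h5)

theorem om_zL {B : ι → ι → ℤ} {d : ι → ℕ} (hB : SkewSym B d) (k : ι) (a b : ι → ℤ) :
    om (WB (mutB B k) d) a b = om (WB B d) (zL B k a) (zL B k b) := by
  refine om_gen (WB B d) _ k (fun j => max (B k j) 0) ?_ (fun i j => WB_mut hB k i j) a b
  simp [WB, diag_zero hB k]

theorem om_zR {B : ι → ι → ℤ} {d : ι → ℕ} (hB : SkewSym B d) (k : ι) (a b : ι → ℤ) :
    om (WB (mutB B k) d) a b = om (WB B d) (zR B k a) (zR B k b) := by
  refine om_gen (WB B d) _ k (fun j => max (-B k j) 0) ?_ (fun i j => WB_mut' hB k i j) a b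
  simp [WB, diag_zero hB k]

/-! ### A generic transport -/

/-- `∑ P_j n_j`. -/
def gb (P : ι → ℕ) (n : ι → ℕ) : ℕ := ∑ j, P j * n j

/-- The change of coordinates `n_k ↦ gb P n - n_k`. -/
def gflip (P : ι → ℕ) (k : ι) (n : ι → ℕ) : ι → ℕ := Function.update n k (gb P n - n k)

/-- Generic transport of series. -/
def gtr {W W' : ι → ι → ℤ} (P : ι → ℕ) (k : ι) (f : T W) : T W' :=
  fun n => if n k ≤ gb P n then f (gflip P k n) else 0

/-- The linear change of coordinates behind `gflip`. -/
def gz (P : ι → ℕ) (k : ι) (m : ι → ℤ) : ι → ℤ :=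
  Function.update m k ((∑ j, (P j : ℤ) * m j) - m k)

omit [DecidableEq ι] in
private theorem gb_add (P : ι → ℕ) (a b : ι → ℕ) : gb P (a + b) = gb P a + gb P b := by
  simp only [gb, Pi.add_apply, mul_add, Finset.sum_add_distrib]

omit [DecidableEq ι] in
private theorem gb_zero (P : ι → ℕ) : gb P 0 = 0 := by simp [gb]

private theorem gb_flip (P : ι → ℕ) (k : ι) (hk : P k = 0) (n : ι → ℕ) :
    gb P (gflip P k n) = gb P n := by
  unfold gb
  refine Finset.sum_congr rfl fun j _ => ?_
  by_cases h : j = k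
  · subst h; simp [hk]
  · simp [gflip, h]

private theorem flip_k (P : ι → ℕ) (k : ι) (n : ι → ℕ) : gflip P k n k = gb P n - n k := by
  simp [gflip]

private theorem flip_mem (P : ι → ℕ) (k : ι) (hk : P k = 0) (n : ι → ℕ) :
    gflip P k n k ≤ gb P (gflip P k n) := by
  rw [gb_flip P k hk, flip_k]; omega

private theorem flip_flip (P : ι → ℕ) (k : ι) (hk : P k = 0) (n : ι → ℕ) (hn : n k ≤ gb P n) :
    gflip P k (gflip P k n) = n := by
  funext i
  by_cases h : i = k
  · subst h
    rw [flip_k, gb_flip P i hk, flip_k]; omega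
  · simp [gflip, h]

private theorem flip_add (P : ι → ℕ) (k : ι) (a b : ι → ℕ) (ha : a k ≤ gb P a)
    (hb : b k ≤ gb P b) : gflip P k (a + b) = gflip P k a + gflip P k b := by
  funext i
  by_cases h : i = k
  · subst h
    rw [Pi.add_apply, flip_k, flip_k, flip_k, gb_add, Pi.add_apply]; omega
  · simp [gflip, h]

private theorem flip_zero (P : ι → ℕ) (k : ι) : gflip P k 0 = 0 := by
  funext i
  by_cases h : i = k
  · subst h
    rw [flip_k, gb_zero]; simp
  · simp [gflip, h]

private theorem toZ_flip (P : ι → ℕ) (k : ι) (n : ι → ℕ) (hn : n k ≤ gb P n) :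
    toZ (gflip P k n) = gz P k (toZ n) := by
  funext i
  by_cases h : i = k
  · subst h
    simp only [toZ, gz, Function.update_self]
    rw [flip_k, Nat.cast_sub hn]
    simp [gb]
  · simp [gflip, gz, toZ, h]

private theorem gtr_mul {W W' : ι → ι → ℤ} (P : ι → ℕ) (k : ι) (hk : P k = 0)
    (hW : ∀ a b, om W' a b = om W (gz P k a) (gz P k b)) (f h : T W)
    (hf : ∀ n, f n ≠ 0 → n k ≤ gb P n) (hh : ∀ n, h n ≠ 0 → n k ≤ gb P n) :
    (gtr P k (f * h) : T W') = gtr P k f * gtr P k h := by
  ext n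
  show (if n k ≤ gb P n then (f * h) (gflip P k n) else 0) = _
  rw [T.mul_apply']
  split_ifs with hn
  · rw [T.mul_apply']
    symm
    have key : ∀ p : (ι → ℕ) × (ι → ℕ),
        (2 : ℚ) ^ (om W' (toZ p.1) (toZ p.2)) * ((gtr P k f : T W') p.1 * (gtr P k h : T W') p.2)
          ≠ 0 → p.1 k ≤ gb P p.1 ∧ p.2 k ≤ gb P p.2 := by
      intro p hp
      have h1 : (gtr P k f : T W') p.1 ≠ 0 := fun h0 => hp (by rw [h0]; ring)
      have h2 : (gtr P k h : T W') p.2 ≠ 0 := fun h0 => hp (by rw [h0]; ring)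
      constructor
      · by_contra hc
        exact h1 (if_neg hc)
      · by_contra hc
        exact h2 (if_neg hc)
    refine Finset.sum_bij_ne_zero (fun p _ _ => (gflip P k p.1, gflip P k p.2)) ?_ ?_ ?_ ?_
    · intro p hp hne
      obtain ⟨h1, h2⟩ := key p hne
      simp only [Finset.mem_filter, Finset.mem_product, Finset.mem_Iic] at hp ⊢
      have e : gflip P k p.1 + gflip P k p.2 = gflip P k n := by
        rw [← flip_add P k _ _ h1 h2, hp.2]
      exact ⟨⟨e ▸ le_self_add, e ▸ le_add_self⟩, e⟩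
    · intro p hp hne q hq hne' he
      obtain ⟨h1, h2⟩ := key p hne
      obtain ⟨h3, h4⟩ := key q hne'
      have e1 := congrArg Prod.fst he
      have e2 := congrArg Prod.snd he
      simp only at e1 e2
      refine Prod.ext ?_ ?_
      · rw [← flip_flip P k hk _ h1, e1, flip_flip P k hk _ h3]
      · rw [← flip_flip P k hk _ h2, e2, flip_flip P k hk _ h4]
    · intro q hq hne
      have h1 : f q.1 ≠ 0 := fun h0 => hne (by rw [h0]; ring)
      have h2 : h q.2 ≠ 0 := fun h0 => hne (by rw [h0]; ring)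
      have h1' := hf _ h1
      have h2' := hh _ h2
      have f1 := flip_mem P k hk q.1
      have f2 := flip_mem P k hk q.2
      have g1 := flip_flip P k hk _ h1'
      have g2 := flip_flip P k hk _ h2'
      simp only [Finset.mem_filter, Finset.mem_product, Finset.mem_Iic] at hq
      refine ⟨(gflip P k q.1, gflip P k q.2), ?_, ?_, ?_⟩
      · simp only [Finset.mem_filter, Finset.mem_product, Finset.mem_Iic]
        have e : gflip P k q.1 + gflip P k q.2 = n := by
          rw [← flip_add P k _ _ h1' h2', hq.2, flip_flip P k hk _ hn]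
        exact ⟨⟨e ▸ le_self_add, e ▸ le_add_self⟩, e⟩
      · refine mul_ne_zero (zpow_ne_zero _ (by norm_num)) (mul_ne_zero ?_ ?_)
        · show (if _ then _ else _) ≠ (0 : ℚ)
          rw [if_pos f1, g1]; exact h1
        · show (if _ then _ else _) ≠ (0 : ℚ)
          rw [if_pos f2, g2]; exact h2
      · simp only [g1, g2]
    · intro p hp hne
      obtain ⟨h1, h2⟩ := key p hne
      simp only
      have e1 : (gtr P k f : T W') p.1 = f (gflip P k p.1) := if_pos h1
      have e2 : (gtr P k h : T W') p.2 = h (gflip P k p.2) := if_pos h2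
      rw [e1, e2, hW, toZ_flip P k _ h1, toZ_flip P k _ h2]
  · symm
    rw [T.mul_apply']
    refine Finset.sum_eq_zero fun p hp => ?_
    simp only [Finset.mem_filter, Finset.mem_product, Finset.mem_Iic] at hp
    by_cases h1 : p.1 k ≤ gb P p.1
    · by_cases h2 : p.2 k ≤ gb P p.2
      · exfalso
        apply hn
        rw [← hp.2, gb_add, Pi.add_apply]
        omega
      · have e2 : (gtr P k h : T W') p.2 = 0 := if_neg h2
        rw [e2]; ring
    · have e1 : (gtr P k f : T W') p.1 = 0 := if_neg h1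
      rw [e1]; ring

/-- The submonoid `n_k ≤ gb P n`. -/
def gM (P : ι → ℕ) (k : ι) : AddSubmonoid (ι → ℕ) where
  carrier := {n | n k ≤ gb P n}
  zero_mem' := by simp
  add_mem' := by
    intro a b ha hb
    change a k ≤ gb P a at ha
    change b k ≤ gb P b at hb
    change (a + b) k ≤ gb P (a + b)
    rw [gb_add, Pi.add_apply]; omega

private theorem gzp_tr {Λ : Type} [AddCommGroup Λ] [LinearOrder Λ] [IsOrderedAddMonoid Λ]
    {W W' : ι → ι → ℤ} (P : ι → ℕ) (k : ι) (hk : P k = 0)
    (hW : ∀ a b, om W' a b = om W (gz P k a) (gz P k b)) (zz : (ι → ℤ) →+ (ι → ℤ))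
    (hzz : ∀ m, zz m = gz P k m) (x : (ι → ℤ) →+ Λ) (f : T W)
    (h0 : f 0 = 1) (hf : ∀ n, f n ≠ 0 → n k ≤ gb P n) :
    zp (x.comp zz) (gtr P k f : T W') = gtr P k (zp x f) := by
  obtain ⟨p, z, m, hfact, hp, hz, hm⟩ := exists_fact_supp x f h0 (gM P k) hf
  rw [zp_eq x hfact]
  have tr0 : ∀ g : T W, g 0 = 1 → (gtr P k g : T W') 0 = 1 := by
    intro g hg
    show (if _ then _ else _) = (1 : ℚ)
    rw [if_pos (by simp), flip_zero, hg]
  have trn : ∀ (g : T W) (n : ι → ℕ), (gtr P k g : T W') n ≠ 0 →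
      n k ≤ gb P n ∧ g (gflip P k n) ≠ 0 := by
    intro g n hn
    change (if _ then _ else _) ≠ (0 : ℚ) at hn
    by_cases h : n k ≤ gb P n
    · rw [if_pos h] at hn; exact ⟨h, hn⟩
    · rw [if_neg h] at hn; exact absurd rfl hn
  have xn : ∀ n : ι → ℕ, n k ≤ gb P n → (x.comp zz) (toZ n) = x (toZ (gflip P k n)) := by
    intro n hn
    rw [toZ_flip P k n hn]
    simp [hzz]
  have fn : ∀ n : ι → ℕ, n k ≤ gb P n → n ≠ 0 → gflip P k n ≠ 0 := by
    intro n hn h0 h1
    apply h0
    rw [← flip_flip P k hk n hn, h1, flip_zero]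
  refine zp_eq (p := gtr P k p) (m := gtr P k m) _ ?_
  · refine ⟨⟨tr0 p hfact.pos.1, ?_⟩, ⟨tr0 z hfact.zer.1, ?_⟩, ⟨tr0 m hfact.neg.1, ?_⟩, ?_⟩
    · intro n hn h1
      obtain ⟨h2, h3⟩ := trn p n h1
      rw [xn n h2]
      exact hfact.pos.2 _ (fn n h2 hn) h3
    · intro n h1
      obtain ⟨h2, h3⟩ := trn z n h1
      rw [xn n h2]
      exact hfact.zer.2 _ h3
    · intro n hn h1
      obtain ⟨h2, h3⟩ := trn m n h1
      rw [xn n h2]
      exact hfact.neg.2 _ (fn n h2 hn) h3
    · rw [hfact.eq, gtr_mul P k hk hW (p * z) m ?_ hm, gtr_mul P k hk hW p z hp hz]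
      intro n hn
      rw [T.mul_apply'] at hn
      obtain ⟨q, hq, hq2⟩ := Finset.exists_ne_zero_of_sum_ne_zero hn
      simp only [Finset.mem_filter, Finset.mem_product, Finset.mem_Iic] at hq
      have h1 : p q.1 ≠ 0 := fun h0 => hq2 (by rw [h0]; ring)
      have h2 : z q.2 ≠ 0 := fun h0 => hq2 (by rw [h0]; ring)
      rw [← hq.2]
      exact (gM P k).add_mem (hp _ h1) (hz _ h2)

private theorem gzL (B : ι → ι → ℤ) (k : ι) (m : ι → ℤ) :
    zL B k m = gz (fun j => (B k j).toNat) k m := by
  show Function.update m k ((∑ j, max (B k j) 0 * m j) - m k) = _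
  unfold gz
  simp

private theorem gzR (B : ι → ι → ℤ) (k : ι) (m : ι → ℤ) :
    zR B k m = gz (fun j => (-B k j).toNat) k m := by
  show Function.update m k ((∑ j, max (-B k j) 0 * m j) - m k) = _
  unfold gz
  simp

theorem trL_mul {B : ι → ι → ℤ} {d : ι → ℕ} (hB : SkewSym B d) (k : ι) (f h : T (WB B d))
    (hf : ∀ n, f n ≠ 0 → n k ≤ bL B k n) (hh : ∀ n, h n ≠ 0 → n k ≤ bL B k n) :
    trL B d k (f * h) = trL B d k f * trL B d k h := by
  refine gtr_mul (fun j => (B k j).toNat) k (by simp [diag_zero hB k]) ?_ f h hf hh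
  intro a b
  rw [om_zL hB, gzL, gzL]

theorem trR_mul {B : ι → ι → ℤ} {d : ι → ℕ} (hB : SkewSym B d) (k : ι) (f h : T (WB B d))
    (hf : ∀ n, f n ≠ 0 → n k ≤ bR B k n) (hh : ∀ n, h n ≠ 0 → n k ≤ bR B k n) :
    trR B d k (f * h) = trR B d k f * trR B d k h := by
  refine gtr_mul (fun j => (-B k j).toNat) k (by simp [diag_zero hB k]) ?_ f h hf hh
  intro a b
  rw [om_zR hB, gzR, gzR]

theorem zp_trL {Λ : Type} [AddCommGroup Λ] [LinearOrder Λ] [IsOrderedAddMonoid Λ]
    {B : ι → ι → ℤ} {d : ι → ℕ} (hB : SkewSym B d) (k : ι) (x : (ι → ℤ) →+ Λ) (f : T (WB B d))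
    (h0 : f 0 = 1) (hf : ∀ n, f n ≠ 0 → n k ≤ bL B k n) :
    zp (x.comp (zL B k)) (trL B d k f) = trL B d k (zp x f) := by
  refine gzp_tr (fun j => (B k j).toNat) k (by simp [diag_zero hB k]) ?_ (zL B k) (gzL B k) x f
    h0 hf
  intro a b
  rw [om_zL hB, gzL, gzL]

theorem zp_trR {Λ : Type} [AddCommGroup Λ] [LinearOrder Λ] [IsOrderedAddMonoid Λ]
    {B : ι → ι → ℤ} {d : ι → ℕ} (hB : SkewSym B d) (k : ι) (x : (ι → ℤ) →+ Λ) (f : T (WB B d))
    (h0 : f 0 = 1) (hf : ∀ n, f n ≠ 0 → n k ≤ bR B k n) :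
    zp (x.comp (zR B k)) (trR B d k f) = trR B d k (zp x f) := by
  refine gzp_tr (fun j => (-B k j).toNat) k (by simp [diag_zero hB k]) ?_ (zR B k) (gzR B k) x f
    h0 hf
  intro a b
  rw [om_zR hB, gzR, gzR]

end Trans

end Pool.Agent.RootConj
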